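import Pool.Agent.MP_94f265_co.MM1.RunE
import Pool.Agent.MP_94f265_co.MM1.Geom2

namespace Pool.Agent.MM1

theorem AreaI_units (F : Fam) (A : Finset ℕ) : area (F.units A) = ∑ n ∈ A, F.x n * F.y n := by
  unfold area Fam.units
  rw [Multiset.map_map]
  rfl

theorem AreaI_mid (F : Fam) (i k : ℕ) (s m : St) (hm : Mid F k i s m) :
    area (F.free i m) + ∑ n ∈ F.done i m.E, F.x n * F.y n =
      area (F.free i s) + ∑ n ∈ F.done i s.E, F.x n * F.y n := by
  by_cases hi : i = k ^ 3
  · have hE := hm.1 hi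
    subst hi
    have h1 := hE.hcut.1
    rw [area_add, AreaI_units] at h1
    have h2 : F.done (k ^ 3) m.E = F.done (k ^ 3) s.E ∪ (m.E \ s.E) := by
      ext n
      rw [Finset.mem_union, F.mem_done, F.mem_done, Finset.mem_sdiff]
      have := @hE.hEs n
      tauto
    have h3 : Disjoint (F.done (k ^ 3) s.E) (m.E \ s.E) := by
      rw [Finset.disjoint_left]
      intro n hn hn'
      have h4 := ph_slots F (hE.hEk hn')
      rw [F.mem_done] at hn
      rw [Finset.mem_sdiff] at hn'
      rcases hn with hn | hn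
      · omega
      · exact hn'.2 hn
    rw [h2, Finset.sum_union h3, h1]
    ring
  · rw [hm.2 hi]

theorem AreaI_reg (F : Fam) (k i : ℕ) (s t : St) (hr : RegStep F k i s t) :
    area (F.free (i + 1) t) + ∑ n ∈ F.done (i + 1) t.E, F.x n * F.y n =
      area (F.free i s) + ∑ n ∈ F.done i s.E, F.x n * F.y n := by
  have h1 := hr.hcut.1
  rw [area_add, AreaI_units] at h1
  have h2 : F.done (i + 1) t.E = F.done i s.E ∪ (F.P i \ s.E) := by
    ext n
    rw [Finset.mem_union, F.mem_done, F.mem_done, Finset.mem_sdiff, F.mem_P, hr.hE]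
    constructor
    · rintro (⟨h3, h4⟩ | h3)
      · rcases Nat.lt_succ_iff_lt_or_eq.1 h4 with h5 | h5
        · exact Or.inl (Or.inl ⟨h3, h5⟩)
        · by_cases h6 : n ∈ s.E
          · exact Or.inl (Or.inr h6)
          · exact Or.inr ⟨⟨h3, h5⟩, h6⟩
      · exact Or.inl (Or.inr h3)
    · rintro ((⟨h3, h4⟩ | h3) | ⟨⟨h3, h4⟩, h5⟩)
      · exact Or.inl ⟨h3, by omega⟩
      · exact Or.inr h3
      · exact Or.inl ⟨h3, by omega⟩
  have h3 : Disjoint (F.done i s.E) (F.P i \ s.E) := by
    rw [Finset.disjoint_left]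
    intro n hn hn'
    rw [F.mem_done] at hn
    rw [Finset.mem_sdiff, F.mem_P] at hn'
    rcases hn with hn | hn
    · omega
    · exact hn'.2 hn
  rw [h2, Finset.sum_union h3, h1]
  ring

/-- AREA IDENTITY.
PROOF: induction on `i` from `k0^3` (`free = {(a,b)}`: `Z = 0`, `done (k0^3) ∅ = ∅` by `Fam.k0_le_ph`).  Step: the area parts of `EndsStep.hcut`,
`RegStep.hcut` (`area_add`, `area (F.units A) = Σ_{n ∈ A} x n y n`) and
`done (k^3) m.E = done (k^3) s.E ∪ (m.E \ s.E)` (disjoint: `slots k` has `ph ≥ k^3`),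
`done (i+1) t.E = done i m.E ∪ (P i \ m.E)` (disjoint). -/
theorem area_id (F : Fam) (f : ℕ → St) (i : ℕ) (hf : Run F f i) (hi : F.k0 ^ 3 ≤ i) :
    area (F.free i (f i)) + ∑ n ∈ F.done i (f i).E, F.x n * F.y n = F.a * F.b := by
  induction i, hi using Nat.le_induction with
  | base =>
    rw [hf.1]
    have h1 : F.done (F.k0 ^ 3) (init F).E = ∅ := by
      rw [Finset.eq_empty_iff_forall_notMem]
      intro n hn
      rw [F.mem_done] at hn
      rcases hn with ⟨h2, h3⟩ | h2
      · have := F.k0_le_ph h2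
        omega
      · simp [init] at h2
    rw [h1, Finset.sum_empty, add_zero]
    unfold Fam.free
    rw [h1]
    simp [init, area, Fam.sliv]
  | succ i hi ih =>
    have h1 : Run F f i := ⟨hf.1, fun j hj hj' => hf.2 j hj (by omega)⟩
    obtain ⟨k, m, hk1, hk2, hm, hr⟩ := hf.2 i hi (Nat.lt_succ_self i)
    rw [AreaI_reg F k i m _ hr, AreaI_mid F i k _ m hm]
    exact ih h1

theorem area_id_mid (F : Fam) (f : ℕ → St) (i k : ℕ) (m : St) (hf : Run F f i)
    (hi : F.k0 ^ 3 ≤ i) (hm : Mid F k i (f i) m) :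
    area (F.free i m) + ∑ n ∈ F.done i m.E, F.x n * F.y n = F.a * F.b := by
  rw [AreaI_mid F i k _ m hm]
  exact area_id F f i hf hi

/-- Area of the free rectangles written out. -/
theorem area_free (F : Fam) (i : ℕ) (s : St) :
    area (F.free i s) = s.X * s.Y + areaZ s.Z +
      ∑ n ∈ (F.done i s.E).filter (fun n => s.w n - F.x n < Tp i),
        (s.w n - F.x n) * F.y n := by
  unfold Fam.free
  rw [area_add, area_add]
  congr 1
  · congr 1
    · simp [area]
    · unfold area areaZ
      rw [Multiset.map_map]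
      rfl
  · unfold area Fam.sliv
    rw [Multiset.map_map]
    rfl

end Pool.Agent.MM1
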