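import Pool.Agent.MP_94f265_co.MM1.RunZ

namespace Pool.Agent.MM1

theorem Bal1_mid (F : Fam) (κ : ℕ) (hκ : NumEp κ) (j : ℕ) (s m : St) (hm : Mid F κ j s m) :
    areaZ m.Z + ((m.E.card : ℝ) - s.E.card) / ((κ : ℝ) + 1) ^ 24 ≤ areaZ s.Z ∧ s.E ⊆ m.E ∧
      Multiset.card m.Z = Multiset.card s.Z := by
  by_cases hj : j = κ ^ 3
  · have hE := hm.1 hj
    refine ⟨?_, hE.hEs, ?_⟩
    · rw [← hE.hareaZ]
      have h1 : ((m.E.card : ℝ) - s.E.card) = ((m.E \ s.E).card : ℝ) := by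
        rw [Finset.card_sdiff_of_subset hE.hEs, Nat.cast_sub (Finset.card_le_card hE.hEs)]
      have h2 : ∀ n ∈ m.E \ s.E, 1 / ((κ : ℝ) + 1) ^ 24 ≤ m.w n * F.y n := by
        intro n hn
        have h3 := hE.hEk hn
        rw [F.mem_slots] at h3
        have h4 := (F.xy_slots h3.1 (le_trans (by norm_num) hκ.hk) h3.2.1 h3.2.2.1).2.1
        have h5 : 1 / ((κ : ℝ) + 1) ^ 12 ≤ m.w n := hκ.e7.trans (hE.hrange n hn).1
        have h6 : 0 ≤ 1 / ((κ : ℝ) + 1) ^ 12 := by positivity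
        calc 1 / ((κ : ℝ) + 1) ^ 24 = 1 / ((κ : ℝ) + 1) ^ 12 * (1 / ((κ : ℝ) + 1) ^ 12) := by
              rw [div_mul_div_comm, ← pow_add, one_mul]
          _ ≤ m.w n * F.y n := mul_le_mul h5 h4 h6 (h6.trans h5)
      have h3 := Finset.card_nsmul_le_sum (m.E \ s.E) (fun n => m.w n * F.y n) _ h2
      rw [nsmul_eq_mul] at h3
      rw [h1, div_eq_mul_one_div]
      linarith
    · obtain ⟨Zk, Zi, Ze, h1, h2, h3, -, -⟩ := hE.hZ
      rw [h1, h2, Multiset.card_add, Multiset.card_add, h3]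
  · rw [hm.2 hj]
    simp

theorem Bal1_reg (F : Fam) (κ : ℕ) (hκ : NumEp κ) (j : ℕ) (s t : St) (hr : RegStep F κ j s t) :
    areaZ t.Z ≤ areaZ s.Z + 4 * ((Multiset.card t.Z : ℝ) - Multiset.card s.Z) / (κ : ℝ) ^ 24 ∧
      Multiset.card s.Z ≤ Multiset.card t.Z := by
  obtain ⟨Zn, h1, h2, -⟩ := hr.hZ
  have hk : (100000 : ℝ) ≤ κ := by exact_mod_cast hκ.hk
  have h3 : areaZ Zn ≤ (Multiset.card Zn : ℝ) * (4 / (κ : ℝ) ^ 24) := by
    have h4 : ∀ z ∈ Zn, z.1 * z.2.1 ≤ 4 / (κ : ℝ) ^ 24 := by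
      intro z hz
      obtain ⟨-, a1, a2, a3, a4⟩ := h2 z hz
      have e1 : del κ ≤ 1 / (κ : ℝ) ^ 12 := by
        unfold del
        refine one_div_le_one_div_of_le (by positivity) ?_
        exact pow_le_pow_right₀ (by linarith) (by norm_num)
      have e2 : 0 < del κ := by unfold del; positivity
      have e3 : z.1 ≤ 2 / (κ : ℝ) ^ 12 := by
        have : 2 / (κ : ℝ) ^ 12 = 1 / (κ : ℝ) ^ 12 + 1 / (κ : ℝ) ^ 12 := by ring
        linarith
      have e4 : 0 ≤ 2 / (κ : ℝ) ^ 12 := by positivity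
      calc z.1 * z.2.1 ≤ 2 / (κ : ℝ) ^ 12 * (2 / (κ : ℝ) ^ 12) :=
            mul_le_mul e3 a4 (le_trans (by positivity) a3) e4
        _ = 4 / (κ : ℝ) ^ 24 := by
            rw [div_mul_div_comm, ← pow_add]
            norm_num
    have h5 := Multiset.sum_le_card_nsmul (Zn.map (fun z => z.1 * z.2.1)) (4 / (κ : ℝ) ^ 24) (by
      intro x hx
      rw [Multiset.mem_map] at hx
      obtain ⟨z, hz, rfl⟩ := hx
      exact h4 z hz)
    rw [Multiset.card_map, nsmul_eq_mul] at h5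
    exact h5
  rw [h1, Multiset.card_add]
  refine ⟨?_, Nat.le_add_right _ _⟩
  have h6 : areaZ (s.Z + Zn) = areaZ s.Z + areaZ Zn := by
    unfold areaZ
    rw [Multiset.map_add, Multiset.sum_add]
  rw [h6]
  push_cast
  have h7 : 4 * ((Multiset.card s.Z : ℝ) + Multiset.card Zn - Multiset.card s.Z) / (κ : ℝ) ^ 24 =
    (Multiset.card Zn : ℝ) * (4 / (κ : ℝ) ^ 24) := by ring
  rw [h7]
  linarith

/-- Area balance of the irregular rectangles in super-epoch `κ`.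
PROOF: induction on `i` from `κ^3 + 1`.  First step (`i = κ^3`): `EndsStep.hareaZ`: `areaZ m.Z + Σ_{n ∈ Eκ} w n y n = areaZ (f (κ^3)).Z` with
`Eκ = m.E \ (f (κ^3)).E`, `w n * y n ≥ 1/(κ+1)^24` (`EndsStep.hrange`, `NumEp.e7`, `Fam.xy_slots`, `Fam.mem_slots`), and
`(Eκ).card = m.E.card - (f (κ^3)).E.card` (`EndsStep.hEs`).  Regular steps add `Zn` with `Zgood κ`:
each has area `≤ (1/κ^12 + del κ) · 2/κ^12 ≤ 4/κ^24`, `E` does not change, and the cardinality of `Z` grows by `card Zn`;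
the ends phase does not change `card Z`.  (In `Step` the super-epoch is determined.) -/
theorem area_balance_aux (F : Fam) (hK : ∀ k, F.k0 ≤ k → NumEp k) (f : ℕ → St) (κ i : ℕ)
    (hκ : F.k0 ≤ κ) (h1 : κ ^ 3 < i) (h2 : i ≤ (κ + 1) ^ 3) (hf : Run F f i) :
    areaZ (f i).Z + (((f i).E.card : ℝ) - (f (κ ^ 3)).E.card) / ((κ : ℝ) + 1) ^ 24 ≤
      areaZ (f (κ ^ 3)).Z +
        4 * ((Multiset.card (f i).Z : ℝ) - Multiset.card (f (κ ^ 3)).Z) / (κ : ℝ) ^ 24 ∧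
    (f (κ ^ 3)).E ⊆ (f i).E ∧
    Multiset.card (f (κ ^ 3)).Z ≤ Multiset.card (f i).Z := by
  have h1' : κ ^ 3 ≤ i := h1.le
  clear h1
  induction i, h1' using Nat.le_induction with
  | base => simp
  | succ i hi ih =>
    have hf' : Run F f i := ⟨hf.1, fun j hj hj' => hf.2 j hj (by omega)⟩
    obtain ⟨i1, i2, i3⟩ := ih (by omega) hf'
    have hk0 : F.k0 ^ 3 ≤ κ ^ 3 := Nat.pow_le_pow_left hκ 3
    obtain ⟨k, m, hk1, hk2, hm, hr⟩ := hf.2 i (hk0.trans hi) (Nat.lt_succ_self i)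
    have hkk : k = κ := by
      have a1 : k < κ + 1 := lt_of_pow_lt_pow_left₀ 3 (Nat.zero_le _) (lt_of_le_of_lt hk1 (by omega))
      have a2 : κ < k + 1 := lt_of_pow_lt_pow_left₀ 3 (Nat.zero_le _) (lt_of_le_of_lt hi hk2)
      omega
    subst hkk
    obtain ⟨m1, m2, m3⟩ := Bal1_mid F k (hK k hκ) i _ m hm
    obtain ⟨r1, r2⟩ := Bal1_reg F k (hK k hκ) i m _ hr
    have hEE := hr.hE
    refine ⟨?_, ?_, ?_⟩
    · rw [hEE]
      rw [m3] at r1
      have e1 : (((m.E.card : ℝ)) - (f (k ^ 3)).E.card) / ((k : ℝ) + 1) ^ 24 =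
          ((m.E.card : ℝ) - (f i).E.card) / ((k : ℝ) + 1) ^ 24 +
          (((f i).E.card : ℝ) - (f (k ^ 3)).E.card) / ((k : ℝ) + 1) ^ 24 := by ring
      have e2 : 4 * ((Multiset.card (f (i + 1)).Z : ℝ) - Multiset.card (f (k ^ 3)).Z) / (k : ℝ) ^ 24 =
          4 * ((Multiset.card (f (i + 1)).Z : ℝ) - Multiset.card (f i).Z) / (k : ℝ) ^ 24 +
          4 * ((Multiset.card (f i).Z : ℝ) - Multiset.card (f (k ^ 3)).Z) / (k : ℝ) ^ 24 := by ring
      rw [e1, e2]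
      linarith
    · rw [hEE]
      exact i2.trans m2
    · rw [m3] at r2
      exact i3.trans r2

end Pool.Agent.MM1
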