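import Pool.Agent.MP_94f265_co.MM1.Bal1

namespace Pool.Agent.MM1

theorem Bal2_div {a x y : ℝ} (ha : 0 ≤ a) (hx : 0 < x) (hxy : x ≤ y) : a / y ≤ a / x := by
  rw [div_le_div_iff₀ (lt_of_lt_of_le hx hxy) hx]
  exact mul_le_mul_of_nonneg_left hxy ha

theorem Bal2_aux (F : Fam) (hK : ∀ k, F.k0 ≤ k → NumEp k) (f : ℕ → St) (h k : ℕ)
    (hh : F.k0 ≤ h) (hhk : h ≤ k) : Run F f (k ^ 3) →
    areaZ (f (k ^ 3)).Z + (((f (k ^ 3)).E.card : ℝ) - (f (h ^ 3)).E.card) / (k : ℝ) ^ 24 ≤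
      areaZ (f (h ^ 3)).Z +
        4 * ((Multiset.card (f (k ^ 3)).Z : ℝ) - Multiset.card (f (h ^ 3)).Z) / (h : ℝ) ^ 24 ∧
    (f (h ^ 3)).E ⊆ (f (k ^ 3)).E ∧
    Multiset.card (f (h ^ 3)).Z ≤ Multiset.card (f (k ^ 3)).Z := by
  induction k, hhk using Nat.le_induction with
  | base =>
    intro _
    refine ⟨?_, subset_rfl, le_rfl⟩
    rw [sub_self, sub_self]
    simp
  | succ k hk ih =>
    intro hf
    have hpow : k ^ 3 < (k + 1) ^ 3 := Nat.pow_lt_pow_left (Nat.lt_succ_self k) (by norm_num)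
    have hf' : Run F f (k ^ 3) := ⟨hf.1, fun j h1 h2 => hf.2 j h1 (h2.trans hpow)⟩
    obtain ⟨ih1, ih2, ih3⟩ := ih hf'
    obtain ⟨a1, a2, a3⟩ := area_balance_aux F hK f k ((k + 1) ^ 3) (hh.trans hk) hpow le_rfl hf
    refine ⟨?_, ih2.trans a2, ih3.trans a3⟩
    have hhpos : (0 : ℝ) < h := by
      have := (hK h hh).hk
      exact_mod_cast (show 0 < h by omega)
    have hhk' : (h : ℝ) ≤ k := by exact_mod_cast hk
    have hkpos : (0 : ℝ) < k := lt_of_lt_of_le hhpos hhk'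
    have hU : ((f (h ^ 3)).E.card : ℝ) ≤ (f (k ^ 3)).E.card := by
      exact_mod_cast Finset.card_le_card ih2
    have hC : (Multiset.card (f (k ^ 3)).Z : ℝ) ≤ Multiset.card (f ((k + 1) ^ 3)).Z := by
      exact_mod_cast a3
    have e1 := Bal2_div (sub_nonneg.2 hU) (pow_pos hkpos 24)
      (pow_le_pow_left₀ hkpos.le (show (k : ℝ) ≤ (k : ℝ) + 1 by linarith) 24)
    have e2 := Bal2_div (mul_nonneg (by norm_num : (0 : ℝ) ≤ 4) (sub_nonneg.2 hC))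
      (pow_pos hhpos 24) (pow_le_pow_left₀ hhpos.le hhk' 24)
    have e3 : (((f ((k + 1) ^ 3)).E.card : ℝ) - (f (h ^ 3)).E.card) / ((k : ℝ) + 1) ^ 24 =
        (((f ((k + 1) ^ 3)).E.card : ℝ) - (f (k ^ 3)).E.card) / ((k : ℝ) + 1) ^ 24 +
        (((f (k ^ 3)).E.card : ℝ) - (f (h ^ 3)).E.card) / ((k : ℝ) + 1) ^ 24 := by
      rw [← add_div]
      congr 1
      ring
    have e4 : 4 * ((Multiset.card (f ((k + 1) ^ 3)).Z : ℝ) - Multiset.card (f (h ^ 3)).Z) /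
        (h : ℝ) ^ 24 =
        4 * ((Multiset.card (f ((k + 1) ^ 3)).Z : ℝ) - Multiset.card (f (k ^ 3)).Z) /
          (h : ℝ) ^ 24 +
        4 * ((Multiset.card (f (k ^ 3)).Z : ℝ) - Multiset.card (f (h ^ 3)).Z) /
          (h : ℝ) ^ 24 := by
      rw [← add_div]
      congr 1
      ring
    rw [Nat.cast_add, Nat.cast_one, e3, e4]
    linarith

/-- Summed over the super-epochs `h ≤ κ < k`.
PROOF: induction on `k` from `h` with `area_balance_aux` for `κ = k`, `i = (k+1)^3`.  Write `a κ = areaZ`, `U κ = card E`,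
`c κ = card Z` at `f (κ^3)`.  Claim: `a k + (U k - U h)/k^24 ≤ a h + 4 (c k - c h)/h^24`.  Step: `(U (k+1) - U k)/(k+1)^24 +
(U k - U h)/(k+1)^24 ≤ (U (k+1) - U k)/(k+1)^24 + (U k - U h)/k^24` and `4 (c (k+1) - c k)/k^24 ≤ 4 (c (k+1) - c k)/h^24`
(`U`, `c` monotone). -/
theorem area_balance (F : Fam) (hK : ∀ k, F.k0 ≤ k → NumEp k) (f : ℕ → St) (h k : ℕ)
    (hh : F.k0 ≤ h) (hhk : h ≤ k) (hf : Run F f (k ^ 3)) :
    areaZ (f (k ^ 3)).Z + (((f (k ^ 3)).E.card : ℝ) - (f (h ^ 3)).E.card) / (k : ℝ) ^ 24 ≤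
      areaZ (f (h ^ 3)).Z +
        4 * ((Multiset.card (f (k ^ 3)).Z : ℝ) - Multiset.card (f (h ^ 3)).Z) / (h : ℝ) ^ 24 := by
  exact (Bal2_aux F hK f h k hh hhk hf).1

end Pool.Agent.MM1
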