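import Pool.Agent.MP_94f265_co.MM1.Defs

namespace Pool.Agent.MM1

theorem blk_spec (n : ℕ) : blk n ^ 4 ≤ n ∧ n < (blk n + 1) ^ 4 := by
  have h1 : Nat.sqrt n * Nat.sqrt n ≤ n := Nat.sqrt_le n
  have h2 : n < (Nat.sqrt n + 1) * (Nat.sqrt n + 1) := Nat.lt_succ_sqrt n
  have h3 : blk n * blk n ≤ Nat.sqrt n := Nat.sqrt_le _
  have h4 : Nat.sqrt n < (blk n + 1) * (blk n + 1) := Nat.lt_succ_sqrt _
  constructor
  · calc blk n ^ 4 = (blk n * blk n) * (blk n * blk n) := by ring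
      _ ≤ Nat.sqrt n * Nat.sqrt n := Nat.mul_le_mul h3 h3
      _ ≤ n := h1
  · calc n < (Nat.sqrt n + 1) * (Nat.sqrt n + 1) := h2
      _ ≤ ((blk n + 1) * (blk n + 1)) * ((blk n + 1) * (blk n + 1)) :=
          Nat.mul_le_mul h4 h4
      _ = (blk n + 1) ^ 4 := by ring

theorem le_blk_iff (i n : ℕ) : i ≤ blk n ↔ i ^ 4 ≤ n := by
  constructor
  · intro h
    exact (Nat.pow_le_pow_left h 4).trans (blk_spec n).1
  · intro h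
    by_contra hlt
    push Not at hlt
    have h1 : (blk n + 1) ^ 4 ≤ i ^ 4 := Nat.pow_le_pow_left hlt 4
    exact absurd (h1.trans h) (not_le.2 (blk_spec n).2)

theorem blk_mono {m n : ℕ} (h : m ≤ n) : blk m ≤ blk n := by
  rw [le_blk_iff]; exact (blk_spec m).1.trans h

theorem blk_lt_iff (i n : ℕ) : blk n < i ↔ n < i ^ 4 := by
  rw [← not_le, ← not_le, le_blk_iff]

theorem ph_le_blk (n : ℕ) : ph n ≤ blk n := Nat.sub_le _ _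

theorem blk_le_ph (n : ℕ) : blk n ≤ ph n + 31 := by
  unfold ph
  have : n % 32 < 32 := Nat.mod_lt _ (by norm_num)
  omega

theorem le_of_ph {n i : ℕ} (h : ph n = i) : i ^ 4 ≤ n := by
  rw [← le_blk_iff, ← h]; exact ph_le_blk n

theorem pow_ph_le (n : ℕ) : ph n ^ 4 ≤ n := le_of_ph rfl

theorem lt_of_ph (n : ℕ) : n < (ph n + 32) ^ 4 := by
  rw [← blk_lt_iff]; have := blk_le_ph n; omega

theorem ph_of_dvd {n : ℕ} (h : 64 ∣ n) : ph n = blk n := by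
  unfold ph
  have : n % 32 = 0 := by omega
  simp [this]

theorem Fam.mem_P (F : Fam) {i n : ℕ} : n ∈ F.P i ↔ F.n0 ≤ n ∧ ph n = i := by
  unfold Fam.P
  rw [Finset.mem_filter, Finset.mem_Ico]
  constructor
  · rintro ⟨⟨h1, _⟩, h2⟩; exact ⟨h1, h2⟩
  · rintro ⟨h1, h2⟩; exact ⟨⟨h1, h2 ▸ lt_of_ph n⟩, h2⟩

theorem Fam.mem_done (F : Fam) {i n : ℕ} {E : Finset ℕ} :
    n ∈ F.done i E ↔ (F.n0 ≤ n ∧ ph n < i) ∨ n ∈ E := by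
  unfold Fam.done
  rw [Finset.mem_union, Finset.mem_filter, Finset.mem_Ico]
  constructor
  · rintro (⟨⟨h1, _⟩, h2⟩ | h)
    · exact Or.inl ⟨h1, h2⟩
    · exact Or.inr h
  · rintro (⟨h1, h2⟩ | h)
    · refine Or.inl ⟨⟨h1, (lt_of_ph n).trans_le (Nat.pow_le_pow_left (by omega) 4)⟩, h2⟩
    · exact Or.inr h

theorem Fam.mem_slots (F : Fam) {k n : ℕ} :
    n ∈ F.slots k ↔ F.n0 ≤ n ∧ k ^ 12 ≤ n ∧ n < (k + 1) ^ 12 ∧ 64 ∣ n := by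
  unfold Fam.slots
  rw [Finset.mem_filter, Finset.mem_Ico, max_le_iff]
  tauto

theorem Fam.mem_cls (F : Fam) {i n : ℕ} {w : ℕ → ℝ} {D : Finset ℕ} :
    n ∈ F.cls i w D ↔ n ∈ D ∧ Th i ≤ w n - F.x n ∧ w n - F.x n < Tp i := by
  unfold Fam.cls; rw [Finset.mem_filter]

theorem Tp_succ (i : ℕ) : Tp (i + 1) = Th i := by
  unfold Tp Th; push_cast; ring_nf

/-- slots of super-epoch `k` lie in the blocks `[k^3, (k+1)^3)` -/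
theorem ph_slots (F : Fam) {k n : ℕ} (h : n ∈ F.slots k) : k ^ 3 ≤ ph n ∧ ph n < (k + 1) ^ 3 := by
  rw [F.mem_slots] at h
  obtain ⟨_, h1, h2, h3⟩ := h
  rw [ph_of_dvd h3, le_blk_iff, blk_lt_iff]
  constructor
  · calc (k ^ 3) ^ 4 = k ^ 12 := by ring
      _ ≤ n := h1
  · calc n < (k + 1) ^ 12 := h2
      _ = ((k + 1) ^ 3) ^ 4 := by ring

theorem Fam.n0_ge (F : Fam) : (F.k0 ^ 3 + 32) ^ 4 ≤ F.n0 := by
  rw [← le_blk_iff]; exact F.hk0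

theorem Fam.n0_lt (F : Fam) : F.n0 < ((F.k0 + 1) ^ 3 + 32) ^ 4 := by
  rw [← blk_lt_iff]; exact F.hk1

theorem Fam.k0_le_ph (F : Fam) {n : ℕ} (h : F.n0 ≤ n) : F.k0 ^ 3 + 1 ≤ ph n := by
  have h1 := blk_mono h
  have h2 := blk_le_ph n
  have h3 := F.hk0
  omega

theorem Fam.n_pos (F : Fam) {n : ℕ} (h : F.n0 ≤ n) : 0 < n := by
  have h1 := F.n0_ge
  have : 0 < (F.k0 ^ 3 + 32) ^ 4 := by positivity
  omega

theorem Fam.x_pos (F : Fam) {n : ℕ} (h : F.n0 ≤ n) : 0 < F.x n :=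
  lt_of_lt_of_le (by positivity) (F.hx n h).1

theorem Fam.y_pos (F : Fam) {n : ℕ} (h : F.n0 ≤ n) : 0 < F.y n :=
  lt_of_lt_of_le (by positivity) (F.hy n h).1

/-- `1/(i+32)^4 ≤ x n, y n ≤ 1/i^4` in phase `i ≥ 1` -/
theorem Fam.xy_phase (F : Fam) {n i : ℕ} (h : F.n0 ≤ n) (hi : ph n = i) :
    (1 / ((i : ℝ) + 32) ^ 4 ≤ F.x n ∧ F.x n ≤ 1 / (i : ℝ) ^ 4) ∧
      (1 / ((i : ℝ) + 32) ^ 4 ≤ F.y n ∧ F.y n ≤ 1 / (i : ℝ) ^ 4) := by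
  have h1 : ((i : ℝ)) ^ 4 ≤ n := by exact_mod_cast le_of_ph hi
  have h2 : (n : ℝ) + 1 ≤ ((i : ℝ) + 32) ^ 4 := by
    have := lt_of_ph n
    rw [hi] at this
    exact_mod_cast this
  have hi0 : 0 < (i : ℝ) ^ 4 := by
    have h3 := F.k0_le_ph h
    rw [hi] at h3
    have : 0 < i := by omega
    positivity
  have hx := F.hx n h
  have hy := F.hy n h
  have e1 : 1 / ((i : ℝ) + 32) ^ 4 ≤ 1 / ((n : ℝ) + 1) :=
    one_div_le_one_div_of_le (by positivity) h2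
  have e2 : 1 / (n : ℝ) ≤ 1 / (i : ℝ) ^ 4 := one_div_le_one_div_of_le hi0 h1
  exact ⟨⟨e1.trans hx.1, hx.2.trans e2⟩, ⟨e1.trans hy.1, hy.2.trans e2⟩⟩

/-- bounds in the super-epoch `k ≥ 1` -/
theorem Fam.xy_slots (F : Fam) {n k : ℕ} (h : F.n0 ≤ n) (hk : 1 ≤ k) (h1 : k ^ 12 ≤ n)
    (h2 : n < (k + 1) ^ 12) :
    (1 / ((k : ℝ) + 1) ^ 12 ≤ F.x n ∧ F.x n ≤ 1 / (k : ℝ) ^ 12) ∧
      (1 / ((k : ℝ) + 1) ^ 12 ≤ F.y n ∧ F.y n ≤ 1 / (k : ℝ) ^ 12) := by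
  have h1 : ((k : ℝ)) ^ 12 ≤ n := by exact_mod_cast h1
  have h2 : (n : ℝ) + 1 ≤ ((k : ℝ) + 1) ^ 12 := by exact_mod_cast h2
  have hi0 : 0 < (k : ℝ) ^ 12 := by positivity
  have hx := F.hx n h
  have hy := F.hy n h
  have e1 : 1 / ((k : ℝ) + 1) ^ 12 ≤ 1 / ((n : ℝ) + 1) :=
    one_div_le_one_div_of_le (by positivity) h2
  have e2 : 1 / (n : ℝ) ≤ 1 / (k : ℝ) ^ 12 := one_div_le_one_div_of_le hi0 h1
  exact ⟨⟨e1.trans hx.1, hx.2.trans e2⟩, ⟨e1.trans hy.1, hy.2.trans e2⟩⟩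

end Pool.Agent.MM1
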