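import Pool.Agent.MP_94f265_co.MM1.NumDef

namespace Pool.Agent.MM1

/-- All largeness hypotheses on `k0`. -/
structure Big (F : Fam) : Prop where
  hR : ∀ j, F.k0 ^ 3 ≤ j → NumReg j
  hK : ∀ k, F.k0 ≤ k → NumEp k
  hC : ∀ i : ℕ, F.k0 ^ 3 ≤ i → ∀ κ : ℕ, (κ : ℝ) ^ 13 ≤ 26 * (i : ℝ) ^ 4 →
      (κ + 1) ^ 3 < i ∧
      51 * (i : ℝ) ^ ((16 : ℝ) / 5) + 2 ^ 24 * 85 * ((κ : ℝ) + 1) ^ ((51 : ℝ) / 5) +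
        (i : ℝ) ^ 3 ≤ (i : ℝ) ^ ((10 : ℝ) / 3)
  hD : ∀ k : ℕ, F.k0 ≤ k → 100000 ≤ (k : ℝ) ^ ((9 : ℝ) / 5)
  hG : ∀ k : ℕ, F.k0 ≤ k → 40 / (k : ℝ) ^ ((9 : ℝ) / 5) * ((k : ℝ) + 1) ^ 12 <
      11 * (k : ℝ) ^ 11 / 64 - 1

end Pool.Agent.MM1
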