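import Pool.Agent.MP_94f265_co.MM1.NumDef

namespace Pool.Agent.MM1

theorem numa_A (u : ℝ) (hu : 100000 ≤ u) : 0 < (u - 1) ^ 4 - 1 := by
  obtain ⟨v, hv, rfl⟩ : ∃ v : ℝ, 0 ≤ v ∧ u = 100000 + v := ⟨u - 100000, by linarith, by ring⟩
  ring_nf
  positivity

theorem numa_B (u : ℝ) (hu : 100000 ≤ u) : 0 < u ^ 4 - 1 := by
  obtain ⟨v, hv, rfl⟩ : ∃ v : ℝ, 0 ≤ v ∧ u = 100000 + v := ⟨u - 100000, by linarith, by ring⟩
  ring_nf
  positivity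

theorem numa_h1 (u : ℝ) (hu : 100000 ≤ u) :
    1 / ((u - 1) ^ 4 - 1) - 1 / (u + 32) ^ 4 ≤ 133 / u ^ 5 := by
  have hA := numa_A u hu
  have h0 : 0 < u := by linarith
  rw [div_sub_div _ _ (ne_of_gt hA) (by positivity), div_le_div_iff₀ (by positivity) (by positivity),
    ← sub_nonneg]
  obtain ⟨v, hv, rfl⟩ : ∃ v : ℝ, 0 ≤ v ∧ u = 100000 + v := ⟨u - 100000, by linarith, by ring⟩
  ring_nf
  positivity

theorem numa_h2 (u : ℝ) (hu : 100000 ≤ u) :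
    1 / ((u - 1) ^ 4 - 1) - 1 / (u ^ 4 - 1) ≤ (101 / 25) / u ^ 5 := by
  have hA := numa_A u hu
  have hB := numa_B u hu
  have h0 : 0 < u := by linarith
  rw [div_sub_div _ _ (ne_of_gt hA) (ne_of_gt hB), div_le_div_iff₀ (by positivity) (by positivity),
    ← sub_nonneg]
  obtain ⟨v, hv, rfl⟩ : ∃ v : ℝ, 0 ≤ v ∧ u = 100000 + v := ⟨u - 100000, by linarith, by ring⟩
  ring_nf
  positivity

theorem numa_h3 (u : ℝ) (hu : 100000 ≤ u) : 1 / u ^ 4 < 1 / (u ^ 4 - 1) := by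
  have hB := numa_B u hu
  exact one_div_lt_one_div_of_lt hB (by linarith)

theorem numa_h3' (u : ℝ) (hu : 100000 ≤ u) : 1 / u ^ 8 ≤ 1 / (u ^ 4 - 1) - 1 / u ^ 4 := by
  have hB := numa_B u hu
  have h0 : 0 < u := by linarith
  rw [div_sub_div _ _ (ne_of_gt hB) (by positivity), div_le_div_iff₀ (by positivity) (by positivity),
    ← sub_nonneg]
  have e : (1 * u ^ 4 - (u ^ 4 - 1) * 1) * u ^ 8 - 1 * ((u ^ 4 - 1) * u ^ 4) = u ^ 4 := by ring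
  rw [e]
  positivity

theorem numa_h4 (u : ℝ) (hu : 100000 ≤ u) : 1 / (u ^ 4 - 1) < 1 / ((u - 1) ^ 4 - 1) := by
  have hA := numa_A u hu
  refine one_div_lt_one_div_of_lt hA ?_
  rw [← sub_pos]
  obtain ⟨v, hv, rfl⟩ : ∃ v : ℝ, 0 ≤ v ∧ u = 100000 + v := ⟨u - 100000, by linarith, by ring⟩
  ring_nf
  positivity

theorem numa_h5 (u : ℝ) (hu : 100000 ≤ u) : 1 / ((u - 1) ^ 4 - 1) ≤ (101 / 100) / u ^ 4 := by
  have hA := numa_A u hu
  have h0 : 0 < u := by linarith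
  rw [div_le_div_iff₀ hA (by positivity), ← sub_nonneg]
  obtain ⟨v, hv, rfl⟩ : ∃ v : ℝ, 0 ≤ v ∧ u = 100000 + v := ⟨u - 100000, by linarith, by ring⟩
  ring_nf
  positivity

theorem numa_h6 (u : ℝ) (hu : 100000 ≤ u) : 133 / u ^ 5 < 1 / (u ^ 4 - 1) := by
  have hB := numa_B u hu
  have h0 : 0 < u := by linarith
  rw [div_lt_div_iff₀ (by positivity) hB, ← sub_pos]
  obtain ⟨v, hv, rfl⟩ : ∃ v : ℝ, 0 ≤ v ∧ u = 100000 + v := ⟨u - 100000, by linarith, by ring⟩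
  ring_nf
  positivity

theorem numa_h7 (u : ℝ) (hu : 100000 ≤ u) : (u + 32) ^ 8 ≤ (101 / 100) * u ^ 8 := by
  rw [← sub_nonneg]
  obtain ⟨v, hv, rfl⟩ : ∃ v : ℝ, 0 ≤ v ∧ u = 100000 + v := ⟨u - 100000, by linarith, by ring⟩
  ring_nf
  positivity

theorem numa_h8 (u : ℝ) (hu : 100000 ≤ u) : (u + 33) ^ 4 + 1 ≤ (101 / 100) * u ^ 4 := by
  rw [← sub_nonneg]
  obtain ⟨v, hv, rfl⟩ : ∃ v : ℝ, 0 ≤ v ∧ u = 100000 + v := ⟨u - 100000, by linarith, by ring⟩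
  ring_nf
  positivity

theorem numa_h9 (u : ℝ) (hu : 100000 ≤ u) : (u + 1) ^ 5 ≤ (101 / 100) * u ^ 5 := by
  rw [← sub_nonneg]
  obtain ⟨v, hv, rfl⟩ : ∃ v : ℝ, 0 ≤ v ∧ u = 100000 + v := ⟨u - 100000, by linarith, by ring⟩
  ring_nf
  positivity

theorem numa_h10 (u : ℝ) (hu : 100000 ≤ u) : (u + 32) ^ 4 - u ^ 4 ≤ 129 * u ^ 3 := by
  rw [← sub_nonneg]
  obtain ⟨v, hv, rfl⟩ : ∃ v : ℝ, 0 ≤ v ∧ u = 100000 + v := ⟨u - 100000, by linarith, by ring⟩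
  ring_nf
  positivity

/-- PROOF: every item separately.  `h1`: with `u = i`, `Tp i = 1/((u-1)^4-1)`; `u^5 * (Tp i - 1/(u+32)^4) → 132`.
Either by limits (`Filter.Tendsto`, `Filter.Eventually.exists`), or by clearing denominators and
writing `u = 10^6 + v`, `v ≥ 0` (all coefficients of the resulting polynomial in `v` are positive:
`ring_nf; positivity`).  `h2`: `Tp i - Th i = (u^4 - (u-1)^4)/(((u-1)^4-1)(u^4-1))`, `u^5 * this → 4`.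
`h3, h3'`: `Th i - 1/u^4 = 1/(u^4 (u^4-1))`.  `h7`: `(1+32/u)^8 → 1`.  The others are similar. -/
theorem exists_numReg : ∃ K : ℕ, ∀ i : ℕ, K ≤ i → NumReg i := by
  refine ⟨100000, fun i hi => ?_⟩
  have hu : (100000 : ℝ) ≤ (i : ℝ) := by exact_mod_cast hi
  exact
    { hi := hi
      h1 := numa_h1 _ hu
      h2 := numa_h2 _ hu
      h3 := numa_h3 _ hu
      h3' := numa_h3' _ hu
      h4 := numa_h4 _ hu
      h5 := numa_h5 _ hu
      h6 := numa_h6 _ hu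
      h7 := numa_h7 _ hu
      h8 := numa_h8 _ hu
      h9 := numa_h9 _ hu
      h10 := numa_h10 _ hu }

end Pool.Agent.MM1
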