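import Pool.Agent.MP_94f265_co.MM1.NumDef

namespace Pool.Agent.MM1

theorem numb_A (u : ℝ) (hu : 100000 ≤ u) : 0 < (u - 1) ^ 12 - 1 := by
  obtain ⟨v, hv, rfl⟩ : ∃ v : ℝ, 0 ≤ v ∧ u = 100000 + v := ⟨u - 100000, by linarith, by ring⟩
  ring_nf
  positivity

theorem numb_B (u : ℝ) (hu : 100000 ≤ u) : 0 < u ^ 12 - 1 := by
  obtain ⟨v, hv, rfl⟩ : ∃ v : ℝ, 0 ≤ v ∧ u = 100000 + v := ⟨u - 100000, by linarith, by ring⟩
  ring_nf
  positivity

theorem numb_e1a (u : ℝ) (hu : 100000 ≤ u) :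
    1 / ((u - 1) ^ 12 - 1) - 1 / (u + 1) ^ 12 ≤ (49 / 2) / u ^ 13 := by
  have hA := numb_A u hu
  have h0 : 0 < u := by linarith
  rw [div_sub_div _ _ (ne_of_gt hA) (by positivity), div_le_div_iff₀ (by positivity) (by positivity),
    ← sub_nonneg]
  obtain ⟨v, hv, rfl⟩ : ∃ v : ℝ, 0 ≤ v ∧ u = 100000 + v := ⟨u - 100000, by linarith, by ring⟩
  ring_nf
  positivity

theorem numb_e1b (u : ℝ) (hu : 100000 ≤ u) :
    1 / (u - 1) ^ 13 ≤ (3 / 2) / u ^ 13 := by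
  have h0 : 0 < u := by linarith
  have h1 : 0 < u - 1 := by linarith
  rw [div_le_div_iff₀ (by positivity) (by positivity), ← sub_nonneg]
  obtain ⟨v, hv, rfl⟩ : ∃ v : ℝ, 0 ≤ v ∧ u = 100000 + v := ⟨u - 100000, by linarith, by ring⟩
  ring_nf
  positivity

theorem numb_e1 (u : ℝ) (hu : 100000 ≤ u) :
    1 / ((u - 1) ^ 12 - 1) + 1 / (u - 1) ^ 13 - 1 / (u + 1) ^ 12 ≤ 26 / u ^ 13 := by
  have h1 := numb_e1a u hu
  have h2 := numb_e1b u hu
  have e : 26 / u ^ 13 = (49 / 2) / u ^ 13 + (3 / 2) / u ^ 13 := by ring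
  rw [e]
  linarith

theorem numb_e2 (u : ℝ) (hu : 100000 ≤ u) : (u + 1) ^ 24 ≤ (101 / 100) * u ^ 24 := by
  rw [← sub_nonneg]
  obtain ⟨v, hv, rfl⟩ : ∃ v : ℝ, 0 ≤ v ∧ u = 100000 + v := ⟨u - 100000, by linarith, by ring⟩
  ring_nf
  positivity

theorem numb_e3 (u : ℝ) (hu : 100000 ≤ u) : 26 / u ^ 13 < 1 / (u ^ 12 - 1) := by
  have hB := numb_B u hu
  have h0 : 0 < u := by linarith
  rw [div_lt_div_iff₀ (by positivity) hB, ← sub_pos]
  obtain ⟨v, hv, rfl⟩ : ∃ v : ℝ, 0 ≤ v ∧ u = 100000 + v := ⟨u - 100000, by linarith, by ring⟩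
  ring_nf
  positivity

theorem numb_e3' (u : ℝ) (hu : 100000 ≤ u) : 1 / u ^ 24 ≤ 1 / (u ^ 12 - 1) - 1 / u ^ 12 := by
  have hB := numb_B u hu
  have h0 : 0 < u := by linarith
  rw [div_sub_div _ _ (ne_of_gt hB) (by positivity), div_le_div_iff₀ (by positivity) (by positivity),
    ← sub_nonneg]
  have e : (1 * u ^ 12 - (u ^ 12 - 1) * 1) * u ^ 24 - 1 * ((u ^ 12 - 1) * u ^ 12) = u ^ 12 := by
    ring
  rw [e]
  positivity

theorem numb_e4a (u : ℝ) (hu : 100000 ≤ u) : 1 / ((u - 1) ^ 12 - 1) ≤ (3 / 2) / u ^ 12 := by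
  have hA := numb_A u hu
  have h0 : 0 < u := by linarith
  rw [div_le_div_iff₀ hA (by positivity), ← sub_nonneg]
  obtain ⟨v, hv, rfl⟩ : ∃ v : ℝ, 0 ≤ v ∧ u = 100000 + v := ⟨u - 100000, by linarith, by ring⟩
  ring_nf
  positivity

theorem numb_e4 (u : ℝ) (hu : 100000 ≤ u) :
    1 / ((u - 1) ^ 12 - 1) + 1 / (u - 1) ^ 13 ≤ 2 / u ^ 12 := by
  have h0 : 0 < u := by linarith
  have h1 := numb_e4a u hu
  have h2 := numb_e1b u hu
  have h3 : (3 / 2) / u ^ 13 ≤ (1 / 2) / u ^ 12 := by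
    rw [div_le_div_iff₀ (by positivity) (by positivity)]
    have h4 : 0 < u ^ 12 := by positivity
    have e : u ^ 13 = u * u ^ 12 := by ring
    rw [e]
    nlinarith
  have e : 2 / u ^ 12 = (3 / 2) / u ^ 12 + (1 / 2) / u ^ 12 := by ring
  rw [e]
  linarith

theorem numb_e7 (u : ℝ) (hu : 100000 ≤ u) : 1 / (u + 1) ^ 12 ≤ 1 / (u ^ 12 - 1) := by
  have hB := numb_B u hu
  have h0 : 0 ≤ u := by linarith
  refine one_div_le_one_div_of_le hB ?_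
  have : u ^ 12 ≤ (u + 1) ^ 12 := pow_le_pow_left₀ h0 (by linarith) 12
  linarith

theorem numb_e8 (u : ℝ) (hu : 100000 ≤ u) : 1 / (u ^ 12 - 1) ≤ 1 / ((u - 1) ^ 12 - 1) := by
  have hA := numb_A u hu
  refine one_div_le_one_div_of_le hA ?_
  have : (u - 1) ^ 12 ≤ u ^ 12 := pow_le_pow_left₀ (by linarith) (by linarith) 12
  linarith

theorem numb_e9 (u : ℝ) (hu : 100000 ≤ u) : (u + 1) ^ 13 ≤ (101 / 100) * u ^ 13 := by
  rw [← sub_nonneg]
  obtain ⟨v, hv, rfl⟩ : ∃ v : ℝ, 0 ≤ v ∧ u = 100000 + v := ⟨u - 100000, by linarith, by ring⟩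
  ring_nf
  positivity

theorem numb_e10 (u : ℝ) (hu : 100000 ≤ u) :
    ((u + 1) ^ 3 + 33) ^ 4 + 1 ≤ (101 / 100) * u ^ 12 := by
  rw [← sub_nonneg]
  obtain ⟨v, hv, rfl⟩ : ∃ v : ℝ, 0 ≤ v ∧ u = 100000 + v := ⟨u - 100000, by linarith, by ring⟩
  ring_nf
  positivity

theorem numb_e11 (u : ℝ) (hu : 100000 ≤ u) : 12 * u ^ 11 ≤ (u + 1) ^ 12 - u ^ 12 := by
  rw [← sub_nonneg]
  obtain ⟨v, hv, rfl⟩ : ∃ v : ℝ, 0 ≤ v ∧ u = 100000 + v := ⟨u - 100000, by linarith, by ring⟩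
  ring_nf
  positivity

theorem numb_e12 (u : ℝ) (hu : 100000 ≤ u) : 2 * u ^ 12 ≤ u ^ 13 := by
  have h0 : 0 < u := by linarith
  have h4 : 0 < u ^ 12 := by positivity
  have e : u ^ 13 = u * u ^ 12 := by ring
  rw [e]
  nlinarith

/-- PROOF: as for `exists_numReg`.  `Th (k^3) = 1/(k^12 - 1)`, `wmax (k+1) = 1/(k^12-1) + 1/k^13`.
`e1`: `k^13 * (wmax k - 1/(k+1)^12) → 25`. -/
theorem exists_numEp : ∃ K : ℕ, ∀ k : ℕ, K ≤ k → NumEp k := by
  refine ⟨100000, fun k hk => ?_⟩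
  have hu : (100000 : ℝ) ≤ (k : ℝ) := by exact_mod_cast hk
  have hTh : Th (k ^ 3) = 1 / ((k : ℝ) ^ 12 - 1) := by
    unfold Th; push_cast; ring_nf
  have hW : wmax (k + 1) = 1 / ((k : ℝ) ^ 12 - 1) + 1 / (k : ℝ) ^ 13 := by
    unfold wmax; push_cast; rw [add_sub_cancel_right]
  have h0 : (0 : ℝ) < (k : ℝ) := by linarith
  have hm : (0 : ℝ) < (k : ℝ) - 1 := by linarith
  have hB := numb_B _ hu
  exact
    { hk := hk
      e1 := numb_e1 _ hu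
      e2 := numb_e2 _ hu
      e3 := by rw [hTh]; exact numb_e3 _ hu
      e3' := by rw [hTh]; exact numb_e3' _ hu
      e4 := numb_e4 _ hu
      e5 := by
        rw [hW]
        unfold del
        have h : 1 / (k : ℝ) ^ 12 ≤ 1 / ((k : ℝ) ^ 12 - 1) :=
          one_div_le_one_div_of_le hB (by linarith)
        linarith
      e6 := by
        rw [hW, hTh]
        have h : 0 < 1 / (k : ℝ) ^ 13 := by positivity
        linarith
      e7 := by rw [hTh]; exact numb_e7 _ hu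
      e8 := by
        rw [hTh]
        unfold wmax
        have h : 0 < 1 / ((k : ℝ) - 1) ^ 13 := by positivity
        have := numb_e8 _ hu
        linarith
      e9 := numb_e9 _ hu
      e10 := numb_e10 _ hu
      e11 := numb_e11 _ hu
      e12 := numb_e12 _ hu }

end Pool.Agent.MM1
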