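import Pool.Agent.MP_94f265_co.MM1.Basic

namespace Pool.Agent.MM1

/-- PROOF: `κ^13 ≤ 26 i^4` gives `κ ≤ 26^(1/13) i^(4/13)`, `(κ+1) ≤ 2 i^(4/13)` for large `i`; `(4/13)(51/5) = 204/65 < 3.14 < 10/3`,
`16/5 < 10/3`, `3 < 10/3`, `12/13 < 1`. -/
theorem exists_numCard : ∃ K : ℕ, ∀ i : ℕ, K ≤ i → ∀ κ : ℕ, (κ : ℝ) ^ 13 ≤ 26 * (i : ℝ) ^ 4 →
    (κ + 1) ^ 3 < i ∧
    51 * (i : ℝ) ^ ((16 : ℝ) / 5) + 2 ^ 24 * 85 * ((κ : ℝ) + 1) ^ ((51 : ℝ) / 5) + (i : ℝ) ^ 3 ≤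
      (i : ℝ) ^ ((10 : ℝ) / 3) := by
  set C : ℝ := 2 ^ 24 * 85 * (3 : ℝ) ^ ((51 : ℝ) / 5) with hC
  have hC0 : 0 < C := by positivity
  have t1 : Filter.Tendsto (fun i : ℕ => ((i : ℝ)) ^ ((1 : ℝ) / 13)) Filter.atTop Filter.atTop :=
    (tendsto_rpow_atTop (by norm_num)).comp tendsto_natCast_atTop_atTop
  have t2 : Filter.Tendsto (fun i : ℕ => ((i : ℝ)) ^ ((2 : ℝ) / 15)) Filter.atTop Filter.atTop :=
    (tendsto_rpow_atTop (by norm_num)).comp tendsto_natCast_atTop_atTop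
  obtain ⟨K1, hK1⟩ := Filter.eventually_atTop.1 (t1.eventually_ge_atTop 28)
  obtain ⟨K2, hK2⟩ := Filter.eventually_atTop.1 (t2.eventually_ge_atTop (52 + C))
  refine ⟨max 1 (max K1 K2), fun i hi κ hκ => ?_⟩
  have hi1 : (1 : ℝ) ≤ i := by
    have : 1 ≤ i := (le_max_left _ _).trans hi
    exact_mod_cast this
  have hi0 : (0 : ℝ) < i := by linarith
  have a1 := hK1 i ((le_max_left _ _).trans ((le_max_right _ _).trans hi))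
  have a2 := hK2 i ((le_max_right _ _).trans ((le_max_right _ _).trans hi))
  set u : ℝ := (i : ℝ) ^ ((4 : ℝ) / 13) with hu
  have hu1 : 1 ≤ u := Real.one_le_rpow hi1 (by norm_num)
  have hu13 : u ^ 13 = (i : ℝ) ^ 4 := by
    rw [hu, ← Real.rpow_natCast, ← Real.rpow_mul hi0.le]
    norm_num
  have hk2 : (κ : ℝ) ≤ 2 * u := by
    by_contra hlt
    push Not at hlt
    have h1 : (2 * u) ^ 13 < (κ : ℝ) ^ 13 := pow_lt_pow_left₀ hlt (by positivity) (by norm_num)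
    rw [mul_pow, hu13] at h1
    have h2 : (0 : ℝ) < (i : ℝ) ^ 4 := by positivity
    nlinarith
  have hk3 : (κ : ℝ) + 1 ≤ 3 * u := by linarith
  have hk0 : (0 : ℝ) ≤ (κ : ℝ) + 1 := by positivity
  constructor
  · have h1 : ((κ : ℝ) + 1) ^ 3 ≤ 27 * u ^ 3 := by
      calc ((κ : ℝ) + 1) ^ 3 ≤ (3 * u) ^ 3 := pow_le_pow_left₀ hk0 hk3 3
        _ = 27 * u ^ 3 := by ring
    have h2 : u ^ 3 * (i : ℝ) ^ ((1 : ℝ) / 13) = i := by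
      rw [hu, ← Real.rpow_natCast, ← Real.rpow_mul hi0.le, ← Real.rpow_add hi0]
      norm_num
    have h3 : 0 < u ^ 3 := by positivity
    have h4 : ((κ : ℝ) + 1) ^ 3 < i := by nlinarith
    exact_mod_cast h4
  · have b1 : (i : ℝ) ^ ((16 : ℝ) / 5) * (i : ℝ) ^ ((2 : ℝ) / 15) = (i : ℝ) ^ ((10 : ℝ) / 3) := by
      rw [← Real.rpow_add hi0]; norm_num
    have b2 : (i : ℝ) ^ 3 ≤ (i : ℝ) ^ ((16 : ℝ) / 5) := by
      rw [← Real.rpow_natCast]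
      exact Real.rpow_le_rpow_of_exponent_le hi1 (by norm_num)
    have b3 : ((κ : ℝ) + 1) ^ ((51 : ℝ) / 5) ≤ (3 : ℝ) ^ ((51 : ℝ) / 5) * (i : ℝ) ^ ((16 : ℝ) / 5) := by
      calc ((κ : ℝ) + 1) ^ ((51 : ℝ) / 5) ≤ (3 * u) ^ ((51 : ℝ) / 5) :=
            Real.rpow_le_rpow hk0 hk3 (by norm_num)
        _ = (3 : ℝ) ^ ((51 : ℝ) / 5) * u ^ ((51 : ℝ) / 5) :=
            Real.mul_rpow (by norm_num) (by positivity)
        _ ≤ (3 : ℝ) ^ ((51 : ℝ) / 5) * (i : ℝ) ^ ((16 : ℝ) / 5) := by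
            apply mul_le_mul_of_nonneg_left _ (by positivity)
            rw [hu, ← Real.rpow_mul hi0.le]
            exact Real.rpow_le_rpow_of_exponent_le hi1 (by norm_num)
    have b4 : 2 ^ 24 * 85 * ((κ : ℝ) + 1) ^ ((51 : ℝ) / 5) ≤ C * (i : ℝ) ^ ((16 : ℝ) / 5) := by
      calc 2 ^ 24 * 85 * ((κ : ℝ) + 1) ^ ((51 : ℝ) / 5)
          ≤ 2 ^ 24 * 85 * ((3 : ℝ) ^ ((51 : ℝ) / 5) * (i : ℝ) ^ ((16 : ℝ) / 5)) :=
            mul_le_mul_of_nonneg_left b3 (by norm_num)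
        _ = C * (i : ℝ) ^ ((16 : ℝ) / 5) := by rw [hC]; ring
    have b5 : 0 < (i : ℝ) ^ ((16 : ℝ) / 5) := by positivity
    have b6 : (52 + C) * (i : ℝ) ^ ((16 : ℝ) / 5) ≤ (i : ℝ) ^ ((10 : ℝ) / 3) := by
      rw [← b1, mul_comm]
      exact mul_le_mul_of_nonneg_left a2 b5.le
    nlinarith

end Pool.Agent.MM1
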