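import Pool.Agent.MP_94f265_co.MM1.BigD
import Pool.Agent.MP_94f265_co.MM1.NumA
import Pool.Agent.MP_94f265_co.MM1.NumB
import Pool.Agent.MP_94f265_co.MM1.NumC

namespace Pool.Agent.MM1

/-- PROOF: `exists_numReg`, `exists_numEp`, `exists_numCard`; `hD`, `hG` for large `k` (`40 · 1.01 · k^(51/5) < 11 k^11/64 - 1`); take the maximum
of the thresholds; `k0 ≤ k0^3`. -/
theorem exists_big : ∃ K : ℕ, ∀ F : Fam, K ≤ F.k0 → Big F := by
  obtain ⟨K1, h1⟩ := exists_numReg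
  obtain ⟨K2, h2⟩ := exists_numEp
  obtain ⟨K3, h3⟩ := exists_numCard
  refine ⟨max (max K1 K2) (max K3 1), fun F hF => ?_⟩
  have hK1 : K1 ≤ F.k0 := le_trans (le_trans (le_max_left _ _) (le_max_left _ _)) hF
  have hK2 : K2 ≤ F.k0 := le_trans (le_trans (le_max_right _ _) (le_max_left _ _)) hF
  have hK3 : K3 ≤ F.k0 := le_trans (le_trans (le_max_left _ _) (le_max_right _ _)) hF
  have hcube : F.k0 ≤ F.k0 ^ 3 := Nat.le_self_pow (by norm_num) _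
  have hrp : ∀ k : ℕ, 100000 ≤ k → 300 * (k : ℝ) ≤ (k : ℝ) ^ ((9 : ℝ) / 5) := by
    intro k hk
    have hk' : (100000 : ℝ) ≤ (k : ℝ) := by exact_mod_cast hk
    have h4 : (k : ℝ) ^ ((9 : ℝ) / 5) = (k : ℝ) * (k : ℝ) ^ ((4 : ℝ) / 5) := by
      rw [show ((9 : ℝ) / 5) = 1 + 4 / 5 by norm_num, Real.rpow_add (by linarith), Real.rpow_one]
    have h5 : (k : ℝ) ^ ((1 : ℝ) / 2) ≤ (k : ℝ) ^ ((4 : ℝ) / 5) :=
      Real.rpow_le_rpow_of_exponent_le (by linarith) (by norm_num)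
    have h6 : 300 ≤ (k : ℝ) ^ ((1 : ℝ) / 2) := by
      rw [← Real.sqrt_eq_rpow]
      apply Real.le_sqrt_of_sq_le
      linarith
    rw [h4]
    have h7 : (300 : ℝ) ≤ (k : ℝ) ^ ((4 : ℝ) / 5) := h6.trans h5
    have h8 : (0 : ℝ) ≤ (k : ℝ) := by linarith
    calc 300 * (k : ℝ) = (k : ℝ) * 300 := by ring
      _ ≤ (k : ℝ) * (k : ℝ) ^ ((4 : ℝ) / 5) := mul_le_mul_of_nonneg_left h7 h8
  refine ⟨fun j hj => h1 j (by omega), fun k hk => h2 k (by omega), fun i hi => h3 i (by omega), ?_, ?_⟩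
  · intro k hk
    have hb := (h2 k (by omega)).hk
    have h4 := hrp k hb
    have hk' : (100000 : ℝ) ≤ (k : ℝ) := by exact_mod_cast hb
    linarith
  · intro k hk
    have hN := h2 k (by omega)
    have hb := hN.hk
    have h4 := hrp k hb
    have hk' : (100000 : ℝ) ≤ (k : ℝ) := by exact_mod_cast hb
    have hk0 : (0 : ℝ) < (k : ℝ) := by linarith
    have h5 : ((k : ℝ) + 1) ^ 12 ≤ (101 / 100) * (k : ℝ) ^ 12 := by
      have h6 := hN.e9
      have h7 : (0 : ℝ) ≤ ((k : ℝ) + 1) ^ 12 := by positivity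
      have h8 : (k : ℝ) * ((k : ℝ) + 1) ^ 12 ≤ ((k : ℝ) + 1) ^ 13 := by
        have : ((k : ℝ) + 1) ^ 13 = ((k : ℝ) + 1) * ((k : ℝ) + 1) ^ 12 := by ring
        rw [this]
        exact mul_le_mul_of_nonneg_right (by linarith) h7
      have h9 : (k : ℝ) * ((k : ℝ) + 1) ^ 12 ≤ (k : ℝ) * ((101 / 100) * (k : ℝ) ^ 12) := by
        calc (k : ℝ) * ((k : ℝ) + 1) ^ 12 ≤ ((k : ℝ) + 1) ^ 13 := h8
          _ ≤ (101 / 100) * (k : ℝ) ^ 13 := h6
          _ = (k : ℝ) * ((101 / 100) * (k : ℝ) ^ 12) := by ring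
      exact le_of_mul_le_mul_left h9 hk0
    have h6 : 40 / (k : ℝ) ^ ((9 : ℝ) / 5) ≤ 40 / (300 * (k : ℝ)) :=
      div_le_div_of_nonneg_left (by norm_num) (by positivity) h4
    have h11 : (100000 : ℝ) ≤ (k : ℝ) ^ 11 := by
      calc (100000 : ℝ) ≤ (k : ℝ) := hk'
        _ ≤ (k : ℝ) ^ 11 := le_self_pow₀ (by linarith) (by norm_num)
    calc 40 / (k : ℝ) ^ ((9 : ℝ) / 5) * ((k : ℝ) + 1) ^ 12
        ≤ 40 / (300 * (k : ℝ)) * ((101 / 100) * (k : ℝ) ^ 12) :=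
          mul_le_mul h6 h5 (by positivity) (by positivity)
      _ = (101 / 750) * (k : ℝ) ^ 11 := by
          field_simp
          ring
      _ < 11 * (k : ℝ) ^ 11 / 64 - 1 := by linarith

end Pool.Agent.MM1
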