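import Pool.Agent.MP_94f265_co.MM1.RunE

namespace Pool.Agent.MM1

/-- Ends slots of super-epochs `≤ κ` are all used before step `(κ+1)^3`.
PROOF: induction on `i` from `(κ+1)^3` (`≥ k0^3`): later ends phases (super-epochs `k ≥ κ + 1`) use `n ≥ k^12 ≥ (κ+1)^12`. -/
theorem card_E_le (F : Fam) (f : ℕ → St) (κ i : ℕ) (hf : Run F f i) (hk : F.k0 ≤ κ)
    (hi : (κ + 1) ^ 3 ≤ i) :
    ((f i).E.filter (fun n => n < (κ + 1) ^ 12)).card ≤ (f ((κ + 1) ^ 3)).E.card := by
  apply Finset.card_le_card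
  induction i, hi using Nat.le_induction with
  | base => exact Finset.filter_subset _ _
  | succ i hi ih =>
    have hf' : Run F f i := ⟨hf.1, fun j hj hji => hf.2 j hj (by omega)⟩
    have ih' := ih hf'
    have hk0 : F.k0 ^ 3 ≤ i := (Nat.pow_le_pow_left (by omega : F.k0 ≤ κ + 1) 3).trans hi
    obtain ⟨k, m, h1, h2, hm, hr⟩ := hf.2 i hk0 (Nat.lt_succ_self i)
    intro n hn
    rw [Finset.mem_filter, hr.hE] at hn
    have hold : n ∈ (f i).E := by
      by_cases hik : i = k ^ 3
      · by_contra hno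
        have h3 : n ∈ m.E \ (f i).E := Finset.mem_sdiff.2 ⟨hn.1, hno⟩
        have h4 := (F.mem_slots).1 ((hm.1 hik).hEk h3)
        have h5 : κ + 1 < k + 1 := by
          by_contra hlt
          push Not at hlt
          have := Nat.pow_le_pow_left hlt 3
          omega
        have h6 : (κ + 1) ^ 12 ≤ k ^ 12 := Nat.pow_le_pow_left (by omega) 12
        omega
      · rw [hm.2 hik] at hn
        exact hn.1
    exact ih' (Finset.mem_filter.2 ⟨hold, hn.2⟩)

end Pool.Agent.MM1
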