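import Pool.Agent.MP_94f265_co.MM1.Basic

namespace Pool.Agent.MM1

theorem RunE_mid (F : Fam) (f : ℕ → St) (i k : ℕ) (m : St) (hi : F.k0 ^ 3 ≤ i) (hf : Run F f i)
    (hr : ∀ n ∈ (f i).E, F.n0 ≤ n ∧ 64 ∣ n ∧
      ∃ k, F.k0 < k ∧ k ^ 12 ≤ n ∧ n < (k + 1) ^ 12 ∧ k ^ 3 < i)
    (hm : Mid F k i (f i) m) :
    ∀ n ∈ m.E, F.n0 ≤ n ∧ 64 ∣ n ∧
      ∃ k', F.k0 < k' ∧ k' ^ 12 ≤ n ∧ n < (k' + 1) ^ 12 ∧ k' ^ 3 ≤ i := by
  intro n hn
  by_cases hik : i = k ^ 3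
  · have hE := hm.1 hik
    by_cases hn' : n ∈ (f i).E
    · obtain ⟨a1, a2, k', a3, a4, a5, a6⟩ := hr n hn'
      exact ⟨a1, a2, k', a3, a4, a5, a6.le⟩
    · have hns : n ∈ m.E \ (f i).E := Finset.mem_sdiff.2 ⟨hn, hn'⟩
      have hsl := (F.mem_slots).1 (hE.hEk hns)
      refine ⟨hsl.1, hsl.2.2.2, k, ?_, hsl.2.1, hsl.2.2.1, hik.ge⟩
      have hk : F.k0 ≤ k := by
        rw [hik] at hi
        exact (Nat.pow_le_pow_iff_left (by norm_num)).1 hi
      rcases hk.lt_or_eq with hlt | heq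
      · exact hlt
      · exfalso
        have h0 : f i = init F := by
          rw [hik, ← heq]
          exact hf.1
        have h1 := hE.hcard
        have h2 : lenZ (f i).Z = 0 := by
          rw [h0]
          simp [init, lenZ]
        rw [h2, zero_mul] at h1
        have h3 : 0 < (m.E \ (f i).E).card := Finset.card_pos.2 ⟨n, hns⟩
        have h4 : (0 : ℝ) < ((m.E \ (f i).E).card : ℝ) := by exact_mod_cast h3
        linarith
  · rw [hm.2 hik] at hn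
    obtain ⟨a1, a2, k', a3, a4, a5, a6⟩ := hr n hn
    exact ⟨a1, a2, k', a3, a4, a5, a6.le⟩

/-- The ends slots used before step `i` belong to super-epochs `k'` with `k'^3 < i`.
PROOF: induction on `i` from `k0^3` (there `E = ∅`).  Step: `(f (i+1)).E = m.E` (`RegStep.hE`), and `m.E = (f i).E` or
(`i = k^3`) `m.E \ (f i).E ⊆ slots k`, `k^3 = i < i + 1` (`Fam.mem_slots`).  `k0 < k'`: for `k = k0`
(`i = k0^3`) `(f i).Z = 0`, so `EndsStep.hcard` gives `m.E \ (f i).E = ∅`; for `i > k0^3`, `k^3 = i` gives `k > k0`. -/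
theorem run_E (F : Fam) (f : ℕ → St) (i : ℕ) (hi : F.k0 ^ 3 ≤ i) (hf : Run F f i) :
    ∀ n ∈ (f i).E, F.n0 ≤ n ∧ 64 ∣ n ∧
      ∃ k, F.k0 < k ∧ k ^ 12 ≤ n ∧ n < (k + 1) ^ 12 ∧ k ^ 3 < i := by
  induction i, hi using Nat.le_induction with
  | base =>
    intro n hn
    rw [hf.1] at hn
    simp [init] at hn
  | succ i hi ih =>
    have hf' : Run F f i := ⟨hf.1, fun j hj hji => hf.2 j hj (by omega)⟩
    have hr := ih hf'
    obtain ⟨k, m, hk1, hk2, hmid, hreg⟩ := hf.2 i hi (by omega)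
    intro n hn
    rw [hreg.hE] at hn
    obtain ⟨a1, a2, k', a3, a4, a5, a6⟩ := RunE_mid F f i k m hi hf' hr hmid n hn
    exact ⟨a1, a2, k', a3, a4, a5, by omega⟩

/-- Same after the optional ends phase.
PROOF: from `run_E` and the definition of `Mid`; in the ends phase `i = k^3`; new elements belong to super-epoch `k`. For
`k = k0` there are none (`EndsStep.hcard`, `(f i).Z = 0` because `f (k0^3) = init F`). -/
theorem mid_E (F : Fam) (f : ℕ → St) (i k : ℕ) (m : St) (hi : F.k0 ^ 3 ≤ i) (hf : Run F f i)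
    (h1 : k ^ 3 ≤ i) (h2 : i < (k + 1) ^ 3) (hm : Mid F k i (f i) m) :
    ∀ n ∈ m.E, F.n0 ≤ n ∧ 64 ∣ n ∧
      ∃ k', F.k0 < k' ∧ k' ^ 12 ≤ n ∧ n < (k' + 1) ^ 12 ∧ k' ^ 3 ≤ i := by
  exact RunE_mid F f i k m hi hf (run_E F f i hi hf) hm

end Pool.Agent.MM1
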