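import Pool.Agent.MP_94f265_co.MM1.LenRun
import Pool.Agent.MP_94f265_co.MM1.RunE

namespace Pool.Agent.MM1

theorem CardEN_unique {k k' j : ℕ} (h1 : k ^ 3 ≤ j) (h2 : j < (k + 1) ^ 3) (h3 : k' ^ 3 ≤ j)
    (h4 : j < (k' + 1) ^ 3) : k' = k := by
  have h5 : k' < k + 1 := (Nat.pow_lt_pow_iff_left (by norm_num)).mp (lt_of_le_of_lt h3 h2)
  have h6 : k < k' + 1 := (Nat.pow_lt_pow_iff_left (by norm_num)).mp (lt_of_le_of_lt h1 h4)
  omega

/-- The number of ends slots of the current super-epoch.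
PROOF: let `s = f (k^3)`, and let `m₀` be the state after the ends phase of step `k^3` (for `i > k^3` from the `Step` at `k^3`; for `i = k^3`
`m₀ = m`).  In the regular phases `E` does not change, and in step `i > k^3` of super-epoch `k` `m = f i`; so `m.E = m₀.E`.  `s.E` has only elements
`< k^12` (`run_E`), so `m.E.filter (k^12 ≤ ·) = m₀.E \ s.E`, `EndsStep.hcard` and `lenZ_run` at `i = k^3`.
(If `k^3 < k0^3`: impossible, since `k0^3 ≤ i < (k+1)^3` gives `k ≥ k0`.) -/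
theorem card_E_now (F : Fam) (hK : ∀ k, F.k0 ≤ k → NumEp k) (f : ℕ → St) (i k : ℕ) (m : St)
    (hf : Run F f i) (hi : F.k0 ^ 3 ≤ i) (h1 : k ^ 3 ≤ i) (h2 : i < (k + 1) ^ 3)
    (hm : Mid F k i (f i) m)
    (hQ : ∀ j, F.k0 ^ 3 ≤ j → j ≤ i → (Multiset.card (f j).Z) ^ 3 ≤ j ^ 10) :
    ((m.E.filter (fun n => k ^ 12 ≤ n)).card : ℝ) ≤
      40 / (k : ℝ) ^ ((9 : ℝ) / 5) * ((k : ℝ) + 1) ^ 12 := by
  classical
  have hk0 : F.k0 ≤ k := by
    have : F.k0 < k + 1 := (Nat.pow_lt_pow_iff_left (by norm_num)).mp (lt_of_le_of_lt hi h2)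
    omega
  have hk03 : F.k0 ^ 3 ≤ k ^ 3 := Nat.pow_le_pow_left hk0 3
  have hlt : k ^ 3 < (k + 1) ^ 3 := Nat.pow_lt_pow_left (Nat.lt_succ_self k) (by norm_num)
  -- the state after the ends phase
  obtain ⟨m₀, hm₀, hmE⟩ : ∃ m₀ : St, EndsStep F k (f (k ^ 3)) m₀ ∧ m.E = m₀.E := by
    rcases Nat.eq_or_lt_of_le h1 with h3 | h3
    · refine ⟨m, ?_, rfl⟩
      have h4 := hm.1 h3.symm
      rwa [← h3] at h4
    · obtain ⟨k₁, m₁, h4, h5, h6, h7⟩ := hf.2 (k ^ 3) hk03 h3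
      obtain rfl : k₁ = k := CardEN_unique le_rfl hlt h4 h5
      refine ⟨m₁, h6.1 rfl, ?_⟩
      have hind : ∀ j, k₁ ^ 3 < j → j ≤ i → (f j).E = m₁.E := by
        intro j hj
        induction j, hj using Nat.le_induction with
        | base => intro _; exact h7.hE
        | succ j hj ih =>
          intro hji
          obtain ⟨k₂, m₂, h8, h9, h10, h11⟩ := hf.2 j (by omega) (by omega)
          obtain rfl : k₂ = k₁ := CardEN_unique (by omega) (by omega) h8 h9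
          have h12 : m₂ = f j := h10.2 (by omega)
          rw [h11.hE, h12]
          exact ih (by omega)
      have h8 : m = f i := hm.2 (by omega)
      rw [h8]
      exact hind i h3 le_rfl
  have hf0 : Run F f (k ^ 3) := ⟨hf.1, fun j hj hj' => hf.2 j hj (lt_of_lt_of_le hj' h1)⟩
  have hsub : m.E.filter (fun n => k ^ 12 ≤ n) ⊆ m₀.E \ (f (k ^ 3)).E := by
    intro n hn
    obtain ⟨h3, h4⟩ := Finset.mem_filter.mp hn
    rw [Finset.mem_sdiff]
    refine ⟨by rw [← hmE]; exact h3, ?_⟩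
    intro h5
    obtain ⟨-, -, k', -, -, h6, h7⟩ := run_E F f (k ^ 3) hk03 hf0 n h5
    have h8 : k' < k := (Nat.pow_lt_pow_iff_left (by norm_num)).mp h7
    have h9 : (k' + 1) ^ 12 ≤ k ^ 12 := Nat.pow_le_pow_left (by omega) 12
    omega
  have hlen := lenZ_run F hK f (k ^ 3) k hf0 hk03 le_rfl hlt
    (fun j hj hj' => hQ j hj (hj'.trans h1))
  calc ((m.E.filter (fun n => k ^ 12 ≤ n)).card : ℝ) ≤ ((m₀.E \ (f (k ^ 3)).E).card : ℝ) := by
        exact_mod_cast Finset.card_le_card hsub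
    _ ≤ lenZ (f (k ^ 3)).Z * ((k : ℝ) + 1) ^ 12 := hm₀.hcard
    _ ≤ 40 / (k : ℝ) ^ ((9 : ℝ) / 5) * ((k : ℝ) + 1) ^ 12 :=
        mul_le_mul_of_nonneg_right hlen (by positivity)

end Pool.Agent.MM1
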