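import Pool.Agent.MP_94f265_co.MM1.Basic

namespace Pool.Agent.MM1

/-- a residue class mod `m` in an interval, upper bound -/
theorem CountI_mod_le (c d m r : ℕ) (hm : 0 < m) (hr : r < m) :
    (((Finset.Ico c d).filter (fun n => n % m = r)).card : ℝ) ≤ ((Finset.Ico c d).card : ℝ) / m + 1 := by
  have h0 : (Finset.Ico c d).filter (fun n => n % m = r) = (Finset.Ico c d).filter (fun n => n ≡ r [MOD m]) := by
    apply Finset.filter_congr
    intro n _
    unfold Nat.ModEq
    rw [Nat.mod_eq_of_lt hr]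
  rw [h0]
  have h1 := Nat.Ico_filter_modEq_card c d hm r
  have hmQ : (0 : ℚ) < m := by exact_mod_cast hm
  have h2 : (((Finset.Ico c d).filter (fun n => n ≡ r [MOD m])).card : ℚ) ≤ ((Finset.Ico c d).card : ℚ) / m + 1 := by
    have h3 : (((Finset.Ico c d).filter (fun n => n ≡ r [MOD m])).card : ℚ) =
        ((max (⌈((d : ℚ) - r) / (m : ℚ)⌉ - ⌈((c : ℚ) - r) / (m : ℚ)⌉) 0 : ℤ) : ℚ) := by
      exact_mod_cast congrArg (fun z : ℤ => (z : ℚ)) h1
    rw [h3]
    have h4 : (0 : ℚ) ≤ ((Finset.Ico c d).card : ℚ) / m := by positivity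
    rw [Int.cast_max, max_le_iff]
    constructor
    · push_cast
      have h5 := Int.ceil_lt_add_one (((d : ℚ) - r) / (m : ℚ))
      have h6 := Int.le_ceil (((c : ℚ) - r) / (m : ℚ))
      have h7 : ((d : ℚ) - r) / (m : ℚ) - ((c : ℚ) - r) / (m : ℚ) ≤ ((Finset.Ico c d).card : ℚ) / m := by
        rw [← sub_div]
        apply div_le_div_of_nonneg_right _ hmQ.le
        rw [Nat.card_Ico]
        have h8 : (d : ℚ) - c ≤ ((d - c : ℕ) : ℚ) := by
          rw [sub_le_iff_le_add]
          exact_mod_cast (by omega : d ≤ (d - c) + c)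
        linarith
      linarith
    · push_cast
      linarith
  have h9 := (Rat.cast_le (K := ℝ)).2 h2
  push_cast at h9
  exact h9

/-- a residue class mod `m` in an interval, lower bound -/
theorem CountI_mod_ge (c d m r : ℕ) (hm : 0 < m) (hr : r < m) :
    ((d : ℝ) - c) / m - 1 ≤ (((Finset.Ico c d).filter (fun n => n % m = r)).card : ℝ) := by
  have h0 : (Finset.Ico c d).filter (fun n => n % m = r) = (Finset.Ico c d).filter (fun n => n ≡ r [MOD m]) := by
    apply Finset.filter_congr
    intro n _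
    unfold Nat.ModEq
    rw [Nat.mod_eq_of_lt hr]
  rw [h0]
  have h1 := Nat.Ico_filter_modEq_card c d hm r
  have h2 : ((d : ℚ) - c) / m - 1 ≤ (((Finset.Ico c d).filter (fun n => n ≡ r [MOD m])).card : ℚ) := by
    have h3 : (((Finset.Ico c d).filter (fun n => n ≡ r [MOD m])).card : ℚ) =
        ((max (⌈((d : ℚ) - r) / (m : ℚ)⌉ - ⌈((c : ℚ) - r) / (m : ℚ)⌉) 0 : ℤ) : ℚ) := by
      exact_mod_cast congrArg (fun z : ℤ => (z : ℚ)) h1
    rw [h3, Int.cast_max]
    refine le_trans ?_ (le_max_left _ _)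
    push_cast
    have h5 := Int.ceil_lt_add_one (((c : ℚ) - r) / (m : ℚ))
    have h6 := Int.le_ceil (((d : ℚ) - r) / (m : ℚ))
    have h7 : ((d : ℚ) - r) / (m : ℚ) - ((c : ℚ) - r) / (m : ℚ) = ((d : ℚ) - c) / m := by
      rw [← sub_div]
      congr 1
      ring
    linarith
  exact_mod_cast h2

/-- An interval `[a, b]` of integers meets phase `i` in at most `(b + 1 - a)/32 + 32` numbers.
PROOF: a number `n` with `ph n = i` has `blk n = i + n % 32` or (truncated subtraction) `i = 0` and
`blk n ≤ n % 32`.  Split by the residue `r = n % 32` (32 classes).  If `i ≥ 1`: the `n` in `[a,b]` with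
`n % 32 = r`, `ph n = i` lie in `[a,b] ∩ [(i+r)^4, (i+r+1)^4)`; these 32 intervals are pairwise
disjoint with total number of integers at most `b + 1 - a`, and in an interval with `m` integers a residue class
mod 32 has at most `m/32 + 1` members.  Sum: `(b+1-a)/32 + 32`. -/
theorem card_ph_interval (i : ℕ) (hi : 1 ≤ i) (a b : ℕ) (hab : a ≤ b) :
    (((Finset.Icc a b).filter (fun n => ph n = i)).card : ℝ) ≤ ((b : ℝ) + 1 - a) / 32 + 32 := by
  set c : ℕ → ℕ := fun r => max a ((i + r) ^ 4) with hc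
  set d : ℕ → ℕ := fun r => min (b + 1) ((i + r + 1) ^ 4) with hd
  have hsub : (Finset.Icc a b).filter (fun n => ph n = i) ⊆
      (Finset.range 32).biUnion (fun r => (Finset.Ico (c r) (d r)).filter (fun n => n % 32 = r)) := by
    intro n hn
    rw [Finset.mem_filter, Finset.mem_Icc] at hn
    obtain ⟨⟨h1, h2⟩, h3⟩ := hn
    have h4 : n % 32 < 32 := Nat.mod_lt _ (by norm_num)
    rw [Finset.mem_biUnion]
    refine ⟨n % 32, Finset.mem_range.2 h4, ?_⟩
    have h5 : blk n = i + n % 32 := by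
      unfold ph at h3
      omega
    have h6 := blk_spec n
    rw [h5] at h6
    rw [Finset.mem_filter, Finset.mem_Ico]
    refine ⟨⟨?_, ?_⟩, rfl⟩
    · exact max_le h1 h6.1
    · exact lt_min (by omega) h6.2
  have h1 : (((Finset.Icc a b).filter (fun n => ph n = i)).card : ℝ) ≤
      ∑ r ∈ Finset.range 32, (((Finset.Ico (c r) (d r)).filter (fun n => n % 32 = r)).card : ℝ) := by
    have h2 := (Finset.card_le_card hsub).trans Finset.card_biUnion_le
    exact_mod_cast h2
  have h2 : ∑ r ∈ Finset.range 32, (((Finset.Ico (c r) (d r)).filter (fun n => n % 32 = r)).card : ℝ) ≤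
      ∑ r ∈ Finset.range 32, (((Finset.Ico (c r) (d r)).card : ℝ) / 32 + 1) := by
    apply Finset.sum_le_sum
    intro r hr
    have h3 := CountI_mod_le (c r) (d r) 32 r (by norm_num) (Finset.mem_range.1 hr)
    exact_mod_cast h3
  have hdisj : ∀ r ∈ Finset.range 32, ∀ r' ∈ Finset.range 32, r ≠ r' →
      Disjoint (Finset.Ico (c r) (d r)) (Finset.Ico (c r') (d r')) := by
    intro r _ r' _ hne
    rw [Finset.disjoint_left]
    intro n hn hn'
    rw [Finset.mem_Ico] at hn hn'
    have h1 : blk n = i + r := by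
      have ha : (i + r) ^ 4 ≤ n := (le_max_right _ _).trans hn.1
      have hb : n < (i + r + 1) ^ 4 := hn.2.trans_le (min_le_right _ _)
      rw [← le_blk_iff] at ha
      rw [← blk_lt_iff] at hb
      omega
    have h2 : blk n = i + r' := by
      have ha : (i + r') ^ 4 ≤ n := (le_max_right _ _).trans hn'.1
      have hb : n < (i + r' + 1) ^ 4 := hn'.2.trans_le (min_le_right _ _)
      rw [← le_blk_iff] at ha
      rw [← blk_lt_iff] at hb
      omega
    omega
  have h3 : ∑ r ∈ Finset.range 32, ((Finset.Ico (c r) (d r)).card : ℝ) ≤ (b : ℝ) + 1 - a := by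
    have h4 : ∑ r ∈ Finset.range 32, (Finset.Ico (c r) (d r)).card ≤ (Finset.Ico a (b + 1)).card := by
      rw [← Finset.card_biUnion hdisj]
      apply Finset.card_le_card
      intro n hn
      rw [Finset.mem_biUnion] at hn
      obtain ⟨r, _, hn⟩ := hn
      rw [Finset.mem_Ico] at hn ⊢
      exact ⟨(le_max_left _ _).trans hn.1, hn.2.trans_le (min_le_left _ _)⟩
    rw [Nat.card_Ico] at h4
    have h5 : ((∑ r ∈ Finset.range 32, (Finset.Ico (c r) (d r)).card : ℕ) : ℝ) ≤ ((b + 1 - a : ℕ) : ℝ) := by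
      exact_mod_cast h4
    rw [Nat.cast_sub (by omega)] at h5
    push_cast at h5
    exact h5
  have h4 : ∑ r ∈ Finset.range 32, (((Finset.Ico (c r) (d r)).card : ℝ) / 32 + 1) =
      (∑ r ∈ Finset.range 32, ((Finset.Ico (c r) (d r)).card : ℝ)) / 32 + 32 := by
    rw [Finset.sum_add_distrib, ← Finset.sum_div]
    simp
  linarith

end Pool.Agent.MM1
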