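import Pool.Agent.MP_94f265_co.MM1.NumDef
import Pool.Agent.MP_94f265_co.MM1.CountI

namespace Pool.Agent.MM1

/-- PROOF: `F.P i ⊆ (Icc (i^4) ((i+32)^4 - 1)).filter (ph · = i)`, `card_ph_interval` and
`NumReg.h10`: `≤ 129 i^3/32 + 32 ≤ 5 i^3`. -/
theorem card_P_le (F : Fam) (i : ℕ) (hN : NumReg i) : ((F.P i).card : ℝ) ≤ 5 * (i : ℝ) ^ 3 := by
  have hi := hN.hi
  have hiR : (100000 : ℝ) ≤ i := by exact_mod_cast hi
  have hlt : i ^ 4 < (i + 32) ^ 4 := Nat.pow_lt_pow_left (by omega) (by norm_num)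
  have hsub : F.P i ⊆ (Finset.Icc (i ^ 4) ((i + 32) ^ 4 - 1)).filter (fun n => ph n = i) := by
    intro n hn
    rw [F.mem_P] at hn
    have h1 := le_of_ph hn.2
    have h2 := lt_of_ph n
    rw [hn.2] at h2
    rw [Finset.mem_filter, Finset.mem_Icc]
    exact ⟨⟨h1, by omega⟩, hn.2⟩
  have h1 : ((F.P i).card : ℝ) ≤ ((((i + 32) ^ 4 - 1 : ℕ) : ℝ) + 1 - ((i ^ 4 : ℕ) : ℝ)) / 32 + 32 :=
    le_trans (by exact_mod_cast Finset.card_le_card hsub) (card_ph_interval i (by omega) _ _ (by omega))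
  have h2 : (((i + 32) ^ 4 - 1 : ℕ) : ℝ) + 1 = ((i : ℝ) + 32) ^ 4 := by
    rw [Nat.cast_sub (by omega)]
    push_cast
    ring
  rw [h2] at h1
  push_cast at h1
  have h10 := hN.h10
  have h3 : (100000 : ℝ) ^ 3 ≤ (i : ℝ) ^ 3 := pow_le_pow_left₀ (by norm_num) hiR 3
  norm_num at h3
  linarith

/-- Lower bound for the number of regular slots.
PROOF: for `r < 32` the set `B_r = {n : (i+r)^4 ≤ n < (i+r+1)^4, n % 32 = r}` is contained in
`F.P i` (`n ≥ i^4 ≥ n0`, `blk n = i + r`, `ph n = i`), the `B_r` are pairwise disjoint,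
`B_r.card ≥ ((i+r+1)^4 - (i+r)^4)/32 - 1 ≥ 4 i^3/32 - 1`, and `E ∩ F.P i` is contained in the multiples of 64
in block `i` (a multiple of 64 has `ph n = blk n`, so `blk n = i`), at most `((i+1)^4 - i^4)/64 + 1 ≤
(4 i^3 + 6 i^2 + 4 i + 1)/64 + 1` numbers.  So the number is at least `4 i^3 - 32 - i^3/16 - ... ≥ 3.9 i^3`. -/
theorem card_P_ge (F : Fam) (i : ℕ) (hN : NumReg i) (E : Finset ℕ) (hn0 : F.n0 ≤ i ^ 4)
    (hE : ∀ n ∈ E, 64 ∣ n) : 3.9 * (i : ℝ) ^ 3 ≤ ((F.P i \ E).card : ℝ) := by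
  have hi := hN.hi
  have hiR : (100000 : ℝ) ≤ i := by exact_mod_cast hi
  set B : ℕ → Finset ℕ := fun r => (Finset.Ico ((i + r) ^ 4) ((i + r + 1) ^ 4)).filter (fun n => n % 32 = r) with hB
  have hBblk : ∀ r n, n ∈ B r → blk n = i + r ∧ n % 32 = r := by
    intro r n hn
    rw [hB, Finset.mem_filter, Finset.mem_Ico] at hn
    obtain ⟨⟨h1, h2⟩, h3⟩ := hn
    rw [← le_blk_iff] at h1
    rw [← blk_lt_iff] at h2
    exact ⟨by omega, h3⟩
  have hsub : (Finset.range 32).biUnion B ⊆ F.P i := by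
    intro n hn
    rw [Finset.mem_biUnion] at hn
    obtain ⟨r, _, hn⟩ := hn
    obtain ⟨h1, h2⟩ := hBblk r n hn
    rw [F.mem_P]
    constructor
    · refine hn0.trans ?_
      rw [← le_blk_iff, h1]
      omega
    · unfold ph
      omega
  have hdisj : ∀ r ∈ Finset.range 32, ∀ r' ∈ Finset.range 32, r ≠ r' → Disjoint (B r) (B r') := by
    intro r _ r' _ hne
    rw [Finset.disjoint_left]
    intro n hn hn'
    have h1 := (hBblk r n hn).2
    have h2 := (hBblk r' n hn').2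
    omega
  have h1 : ∑ r ∈ Finset.range 32, ((B r).card : ℝ) ≤ ((F.P i).card : ℝ) := by
    have h2 := Finset.card_le_card hsub
    rw [Finset.card_biUnion hdisj] at h2
    exact_mod_cast h2
  have h2 : ∀ r ∈ Finset.range 32, 4 * (i : ℝ) ^ 3 / 32 - 1 ≤ ((B r).card : ℝ) := by
    intro r hr
    have h3 := CountI_mod_ge ((i + r) ^ 4) ((i + r + 1) ^ 4) 32 r (by norm_num) (Finset.mem_range.1 hr)
    have h4 : 4 * (i : ℝ) ^ 3 ≤ (((i + r + 1) ^ 4 : ℕ) : ℝ) - (((i + r) ^ 4 : ℕ) : ℝ) := by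
      push_cast
      have hr0 : (0 : ℝ) ≤ r := Nat.cast_nonneg r
      have h5 : ((i : ℝ) + r + 1) ^ 4 - ((i : ℝ) + r) ^ 4 =
          4 * ((i : ℝ) + r) ^ 3 + 6 * ((i : ℝ) + r) ^ 2 + 4 * ((i : ℝ) + r) + 1 := by ring
      have h6 : (i : ℝ) ^ 3 ≤ ((i : ℝ) + r) ^ 3 := pow_le_pow_left₀ (by positivity) (by linarith) 3
      have h7 : 0 ≤ ((i : ℝ) + r) ^ 2 := by positivity
      have h8 : 0 ≤ (i : ℝ) + r := by positivity
      linarith
    have h5 : ((32 : ℕ) : ℝ) = 32 := by norm_num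
    rw [h5] at h3
    linarith
  have h3 : 4 * (i : ℝ) ^ 3 - 32 ≤ ((F.P i).card : ℝ) := by
    have h4 := Finset.sum_le_sum h2
    rw [Finset.sum_const, Finset.card_range, nsmul_eq_mul] at h4
    push_cast at h4
    linarith
  have hsubE : F.P i ∩ E ⊆ (Finset.Ico (i ^ 4) ((i + 1) ^ 4)).filter (fun n => n % 64 = 0) := by
    intro n hn
    rw [Finset.mem_inter, F.mem_P] at hn
    obtain ⟨⟨_, h4⟩, h5⟩ := hn
    have h6 := hE n h5
    have h7 := ph_of_dvd h6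
    have h8 := blk_spec n
    rw [← h7, h4] at h8
    rw [Finset.mem_filter, Finset.mem_Ico]
    exact ⟨h8, by omega⟩
  have h4 : ((F.P i ∩ E).card : ℝ) ≤ (((i + 1) ^ 4 : ℕ) - ((i ^ 4 : ℕ) : ℝ)) / 64 + 1 := by
    have h5 := CountI_mod_le (i ^ 4) ((i + 1) ^ 4) 64 0 (by norm_num) (by norm_num)
    have h6 : ((F.P i ∩ E).card : ℝ) ≤ (((Finset.Ico (i ^ 4) ((i + 1) ^ 4)).filter (fun n => n % 64 = 0)).card : ℝ) := by
      exact_mod_cast Finset.card_le_card hsubE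
    have h7 : ((64 : ℕ) : ℝ) = 64 := by norm_num
    rw [h7, Nat.card_Ico, Nat.cast_sub (Nat.pow_le_pow_left (by omega) 4)] at h5
    exact h6.trans h5
  have h5 : ((F.P i).card : ℝ) = ((F.P i \ E).card : ℝ) + ((F.P i ∩ E).card : ℝ) := by
    exact_mod_cast (Finset.card_sdiff_add_card_inter (F.P i) E).symm
  have h6 : (((i + 1) ^ 4 : ℕ) : ℝ) - ((i ^ 4 : ℕ) : ℝ) = 4 * (i : ℝ) ^ 3 + 6 * (i : ℝ) ^ 2 + 4 * i + 1 := by
    push_cast
    ring
  rw [h6] at h4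
  have h7 : (i : ℝ) ^ 3 = i * i ^ 2 := by ring
  have h8 : 100000 * (i : ℝ) ^ 2 ≤ (i : ℝ) ^ 3 := by
    rw [h7]
    exact mul_le_mul_of_nonneg_right hiR (by positivity)
  have h9 : 100000 * (i : ℝ) ≤ (i : ℝ) ^ 2 := by
    rw [pow_two]
    exact mul_le_mul_of_nonneg_right hiR (by positivity)
  linarith

end Pool.Agent.MM1
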