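import Pool.Agent.MP_94f265_co.MM1.NumDef
import Pool.Agent.MP_94f265_co.MM1.CountI

namespace Pool.Agent.MM1

/-- Lower bound for the number of ends slots.
PROOF: `slots k ⊇ multiples of 64 in [(k^3+32)^4, (k+1)^12)` because
`n0 < ((k0+1)^3+32)^4 ≤ (k^3+32)^4` (`Fam.n0_lt`); their number is at least `((k+1)^12 - (k^3+32)^4)/64 - 1`, and
`(k+1)^12 - k^12 ≥ 12 k^11` (`NumEp.e11`), `(k^3+32)^4 - k^12 ≤ 129 k^9 ≤ k^11`. -/
theorem card_slots_ge (F : Fam) (k : ℕ) (hN : NumEp k) (hk : F.k0 < k) :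
    11 * (k : ℝ) ^ 11 / 64 - 1 ≤ ((F.slots k).card : ℝ) := by
  have hkR : (100000 : ℝ) ≤ k := by exact_mod_cast hN.hk
  have hsub : (Finset.Ico ((k ^ 3 + 32) ^ 4) ((k + 1) ^ 12)).filter (fun n => n % 64 = 0) ⊆ F.slots k := by
    intro n hn
    rw [Finset.mem_filter, Finset.mem_Ico] at hn
    obtain ⟨⟨h1, h2⟩, h3⟩ := hn
    rw [F.mem_slots]
    refine ⟨?_, ?_, h2, by omega⟩
    · have h4 := F.n0_lt
      have h5 : ((F.k0 + 1) ^ 3 + 32) ^ 4 ≤ (k ^ 3 + 32) ^ 4 :=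
        Nat.pow_le_pow_left (Nat.add_le_add_right (Nat.pow_le_pow_left (by omega) 3) 32) 4
      omega
    · have h4 : k ^ 12 ≤ (k ^ 3 + 32) ^ 4 := by
        calc k ^ 12 = (k ^ 3) ^ 4 := by ring
          _ ≤ (k ^ 3 + 32) ^ 4 := Nat.pow_le_pow_left (by omega) 4
      omega
  have h1 := CountI_mod_ge ((k ^ 3 + 32) ^ 4) ((k + 1) ^ 12) 64 0 (by norm_num) (by norm_num)
  have h2 : (((Finset.Ico ((k ^ 3 + 32) ^ 4) ((k + 1) ^ 12)).filter (fun n => n % 64 = 0)).card : ℝ) ≤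
      ((F.slots k).card : ℝ) := by exact_mod_cast Finset.card_le_card hsub
  have h3 : ((64 : ℕ) : ℝ) = 64 := by norm_num
  rw [h3] at h1
  push_cast at h1
  have h4 : ((k : ℝ) ^ 3 + 32) ^ 4 ≤ (k : ℝ) ^ 12 + (k : ℝ) ^ 11 := by
    have e1 : ((k : ℝ) ^ 3 + 32) ^ 4 = (k : ℝ) ^ 12 + 128 * (k : ℝ) ^ 9 + 6144 * (k : ℝ) ^ 6 + 131072 * (k : ℝ) ^ 3 +
        1048576 := by ring
    have hk0 : (0 : ℝ) ≤ k := by linarith
    have e2 : 100000 * (k : ℝ) ^ 10 ≤ (k : ℝ) ^ 11 := by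
      have : (k : ℝ) ^ 11 = k * (k : ℝ) ^ 10 := by ring
      rw [this]
      exact mul_le_mul_of_nonneg_right hkR (by positivity)
    have hk1 : (1 : ℝ) ≤ k := by linarith
    have e3 : (k : ℝ) ^ 9 ≤ (k : ℝ) ^ 10 := pow_le_pow_right₀ hk1 (by norm_num)
    have e4 : (k : ℝ) ^ 6 ≤ (k : ℝ) ^ 10 := pow_le_pow_right₀ hk1 (by norm_num)
    have e5 : (k : ℝ) ^ 3 * 100000 ≤ (k : ℝ) ^ 10 := by
      have e6 : (k : ℝ) ^ 4 ≤ (k : ℝ) ^ 10 := pow_le_pow_right₀ hk1 (by norm_num)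
      have e7 : (k : ℝ) ^ 4 = (k : ℝ) ^ 3 * k := by ring
      have e8 : (k : ℝ) ^ 3 * 100000 ≤ (k : ℝ) ^ 3 * k := mul_le_mul_of_nonneg_left hkR (by positivity)
      linarith
    have e6 : (100000 : ℝ) ^ 3 ≤ (k : ℝ) ^ 3 := pow_le_pow_left₀ (by norm_num) hkR 3
    norm_num at e6
    rw [e1]
    linarith
  have h5 := hN.e11
  linarith

end Pool.Agent.MM1
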