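import Pool.Agent.MP_94f265_co.MM1.RunE

namespace Pool.Agent.MM1

private theorem ct_zero (j k : ℕ) (hk : j < k) (Z : Multiset (ℝ × ℝ × ℕ)) (h : ∀ z ∈ Z, Zgood k z) :
    Z.filter (fun z => z.2.2 ≤ j) = 0 := by
  rw [Multiset.filter_eq_nil]
  intro z hz
  have h1 : z.2.2 = k := (h z hz).1
  omega

private theorem ct_mid (F : Fam) (j i k : ℕ) (s m : St) (hk : j < k) (hm : Mid F k i s m) :
    Multiset.card (m.Z.filter (fun z => z.2.2 ≤ j)) ≤
      Multiset.card (s.Z.filter (fun z => z.2.2 ≤ j)) := by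
  by_cases hik : i = k ^ 3
  · obtain ⟨Zk, Zi, Ze, h1, h2, h3, h4, h5⟩ := (hm.1 hik).hZ
    rw [h1, h2, Multiset.filter_add, Multiset.filter_add, ct_zero j k hk Ze h5, add_zero, Multiset.card_add]
    exact Nat.le_add_right _ _
  · rw [hm.2 hik]

private theorem ct_k (j i k : ℕ) (hi : (j + 1) ^ 3 ≤ i) (h2 : i < (k + 1) ^ 3) : j < k := by
  by_contra h
  have h3 : k + 1 ≤ j + 1 := by omega
  have h4 := Nat.pow_le_pow_left h3 3
  omega

/-- The number of irregular rectangles with tag `≤ j` does not increase after super-epoch `j`.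
PROOF: induction on `i` from `(j+1)^3`.  Step `i`, super-epoch `k ≥ j + 1`: ends phase: `m.Z = Zk + Ze`, `Zk ≤ (f i).Z`, tags of
`Ze` are `k > j`; regular phase: new tags `k > j`.  (`Zgood k z` contains `z.2.2 = k`.) -/
theorem card_tag (F : Fam) (f : ℕ → St) (j i : ℕ) (hf : Run F f i) (hj : F.k0 ≤ j)
    (hi : (j + 1) ^ 3 ≤ i) :
    Multiset.card ((f i).Z.filter (fun z => z.2.2 ≤ j)) ≤ Multiset.card (f ((j + 1) ^ 3)).Z := by
  induction i, hi using Nat.le_induction with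
  | base => exact Multiset.card_le_card (Multiset.filter_le _ _)
  | succ i hi ih =>
    have hfi : Run F f i := ⟨hf.1, fun j h1 h2 => hf.2 j h1 (Nat.lt_succ_of_lt h2)⟩
    have hki : F.k0 ^ 3 ≤ i := by
      have h1 : F.k0 ≤ j + 1 := by omega
      exact (Nat.pow_le_pow_left h1 3).trans hi
    obtain ⟨k, m, hk1, hk2, hmid, hreg⟩ := hf.2 i hki (Nat.lt_succ_self i)
    have hjk := ct_k j i k hi hk2
    obtain ⟨Zn, hZ1, hZ2, -⟩ := hreg.hZ
    rw [hZ1, Multiset.filter_add, ct_zero j k hjk Zn hZ2, add_zero]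
    exact (ct_mid F j i k (f i) m hjk hmid).trans (ih hfi)

/-- PROOF: as `card_tag` (one more ends phase). -/
theorem card_tag_mid (F : Fam) (f : ℕ → St) (j i k : ℕ) (m : St) (hf : Run F f i)
    (hj : F.k0 ≤ j) (hi : (j + 1) ^ 3 ≤ i) (h1 : k ^ 3 ≤ i) (h2 : i < (k + 1) ^ 3)
    (hm : Mid F k i (f i) m) :
    Multiset.card (m.Z.filter (fun z => z.2.2 ≤ j)) ≤ Multiset.card (f ((j + 1) ^ 3)).Z := by
  exact (ct_mid F j i k (f i) m (ct_k j i k hi h2) hm).trans (card_tag F f j i hf hj hi)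

end Pool.Agent.MM1
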