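import Pool.Agent.MP_94f265_co.MM1.Basic

namespace Pool.Agent.MM1

/-- Elementary inequalities for phases, true for all large `i`. -/
structure NumReg (i : ℕ) : Prop where
  hi : 100000 ≤ i
  h1 : Tp i - 1 / ((i : ℝ) + 32) ^ 4 ≤ 133 / (i : ℝ) ^ 5
  h2 : Tp i - Th i ≤ (101 / 25) / (i : ℝ) ^ 5
  h3 : 1 / (i : ℝ) ^ 4 < Th i
  h3' : 1 / (i : ℝ) ^ 8 ≤ Th i - 1 / (i : ℝ) ^ 4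
  h4 : Th i < Tp i
  h5 : Tp i ≤ (101 / 100) / (i : ℝ) ^ 4
  h6 : 133 / (i : ℝ) ^ 5 < Th i
  h7 : ((i : ℝ) + 32) ^ 8 ≤ (101 / 100) * (i : ℝ) ^ 8
  h8 : ((i : ℝ) + 33) ^ 4 + 1 ≤ (101 / 100) * (i : ℝ) ^ 4
  h9 : ((i : ℝ) + 1) ^ 5 ≤ (101 / 100) * (i : ℝ) ^ 5
  h10 : ((i : ℝ) + 32) ^ 4 - (i : ℝ) ^ 4 ≤ 129 * (i : ℝ) ^ 3

/-- Elementary inequalities for super-epochs, true for all large `k`. -/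
structure NumEp (k : ℕ) : Prop where
  hk : 100000 ≤ k
  e1 : wmax k - 1 / ((k : ℝ) + 1) ^ 12 ≤ 26 / (k : ℝ) ^ 13
  e2 : ((k : ℝ) + 1) ^ 24 ≤ (101 / 100) * (k : ℝ) ^ 24
  e3 : 26 / (k : ℝ) ^ 13 < Th (k ^ 3)
  e3' : 1 / (k : ℝ) ^ 24 ≤ Th (k ^ 3) - 1 / (k : ℝ) ^ 12
  e4 : wmax k ≤ 2 / (k : ℝ) ^ 12
  e5 : 1 / (k : ℝ) ^ 12 + del k ≤ wmax (k + 1)
  e6 : Th (k ^ 3) ≤ wmax (k + 1)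
  e7 : 1 / ((k : ℝ) + 1) ^ 12 ≤ Th (k ^ 3)
  e8 : Th (k ^ 3) ≤ wmax k
  e9 : ((k : ℝ) + 1) ^ 13 ≤ (101 / 100) * (k : ℝ) ^ 13
  e10 : ((((k : ℝ) + 1) ^ 3 + 33) ^ 4 + 1) ≤ (101 / 100) * (k : ℝ) ^ 12
  e11 : 12 * (k : ℝ) ^ 11 ≤ ((k : ℝ) + 1) ^ 12 - (k : ℝ) ^ 12
  e12 : 2 * (k : ℝ) ^ 12 ≤ (k : ℝ) ^ 13

end Pool.Agent.MM1
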