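import Pool.Agent.MP_94f265_co.MM1.RunE
import Pool.Agent.MP_94f265_co.MM1.NumDef

namespace Pool.Agent.MM1

/-- Number of irregular rectangles and used slivers.
PROOF: induction on `i` from `k0^3` (`Z = 0`).  Step: `card m.Z = card (f i).Z` (`EndsStep.hZ`),
`card (f (i+1)).Z ≤ card m.Z + card (cls i m.w (done i m.E)) + 3 i^2`.  Let `A = {n ∈ done i (f i).E : Tp i ≤ σ}` (σ with `(f i).w`),
`C = cls i m.w (done i m.E)`, `B = {n ∈ done (i+1) (f (i+1)).E : Tp (i+1) ≤ σ}` (σ with `(f (i+1)).w`).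
`A ∪ C ⊆ B`: `done i (f i).E ⊆ done i m.E ⊆ done (i+1) (f (i+1)).E`, the widths agree on these sets (`EndsStep.hw`
(applies with `i = k^3`), `RegStep.hw`), `Tp (i+1) = Th i ≤ Tp i`.  `A ∩ C = ∅` (`σ ≥ Tp i` versus `σ < Tp i`).
`i^3 + 3 i^2 ≤ (i+1)^3`. -/
theorem card_Z_le (F : Fam) (hR : ∀ j, F.k0 ^ 3 ≤ j → NumReg j) (f : ℕ → St) (i : ℕ)
    (hf : Run F f i) (hi : F.k0 ^ 3 ≤ i) :
    Multiset.card (f i).Z ≤
      ((F.done i (f i).E).filter (fun n => Tp i ≤ (f i).w n - F.x n)).card + i ^ 3 := by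
  classical
  induction i, hi using Nat.le_induction with
  | base =>
    rw [hf.1]
    exact Nat.zero_le _
  | succ i hi ih =>
    have hfi : Run F f i := ⟨hf.1, fun j h1 h2 => hf.2 j h1 (Nat.lt_succ_of_lt h2)⟩
    have ih := ih hfi
    obtain ⟨k, m, hk1, hk2, hmid, hreg⟩ := hf.2 i hi (Nat.lt_succ_self i)
    -- the ends phase
    have hm : Multiset.card m.Z = Multiset.card (f i).Z ∧ (f i).E ⊆ m.E ∧
        ∀ n ∈ F.done i (f i).E, m.w n = (f i).w n := by
      by_cases hik : i = k ^ 3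
      · have hE := hmid.1 hik
        obtain ⟨Zk, Zi, Ze, h1, h2, h3, -, -⟩ := hE.hZ
        refine ⟨?_, hE.hEs, ?_⟩
        · rw [h1, h2, Multiset.card_add, Multiset.card_add, h3]
        · intro n hn
          apply hE.hw
          rw [← hik]
          exact hn
      · have hE := hmid.2 hik
        rw [hE]
        exact ⟨rfl, Finset.Subset.refl _, fun n _ => rfl⟩
    obtain ⟨hmZ, hmE, hmw⟩ := hm
    obtain ⟨Zn, hZ1, -, hZ3⟩ := hreg.hZ
    have hsub1 : ∀ n, n ∈ F.done i (f i).E → n ∈ F.done i m.E := by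
      intro n hn
      rw [F.mem_done] at hn ⊢
      exact hn.imp id (fun h => hmE h)
    have hsub2 : ∀ n, n ∈ F.done i m.E → n ∈ F.done (i + 1) (f (i + 1)).E := by
      intro n hn
      rw [F.mem_done] at hn ⊢
      rw [hreg.hE]
      exact hn.imp (fun h => ⟨h.1, by omega⟩) id
    have h4 := (hR i hi).h4
    have hdisj : Disjoint ((F.done i (f i).E).filter (fun n => Tp i ≤ (f i).w n - F.x n))
        (F.cls i m.w (F.done i m.E)) := by
      rw [Finset.disjoint_left]
      intro n h1 h2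
      rw [Finset.mem_filter] at h1
      rw [F.mem_cls, hmw n h1.1] at h2
      exact absurd h2.2.2 (not_lt.2 h1.2)
    have hsub : ((F.done i (f i).E).filter (fun n => Tp i ≤ (f i).w n - F.x n)) ∪
        (F.cls i m.w (F.done i m.E)) ⊆
        ((F.done (i + 1) (f (i + 1)).E).filter
          (fun n => Tp (i + 1) ≤ (f (i + 1)).w n - F.x n)) := by
      intro n hn
      rw [Finset.mem_union] at hn
      rw [Finset.mem_filter, Tp_succ]
      rcases hn with hn | hn
      · rw [Finset.mem_filter] at hn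
        have h5 := hsub1 n hn.1
        refine ⟨hsub2 n h5, ?_⟩
        rw [hreg.hw n h5, hmw n hn.1]
        exact h4.le.trans hn.2
      · rw [F.mem_cls] at hn
        refine ⟨hsub2 n hn.1, ?_⟩
        rw [hreg.hw n hn.1]
        exact hn.2.1
    have hcard := Finset.card_le_card hsub
    rw [Finset.card_union_of_disjoint hdisj] at hcard
    rw [hZ1, Multiset.card_add, hmZ]
    have h6 : i ^ 3 + 3 * i ^ 2 ≤ (i + 1) ^ 3 := by nlinarith
    omega

end Pool.Agent.MM1
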