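import Pool.Agent.MP_94f265_co.MM1.Basic

namespace Pool.Agent.MM1

theorem HistMid_le {a b n : ℕ} (h1 : a ^ 12 ≤ n) (h2 : n < (b + 1) ^ 12) : a ≤ b := by
  have h3 : a ^ 12 < (b + 1) ^ 12 := lt_of_le_of_lt h1 h2
  have h4 := lt_of_pow_lt_pow_left₀ 12 (Nat.zero_le _) h3
  omega

/-- `Hist` is preserved by the optional ends phase.
PROOF: if `i ≠ k^3` then `m = s`.  Otherwise `EndsStep`: old numbers keep their `w` (`EndsStep.hw`;
`n ∈ s.E` or `ph n < i` implies `n ∈ F.done i s.E`), `hE` is given (`hE'`), `monoE`/`rangeE` for super-epoch `k'`: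
if two numbers of `m.E` lie in the same super-epoch `k'`: an element of `m.E \ s.E` has super-epoch `k`
(`Fam.mem_slots`; super-epochs are disjoint) and an element of `s.E` has super-epoch `< k` (`hs`), so both are old or both
are new (`k' = k`, `EndsStep.hmono, hrange`).  `monoP`, `rangeP`: `j < i`, `n ∉ m.E` implies `n ∉ s.E`, and
`n ∈ F.done i s.E`. -/
theorem hist_mid (F : Fam) (i k : ℕ) (s m : St) (H : Hist F i s.w s.E)
    (h1 : k ^ 3 ≤ i) (h2 : i < (k + 1) ^ 3) (hm : Mid F k i s m)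
    (hs : ∀ n ∈ s.E, ∃ k', k' ^ 12 ≤ n ∧ n < (k' + 1) ^ 12 ∧ k' ^ 3 < i)
    (hE' : ∀ n ∈ m.E, F.n0 ≤ n ∧ 64 ∣ n ∧
      ∃ k', F.k0 < k' ∧ k' ^ 12 ≤ n ∧ n < (k' + 1) ^ 12 ∧ k' ^ 3 ≤ i) :
    Hist F i m.w m.E := by
  by_cases hik : i = k ^ 3
  swap
  · rw [hm.2 hik]
    exact H
  have hE := hm.1 hik
  have hold : ∀ n ∈ s.E, m.w n = s.w n := fun n hn => hE.hw n ((F.mem_done).2 (Or.inr hn))
  have hold' : ∀ n, F.n0 ≤ n → ph n < i → m.w n = s.w n := fun n h3 h4 =>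
    hE.hw n ((F.mem_done).2 (Or.inl ⟨h3, hik ▸ h4⟩))
  have hnew : ∀ n ∈ m.E, n ∉ s.E → n ∈ m.E \ s.E ∧ k ^ 12 ≤ n ∧ n < (k + 1) ^ 12 := by
    intro n hn hn'
    have h3 : n ∈ m.E \ s.E := Finset.mem_sdiff.2 ⟨hn, hn'⟩
    have h4 := (F.mem_slots).1 (hE.hEk h3)
    exact ⟨h3, h4.2.1, h4.2.2.1⟩
  have hlt : ∀ n ∈ s.E, n < k ^ 12 := by
    intro n hn
    obtain ⟨k', -, a2, a3⟩ := hs n hn
    rw [hik] at a3
    have a4 := lt_of_pow_lt_pow_left₀ 3 (Nat.zero_le _) a3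
    exact lt_of_lt_of_le a2 (Nat.pow_le_pow_left (by omega) 12)
  refine ⟨hE', ?_, ?_, ?_, ?_⟩
  · intro k' n hn n' hn' g1 g2 g3
    by_cases hs1 : n ∈ s.E <;> by_cases hs2 : n' ∈ s.E
    · rw [hold n hs1, hold n' hs2]
      exact H.monoE k' n hs1 n' hs2 g1 g2 g3
    · exfalso
      obtain ⟨-, b1, b2⟩ := hnew n' hn' hs2
      have b3 := hlt n hs1
      have b4 : k ≤ k' := HistMid_le b1 g3
      have b5 : k ^ 12 ≤ k' ^ 12 := Nat.pow_le_pow_left b4 12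
      omega
    · exfalso
      obtain ⟨-, b1, b2⟩ := hnew n hn hs1
      have b3 := hlt n' hs2
      omega
    · exact hE.hmono n (hnew n hn hs1).1 n' (hnew n' hn' hs2).1 g2
  · intro k' n hn g1 g2
    by_cases hs1 : n ∈ s.E
    · rw [hold n hs1]
      exact H.rangeE k' n hs1 g1 g2
    · obtain ⟨b0, b1, b2⟩ := hnew n hn hs1
      have b3 : k' ≤ k := HistMid_le g1 b2
      have b4 : k ≤ k' := HistMid_le b1 g2
      have b5 : k' = k := le_antisymm b3 b4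
      rw [b5]
      exact hE.hrange n b0
  · intro j hj n n' g1 g2 g3 g4 g5 g6
    rw [hold' n g1 (by omega), hold' n' (g1.trans g2) (by omega)]
    exact H.monoP j hj n n' g1 g2 g3 g4 (fun h => g5 (hE.hEs h)) (fun h => g6 (hE.hEs h))
  · intro j hj n g1 g2 g3
    rw [hold' n g1 (by omega)]
    exact H.rangeP j hj n g1 g2 (fun h => g3 (hE.hEs h))

end Pool.Agent.MM1
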