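import Pool.Agent.MP_94f265_co.MM1.Basic

namespace Pool.Agent.MM1

/-- `Hist` is preserved by the regular phase.
PROOF: `t.E = m.E`; `t.w = m.w` on `F.done i m.E`, which contains `m.E` and all `n ≥ n0` with `ph n < i`;
for `j = i` use `RegStep.hmono, hrange` (`n ∈ F.P i \ m.E`). -/
theorem hist_reg (F : Fam) (i k : ℕ) (m t : St) (H : Hist F i m.w m.E)
    (ht : RegStep F k i m t) : Hist F (i + 1) t.w t.E := by
  have hEw : ∀ n ∈ m.E, t.w n = m.w n := fun n hn => ht.hw n (F.mem_done.2 (Or.inr hn))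
  have hPw : ∀ n, F.n0 ≤ n → ph n < i → t.w n = m.w n := fun n h1 h2 =>
    ht.hw n (F.mem_done.2 (Or.inl ⟨h1, h2⟩))
  have hnew : ∀ n, F.n0 ≤ n → ph n = i → n ∉ t.E → n ∈ F.P i \ m.E := by
    intro n h1 h2 h3
    rw [ht.hE] at h3
    rw [Finset.mem_sdiff, F.mem_P]
    exact ⟨⟨h1, h2⟩, h3⟩
  refine ⟨?_, ?_, ?_, ?_, ?_⟩
  · intro n hn
    rw [ht.hE] at hn
    obtain ⟨h1, h2, k', h3, h4, h5, h6⟩ := H.hE n hn
    exact ⟨h1, h2, k', h3, h4, h5, by omega⟩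
  · intro k' n hn n' hn' h1 h2 h3
    rw [ht.hE] at hn hn'
    rw [hEw n hn, hEw n' hn']
    exact H.monoE k' n hn n' hn' h1 h2 h3
  · intro k' n hn h1 h2
    rw [ht.hE] at hn
    rw [hEw n hn]
    exact H.rangeE k' n hn h1 h2
  · intro j hj n n' h1 h2 h3 h4 h5 h6
    rcases Nat.lt_succ_iff_lt_or_eq.1 hj with hj | rfl
    · rw [hPw n h1 (by omega), hPw n' (by omega) (by omega)]
      rw [ht.hE] at h5 h6
      exact H.monoP j hj n n' h1 h2 h3 h4 h5 h6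
    · exact ht.hmono n (hnew n h1 h3 h5) n' (hnew n' (by omega) h4 h6) h2
  · intro j hj n h1 h2 h3
    rcases Nat.lt_succ_iff_lt_or_eq.1 hj with hj | rfl
    · rw [hPw n h1 (by omega)]
      rw [ht.hE] at h3
      exact H.rangeP j hj n h1 h2 h3
    · exact ht.hrange n (hnew n h1 h2 h3)

end Pool.Agent.MM1
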