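import Pool.Agent.MP_94f265_co.MM1.RunE
import Pool.Agent.MP_94f265_co.MM1.HistMid
import Pool.Agent.MP_94f265_co.MM1.HistReg

namespace Pool.Agent.MM1

theorem RunHist_mid (F : Fam) (f : ℕ → St) (i k : ℕ) (m : St) (hi : F.k0 ^ 3 ≤ i)
    (hf : Run F f i) (h1 : k ^ 3 ≤ i) (h2 : i < (k + 1) ^ 3) (hm : Mid F k i (f i) m)
    (H : Hist F i (f i).w (f i).E) : Hist F i m.w m.E := by
  refine hist_mid F i k (f i) m H h1 h2 hm ?_ (mid_E F f i k m hi hf h1 h2 hm)
  intro n hn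
  obtain ⟨-, -, k', -, a, b, c⟩ := run_E F f i hi hf n hn
  exact ⟨k', a, b, c⟩

/-- PROOF: induction on `i` from `k0^3` (`(f (k0^3)) = init F`: `E = ∅`, and no `n ≥ n0` has `ph n < k0^3`
by `Fam.k0_le_ph`), with `run_E`, `mid_E`, `hist_mid`, `hist_reg`. -/
theorem run_hist (F : Fam) (f : ℕ → St) (i : ℕ) (hi : F.k0 ^ 3 ≤ i) (hf : Run F f i) :
    Hist F i (f i).w (f i).E := by
  induction i, hi using Nat.le_induction with
  | base =>
    rw [hf.1]
    refine ⟨?_, ?_, ?_, ?_, ?_⟩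
    · intro n hn; exact absurd hn (Finset.notMem_empty n)
    · intro k n hn; exact absurd hn (Finset.notMem_empty n)
    · intro k n hn; exact absurd hn (Finset.notMem_empty n)
    · intro j hj n n' hn _ hph
      have := F.k0_le_ph hn
      omega
    · intro j hj n hn hph
      have := F.k0_le_ph hn
      omega
  | succ i hi ih =>
    have hf' : Run F f i := ⟨hf.1, fun j hj hji => hf.2 j hj (by omega)⟩
    obtain ⟨k, m, h1, h2, hm, hr⟩ := hf.2 i hi (Nat.lt_succ_self i)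
    exact hist_reg F i k m (f (i + 1)) (RunHist_mid F f i k m hi hf' h1 h2 hm (ih hf')) hr

/-- PROOF: `run_hist` and `hist_mid`. -/
theorem run_hist_mid (F : Fam) (f : ℕ → St) (i k : ℕ) (m : St) (hi : F.k0 ^ 3 ≤ i)
    (hf : Run F f i) (h1 : k ^ 3 ≤ i) (h2 : i < (k + 1) ^ 3) (hm : Mid F k i (f i) m) :
    Hist F i m.w m.E :=
  RunHist_mid F f i k m hi hf h1 h2 hm (run_hist F f i hi hf)

end Pool.Agent.MM1
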