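import Pool.Agent.MP_94f265_co.MM1.Sig

namespace Pool.Agent.MM1

theorem Used_num {i j n : ℕ} (h1 : (j : ℝ) ^ 5 ≤ 133 * (i : ℝ) ^ 4) (h2 : (n : ℝ) ≤ (101 / 100) * (j : ℝ) ^ 4) :
    (n : ℝ) ≤ 51 * (i : ℝ) ^ ((16 : ℝ) / 5) := by
  have h3 : (51 * (i : ℝ) ^ ((16 : ℝ) / 5)) ^ 5 = 51 ^ 5 * (i : ℝ) ^ 16 := by
    rw [mul_pow, ← Real.rpow_natCast ((i : ℝ) ^ ((16 : ℝ) / 5)) 5, ← Real.rpow_mul (Nat.cast_nonneg i)]
    congr 1
    rw [← Real.rpow_natCast (i : ℝ) 16]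
    norm_num
  have h4 : (n : ℝ) ^ 5 ≤ (51 * (i : ℝ) ^ ((16 : ℝ) / 5)) ^ 5 := by
    rw [h3]
    calc (n : ℝ) ^ 5 ≤ ((101 / 100) * (j : ℝ) ^ 4) ^ 5 := pow_le_pow_left₀ (Nat.cast_nonneg n) h2 5
      _ = (101 / 100) ^ 5 * ((j : ℝ) ^ 5) ^ 4 := by ring
      _ ≤ (101 / 100) ^ 5 * (133 * (i : ℝ) ^ 4) ^ 4 := by
          refine mul_le_mul_of_nonneg_left ?_ (by norm_num)
          exact pow_le_pow_left₀ (by positivity) h1 4
      _ = ((101 / 100) ^ 5 * 133 ^ 4) * (i : ℝ) ^ 16 := by ring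
      _ ≤ 51 ^ 5 * (i : ℝ) ^ 16 := by
          refine mul_le_mul_of_nonneg_right ?_ (by positivity)
          norm_num
  exact le_of_pow_le_pow_left₀ (by norm_num) (by positivity) h4

theorem Used_lt {i m c : ℝ} {k : ℕ} (hi : 0 < i) (hm : 0 < m) (h : 1 / i ^ 4 < c / m ^ k) : m ^ k < c * i ^ 4 := by
  rw [div_lt_div_iff₀ (by positivity) (by positivity)] at h
  linarith

/-- NUMBER OF USED SLIVERS.  `κ` is any number with `26 i^4 < (κ+1)^13`.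
PROOF: `n ∉ E`: `j = ph n < i`, `1/i^4 < Th i ≤ Tp i ≤ sig ≤ 133/j^5`, so `j^5 ≤ 133 i^4`, and
`n < (j+32)^4 ≤ 1.01 j^4` (`h8`), `j^4 ≤ (133 i^4)^(4/5)`, `1.01 · 133^(4/5) ≤ 51`: so the number of such `n` is at most
`51 i^(16/5)`.  `n ∈ E`, super-epoch `k`: `1/i^4 ≤ sig ≤ 26/k^13`, `k^13 ≤ 26 i^4 < (κ+1)^13`, `k ≤ κ`,
`n < (k+1)^12 ≤ (κ+1)^12`. -/
theorem card_used (F : Fam) (i : ℕ) (w : ℕ → ℝ) (E : Finset ℕ) (H : Hist F i w E)
    (hR : ∀ j, F.k0 ^ 3 ≤ j → NumReg j) (hK : ∀ k, F.k0 ≤ k → NumEp k) (hi : F.k0 ^ 3 ≤ i)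
    (κ : ℕ) (hκ : 26 * (i : ℝ) ^ 4 < ((κ : ℝ) + 1) ^ 13) :
    (((F.done i E).filter (fun n => Tp i ≤ w n - F.x n)).card : ℝ) ≤
      51 * (i : ℝ) ^ ((16 : ℝ) / 5) + ((E.filter (fun n => n < (κ + 1) ^ 12)).card : ℝ) := by
  classical
  have hNi := hR i hi
  have hi0 : (0 : ℝ) < i := by
    have := hNi.hi
    exact_mod_cast (by omega : 0 < i)
  have hTp : 1 / (i : ℝ) ^ 4 < Tp i := hNi.h3.trans hNi.h4
  set R : ℝ := 51 * (i : ℝ) ^ ((16 : ℝ) / 5) with hRdef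
  have hR0 : 0 ≤ R := by positivity
  have hsub : (F.done i E).filter (fun n => Tp i ≤ w n - F.x n) ⊆
      Finset.Icc 1 ⌊R⌋₊ ∪ E.filter (fun n => n < (κ + 1) ^ 12) := by
    intro n hn
    obtain ⟨hd, hsig⟩ := Finset.mem_filter.1 hn
    rw [Finset.mem_union]
    by_cases hnE : n ∈ E
    · right
      rw [Finset.mem_filter]
      refine ⟨hnE, ?_⟩
      obtain ⟨-, -, k, hk0, hk1, hk2, -⟩ := H.hE n hnE
      have hNk := hK k hk0.le
      have h3 := (H.sig_E hnE hk1 hk2 hNk).2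
      have hk00 : (0 : ℝ) < k := by
        have := hNk.hk
        exact_mod_cast (by omega : 0 < k)
      have h4 := Used_lt hi0 hk00 (hTp.trans_le (hsig.trans h3))
      have h5 : (k : ℝ) ^ 13 < ((κ : ℝ) + 1) ^ 13 := h4.trans hκ
      have h6 : (k : ℝ) < (κ : ℝ) + 1 := lt_of_pow_lt_pow_left₀ 13 (by positivity) h5
      have h7 : k < κ + 1 := by exact_mod_cast h6
      exact lt_of_lt_of_le hk2 (Nat.pow_le_pow_left (by omega) 12)
    · left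
      rcases (F.mem_done).1 hd with ⟨h0, hph⟩ | h
      swap
      · exact absurd h hnE
      have hj := F.k0_le_ph h0
      have hNj := hR (ph n) (by omega)
      have hj0 : (0 : ℝ) < ph n := by
        have := hNj.hi
        exact_mod_cast (by omega : 0 < ph n)
      have h3 := (H.sig_P h0 hnE hph hNj).2
      have h4 := Used_lt hi0 hj0 (hTp.trans_le (hsig.trans h3))
      have h5 : (n : ℝ) ≤ (101 / 100) * (ph n : ℝ) ^ 4 := by
        refine le_trans ?_ hNj.h8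
        have h6 : n < (ph n + 32) ^ 4 := lt_of_ph n
        have h7 : (ph n + 32) ^ 4 ≤ (ph n + 33) ^ 4 := Nat.pow_le_pow_left (by omega) 4
        have h8 : n ≤ (ph n + 33) ^ 4 + 1 := by omega
        exact_mod_cast h8
      have h6 := Used_num h4.le h5
      rw [Finset.mem_Icc]
      exact ⟨F.n_pos h0, Nat.le_floor h6⟩
  have h1 := Finset.card_le_card hsub
  have h2 := Finset.card_union_le (Finset.Icc 1 ⌊R⌋₊) (E.filter (fun n => n < (κ + 1) ^ 12))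
  rw [Nat.card_Icc, Nat.add_sub_cancel] at h2
  have h3 : (((F.done i E).filter (fun n => Tp i ≤ w n - F.x n)).card : ℝ) ≤
      (⌊R⌋₊ : ℝ) + ((E.filter (fun n => n < (κ + 1) ^ 12)).card : ℝ) := by
    exact_mod_cast h1.trans h2
  have h4 := Nat.floor_le hR0
  linarith

end Pool.Agent.MM1
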