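import Pool.Agent.MP_94f265_co.MM1.Ule
import Pool.Agent.MP_94f265_co.MM1.Used
import Pool.Agent.MP_94f265_co.MM1.CardZ
import Pool.Agent.MP_94f265_co.MM1.CardE
import Pool.Agent.MP_94f265_co.MM1.RunHist

namespace Pool.Agent.MM1

theorem CardZB_kappa (N : ℕ) : ∃ κ : ℕ, κ ^ 13 ≤ N ∧ N < (κ + 1) ^ 13 := by
  refine ⟨Nat.findGreatest (fun κ => κ ^ 13 ≤ N) N, ?_, ?_⟩
  · exact Nat.findGreatest_spec (P := fun κ => κ ^ 13 ≤ N) (m := 0) (Nat.zero_le _) (by simp)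
  · by_contra h
    push Not at h
    have h1 : Nat.findGreatest (fun κ => κ ^ 13 ≤ N) N + 1 ≤ N :=
      le_trans (Nat.le_self_pow (by norm_num) _) h
    exact Nat.findGreatest_is_greatest (P := fun κ => κ ^ 13 ≤ N) (Nat.lt_succ_self _) h1 h

theorem CardZB_run {F : Fam} {f : ℕ → St} {i j : ℕ} (hf : Run F f i) (hj : j ≤ i) : Run F f j :=
  ⟨hf.1, fun l h1 h2 => hf.2 l h1 (lt_of_lt_of_le h2 hj)⟩

/-- NUMBER OF IRREGULAR RECTANGLES: at most `i^(10/3)`.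
PROOF: strong induction on `i`.  Let `κ` be the largest natural number with `κ^13 ≤ 26 i^4` (so `26 i^4 < (κ+1)^13`).
`card_Z_le`, `card_used` (with `run_hist`): `card Z ≤ 51 i^(16/5) + #{n ∈ E : n < (κ+1)^12} + i^3`.
If `κ < k0`: every `n ∈ E` is `≥ (k0+1)^12 > (κ+1)^12` (`run_E`), so the middle term is `0`.
If `κ ≥ k0`: `(κ+1)^3 < i` (`hC`), `card_E_le` and `U_le` with `k = κ + 1` (the hypothesis `hQ` for `j ≤ (κ+1)^3 < i` is the
induction hypothesis; `Run F f i` restricts to `Run F f ((κ+1)^3)`).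
So `card Z ≤ i^(10/3)` as reals, i.e. `card^3 ≤ i^10`. -/
theorem card_Z_bound (F : Fam) (hR : ∀ j, F.k0 ^ 3 ≤ j → NumReg j)
    (hK : ∀ k, F.k0 ≤ k → NumEp k)
    (hC : ∀ i : ℕ, F.k0 ^ 3 ≤ i → ∀ κ : ℕ, (κ : ℝ) ^ 13 ≤ 26 * (i : ℝ) ^ 4 →
      (κ + 1) ^ 3 < i ∧
      51 * (i : ℝ) ^ ((16 : ℝ) / 5) + 2 ^ 24 * 85 * ((κ : ℝ) + 1) ^ ((51 : ℝ) / 5) +
        (i : ℝ) ^ 3 ≤ (i : ℝ) ^ ((10 : ℝ) / 3))
    (f : ℕ → St) (i : ℕ) (hf : Run F f i) (hi : F.k0 ^ 3 ≤ i) :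
    (Multiset.card (f i).Z) ^ 3 ≤ i ^ 10 := by
  induction i using Nat.strong_induction_on with
  | _ i ih =>
    obtain ⟨κ, hκ1, hκ2⟩ := CardZB_kappa (26 * i ^ 4)
    have hκ1' : (κ : ℝ) ^ 13 ≤ 26 * (i : ℝ) ^ 4 := by exact_mod_cast hκ1
    have hκ2' : 26 * (i : ℝ) ^ 4 < ((κ : ℝ) + 1) ^ 13 := by exact_mod_cast hκ2
    obtain ⟨hlt, hineq⟩ := hC i hi κ hκ1'
    have h1 := card_Z_le F hR f i hf hi
    have h2 := card_used F i (f i).w (f i).E (run_hist F f i hi hf) hR hK hi κ hκ2'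
    have h3 : ((((f i).E).filter (fun n => n < (κ + 1) ^ 12)).card : ℝ) ≤
        2 ^ 24 * 85 * ((κ : ℝ) + 1) ^ ((51 : ℝ) / 5) := by
      by_cases hk : F.k0 ≤ κ
      · have h4 := card_E_le F f κ i hf hk hlt.le
        have h5 := U_le F hK f (κ + 1) (by omega) (CardZB_run hf hlt.le) (fun j hj1 hj2 =>
          ih j (lt_of_le_of_lt hj2 hlt) (CardZB_run hf (hj2.trans hlt.le)) hj1)
        have h6 : ((((f i).E).filter (fun n => n < (κ + 1) ^ 12)).card : ℝ) ≤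
            ((f ((κ + 1) ^ 3)).E.card : ℝ) := by exact_mod_cast h4
        refine h6.trans ?_
        have h7 : (((κ + 1 : ℕ)) : ℝ) = (κ : ℝ) + 1 := by push_cast; ring
        rw [h7] at h5
        exact h5
      · push Not at hk
        have h4 : ((f i).E).filter (fun n => n < (κ + 1) ^ 12) = ∅ := by
          rw [Finset.filter_eq_empty_iff]
          intro n hn hlt'
          obtain ⟨_, _, k, hk1, hk2, _, _⟩ := run_E F f i hi hf n hn
          have h5 : (κ + 1) ^ 12 ≤ k ^ 12 := Nat.pow_le_pow_left (by omega) 12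
          omega
        rw [h4, Finset.card_empty, Nat.cast_zero]
        positivity
    have h4 : (Multiset.card (f i).Z : ℝ) ≤ (i : ℝ) ^ ((10 : ℝ) / 3) := by
      have h5 : (Multiset.card (f i).Z : ℝ) ≤
          (((F.done i (f i).E).filter (fun n => Tp i ≤ (f i).w n - F.x n)).card : ℝ) + (i : ℝ) ^ 3 := by
        exact_mod_cast h1
      linarith
    have h5 : (Multiset.card (f i).Z : ℝ) ^ 3 ≤ ((i : ℝ) ^ ((10 : ℝ) / 3)) ^ 3 :=
      pow_le_pow_left₀ (Nat.cast_nonneg _) h4 3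
    have h6 : ((i : ℝ) ^ ((10 : ℝ) / 3)) ^ 3 = (i : ℝ) ^ 10 := by
      rw [← Real.rpow_natCast, ← Real.rpow_mul (Nat.cast_nonneg i), ← Real.rpow_natCast]
      norm_num
    rw [h6] at h5
    exact_mod_cast h5

end Pool.Agent.MM1
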