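import Pool.Agent.MP_94f265_co.MM1.CountP

namespace Pool.Agent.MM1

/-- COUNT LEMMA for an ends phase.
PROOF: as `count_P`: the set lies in `[a, b]`, `b - a ≤ ω (k+1)^24 + 1`
(`(a+1) * b ≤ (k+1)^24`), and multiples of 64 in `[a,b]` number at most `(b-a)/64 + 1`. -/
theorem count_E (F : Fam) (k : ℕ) (w : ℕ → ℝ) (A : Finset ℕ)
    (hA : ∀ n ∈ A, F.n0 ≤ n ∧ 64 ∣ n ∧ n < (k + 1) ^ 12)
    (hmono : ∀ n ∈ A, ∀ n' ∈ A, n ≤ n' → w n ≤ w n') (θ ω : ℝ) (hω : 0 ≤ ω) :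
    ((A.filter (fun n => θ ≤ w n - F.x n ∧ w n - F.x n < θ + ω)).card : ℝ) ≤
      ω * ((k : ℝ) + 1) ^ 24 / 64 + 2 := by
  set S := A.filter (fun n => θ ≤ w n - F.x n ∧ w n - F.x n < θ + ω) with hS
  have hM0 : 0 ≤ ω * ((k : ℝ) + 1) ^ 24 := by positivity
  rcases S.eq_empty_or_nonempty with hS0 | hS0
  · rw [hS0, Finset.card_empty, Nat.cast_zero]
    positivity
  obtain ⟨a, haS, hamin⟩ : ∃ a ∈ S, ∀ n ∈ S, a ≤ n := ⟨S.min' hS0, S.min'_mem hS0, fun n hn => S.min'_le n hn⟩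
  obtain ⟨b, hbS, hbmax⟩ : ∃ b ∈ S, ∀ n ∈ S, n ≤ b := ⟨S.max' hS0, S.max'_mem hS0, fun n hn => S.le_max' n hn⟩
  have hab : a ≤ b := hamin b hbS
  have haA := (Finset.mem_filter.1 haS)
  have hbA := (Finset.mem_filter.1 hbS)
  have hsub : S ⊆ (Finset.Ico a (b + 1)).filter (fun n => n % 64 = 0) := by
    intro n hn
    rw [Finset.mem_filter, Finset.mem_Ico]
    have h64 := (hA n (Finset.mem_filter.1 hn).1).2.1
    have h1 := hamin n hn
    have h2 := hbmax n hn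
    exact ⟨⟨h1, by omega⟩, by omega⟩
  have hcard : (S.card : ℝ) ≤ ((Finset.Ico a (b + 1)).card : ℝ) / 64 + 1 := by
    have h1 := CountI_mod_le a (b + 1) 64 0 (by norm_num) (by norm_num)
    have h2 : (S.card : ℝ) ≤ (((Finset.Ico a (b + 1)).filter (fun n => n % 64 = 0)).card : ℝ) := by
      exact_mod_cast Finset.card_le_card hsub
    have h3 : ((64 : ℕ) : ℝ) = 64 := by norm_num
    rw [h3] at h1
    linarith
  rw [Nat.card_Ico, Nat.cast_sub (by omega)] at hcard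
  push_cast at hcard
  have hba : (b : ℝ) - a ≤ ω * ((k : ℝ) + 1) ^ 24 + 1 := by
    rcases hab.lt_or_eq with hlt | heq
    · refine CountP_close F w a b hlt (hA a haA.1).1 _ θ ω ?_ hω (hmono a haA.1 b hbA.1 hab) haA.2.1 hbA.2.2
      have hb4 : b < (k + 1) ^ 12 := (hA b hbA.1).2.2
      have hb4' : (b : ℝ) ≤ ((k : ℝ) + 1) ^ 12 := by exact_mod_cast hb4.le
      have ha4' : (a : ℝ) + 1 ≤ ((k : ℝ) + 1) ^ 12 := by
        have : a + 1 ≤ (k + 1) ^ 12 := by omega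
        exact_mod_cast this
      calc ((a : ℝ) + 1) * b ≤ ((k : ℝ) + 1) ^ 12 * ((k : ℝ) + 1) ^ 12 := by
            apply mul_le_mul ha4' hb4' (Nat.cast_nonneg b) (by positivity)
        _ = ((k : ℝ) + 1) ^ 24 := by ring
    · rw [heq, sub_self]
      linarith
  linarith

end Pool.Agent.MM1
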