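import Pool.Agent.MP_94f265_co.MM1.CountI

namespace Pool.Agent.MM1

/-- the window condition forces `a, b` to be close -/
theorem CountP_close (F : Fam) (w : ℕ → ℝ) (a b : ℕ) (hab : a < b) (ha : F.n0 ≤ a) (M θ ω : ℝ)
    (hM : ((a : ℝ) + 1) * b ≤ M) (hω : 0 ≤ ω) (hw : w a ≤ w b) (h1 : θ ≤ w a - F.x a)
    (h2 : w b - F.x b < θ + ω) : (b : ℝ) - a ≤ ω * M + 1 := by
  have hapos : (0 : ℝ) < a := by exact_mod_cast F.n_pos ha
  have hb : F.n0 ≤ b := by omega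
  have hbpos : (0 : ℝ) < b := by exact_mod_cast F.n_pos hb
  have hxa := (F.hx a ha).1
  have hxb := (F.hx b hb).2
  have h3 : 1 / ((a : ℝ) + 1) - 1 / b ≤ ω := by linarith
  have h4 : 1 / ((a : ℝ) + 1) - 1 / b = (b - a - 1) / (((a : ℝ) + 1) * b) := by
    field_simp
    ring
  have hpos : (0 : ℝ) < ((a : ℝ) + 1) * b := by positivity
  rw [h4, div_le_iff₀ hpos] at h3
  have h5 : ω * (((a : ℝ) + 1) * b) ≤ ω * M := mul_le_mul_of_nonneg_left hM hω
  linarith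

/-- COUNT LEMMA for a regular phase.
PROOF: if the filtered set is empty, clear.  Otherwise let `a` be its minimum and `b` its maximum, so it
is contained in `(Icc a b).filter (ph · = i)`.  `b - a ≤ ω (i+32)^8 + 1`: clear if `a = b`; if `a < b`:
`ω > (w b - x b) - (w a - x a) ≥ x a - x b ≥ 1/(a+1) - 1/b = (b - a - 1)/((a+1) b)` (monotonicity of
`w` on `A` and `F.hx`), and `(a+1) * b ≤ (i+32)^8` since `a + 1 ≤ b < (i+32)^4` (`lt_of_ph`).
Then `card_ph_interval`: `≤ (ω (i+32)^8 + 2)/32 + 32 ≤ ω (i+32)^8/32 + 33`. -/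
theorem count_P (F : Fam) (i : ℕ) (hi : 1 ≤ i) (w : ℕ → ℝ) (A : Finset ℕ)
    (hA : ∀ n ∈ A, F.n0 ≤ n ∧ ph n = i)
    (hmono : ∀ n ∈ A, ∀ n' ∈ A, n ≤ n' → w n ≤ w n') (θ ω : ℝ) (hω : 0 ≤ ω) :
    ((A.filter (fun n => θ ≤ w n - F.x n ∧ w n - F.x n < θ + ω)).card : ℝ) ≤
      ω * ((i : ℝ) + 32) ^ 8 / 32 + 33 := by
  set S := A.filter (fun n => θ ≤ w n - F.x n ∧ w n - F.x n < θ + ω) with hS
  have hM0 : 0 ≤ ω * ((i : ℝ) + 32) ^ 8 := by positivity
  rcases S.eq_empty_or_nonempty with hS0 | hS0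
  · rw [hS0, Finset.card_empty, Nat.cast_zero]
    positivity
  obtain ⟨a, haS, hamin⟩ : ∃ a ∈ S, ∀ n ∈ S, a ≤ n := ⟨S.min' hS0, S.min'_mem hS0, fun n hn => S.min'_le n hn⟩
  obtain ⟨b, hbS, hbmax⟩ : ∃ b ∈ S, ∀ n ∈ S, n ≤ b := ⟨S.max' hS0, S.max'_mem hS0, fun n hn => S.le_max' n hn⟩
  have hab : a ≤ b := hamin b hbS
  have haA := (Finset.mem_filter.1 haS)
  have hbA := (Finset.mem_filter.1 hbS)
  have hsub : S ⊆ (Finset.Icc a b).filter (fun n => ph n = i) := by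
    intro n hn
    rw [Finset.mem_filter, Finset.mem_Icc]
    exact ⟨⟨hamin n hn, hbmax n hn⟩, (hA n (Finset.mem_filter.1 hn).1).2⟩
  have hcard : (S.card : ℝ) ≤ ((b : ℝ) + 1 - a) / 32 + 32 :=
    le_trans (by exact_mod_cast Finset.card_le_card hsub) (card_ph_interval i hi a b hab)
  have hba : (b : ℝ) - a ≤ ω * ((i : ℝ) + 32) ^ 8 + 1 := by
    rcases hab.lt_or_eq with hlt | heq
    · refine CountP_close F w a b hlt (hA a haA.1).1 _ θ ω ?_ hω (hmono a haA.1 b hbA.1 hab) haA.2.1 hbA.2.2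
      have hb4 : b < (i + 32) ^ 4 := by
        have := lt_of_ph b
        rw [(hA b hbA.1).2] at this
        exact this
      have hb4' : (b : ℝ) ≤ ((i : ℝ) + 32) ^ 4 := by exact_mod_cast hb4.le
      have ha4' : (a : ℝ) + 1 ≤ ((i : ℝ) + 32) ^ 4 := by
        have : a + 1 ≤ (i + 32) ^ 4 := by omega
        exact_mod_cast this
      calc ((a : ℝ) + 1) * b ≤ ((i : ℝ) + 32) ^ 4 * ((i : ℝ) + 32) ^ 4 := by
            apply mul_le_mul ha4' hb4' (Nat.cast_nonneg b) (by positivity)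
        _ = ((i : ℝ) + 32) ^ 8 := by ring
    · rw [heq, sub_self]
      linarith
  linarith

end Pool.Agent.MM1
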