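import Mathlib

/-!
# The Meir-Moser problem at the critical exponent, asymptotic form: definitions

Paper proof: team-store `MM1_PROOF.md`.
-/

namespace Pool.Agent.MM1

/-! ## Geometry: placed axis-parallel rectangles and guillotine refinements -/

/-- A placed axis-parallel rectangle: lower left corner `(x, y)`, horizontal side `a`, vertical side `b`. -/
structure PR where
  x : ℝ
  y : ℝ
  a : ℝ
  b : ℝ

/-- Containment of the closed rectangles. -/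
def PR.Sub (p q : PR) : Prop :=
  q.x ≤ p.x ∧ p.x + p.a ≤ q.x + q.a ∧ q.y ≤ p.y ∧ p.y + p.b ≤ q.y + q.b

/-- Separated by an axis-parallel line (so the interiors are disjoint). -/
def PR.Sep (p q : PR) : Prop :=
  p.x + p.a ≤ q.x ∨ q.x + q.a ≤ p.x ∨ p.y + p.b ≤ q.y ∨ q.y + q.b ≤ p.y

/-- `p` has side lengths `d`, possibly turned by 90 degrees. -/
def PR.Has (p : PR) (d : ℝ × ℝ) : Prop :=
  (p.a = d.1 ∧ p.b = d.2) ∨ (p.a = d.2 ∧ p.b = d.1)

/-- Total area of a multiset of side length pairs. -/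
noncomputable def area (F : Multiset (ℝ × ℝ)) : ℝ := (F.map (fun d => d.1 * d.2)).sum

/-- `Cut F G`: same total area, and every realisation of `F` by pairwise separated rectangles can be
refined to a realisation of `G`. -/
def Cut (F G : Multiset (ℝ × ℝ)) : Prop :=
  area F = area G ∧
  ∀ P : List PR, P.Pairwise PR.Sep → Multiset.Rel PR.Has (P : Multiset PR) F →
    ∃ Q : List PR, Q.Pairwise PR.Sep ∧ Multiset.Rel PR.Has (Q : Multiset PR) G ∧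
      ∀ q ∈ Q, ∃ p ∈ P, q.Sub p

/-! ## The family of rectangles -/

/-- The block of `n`: the largest `i` with `i ^ 4 ≤ n`. -/
def blk (n : ℕ) : ℕ := Nat.sqrt (Nat.sqrt n)

/-- The phase in which `n` is placed (unless it is used earlier as an ends slot). -/
def ph (n : ℕ) : ℕ := blk n - n % 32

/-- The data: rectangles `x n × y n`, `n ≥ n0`, with `x n, y n ∈ [1/(n+1), 1/n]`, and a container
`a × b` of the same area with aspect ratio at most `2`. -/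
structure Fam where
  n0 : ℕ
  k0 : ℕ
  x : ℕ → ℝ
  y : ℕ → ℝ
  a : ℝ
  b : ℝ
  hx : ∀ n, n0 ≤ n → 1 / ((n : ℝ) + 1) ≤ x n ∧ x n ≤ 1 / (n : ℝ)
  hy : ∀ n, n0 ≤ n → 1 / ((n : ℝ) + 1) ≤ y n ∧ y n ≤ 1 / (n : ℝ)
  hk0 : k0 ^ 3 + 32 ≤ blk n0
  hk1 : blk n0 < (k0 + 1) ^ 3 + 32
  ha : 0 < a
  hb : 0 < b
  hab : a ≤ 2 * b
  hba : b ≤ 2 * a
  harea : HasSum (fun n => x (n0 + n) * y (n0 + n)) (a * b)

/-- lower thickness threshold of class `i` -/
noncomputable def Th (i : ℕ) : ℝ := 1 / ((i : ℝ) ^ 4 - 1)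

/-- upper thickness threshold of class `i` (equal to `Th (i - 1)`) -/
noncomputable def Tp (i : ℕ) : ℝ := 1 / (((i : ℝ) - 1) ^ 4 - 1)

/-- smallest admissible thickness of an irregular rectangle of tag `k` -/
noncomputable def del (k : ℕ) : ℝ := 1 / (k : ℝ) ^ 13

/-- largest thickness of the irregular rectangles present in super-epoch `k` -/
noncomputable def wmax (k : ℕ) : ℝ := 1 / (((k : ℝ) - 1) ^ 12 - 1) + 1 / ((k : ℝ) - 1) ^ 13

/-- State of the construction: `w n` is the width of the strip in which `n` was placed, `E` the ends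
slots used so far, `Z` the irregular rectangles (thickness, length, tag), `X × Y` the reservoir. -/
structure St where
  w : ℕ → ℝ
  E : Finset ℕ
  Z : Multiset (ℝ × ℝ × ℕ)
  X : ℝ
  Y : ℝ

namespace Fam
variable (F : Fam)

/-- the slots of phase `i` -/
def P (i : ℕ) : Finset ℕ := (Finset.Ico F.n0 ((i + 32) ^ 4)).filter (fun n => ph n = i)

/-- the slots filled before phase `i` (with ends slots `E`) -/
def done (i : ℕ) (E : Finset ℕ) : Finset ℕ :=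
  (Finset.Ico F.n0 ((i + 32) ^ 4)).filter (fun n => ph n < i) ∪ E

/-- possible ends slots of super-epoch `k` -/
def slots (k : ℕ) : Finset ℕ :=
  (Finset.Ico (max F.n0 (k ^ 12)) ((k + 1) ^ 12)).filter (fun n => 64 ∣ n)

/-- class `i` slivers -/
noncomputable def cls (i : ℕ) (w : ℕ → ℝ) (D : Finset ℕ) : Finset ℕ :=
  D.filter (fun n => Th i ≤ w n - F.x n ∧ w n - F.x n < Tp i)

/-- the slivers of the placed numbers in `A` -/
noncomputable def sliv (w : ℕ → ℝ) (A : Finset ℕ) : Multiset (ℝ × ℝ) :=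
  A.val.map (fun n => (w n - F.x n, F.y n))

/-- the rectangles with index in `A` -/
noncomputable def units (A : Finset ℕ) : Multiset (ℝ × ℝ) := A.val.map (fun n => (F.x n, F.y n))

/-- all free rectangles before phase `i` -/
noncomputable def free (i : ℕ) (s : St) : Multiset (ℝ × ℝ) :=
  {(s.X, s.Y)} + s.Z.map (fun z => (z.1, z.2.1)) +
    F.sliv s.w ((F.done i s.E).filter (fun n => s.w n - F.x n < Tp i))

end Fam

/-- `z` is an irregular rectangle of tag `k` with admissible sides -/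
def Zgood (k : ℕ) (z : ℝ × ℝ × ℕ) : Prop :=
  z.2.2 = k ∧ del k ≤ z.1 ∧ z.1 ≤ 1 / (k : ℝ) ^ 12 + del k ∧
    1 / ((k : ℝ) + 1) ^ 12 ≤ z.2.1 ∧ z.2.1 ≤ 2 / (k : ℝ) ^ 12

/-- total length of irregular rectangles -/
noncomputable def lenZ (Z : Multiset (ℝ × ℝ × ℕ)) : ℝ := (Z.map (fun z => z.2.1)).sum

/-- total area of irregular rectangles -/
noncomputable def areaZ (Z : Multiset (ℝ × ℝ × ℕ)) : ℝ := (Z.map (fun z => z.1 * z.2.1)).sum

/-- The ends phase `k`. -/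
structure EndsStep (F : Fam) (k : ℕ) (s m : St) : Prop where
  hX : m.X = s.X
  hY : m.Y = s.Y
  hEs : s.E ⊆ m.E
  hEk : m.E \ s.E ⊆ F.slots k
  hw : ∀ n ∈ F.done (k ^ 3) s.E, m.w n = s.w n
  hmono : ∀ n ∈ m.E \ s.E, ∀ n' ∈ m.E \ s.E, n ≤ n' → m.w n ≤ m.w n'
  hrange : ∀ n ∈ m.E \ s.E, Th (k ^ 3) ≤ m.w n ∧ m.w n ≤ wmax k
  hZ : ∃ Zk Zi Ze : Multiset (ℝ × ℝ × ℕ), s.Z = Zk + Zi ∧ m.Z = Zk + Ze ∧
    Multiset.card Ze = Multiset.card Zi ∧ (∀ z ∈ Zk, z.1 < Th (k ^ 3)) ∧ (∀ z ∈ Ze, Zgood k z)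
  hcard : ((m.E \ s.E).card : ℝ) ≤ lenZ s.Z * ((k : ℝ) + 1) ^ 12
  hareaZ : areaZ m.Z + ∑ n ∈ m.E \ s.E, m.w n * F.y n = areaZ s.Z
  hcut : Cut (F.free (k ^ 3) s) (F.units (m.E \ s.E) + F.free (k ^ 3) m)

/-- The regular phase `i` in super-epoch `k`. -/
structure RegStep (F : Fam) (k i : ℕ) (s t : St) : Prop where
  hE : t.E = s.E
  hw : ∀ n ∈ F.done i s.E, t.w n = s.w n
  hmono : ∀ n ∈ F.P i \ s.E, ∀ n' ∈ F.P i \ s.E, n ≤ n' → t.w n ≤ t.w n'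
  hrange : ∀ n ∈ F.P i \ s.E, Th i ≤ t.w n ∧ t.w n ≤ Tp i
  hZ : ∃ Zn : Multiset (ℝ × ℝ × ℕ), t.Z = s.Z + Zn ∧ (∀ z ∈ Zn, Zgood k z) ∧
    Multiset.card Zn ≤ (F.cls i s.w (F.done i s.E)).card + 3 * i ^ 2
  hXY : 0 < t.X ∧ 0 < t.Y ∧ t.X ≤ 2 * t.Y ∧ t.Y ≤ 2 * t.X
  hcut : Cut (F.free i s) (F.units (F.P i \ s.E) + F.free (i + 1) t)

/-- Ends phase if `i = k ^ 3`, otherwise nothing. -/
def Mid (F : Fam) (k i : ℕ) (s m : St) : Prop :=
  (i = k ^ 3 → EndsStep F k s m) ∧ (i ≠ k ^ 3 → m = s)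

/-- One full step. -/
def Step (F : Fam) (i : ℕ) (s t : St) : Prop :=
  ∃ k m, k ^ 3 ≤ i ∧ i < (k + 1) ^ 3 ∧ Mid F k i s m ∧ RegStep F k i m t

/-- The initial state. -/
noncomputable def init (F : Fam) : St := ⟨fun _ => 0, ∅, 0, F.a, F.b⟩

/-- `f` is a run of the construction up to (before) phase `i`. -/
def Run (F : Fam) (f : ℕ → St) (i : ℕ) : Prop :=
  f (F.k0 ^ 3) = init F ∧ ∀ j, F.k0 ^ 3 ≤ j → j < i → Step F j (f j) (f (j + 1))

/-- What is known about the widths before the regular phase `i`. -/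
structure Hist (F : Fam) (i : ℕ) (w : ℕ → ℝ) (E : Finset ℕ) : Prop where
  hE : ∀ n ∈ E, F.n0 ≤ n ∧ 64 ∣ n ∧ ∃ k, F.k0 < k ∧ k ^ 12 ≤ n ∧ n < (k + 1) ^ 12 ∧ k ^ 3 ≤ i
  monoE : ∀ k, ∀ n ∈ E, ∀ n' ∈ E, k ^ 12 ≤ n → n ≤ n' → n' < (k + 1) ^ 12 → w n ≤ w n'
  rangeE : ∀ k, ∀ n ∈ E, k ^ 12 ≤ n → n < (k + 1) ^ 12 → Th (k ^ 3) ≤ w n ∧ w n ≤ wmax k
  monoP : ∀ j, j < i → ∀ n n', F.n0 ≤ n → n ≤ n' → ph n = j → ph n' = j → n ∉ E → n' ∉ E →
    w n ≤ w n'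
  rangeP : ∀ j, j < i → ∀ n, F.n0 ≤ n → ph n = j → n ∉ E → Th j ≤ w n ∧ w n ≤ Tp j

end Pool.Agent.MM1
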