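import Pool.Agent.MP_94f265_co.MM1.Fill
import Pool.Agent.MP_94f265_co.MM1.NumDef

namespace Pool.Agent.MM1

theorem Ends_zero (F : Fam) (k : ℕ) (s : St) (h : s.Z = 0) : EndsStep F k s s := by
  have h0 : s.E \ s.E = ∅ := Finset.sdiff_self _
  refine ⟨rfl, rfl, Finset.Subset.refl _, ?_, fun _ _ => rfl, ?_, ?_, ?_, ?_, ?_, ?_⟩
  · rw [h0]; exact Finset.empty_subset _
  · intro n hn
    rw [h0] at hn
    exact absurd hn (Finset.notMem_empty n)
  · intro n hn
    rw [h0] at hn
    exact absurd hn (Finset.notMem_empty n)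
  · exact ⟨0, 0, 0, by rw [h, add_zero], by rw [h, add_zero], rfl,
      fun z hz => absurd hz (Multiset.notMem_zero z), fun z hz => absurd hz (Multiset.notMem_zero z)⟩
  · rw [h0, h]
    simp [lenZ]
  · rw [h0, Finset.sum_empty, add_zero]
  · rw [h0]
    exact Cut.of_eq (by simp [Fam.units])

theorem Ends_sort (Zi : Multiset (ℝ × ℝ × ℕ)) : ∃ L : List (ℝ × ℝ × ℕ), (L : Multiset (ℝ × ℝ × ℕ)) = Zi ∧
    L.Pairwise (fun p q => p.1 ≤ q.1) := by
  classical
  let r : (ℝ × ℝ × ℕ) → (ℝ × ℝ × ℕ) → Prop := fun p q => p.1 ≤ q.1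
  have : Std.Total r := ⟨fun a b => le_total a.1 b.1⟩
  have : IsTrans _ r := ⟨fun a b c h1 h2 => le_trans (α := ℝ) h1 h2⟩
  refine ⟨Zi.toList.insertionSort r, ?_, List.pairwise_insertionSort r _⟩
  rw [Multiset.coe_eq_coe.2 (List.perm_insertionSort r _), Multiset.coe_toList]

/-- areas -/
theorem Ends_area (Z : Multiset (ℝ × ℝ × ℕ)) : areaZ Z = area (Z.map (fun z => (z.1, z.2.1))) := by
  rw [areaZ, area, Multiset.map_map]
  rfl

theorem Ends_Th_pos {k : ℕ} (hN : NumEp k) : 0 < Th (k ^ 3) := by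
  have := hN.hk
  have hk : (0 : ℝ) < 1 / ((k : ℝ) + 1) ^ 12 := by positivity
  exact hk.trans_le hN.e7

theorem Ends_Th_le {k : ℕ} (hN : NumEp k) : Th (k ^ 3) ≤ Tp (k ^ 3) := by
  have hk := hN.hk
  have h1 : (2 : ℝ) ≤ ((k ^ 3 : ℕ) : ℝ) - 1 := by
    have h2 : 3 ≤ k ^ 3 := by
      calc 3 ≤ k := by omega
        _ = k ^ 1 := (pow_one k).symm
        _ ≤ k ^ 3 := Nat.pow_le_pow_right (by omega) (by norm_num)
    have h3 : (3 : ℝ) ≤ ((k ^ 3 : ℕ) : ℝ) := by exact_mod_cast h2
    linarith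
  unfold Th Tp
  apply one_div_le_one_div_of_le
  · have h2 : (1 : ℝ) < (((k ^ 3 : ℕ) : ℝ) - 1) ^ 4 := by
      calc (1 : ℝ) < 2 ^ 4 := by norm_num
        _ ≤ _ := pow_le_pow_left₀ (by norm_num) h1 4
    linarith
  · have h2 : (((k ^ 3 : ℕ) : ℝ) - 1) ^ 4 ≤ (((k ^ 3 : ℕ) : ℝ)) ^ 4 :=
      pow_le_pow_left₀ (by linarith) (by linarith) 4
    linarith

/-- EXISTENCE OF AN ENDS PHASE.
PROOF.  If `s.Z = 0` take `m = s` (all differences empty, `Zk = Zi = Ze = 0`; `F.units ∅ = 0`).
Otherwise split `s.Z = Zk + Zi` by the predicate `z.1 < Th (k^3)` (`Multiset.filter_add_not`).  Let `L` be a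
list of `Zi` sorted by `z.1` (`Multiset.sort`, or `List.mergeSort`/`insertionSort` of `Zi.toList` with the relation
`fun z z' => z.1 ≤ z'.1`), `strips = L.map (fun z => (z.1, z.2.1))`, `ns = (F.slots k).sort (· ≤ ·)`
(strictly increasing), `δ = del k`, `B = (k+1)^12`.  Hypotheses of `fill_many`: `x n ≤ 1/k^12 < Th (k^3) ≤ z.1`
(`Fam.xy_slots`, `NumEp.e3'`), `1 ≤ y n * B` (`Fam.xy_slots`), capacity: the sum over `Zi` of the lengths is
`≤ lenZ s.Z` (all lengths are `≥ del k ≥ 0`).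
`fill_many` gives `us, vs, W, R`.  Let `Ek = us.toFinset` (`us` is nodup, `Ek ⊆ F.slots k`, and `Ek` is disjoint from
`F.done (k^3) s.E`: numbers in `slots k` have `ph ≥ k^3` (`ph_slots`) and are `≥ k^12`, so not in `s.E` by `hE`).
`m.E = s.E ∪ Ek`, `m.w n = if n ∈ Ek then W n else s.w n`, `Ze = R.map (fun r => (r.1, r.2, k))`,
`m.Z = Zk + Ze`, `m.X = s.X`, `m.Y = s.Y`.
`Zgood k (r, w, k)`: `del k ≤ r < del k + y n ≤ del k + 1/k^12`; `w = z.1` with `Th (k^3) ≤ w ≤ wmax k`:
`NumEp.e7, e4`.  `hrange` same.  `hcard`: `us.length ≤ (sum of lengths) * B`.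
`hcut`: `F.free (k^3) s = {(X,Y)} + Zk.map + Zi.map + sliv`, cut the `Zi` part by `fill_many`; the new slivers all satisfy
`W n - x n ≤ wmax k - 1/(k+1)^12 ≤ 26/k^13 < Th (k^3) ≤ Tp (k^3)` (`NumEp.e1, e3`; `Th ≤ Tp` because
`(k^3-1)^4 ≤ (k^3)^4`), so that
`F.free (k^3) m = {(X,Y)} + Zk.map + Ze.map + sliv (old) + sliv (Ek)`.
`hareaZ`: from the area part of the same `Cut` restricted to the strips: `area strips = Σ x y + Σ (W - x) y + area R`. -/
theorem exists_endsStep (F : Fam) (k : ℕ) (s : St) (hN : NumEp k) (hk : F.k0 ≤ k)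
    (hE : ∀ n ∈ s.E, n < k ^ 12) (hZ : ∀ z ∈ s.Z, del k ≤ z.2.1 ∧ z.1 ≤ wmax k)
    (hcap : s.Z = 0 ∨ lenZ s.Z * ((k : ℝ) + 1) ^ 12 < (F.slots k).card) :
    ∃ m, EndsStep F k s m := by
  classical
  rcases hcap with hcap | hcap
  · exact ⟨s, Ends_zero F k s hcap⟩
  have hk1 : 1 ≤ k := by have := hN.hk; omega
  have hkR : (1 : ℝ) ≤ (k : ℝ) := by exact_mod_cast hk1
  have hdel : 0 ≤ del k := by unfold del; positivity
  have hThp := Ends_Th_pos hN
  set Zk := s.Z.filter (fun z => z.1 < Th (k ^ 3)) with hZk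
  set Zi := s.Z.filter (fun z => ¬ z.1 < Th (k ^ 3)) with hZi
  have hsplit : s.Z = Zk + Zi := (Multiset.filter_add_not _ _).symm
  obtain ⟨L, hL, hLs⟩ := Ends_sort Zi
  have hLmem : ∀ z, z ∈ L → z ∈ Zi := fun z hz => by rw [← hL]; exact hz
  set strips : List (ℝ × ℝ) := L.map (fun z => (z.1, z.2.1)) with hstrips
  set ns := (F.slots k).sort (· ≤ ·) with hns
  have hnsm : ∀ n, n ∈ ns ↔ n ∈ F.slots k := fun n => Finset.mem_sort _
  have hst : ∀ p ∈ strips, Th (k ^ 3) ≤ p.1 ∧ p.1 ≤ wmax k ∧ del k ≤ p.2 := by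
    intro p hp
    rw [hstrips, List.mem_map] at hp
    obtain ⟨z, hz, rfl⟩ := hp
    have h1 := hLmem z hz
    rw [hZi, Multiset.mem_filter] at h1
    exact ⟨not_lt.1 h1.2, (hZ z h1.1).2, (hZ z h1.1).1⟩
  have hslot : ∀ n ∈ ns, F.n0 ≤ n ∧ k ^ 12 ≤ n ∧ n < (k + 1) ^ 12 ∧ 64 ∣ n := fun n hn =>
    F.mem_slots.1 ((hnsm n).1 hn)
  have hxy := fun n (hn : n ∈ ns) => F.xy_slots (hslot n hn).1 hk1 (hslot n hn).2.1 (hslot n hn).2.2.1
  have hlensum : (strips.map (fun p => p.2)).sum ≤ lenZ s.Z := by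
    have h1 : (strips.map (fun p => p.2)).sum = lenZ Zi := by
      rw [hstrips, List.map_map, lenZ, ← hL, Multiset.map_coe, Multiset.sum_coe]
      rfl
    have h2 : lenZ s.Z = lenZ Zk + lenZ Zi := by
      rw [lenZ, hsplit, Multiset.map_add, Multiset.sum_add]
      rfl
    have h3 : 0 ≤ lenZ Zk := by
      unfold lenZ
      apply Multiset.sum_nonneg
      intro x hx
      rw [Multiset.mem_map] at hx
      obtain ⟨z, hz, rfl⟩ := hx
      rw [hZk, Multiset.mem_filter] at hz
      exact hdel.trans (hZ z hz.1).1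
    rw [h1, h2]
    linarith
  have hB : (0 : ℝ) ≤ ((k : ℝ) + 1) ^ 12 := by positivity
  obtain ⟨us, vs, W, R, hnsuv, -, hulen, hRlen, hmono, hW, hR, hcut⟩ :=
    fill_many F (del k) (((k : ℝ) + 1) ^ 12) hdel hB strips ns
      (by
        rw [hstrips, List.pairwise_map]
        exact hLs)
      (by
        have h1 := (F.slots k).sortedLT_sort
        exact h1.pairwise)
      (fun p hp => (hst p hp).2.2)
      (fun n hn => (F.x_pos (hslot n hn).1).le)
      (fun p hp n hn => by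
        have h1 := (hxy n hn).1.2
        have h2 := hN.e3'
        have h3 : (0 : ℝ) ≤ 1 / (k : ℝ) ^ 24 := by positivity
        have h4 := (hst p hp).1
        linarith)
      (fun n hn => (F.y_pos (hslot n hn).1).le)
      (fun n hn => by
        have h1 := (hxy n hn).2.1
        rw [div_le_iff₀ (by positivity)] at h1
        exact h1)
      (by
        rw [hns, Finset.length_sort]
        refine lt_of_le_of_lt ?_ hcap
        exact mul_le_mul_of_nonneg_right hlensum hB)
  have husns : ∀ n ∈ us, n ∈ ns := fun n hn => by rw [hnsuv]; exact List.mem_append_left _ hn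
  have hnd : us.Nodup := by
    have h1 : ns.Nodup := Finset.sort_nodup _ _
    rw [hnsuv] at h1
    exact (List.nodup_append.1 h1).1
  have hEkval : us.toFinset.val = (us : Multiset ℕ) := by
    rw [List.toFinset_val, hnd.dedup]
  have hmemEk : ∀ n, n ∈ us.toFinset ↔ n ∈ us := fun n => List.mem_toFinset
  have husE : ∀ n ∈ us, n ∉ s.E := by
    intro n hn h
    have h1 := hE n h
    have h2 := (hslot n (husns n hn)).2.1
    omega
  have hdisj : Disjoint s.E us.toFinset := by
    rw [Finset.disjoint_left]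
    intro n hn h
    exact husE n ((hmemEk n).1 h) hn
  have hdone : ∀ n ∈ F.done (k ^ 3) s.E, n ∉ us := by
    intro n hn h
    rw [F.mem_done] at hn
    rcases hn with hn | hn
    · have h1 := (ph_slots F ((hnsm n).1 (husns n h))).1
      omega
    · exact husE n h hn
  set m : St := ⟨fun n => if n ∈ us then W n else s.w n, s.E ∪ us.toFinset,
    Zk + ((R.map (fun r => (r.1, r.2, k)) : List (ℝ × ℝ × ℕ)) : Multiset (ℝ × ℝ × ℕ)), s.X, s.Y⟩ with hm
  have hmE : m.E \ s.E = us.toFinset := by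
    change (s.E ∪ us.toFinset) \ s.E = _
    rw [Finset.union_sdiff_left, Finset.sdiff_eq_self_iff_disjoint]
    exact hdisj.symm
  have hmw : ∀ n ∈ us, m.w n = W n := fun n hn => if_pos hn
  have hmw' : ∀ n, n ∉ us → m.w n = s.w n := fun n hn => if_neg hn
  have hWr : ∀ n ∈ us, Th (k ^ 3) ≤ W n ∧ W n ≤ wmax k := by
    intro n hn
    obtain ⟨p, hp, hpW⟩ := hW n hn
    rw [hpW]
    exact ⟨(hst p hp).1, (hst p hp).2.1⟩
  -- the two area identities
  have hstripsM : (strips : Multiset (ℝ × ℝ)) = Zi.map (fun z => (z.1, z.2.1)) := by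
    rw [← hL, Multiset.map_coe]
  have hRM : ((R.map (fun r => (r.1, r.2, k)) : List (ℝ × ℝ × ℕ)) : Multiset (ℝ × ℝ × ℕ)).map
      (fun z => (z.1, z.2.1)) = (R : Multiset (ℝ × ℝ)) := by
    rw [Multiset.map_coe, List.map_map]
    have h1 : ((fun z : ℝ × ℝ × ℕ => (z.1, z.2.1)) ∘ fun r : ℝ × ℝ => (r.1, r.2, k)) = id := by
      funext r
      rfl
    rw [h1, List.map_id]
  have hunits : F.units us.toFinset =
      ((us.map (fun n => (F.x n, F.y n)) : List (ℝ × ℝ)) : Multiset (ℝ × ℝ)) := by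
    rw [Fam.units, hEkval, Multiset.map_coe]
  have hsl : F.sliv m.w us.toFinset =
      ((us.map (fun n => (W n - F.x n, F.y n)) : List (ℝ × ℝ)) : Multiset (ℝ × ℝ)) := by
    rw [Fam.sliv, hEkval, Multiset.map_coe]
    congr 1
    apply List.map_congr_left
    intro n hn
    rw [hmw n hn]
  refine ⟨m, rfl, rfl, Finset.subset_union_left, ?_, ?_, ?_, ?_, ?_, ?_, ?_, ?_⟩
  · rw [hmE]
    intro n hn
    exact (hnsm n).1 (husns n ((hmemEk n).1 hn))
  · intro n hn
    exact hmw' n (hdone n hn)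
  · rw [hmE]
    intro n hn n' hn' hle
    rw [hmemEk] at hn hn'
    rw [hmw n hn, hmw n' hn']
    exact hmono n hn n' hn' hle
  · rw [hmE]
    intro n hn
    rw [hmemEk] at hn
    rw [hmw n hn]
    exact hWr n hn
  · refine ⟨Zk, Zi, _, hsplit, rfl, ?_, ?_, ?_⟩
    · rw [Multiset.coe_card, List.length_map, hRlen, hstrips, List.length_map, ← hL, Multiset.coe_card]
    · intro z hz
      rw [hZk, Multiset.mem_filter] at hz
      exact hz.2
    · intro z hz
      rw [Multiset.mem_coe, List.mem_map] at hz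
      obtain ⟨r, hr, rfl⟩ := hz
      obtain ⟨h1, ⟨n, hn, h2⟩, p, hp, h3⟩ := hR r hr
      have h4 := (hxy n hn).2.2
      have h5 := hst p hp
      have h6 := hN.e7
      have h7 := hN.e4
      refine ⟨rfl, h1, ?_, ?_, ?_⟩
      · change r.1 ≤ _
        linarith
      · change _ ≤ r.2
        rw [h3]
        linarith
      · change r.2 ≤ _
        rw [h3]
        linarith
  · rw [hmE, List.toFinset_card_of_nodup hnd]
    refine hulen.trans ?_
    exact mul_le_mul_of_nonneg_right hlensum hB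
  · rw [hmE]
    have h1 := hcut.1
    rw [area_add, area_add, hstripsM, ← Ends_area, ← hRM, ← Ends_area] at h1
    have h2 : ∑ n ∈ us.toFinset, m.w n * F.y n =
        area ((us.map (fun n => (F.x n, F.y n)) : List (ℝ × ℝ)) : Multiset (ℝ × ℝ)) +
        area ((us.map (fun n => (W n - F.x n, F.y n)) : List (ℝ × ℝ)) : Multiset (ℝ × ℝ)) := by
      rw [← hunits, ← hsl, Fam.units, Fam.sliv, area, area, Multiset.map_map, Multiset.map_map]
      change _ = ∑ n ∈ us.toFinset, F.x n * F.y n + ∑ n ∈ us.toFinset, (m.w n - F.x n) * F.y n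
      rw [← Finset.sum_add_distrib]
      refine Finset.sum_congr rfl fun n _ => ?_
      ring
    have h3 : areaZ m.Z = areaZ Zk +
        areaZ ((R.map (fun r => (r.1, r.2, k)) : List (ℝ × ℝ × ℕ)) : Multiset (ℝ × ℝ × ℕ)) := by
      rw [areaZ, areaZ, areaZ, ← Multiset.sum_add, ← Multiset.map_add]
    have h4 : areaZ s.Z = areaZ Zk + areaZ Zi := by
      rw [areaZ, areaZ, areaZ, ← Multiset.sum_add, ← Multiset.map_add, ← hsplit]
    rw [h2, h3, h4, h1]
    ring
  · rw [hmE]
    have hTp := Ends_Th_le hN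
    set A := (F.done (k ^ 3) s.E).filter (fun n => s.w n - F.x n < Tp (k ^ 3)) with hA
    have hAus : Disjoint A us.toFinset := by
      rw [Finset.disjoint_left]
      intro n hn h
      rw [hA, Finset.mem_filter] at hn
      exact hdone n hn.1 ((hmemEk n).1 h)
    have hfil : (F.done (k ^ 3) m.E).filter (fun n => m.w n - F.x n < Tp (k ^ 3)) = A ∪ us.toFinset := by
      ext n
      rw [Finset.mem_filter, Finset.mem_union, hA, Finset.mem_filter, F.mem_done, F.mem_done]
      change ((F.n0 ≤ n ∧ ph n < k ^ 3 ∨ n ∈ s.E ∪ us.toFinset) ∧ m.w n - F.x n < Tp (k ^ 3)) ↔ _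
      rw [Finset.mem_union]
      by_cases hn : n ∈ us
      · have h1 : m.w n - F.x n < Tp (k ^ 3) := by
          rw [hmw n hn]
          have h2 := (hWr n hn).2
          have h3 := (hxy n (husns n hn)).1.1
          have h4 := hN.e1
          have h5 := hN.e3
          linarith
        constructor
        · intro _
          exact Or.inr ((hmemEk n).2 hn)
        · intro _
          exact ⟨Or.inr (Or.inr ((hmemEk n).2 hn)), h1⟩
      · rw [hmw' n hn, hmemEk]
        constructor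
        · rintro ⟨h1, h2⟩
          left
          refine ⟨?_, h2⟩
          rcases h1 with h1 | h1 | h1
          · exact Or.inl h1
          · exact Or.inr h1
          · exact absurd h1 hn
        · rintro (⟨h1, h2⟩ | h1)
          · refine ⟨?_, h2⟩
            rcases h1 with h1 | h1
            · exact Or.inl h1
            · exact Or.inr (Or.inl h1)
          · exact absurd h1 hn
    have hsA : F.sliv m.w A = F.sliv s.w A := by
      unfold Fam.sliv
      apply Multiset.map_congr rfl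
      intro n hn
      have hn' : n ∈ A := hn
      rw [hA, Finset.mem_filter] at hn'
      rw [hmw' n (hdone n hn'.1)]
    have hsU : F.sliv m.w (A ∪ us.toFinset) = F.sliv s.w A + F.sliv m.w us.toFinset := by
      rw [← hsA]
      unfold Fam.sliv
      rw [← Multiset.map_add, ← Finset.disjUnion_val _ _ hAus, Finset.disjUnion_eq_union]
    have e1 : F.free (k ^ 3) s = ({(s.X, s.Y)} + Zk.map (fun z => (z.1, z.2.1)) + F.sliv s.w A) +
        (strips : Multiset (ℝ × ℝ)) := by
      rw [Fam.free, hstripsM, hsplit, Multiset.map_add, ← hA]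
      abel
    have e2 : F.units us.toFinset + F.free (k ^ 3) m =
        ({(s.X, s.Y)} + Zk.map (fun z => (z.1, z.2.1)) + F.sliv s.w A) +
        (((us.map (fun n => (F.x n, F.y n)) : List (ℝ × ℝ)) : Multiset (ℝ × ℝ)) +
          ((us.map (fun n => (W n - F.x n, F.y n)) : List (ℝ × ℝ)) : Multiset (ℝ × ℝ)) +
          (R : Multiset (ℝ × ℝ))) := by
      rw [Fam.free, hfil, hsU, ← hunits, ← hsl, ← hRM]
      change F.units us.toFinset + ({(s.X, s.Y)} + (Zk +
        ((R.map (fun r => (r.1, r.2, k)) : List (ℝ × ℝ × ℕ)) : Multiset (ℝ × ℝ × ℕ))).map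
          (fun z => (z.1, z.2.1)) + (F.sliv s.w A + F.sliv m.w us.toFinset)) = _
      rw [Multiset.map_add]
      abel
    rw [e1, e2]
    exact Cut.add_left hcut _

end Pool.Agent.MM1
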