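import Pool.Agent.MP_94f265_co.MM1.ZInv
import Pool.Agent.MP_94f265_co.MM1.NumDef

namespace Pool.Agent.MM1

theorem RunZ_wmax (k : ℕ) (hk : 100000 ≤ k) : 1 / (k : ℝ) ^ 12 + del k ≤ wmax k := by
  have hkR : (100000 : ℝ) ≤ (k : ℝ) := by exact_mod_cast hk
  have h1 : (1 : ℝ) < (k : ℝ) - 1 := by linarith
  have h2 : (1 : ℝ) < ((k : ℝ) - 1) ^ 12 := one_lt_pow₀ h1 (by norm_num)
  have h3 : ((k : ℝ) - 1) ^ 12 ≤ (k : ℝ) ^ 12 := pow_le_pow_left₀ (by linarith) (by linarith) 12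
  have h4 : ((k : ℝ) - 1) ^ 13 ≤ (k : ℝ) ^ 13 := pow_le_pow_left₀ (by linarith) (by linarith) 13
  unfold del wmax
  apply add_le_add
  · exact one_div_le_one_div_of_le (by linarith) (by linarith)
  · exact one_div_le_one_div_of_le (pow_pos (by linarith) 13) h4

theorem RunZ_inv (F : Fam) (hK : ∀ k, F.k0 ≤ k → NumEp k) (k : ℕ) (Z : Multiset (ℝ × ℝ × ℕ))
    (h : ZInv F k Z) : ∀ z ∈ Z, z.1 ≤ wmax k ∧ ∃ t, F.k0 ≤ t ∧ t ≤ k ∧ Zgood t z := by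
  intro z hz
  obtain ⟨t, ht0, htk, hg, hor⟩ := h z hz
  have hN := hK k (ht0.trans htk)
  refine ⟨?_, t, ht0, htk, hg⟩
  rcases hor with rfl | hlt
  · exact hg.2.2.1.trans (RunZ_wmax t hN.hk)
  · exact hlt.le.trans hN.e8

/-- Thickness bound for all irregular rectangles before step `i` of super-epoch `k`.
PROOF: `i > k^3`: `zinv_run` with `k`: tag `k`: `z.1 ≤ 1/k^12 + del k = 1/k^12 + 1/k^13 ≤ wmax k` (as
`1/((k-1)^12-1) ≥ 1/k^12`, `1/(k-1)^13 ≥ 1/k^13`), otherwise `z.1 < Th (k^3) ≤ wmax k` (`NumEp.e8`).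
`i = k^3 > k0^3`: `zinv_run` with `k - 1`: tag `k-1`: `NumEp.e5` (for `k-1`), otherwise `NumEp.e6` (for `k-1`).
`i = k0^3`: `Z = 0`.  The tag: `t^3 < i`: in the first case `t ≤ k`, in the second `t ≤ k - 1`. -/
theorem run_Z (F : Fam) (hK : ∀ k, F.k0 ≤ k → NumEp k) (f : ℕ → St) (i k : ℕ)
    (hf : Run F f i) (hi : F.k0 ^ 3 ≤ i) (h1 : k ^ 3 ≤ i) (h2 : i < (k + 1) ^ 3) :
    ∀ z ∈ (f i).Z, z.1 ≤ wmax k ∧ ∃ t, F.k0 ≤ t ∧ t ≤ k ∧ t ^ 3 < i ∧ Zgood t z := by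
  intro z hz
  rcases Nat.lt_or_ge (k ^ 3) i with h3 | h3
  · obtain ⟨h4, t, ht0, htk, hg⟩ := RunZ_inv F hK k _ (zinv_run F f i k hf hi h3 h2.le) z hz
    exact ⟨h4, t, ht0, htk, lt_of_le_of_lt (Nat.pow_le_pow_left htk 3) h3, hg⟩
  · obtain rfl : i = k ^ 3 := le_antisymm h3 h1
    have hk0 : F.k0 ≤ k := (Nat.pow_le_pow_iff_left (by norm_num)).mp hi
    rcases Nat.eq_or_lt_of_le hk0 with h4 | h4
    · exfalso
      rw [← h4, hf.1] at hz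
      exact (Multiset.notMem_zero z) hz
    · obtain ⟨k', rfl⟩ : ∃ k', k = k' + 1 := ⟨k - 1, by omega⟩
      have h5 : k' ^ 3 < (k' + 1) ^ 3 := Nat.pow_lt_pow_left (Nat.lt_succ_self k') (by norm_num)
      obtain ⟨t, ht0, htk, hg, hor⟩ := zinv_run F f _ k' hf hi h5 le_rfl z hz
      have hN := hK k' (ht0.trans htk)
      refine ⟨?_, t, ht0, htk.trans (Nat.le_succ k'),
        lt_of_le_of_lt (Nat.pow_le_pow_left htk 3) h5, hg⟩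
      rcases hor with rfl | hlt
      · exact hg.2.2.1.trans hN.e5
      · exact hlt.le.trans hN.e6

/-- PROOF: `zinv_mid`, thickness as in `run_Z`. -/
theorem mid_Z (F : Fam) (hK : ∀ k, F.k0 ≤ k → NumEp k) (f : ℕ → St) (i k : ℕ) (m : St)
    (hf : Run F f i) (hi : F.k0 ^ 3 ≤ i) (h1 : k ^ 3 ≤ i) (h2 : i < (k + 1) ^ 3)
    (hm : Mid F k i (f i) m) :
    ∀ z ∈ m.Z, z.1 ≤ wmax k ∧ ∃ t, F.k0 ≤ t ∧ t ≤ k ∧ Zgood t z := by
  exact RunZ_inv F hK k _ (zinv_mid F f i k m hf hi h1 h2 hm)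

end Pool.Agent.MM1
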