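import Pool.Agent.MP_94f265_co.MM1.LenGen
import Pool.Agent.MP_94f265_co.MM1.RunZ
import Pool.Agent.MP_94f265_co.MM1.CardTag

namespace Pool.Agent.MM1

theorem LenRun_pow {N j : ℕ} (h : N ^ 3 ≤ (j ^ 3) ^ 10) : (N : ℝ) ≤ (j : ℝ) ^ 10 := by
  have h1 : N ^ 3 ≤ (j ^ 10) ^ 3 := by
    have e : (j ^ 10) ^ 3 = (j ^ 3) ^ 10 := by rw [← pow_mul, ← pow_mul]
    rw [e]
    exact h
  have h2 : N ≤ j ^ 10 := (Nat.pow_le_pow_iff_left (by norm_num)).1 h1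
  exact_mod_cast h2

theorem LenRun_k0 {a i k : ℕ} (hi : a ^ 3 ≤ i) (h2 : i < (k + 1) ^ 3) : a ≤ k := by
  have h3 : a ^ 3 < (k + 1) ^ 3 := lt_of_le_of_lt hi h2
  have h4 : a < k + 1 := (Nat.pow_lt_pow_iff_left (by norm_num)).1 h3
  omega

theorem LenRun_main (F : Fam) (hK : ∀ k, F.k0 ≤ k → NumEp k) (f : ℕ → St) (i k : ℕ)
    (hi : F.k0 ^ 3 ≤ i) (h1 : k ^ 3 ≤ i) (h2 : i < (k + 1) ^ 3)
    (hQ : ∀ j, F.k0 ^ 3 ≤ j → j ≤ i → (Multiset.card (f j).Z) ^ 3 ≤ j ^ 10)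
    (Z : Multiset (ℝ × ℝ × ℕ))
    (hz : ∀ z ∈ Z, z.1 ≤ wmax k ∧ ∃ t, F.k0 ≤ t ∧ t ≤ k ∧ Zgood t z)
    (hc : ∀ j, F.k0 ≤ j → (j + 1) ^ 3 ≤ i →
      Multiset.card (Z.filter (fun z => z.2.2 ≤ j)) ≤ Multiset.card (f ((j + 1) ^ 3)).Z)
    (hcard : Multiset.card Z = Multiset.card (f i).Z) :
    lenZ Z ≤ 40 / (k : ℝ) ^ ((9 : ℝ) / 5) := by
  have hk0 : F.k0 ≤ k := LenRun_k0 hi h2
  refine lenZ_gen k (hK k hk0) Z ?_ ?_ ?_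
  · intro z hzZ
    obtain ⟨ha, t, ht0, htk, htz⟩ := hz z hzZ
    exact ⟨ha, t, htk, hK t ht0, htz⟩
  · intro j hj
    by_cases hjk : F.k0 ≤ j
    · have e1 : (j + 1) ^ 3 ≤ k ^ 3 := Nat.pow_le_pow_left hj 3
      have e2 : (j + 1) ^ 3 ≤ i := e1.trans h1
      have e3 : F.k0 ^ 3 ≤ (j + 1) ^ 3 := Nat.pow_le_pow_left (by omega) 3
      have e4 := LenRun_pow (hQ ((j + 1) ^ 3) e3 e2)
      have e5 : (Multiset.card (Z.filter (fun z => z.2.2 ≤ j)) : ℝ) ≤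
          (Multiset.card (f ((j + 1) ^ 3)).Z : ℝ) := by
        exact_mod_cast hc j hjk e2
      push_cast at e4
      exact e5.trans e4
    · have e0 : Z.filter (fun z => z.2.2 ≤ j) = 0 := by
        rw [Multiset.filter_eq_nil]
        intro z hzZ hzj
        obtain ⟨-, t, ht0, -, htz⟩ := hz z hzZ
        have e1 : z.2.2 = t := htz.1
        omega
      rw [e0, Multiset.card_zero, Nat.cast_zero]
      positivity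
  · rw [hcard]
    have e1 := hQ i hi (le_refl i)
    have e2 : i ^ 10 ≤ ((k + 1) ^ 3) ^ 10 := Nat.pow_le_pow_left h2.le 10
    have e3 := LenRun_pow (e1.trans e2)
    push_cast at e3
    exact e3

/-- PROOF: `lenZ_gen` with `run_Z`; `hcount`: for `j < k0` there is no tag `≤ j` (`run_Z`: tags `≥ k0`; `Zgood` gives `z.2.2 = t`); for
`j ≥ k0`: `(j+1)^3 ≤ k^3 ≤ i`, `card_tag`, and `hQ ((j+1)^3)`: `card^3 ≤ ((j+1)^3)^10 = ((j+1)^10)^3`, so `card ≤ (j+1)^10`.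
`hcard`: `hQ i`, `i^10 ≤ ((k+1)^3)^10`. -/
theorem lenZ_run (F : Fam) (hK : ∀ k, F.k0 ≤ k → NumEp k) (f : ℕ → St) (i k : ℕ)
    (hf : Run F f i) (hi : F.k0 ^ 3 ≤ i) (h1 : k ^ 3 ≤ i) (h2 : i < (k + 1) ^ 3)
    (hQ : ∀ j, F.k0 ^ 3 ≤ j → j ≤ i → (Multiset.card (f j).Z) ^ 3 ≤ j ^ 10) :
    lenZ (f i).Z ≤ 40 / (k : ℝ) ^ ((9 : ℝ) / 5) := by
  refine LenRun_main F hK f i k hi h1 h2 hQ (f i).Z ?_ ?_ rfl
  · intro z hz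
    obtain ⟨ha, t, ht0, htk, -, htz⟩ := run_Z F hK f i k hf hi h1 h2 z hz
    exact ⟨ha, t, ht0, htk, htz⟩
  · intro j hj hji
    exact card_tag F f j i hf hj hji

/-- PROOF: `lenZ_gen` with `mid_Z`, `card_tag_mid`; `card m.Z = card (f i).Z` (`EndsStep.hZ`). -/
theorem lenZ_mid (F : Fam) (hK : ∀ k, F.k0 ≤ k → NumEp k) (f : ℕ → St) (i k : ℕ) (m : St)
    (hf : Run F f i) (hi : F.k0 ^ 3 ≤ i) (h1 : k ^ 3 ≤ i) (h2 : i < (k + 1) ^ 3)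
    (hm : Mid F k i (f i) m)
    (hQ : ∀ j, F.k0 ^ 3 ≤ j → j ≤ i → (Multiset.card (f j).Z) ^ 3 ≤ j ^ 10) :
    lenZ m.Z ≤ 40 / (k : ℝ) ^ ((9 : ℝ) / 5) := by
  refine LenRun_main F hK f i k hi h1 h2 hQ m.Z (mid_Z F hK f i k m hf hi h1 h2 hm) ?_ ?_
  · intro j hj hji
    exact card_tag_mid F f j i k m hf hj hji h1 h2 hm
  · by_cases hik : i = k ^ 3
    · obtain ⟨Zk, Zi, Ze, e1, e2, e3, -⟩ := (hm.1 hik).hZ
      rw [e1, e2, Multiset.card_add, Multiset.card_add, e3]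
    · rw [hm.2 hik]

end Pool.Agent.MM1
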