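import Pool.Agent.MP_94f265_co.MM1.BigD
import Pool.Agent.MP_94f265_co.MM1.LenRun
import Pool.Agent.MP_94f265_co.MM1.CardS
import Pool.Agent.MP_94f265_co.MM1.Ends
import Pool.Agent.MP_94f265_co.MM1.CardZB

namespace Pool.Agent.MM1

/-- The reservoir is never degenerate.
PROOF: induction on `i`; `init F`: `F.ha, F.hb, F.hab, F.hba`; `EndsStep.hX, hY`; `RegStep.hXY`. -/
theorem run_XY (F : Fam) (f : ℕ → St) (i : ℕ) (hf : Run F f i) (hi : F.k0 ^ 3 ≤ i) :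
    0 < (f i).X ∧ 0 < (f i).Y ∧ (f i).X ≤ 2 * (f i).Y ∧ (f i).Y ≤ 2 * (f i).X := by
  rcases eq_or_lt_of_le hi with h0 | h0
  · rw [← h0, hf.1]
    exact ⟨F.ha, F.hb, F.hab, F.hba⟩
  · obtain ⟨j, rfl⟩ : ∃ j, i = j + 1 := ⟨i - 1, by omega⟩
    obtain ⟨k, m, -, -, -, hreg⟩ := hf.2 j (Nat.lt_succ_iff.1 h0) (Nat.lt_succ_self j)
    exact hreg.hXY

/-- The ends phase is always possible.
PROOF: if `i ≠ k^3` take `m = f i`.  If `i = k^3`: `exists_endsStep`: `run_E` (elements of `(f i).E` have super-epoch `k'` with `k'^3 < k^3`, so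
`n < (k'+1)^12 ≤ k^12`); `run_Z` (`z.1 ≤ wmax k`; `Zgood t z`, `t ≤ k - 1` by `t^3 < k^3`: `z.2.1 ≥ 1/(t+1)^12 ≥ 1/k^12 ≥ del k`); capacity:
if `k = k0` then `(f i).Z = 0`; if `k > k0`: `lenZ_run` and `card_slots_ge`, `Big.hG`. -/
theorem exists_mid (F : Fam) (hB : Big F) (f : ℕ → St) (i k : ℕ) (hf : Run F f i)
    (hi : F.k0 ^ 3 ≤ i) (h1 : k ^ 3 ≤ i) (h2 : i < (k + 1) ^ 3) :
    ∃ m, Mid F k i (f i) m := by
  by_cases hik : i = k ^ 3
  · have hkk : F.k0 ≤ k := by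
      have h3 : F.k0 ^ 3 < (k + 1) ^ 3 := lt_of_le_of_lt hi h2
      exact Nat.lt_succ_iff.1 (lt_of_pow_lt_pow_left₀ 3 (Nat.zero_le _) h3)
    have hN := hB.hK k hkk
    have hE : ∀ n ∈ (f i).E, n < k ^ 12 := by
      intro n hn
      obtain ⟨-, -, t, -, -, h4, h5⟩ := run_E F f i hi hf n hn
      rw [hik] at h5
      have h6 : t < k := lt_of_pow_lt_pow_left₀ 3 (Nat.zero_le _) h5
      exact h4.trans_le (Nat.pow_le_pow_left h6 12)
    have hk1 : (1 : ℝ) ≤ k := by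
      have h3 : 1 ≤ k := le_trans (by norm_num) hN.hk
      exact_mod_cast h3
    have hZ : ∀ z ∈ (f i).Z, del k ≤ z.2.1 ∧ z.1 ≤ wmax k := by
      intro z hz
      obtain ⟨h3, t, -, -, h4, hg⟩ := run_Z F hB.hK f i k hf hi h1 h2 z hz
      refine ⟨?_, h3⟩
      rw [hik] at h4
      have h6 : t < k := lt_of_pow_lt_pow_left₀ 3 (Nat.zero_le _) h4
      have h7 : (t : ℝ) + 1 ≤ k := by exact_mod_cast h6
      have ht0 : (0 : ℝ) ≤ t := Nat.cast_nonneg t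
      refine le_trans ?_ hg.2.2.2.1
      unfold del
      apply one_div_le_one_div_of_le (by positivity)
      calc ((t : ℝ) + 1) ^ 12 ≤ (k : ℝ) ^ 12 := pow_le_pow_left₀ (by linarith) h7 12
        _ ≤ (k : ℝ) ^ 13 := pow_le_pow_right₀ hk1 (by norm_num)
    have hcap : (f i).Z = 0 ∨ lenZ (f i).Z * ((k : ℝ) + 1) ^ 12 < (F.slots k).card := by
      rcases eq_or_lt_of_le hkk with h3 | h3
      · left
        rw [hik, ← h3, hf.1]
        rfl
      · right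
        have h4 := lenZ_run F hB.hK f i k hf hi h1 h2 (fun j hj hji =>
          card_Z_bound F hB.hR hB.hK hB.hC f j
            ⟨hf.1, fun l hl1 hl2 => hf.2 l hl1 (hl2.trans_le hji)⟩ hj)
        have h5 := card_slots_ge F k hN h3
        have h6 := hB.hG k hkk
        have h7 : (0 : ℝ) ≤ ((k : ℝ) + 1) ^ 12 := by positivity
        calc lenZ (f i).Z * ((k : ℝ) + 1) ^ 12
            ≤ 40 / (k : ℝ) ^ ((9 : ℝ) / 5) * ((k : ℝ) + 1) ^ 12 :=
              mul_le_mul_of_nonneg_right h4 h7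
          _ < 11 * (k : ℝ) ^ 11 / 64 - 1 := h6
          _ ≤ (F.slots k).card := h5
    obtain ⟨m, hm⟩ := exists_endsStep F k (f i) hN hkk hE hZ hcap
    exact ⟨m, fun _ => hm, fun h => absurd hik h⟩
  · exact ⟨f i, fun h => absurd h hik, fun _ => rfl⟩

end Pool.Agent.MM1
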