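import Pool.Agent.MP_94f265_co.MM1.ExStep

namespace Pool.Agent.MM1

theorem ExRun_ext (F : Fam) (f : ℕ → St) (i : ℕ) (hi : F.k0 ^ 3 ≤ i) (hf : Run F f i) (t : St)
    (ht : Step F i (f i) t) : Run F (Function.update f (i + 1) t) (i + 1) := by
  constructor
  · rw [Function.update_of_ne (by omega)]
    exact hf.1
  · intro j hj1 hj2
    rcases Nat.lt_or_ge j i with h | h
    · rw [Function.update_of_ne (by omega), Function.update_of_ne (by omega)]
      exact hf.2 j hj1 h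
    · have hji : j = i := by omega
      subst hji
      rw [Function.update_of_ne (by omega), Function.update_self]
      exact ht

theorem ExRun_seq (F : Fam) (hB : Big F) : ∃ f : ℕ → ℕ → St,
    (∀ d, Run F (f d) (F.k0 ^ 3 + d)) ∧ ∀ d j, j ≤ F.k0 ^ 3 + d → f (d + 1) j = f d j := by
  classical
  have hstep : ∀ (d : ℕ) (f : ℕ → St), Run F f (F.k0 ^ 3 + d) →
      ∃ g : ℕ → St, Run F g (F.k0 ^ 3 + (d + 1)) ∧ ∀ j, j ≤ F.k0 ^ 3 + d → g j = f j := by
    intro d f hf
    obtain ⟨t, ht⟩ := exists_step F hB f (F.k0 ^ 3 + d) hf (Nat.le_add_right _ _)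
    refine ⟨Function.update f (F.k0 ^ 3 + d + 1) t,
      ExRun_ext F f _ (Nat.le_add_right _ _) hf t ht, fun j hj => ?_⟩
    rw [Function.update_of_ne (by omega)]
  choose! g hg1 hg2 using hstep
  let s : ℕ → ℕ → St := fun d => Nat.rec (fun _ => init F) (fun d f => g d f) d
  have hs0 : s 0 = fun _ => init F := rfl
  have hs1 : ∀ d, s (d + 1) = g d (s d) := fun d => rfl
  have hrun : ∀ d, Run F (s d) (F.k0 ^ 3 + d) := by
    intro d
    induction d with
    | zero =>
      rw [hs0]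
      exact ⟨rfl, fun j h1 h2 => absurd h2 (by omega)⟩
    | succ d ih =>
      rw [hs1]
      exact hg1 d (s d) ih
  refine ⟨s, hrun, fun d j hj => ?_⟩
  rw [hs1]
  exact hg2 d (s d) (hrun d) j hj

/-- INFINITE RUN.
PROOF: build `f` recursively; e.g. show by induction on `d` that there is a run up to `k0^3 + d` and use dependent choice: let
`T d = {f // Run F f (k0^3 + d)}`, `next f = Function.update f (k0^3+d+1) t` with `t` from `exists_step`; the diagonal
`g j = (seq (j - k0^3)) j` is a run up to every `i` since `update` does not change the values at indices `≤ k0^3 + d`. -/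
theorem exists_run (F : Fam) (hB : Big F) : ∃ f : ℕ → St, ∀ i, Run F f i := by
  obtain ⟨f, hf1, hf2⟩ := ExRun_seq F hB
  refine ⟨fun j => f (j - F.k0 ^ 3) j, fun i => ⟨?_, fun j hj1 hj2 => ?_⟩⟩
  · change f (F.k0 ^ 3 - F.k0 ^ 3) (F.k0 ^ 3) = init F
    exact (hf1 _).1
  · obtain ⟨d, rfl⟩ := Nat.exists_eq_add_of_le hj1
    have e1 : F.k0 ^ 3 + d - F.k0 ^ 3 = d := by omega
    have e2 : F.k0 ^ 3 + d + 1 - F.k0 ^ 3 = d + 1 := by omega
    change Step F (F.k0 ^ 3 + d) (f (F.k0 ^ 3 + d - F.k0 ^ 3) (F.k0 ^ 3 + d))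
      (f (F.k0 ^ 3 + d + 1 - F.k0 ^ 3) (F.k0 ^ 3 + d + 1))
    rw [e1, e2, ← hf2 d (F.k0 ^ 3 + d) le_rfl]
    exact (hf1 (d + 1)).2 (F.k0 ^ 3 + d) hj1 (by omega)

end Pool.Agent.MM1
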