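import Pool.Agent.MP_94f265_co.MM1.Basic

namespace Pool.Agent.MM1

/-- telescoping from below -/
theorem SumsA_up (f h : ℕ → ℝ) (hf : ∀ j, f j ≤ h (j + 1) - h j) (h0 : h 0 = 0) (N : ℕ) :
    ∑ j ∈ Finset.range N, f j ≤ h N := by
  induction N with
  | zero => rw [Finset.sum_range_zero, h0]
  | succ N ih =>
    rw [Finset.sum_range_succ]
    have := hf N
    linarith

theorem SumsA_range (J : Finset ℕ) (M : ℕ) (hJ : ∀ j ∈ J, j ≤ M) (f : ℕ → ℝ) (hf0 : ∀ j, 0 ≤ f j) :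
    ∑ j ∈ J, f j ≤ ∑ j ∈ Finset.range (M + 1), f j := by
  apply Finset.sum_le_sum_of_subset_of_nonneg
  · intro j hj
    have := hJ j hj
    rw [Finset.mem_range]
    omega
  · intro j _ _
    exact hf0 j

/-- telescoping from above -/
theorem SumsA_down (f h : ℕ → ℝ) (a : ℕ) (hf : ∀ j, a ≤ j → f j ≤ h j - h (j + 1)) (N : ℕ) :
    ∑ j ∈ Finset.Ico a (a + N), f j ≤ h a - h (a + N) := by
  induction N with
  | zero => rw [add_zero, Finset.Ico_self, Finset.sum_empty, sub_self]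
  | succ N ih =>
    rw [← add_assoc, Finset.sum_Ico_succ_top (by omega)]
    have := hf (a + N) (by omega)
    linarith

theorem SumsA_down' (J : Finset ℕ) (a : ℕ) (hJ : ∀ j ∈ J, a ≤ j) (f h : ℕ → ℝ)
    (hf : ∀ j, a ≤ j → f j ≤ h j - h (j + 1)) (hf0 : ∀ j, a ≤ j → 0 ≤ f j) (h0 : ∀ j, a ≤ j → 0 ≤ h j) :
    ∑ j ∈ J, f j ≤ h a := by
  have h1 : ∑ j ∈ J, f j ≤ ∑ j ∈ Finset.Ico a (a + (J.sup id + 1)), f j := by
    apply Finset.sum_le_sum_of_subset_of_nonneg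
    · intro j hj
      have h2 := hJ j hj
      have h3 : id j ≤ J.sup id := Finset.le_sup hj
      rw [id] at h3
      rw [Finset.mem_Ico]
      omega
    · intro j hj _
      exact hf0 j (Finset.mem_Ico.1 hj).1
  have h2 := SumsA_down f h a hf (J.sup id + 1)
  have h3 := h0 (a + (J.sup id + 1)) (by omega)
  linarith

/-- `Σ j^4 ≤ (M+1)^5/5` over a finite set of naturals `≤ M`.
PROOF: `J ⊆ range (M+1)`, `j^4 ≤ ((j+1)^5 - j^5)/5`, telescoping. -/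
theorem sum_pow4 (J : Finset ℕ) (M : ℕ) (hJ : ∀ j ∈ J, j ≤ M) :
    ∑ j ∈ J, (j : ℝ) ^ 4 ≤ ((M : ℝ) + 1) ^ 5 / 5 := by
  have h1 := SumsA_range J M hJ (fun j => (j : ℝ) ^ 4) (fun j => by positivity)
  have h2 := SumsA_up (fun j => (j : ℝ) ^ 4) (fun j => (j : ℝ) ^ 5 / 5) (fun j => by
    have hj : (0 : ℝ) ≤ j := Nat.cast_nonneg j
    have e1 : 0 ≤ (j : ℝ) ^ 3 := by positivity
    have e2 : 0 ≤ (j : ℝ) ^ 2 := by positivity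
    push_cast
    nlinarith) (by norm_num) (M + 1)
  refine h1.trans (h2.trans ?_)
  push_cast
  exact le_rfl

/-- PROOF: `k^12 ≤ ((k+1)^13 - k^13)/13`, telescoping. -/
theorem sum_pow12 (J : Finset ℕ) (M : ℕ) (hJ : ∀ j ∈ J, j ≤ M) :
    ∑ j ∈ J, (j : ℝ) ^ 12 ≤ ((M : ℝ) + 1) ^ 13 / 13 := by
  have h1 := SumsA_range J M hJ (fun j => (j : ℝ) ^ 12) (fun j => by positivity)
  have h2 := SumsA_up (fun j => (j : ℝ) ^ 12) (fun j => (j : ℝ) ^ 13 / 13) (fun j => by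
    have hj : (0 : ℝ) ≤ j := Nat.cast_nonneg j
    push_cast
    have e0 : ((j : ℝ) + 1) ^ 13 - (j : ℝ) ^ 13 - 13 * (j : ℝ) ^ 12 = 78 * (j : ℝ) ^ 11 + 286 * (j : ℝ) ^ 10 +
        715 * (j : ℝ) ^ 9 + 1287 * (j : ℝ) ^ 8 + 1716 * (j : ℝ) ^ 7 + 1716 * (j : ℝ) ^ 6 + 1287 * (j : ℝ) ^ 5 +
        715 * (j : ℝ) ^ 4 + 286 * (j : ℝ) ^ 3 + 78 * (j : ℝ) ^ 2 + 13 * (j : ℝ) + 1 := by ring
    have e1 : 0 ≤ ((j : ℝ) + 1) ^ 13 - (j : ℝ) ^ 13 - 13 * (j : ℝ) ^ 12 := by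
      rw [e0]; positivity
    linarith) (by norm_num) (M + 1)
  refine h1.trans (h2.trans ?_)
  push_cast
  exact le_rfl

/-- `Σ_{j ∈ J} 1/j^2 ≤ 1/(a-1)` if all `j ≥ a ≥ 2`.
PROOF: `1/j^2 ≤ 1/(j-1) - 1/j`; `J ⊆ Icc a M` for `M = J.sup id`; telescoping. -/
theorem sum_inv_sq (J : Finset ℕ) (a : ℕ) (ha : 2 ≤ a) (hJ : ∀ j ∈ J, a ≤ j) :
    ∑ j ∈ J, 1 / (j : ℝ) ^ 2 ≤ 1 / ((a : ℝ) - 1) := by
  refine SumsA_down' J a hJ (fun j => 1 / (j : ℝ) ^ 2) (fun j => 1 / ((j : ℝ) - 1)) ?_ ?_ ?_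
  · intro j hj
    have hj2 : (2 : ℝ) ≤ j := by exact_mod_cast ha.trans hj
    have hj1 : (0 : ℝ) < (j : ℝ) - 1 := by linarith
    have hj0 : (0 : ℝ) < (j : ℝ) := by linarith
    have e1 : 1 / ((j : ℝ) - 1) - 1 / (((j + 1 : ℕ) : ℝ) - 1) = 1 / (((j : ℝ) - 1) * j) := by
      push_cast
      rw [add_sub_cancel_right]
      field_simp
      ring
    rw [e1]
    apply one_div_le_one_div_of_le (by positivity)
    nlinarith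
  · intro j _
    positivity
  · intro j hj
    have hj2 : (2 : ℝ) ≤ j := by exact_mod_cast ha.trans hj
    apply one_div_nonneg.2
    linarith

/-- `Σ_{j ∈ J} 1/j^3 ≤ 1/(2 (a-1)^2)` if all `j ≥ a ≥ 2`.
PROOF: `1/j^3 ≤ 1/(2 (j-1)^2) - 1/(2 j^2)` (i.e. `2 (j-1)^2 ≤ j (2j - 1)`). -/
theorem sum_inv_cube (J : Finset ℕ) (a : ℕ) (ha : 2 ≤ a) (hJ : ∀ j ∈ J, a ≤ j) :
    ∑ j ∈ J, 1 / (j : ℝ) ^ 3 ≤ 1 / (2 * ((a : ℝ) - 1) ^ 2) := by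
  refine SumsA_down' J a hJ (fun j => 1 / (j : ℝ) ^ 3) (fun j => 1 / (2 * ((j : ℝ) - 1) ^ 2)) ?_ ?_ ?_
  · intro j hj
    have hj2 : (2 : ℝ) ≤ j := by exact_mod_cast ha.trans hj
    have hj1 : (0 : ℝ) < (j : ℝ) - 1 := by linarith
    have hj0 : (0 : ℝ) < (j : ℝ) := by linarith
    have e1 : 1 / (2 * ((j : ℝ) - 1) ^ 2) - 1 / (2 * (((j + 1 : ℕ) : ℝ) - 1) ^ 2) =
        (2 * j - 1) / (2 * ((j : ℝ) - 1) ^ 2 * (j : ℝ) ^ 2) := by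
      push_cast
      rw [add_sub_cancel_right]
      field_simp
      ring
    rw [e1, div_le_div_iff₀ (by positivity) (by positivity)]
    have e2 : 0 ≤ (j : ℝ) ^ 2 * ((3 : ℝ) * j - 2) := by
      have : (0 : ℝ) ≤ 3 * (j : ℝ) - 2 := by linarith
      positivity
    nlinarith
  · intro j _
    positivity
  · intro j hj
    positivity

/-- `Σ_{j ∈ J} 1/j^5 ≤ 1/(4 (a-1)^4)` if all `j ≥ a ≥ 2`.
PROOF: `1/j^5 ≤ 1/(4 (j-1)^4) - 1/(4 j^4)`. -/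
theorem sum_inv_pow5 (J : Finset ℕ) (a : ℕ) (ha : 2 ≤ a) (hJ : ∀ j ∈ J, a ≤ j) :
    ∑ j ∈ J, 1 / (j : ℝ) ^ 5 ≤ 1 / (4 * ((a : ℝ) - 1) ^ 4) := by
  refine SumsA_down' J a hJ (fun j => 1 / (j : ℝ) ^ 5) (fun j => 1 / (4 * ((j : ℝ) - 1) ^ 4)) ?_ ?_ ?_
  · intro j hj
    have hj2 : (2 : ℝ) ≤ j := by exact_mod_cast ha.trans hj
    have hj1 : (0 : ℝ) < (j : ℝ) - 1 := by linarith
    have hj0 : (0 : ℝ) < (j : ℝ) := by linarith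
    have e1 : 1 / (4 * ((j : ℝ) - 1) ^ 4) - 1 / (4 * (((j + 1 : ℕ) : ℝ) - 1) ^ 4) =
        ((j : ℝ) ^ 4 - ((j : ℝ) - 1) ^ 4) / (4 * ((j : ℝ) - 1) ^ 4 * (j : ℝ) ^ 4) := by
      push_cast
      rw [add_sub_cancel_right]
      field_simp
    rw [e1, div_le_div_iff₀ (by positivity) (by positivity)]
    have e2 : (0 : ℝ) ≤ (j : ℝ) ^ 4 * (j * ((j : ℝ) ^ 4 - ((j : ℝ) - 1) ^ 4) - 4 * ((j : ℝ) - 1) ^ 4) := by
      have e3 : (j : ℝ) * ((j : ℝ) ^ 4 - ((j : ℝ) - 1) ^ 4) - 4 * ((j : ℝ) - 1) ^ 4 =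
          10 * ((j : ℝ) - 1) ^ 3 + 10 * ((j : ℝ) - 1) ^ 2 + 5 * ((j : ℝ) - 1) + 1 := by ring
      rw [e3]
      positivity
    linarith
  · intro j _
    positivity
  · intro j hj
    positivity

end Pool.Agent.MM1
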