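import Pool.Agent.MP_94f265_co.MM1.NumDef
import Pool.Agent.MP_94f265_co.MM1.SumsA

namespace Pool.Agent.MM1

/-- Type 1 class sum.
PROOF: `ω := Tp c - Th c ≤ (101/25)/c^5`.  Main part: `(1/j^4) ω (j+32)^8/32 ≤ (ω/32) (101/100) j^4`
(`NumReg.h7`), `Σ_J j^4 ≤ (M+1)^5/5` with `M = max J` (`sum_pow4`), `(M+1)^5 ≤ (101/100) M^5 ≤
(101/100) 133 c^4` (`h9`).  Total `≤ (101/25)(101/100)^2 (133/160) / c ≤ 3.43/c`.
Rest: `33/j^4 ≤ 33 · (1.01/c) · (1/j^2)` (from `c ≤ 1.01 j^2`), and `Σ 1/j^2 ≤ 1/(K-1) ≤ 1/10000`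
(all `j ≥ 100000`), `≤ 0.01/c`.  (`J = ∅` trivial.) -/
theorem type1_sum (J : Finset ℕ) (c : ℕ) (hc : NumReg c) (hJ : ∀ j ∈ J, NumReg j)
    (h5 : ∀ j ∈ J, (j : ℝ) ^ 5 ≤ 133 * (c : ℝ) ^ 4) (h2 : ∀ j ∈ J, (c : ℝ) ≤ 1.01 * (j : ℝ) ^ 2) :
    ∑ j ∈ J, (1 / (j : ℝ) ^ 4) * ((Tp c - Th c) * ((j : ℝ) + 32) ^ 8 / 32 + 33) ≤ (3.45 : ℝ) / (c : ℝ) := by
  have hcR : (100000 : ℝ) ≤ c := by exact_mod_cast hc.hi
  have hc0 : (0 : ℝ) < c := by linarith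
  rcases J.eq_empty_or_nonempty with hJ0 | hJ0
  · rw [hJ0, Finset.sum_empty]
    positivity
  set ω := Tp c - Th c with hω
  have hω0 : 0 ≤ ω := by have := hc.h4; linarith
  have hω1 : ω ≤ (101 / 25) / (c : ℝ) ^ 5 := hc.h2
  have hterm : ∀ j ∈ J, (1 / (j : ℝ) ^ 4) * (ω * ((j : ℝ) + 32) ^ 8 / 32 + 33) ≤
      (ω * (101 / 100) / 32) * (j : ℝ) ^ 4 + (33 * (1.01 / c)) * (1 / (j : ℝ) ^ 2) := by
    intro j hj
    have hjR : (100000 : ℝ) ≤ j := by exact_mod_cast (hJ j hj).hi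
    have hj0 : (0 : ℝ) < j := by linarith
    have h7 := (hJ j hj).h7
    have e1 : (1 / (j : ℝ) ^ 4) * (ω * ((j : ℝ) + 32) ^ 8 / 32) ≤ (ω * (101 / 100) / 32) * (j : ℝ) ^ 4 := by
      have e2 : (1 / (j : ℝ) ^ 4) * (ω * ((j : ℝ) + 32) ^ 8 / 32) = (ω / 32) * (((j : ℝ) + 32) ^ 8 / (j : ℝ) ^ 4) := by
        ring
      have e3 : ((j : ℝ) + 32) ^ 8 / (j : ℝ) ^ 4 ≤ (101 / 100) * (j : ℝ) ^ 4 := by
        rw [div_le_iff₀ (by positivity)]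
        calc ((j : ℝ) + 32) ^ 8 ≤ (101 / 100) * (j : ℝ) ^ 8 := h7
          _ = (101 / 100) * (j : ℝ) ^ 4 * (j : ℝ) ^ 4 := by ring
      rw [e2]
      calc (ω / 32) * (((j : ℝ) + 32) ^ 8 / (j : ℝ) ^ 4) ≤ (ω / 32) * ((101 / 100) * (j : ℝ) ^ 4) :=
            mul_le_mul_of_nonneg_left e3 (by positivity)
        _ = (ω * (101 / 100) / 32) * (j : ℝ) ^ 4 := by ring
    have e4 : (1 / (j : ℝ) ^ 4) * 33 ≤ (33 * (1.01 / c)) * (1 / (j : ℝ) ^ 2) := by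
      have e5 : 1 / (j : ℝ) ^ 2 ≤ 1.01 / c := by
        rw [div_le_div_iff₀ (by positivity) hc0]
        have := h2 j hj
        linarith
      have e6 : (1 / (j : ℝ) ^ 4) * 33 = 33 * ((1 / (j : ℝ) ^ 2) * (1 / (j : ℝ) ^ 2)) := by
        rw [show (j : ℝ) ^ 4 = (j : ℝ) ^ 2 * (j : ℝ) ^ 2 by ring]
        rw [← one_div_mul_one_div]
        ring
      rw [e6]
      have e7 : (1 / (j : ℝ) ^ 2) * (1 / (j : ℝ) ^ 2) ≤ (1.01 / c) * (1 / (j : ℝ) ^ 2) :=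
        mul_le_mul_of_nonneg_right e5 (by positivity)
      linarith
    rw [mul_add]
    linarith
  refine (Finset.sum_le_sum hterm).trans ?_
  rw [Finset.sum_add_distrib, ← Finset.mul_sum, ← Finset.mul_sum]
  obtain ⟨M, hMJ, hMmax⟩ : ∃ M ∈ J, ∀ n ∈ J, n ≤ M := ⟨J.max' hJ0, J.max'_mem hJ0, fun n hn => J.le_max' n hn⟩
  have h3 := sum_pow4 J M hMmax
  have h4 : ((M : ℝ) + 1) ^ 5 ≤ (101 / 100) * (133 * (c : ℝ) ^ 4) :=
    (hJ M hMJ).h9.trans (mul_le_mul_of_nonneg_left (h5 M hMJ) (by norm_num))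
  have h6 : ∑ j ∈ J, (j : ℝ) ^ 4 ≤ (101 / 100) * (133 * (c : ℝ) ^ 4) / 5 := by linarith
  have h7 : (ω * (101 / 100) / 32) * ∑ j ∈ J, (j : ℝ) ^ 4 ≤ (3.43 : ℝ) / c := by
    calc (ω * (101 / 100) / 32) * ∑ j ∈ J, (j : ℝ) ^ 4 ≤
          (ω * (101 / 100) / 32) * ((101 / 100) * (133 * (c : ℝ) ^ 4) / 5) :=
          mul_le_mul_of_nonneg_left h6 (by positivity)
      _ ≤ (((101 / 25) / (c : ℝ) ^ 5) * (101 / 100) / 32) * ((101 / 100) * (133 * (c : ℝ) ^ 4) / 5) := by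
          gcongr
      _ = (((101 / 25) * (101 / 100) / 32) * ((101 / 100) * 133 / 5)) / c := by
          field_simp
      _ ≤ (3.43 : ℝ) / c := by
          apply div_le_div_of_nonneg_right _ hc0.le
          norm_num
  have h8 := sum_inv_sq J 100000 (by norm_num) (fun j hj => (hJ j hj).hi)
  have h9 : (33 * (1.01 / (c : ℝ))) * ∑ j ∈ J, 1 / (j : ℝ) ^ 2 ≤ (0.01 : ℝ) / c := by
    calc (33 * (1.01 / (c : ℝ))) * ∑ j ∈ J, 1 / (j : ℝ) ^ 2 ≤ (33 * (1.01 / (c : ℝ))) * (1 / (((100000 : ℕ) : ℝ) - 1)) :=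
          mul_le_mul_of_nonneg_left h8 (by positivity)
      _ = (33 * 1.01 * (1 / (((100000 : ℕ) : ℝ) - 1))) / c := by ring
      _ ≤ (0.01 : ℝ) / c := by
          apply div_le_div_of_nonneg_right _ hc0.le
          norm_num
  have h10 : (3.43 : ℝ) / c + (0.01 : ℝ) / c ≤ (3.45 : ℝ) / c := by
    rw [← add_div]
    apply div_le_div_of_nonneg_right _ hc0.le
    norm_num
  linarith

/-- Type 2 class sum.
PROOF: main part: `(1/k^12) ω (k+1)^24/64 ≤ (ω/64)(101/100) k^12` (`NumEp.e2`), `Σ k^12 ≤ (M+1)^13/13`,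
`(M+1)^13 ≤ (101/100) M^13 ≤ (101/100) 26 c^4` (`e9`): total `≤ (101/25)(101/100)^2 (26/(13·64))/c ≤ 0.13/c`.
Rest: `2/k^12 = 2 (1/k^6)(1/k^6) ≤ 2 (1.01/c) (1/k^2)` and `Σ 1/k^2 ≤ 1/10000`. -/
theorem type2_sum (J : Finset ℕ) (c : ℕ) (hc : NumReg c) (hJ : ∀ k ∈ J, NumEp k)
    (h5 : ∀ k ∈ J, (k : ℝ) ^ 13 ≤ 26 * (c : ℝ) ^ 4) (h2 : ∀ k ∈ J, (c : ℝ) ≤ 1.01 * (k : ℝ) ^ 6) :
    ∑ k ∈ J, (1 / (k : ℝ) ^ 12) * ((Tp c - Th c) * ((k : ℝ) + 1) ^ 24 / 64 + 2) ≤ (0.14 : ℝ) / (c : ℝ) := by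
  have hcR : (100000 : ℝ) ≤ c := by exact_mod_cast hc.hi
  have hc0 : (0 : ℝ) < c := by linarith
  rcases J.eq_empty_or_nonempty with hJ0 | hJ0
  · rw [hJ0, Finset.sum_empty]
    positivity
  set ω := Tp c - Th c with hω
  have hω0 : 0 ≤ ω := by have := hc.h4; linarith
  have hω1 : ω ≤ (101 / 25) / (c : ℝ) ^ 5 := hc.h2
  have hterm : ∀ j ∈ J, (1 / (j : ℝ) ^ 12) * (ω * ((j : ℝ) + 1) ^ 24 / 64 + 2) ≤
      (ω * (101 / 100) / 64) * (j : ℝ) ^ 12 + (2 * (1.01 / c)) * (1 / (j : ℝ) ^ 2) := by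
    intro j hj
    have hjR : (100000 : ℝ) ≤ j := by exact_mod_cast (hJ j hj).hk
    have hj0 : (0 : ℝ) < j := by linarith
    have hj1 : (1 : ℝ) ≤ j := by linarith
    have h7 := (hJ j hj).e2
    have e1 : (1 / (j : ℝ) ^ 12) * (ω * ((j : ℝ) + 1) ^ 24 / 64) ≤ (ω * (101 / 100) / 64) * (j : ℝ) ^ 12 := by
      have e2 : (1 / (j : ℝ) ^ 12) * (ω * ((j : ℝ) + 1) ^ 24 / 64) = (ω / 64) * (((j : ℝ) + 1) ^ 24 / (j : ℝ) ^ 12) := by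
        ring
      have e3 : ((j : ℝ) + 1) ^ 24 / (j : ℝ) ^ 12 ≤ (101 / 100) * (j : ℝ) ^ 12 := by
        rw [div_le_iff₀ (by positivity)]
        calc ((j : ℝ) + 1) ^ 24 ≤ (101 / 100) * (j : ℝ) ^ 24 := h7
          _ = (101 / 100) * (j : ℝ) ^ 12 * (j : ℝ) ^ 12 := by ring
      rw [e2]
      calc (ω / 64) * (((j : ℝ) + 1) ^ 24 / (j : ℝ) ^ 12) ≤ (ω / 64) * ((101 / 100) * (j : ℝ) ^ 12) :=
            mul_le_mul_of_nonneg_left e3 (by positivity)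
        _ = (ω * (101 / 100) / 64) * (j : ℝ) ^ 12 := by ring
    have e4 : (1 / (j : ℝ) ^ 12) * 2 ≤ (2 * (1.01 / c)) * (1 / (j : ℝ) ^ 2) := by
      have e5 : 1 / (j : ℝ) ^ 6 ≤ 1.01 / c := by
        rw [div_le_div_iff₀ (by positivity) hc0]
        have := h2 j hj
        linarith
      have e5' : 1 / (j : ℝ) ^ 6 ≤ 1 / (j : ℝ) ^ 2 :=
        one_div_le_one_div_of_le (by positivity) (pow_le_pow_right₀ hj1 (by norm_num))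
      have e6 : (1 / (j : ℝ) ^ 12) * 2 = 2 * ((1 / (j : ℝ) ^ 6) * (1 / (j : ℝ) ^ 6)) := by
        rw [show (j : ℝ) ^ 12 = (j : ℝ) ^ 6 * (j : ℝ) ^ 6 by ring]
        rw [← one_div_mul_one_div]
        ring
      rw [e6]
      have e7 : (1 / (j : ℝ) ^ 6) * (1 / (j : ℝ) ^ 6) ≤ (1.01 / c) * (1 / (j : ℝ) ^ 2) :=
        mul_le_mul e5 e5' (by positivity) (by positivity)
      linarith
    rw [mul_add]
    linarith
  refine (Finset.sum_le_sum hterm).trans ?_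
  rw [Finset.sum_add_distrib, ← Finset.mul_sum, ← Finset.mul_sum]
  obtain ⟨M, hMJ, hMmax⟩ : ∃ M ∈ J, ∀ n ∈ J, n ≤ M := ⟨J.max' hJ0, J.max'_mem hJ0, fun n hn => J.le_max' n hn⟩
  have h3 := sum_pow12 J M hMmax
  have h4 : ((M : ℝ) + 1) ^ 13 ≤ (101 / 100) * (26 * (c : ℝ) ^ 4) :=
    (hJ M hMJ).e9.trans (mul_le_mul_of_nonneg_left (h5 M hMJ) (by norm_num))
  have h6 : ∑ j ∈ J, (j : ℝ) ^ 12 ≤ (101 / 100) * (26 * (c : ℝ) ^ 4) / 13 := by linarith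
  have h7 : (ω * (101 / 100) / 64) * ∑ j ∈ J, (j : ℝ) ^ 12 ≤ (0.13 : ℝ) / c := by
    calc (ω * (101 / 100) / 64) * ∑ j ∈ J, (j : ℝ) ^ 12 ≤
          (ω * (101 / 100) / 64) * ((101 / 100) * (26 * (c : ℝ) ^ 4) / 13) :=
          mul_le_mul_of_nonneg_left h6 (by positivity)
      _ ≤ (((101 / 25) / (c : ℝ) ^ 5) * (101 / 100) / 64) * ((101 / 100) * (26 * (c : ℝ) ^ 4) / 13) := by
          gcongr
      _ = (((101 / 25) * (101 / 100) / 64) * ((101 / 100) * 26 / 13)) / c := by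
          field_simp
      _ ≤ (0.13 : ℝ) / c := by
          apply div_le_div_of_nonneg_right _ hc0.le
          norm_num
  have h8 := sum_inv_sq J 100000 (by norm_num) (fun j hj => (hJ j hj).hk)
  have h9 : (2 * (1.01 / (c : ℝ))) * ∑ j ∈ J, 1 / (j : ℝ) ^ 2 ≤ (0.01 : ℝ) / c := by
    calc (2 * (1.01 / (c : ℝ))) * ∑ j ∈ J, 1 / (j : ℝ) ^ 2 ≤ (2 * (1.01 / (c : ℝ))) * (1 / (((100000 : ℕ) : ℝ) - 1)) :=
          mul_le_mul_of_nonneg_left h8 (by positivity)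
      _ = (2 * 1.01 * (1 / (((100000 : ℕ) : ℝ) - 1))) / c := by ring
      _ ≤ (0.01 : ℝ) / c := by
          apply div_le_div_of_nonneg_right _ hc0.le
          norm_num
  have h10 : (0.13 : ℝ) / c + (0.01 : ℝ) / c ≤ (0.14 : ℝ) / c := by
    rw [← add_div]
    apply div_le_div_of_nonneg_right _ hc0.le
    norm_num
  linarith

end Pool.Agent.MM1
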