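import Pool.Agent.MP_94f265_co.MM1.Sig
import Pool.Agent.MP_94f265_co.MM1.SumsB
import Pool.Agent.MP_94f265_co.MM1.CountE

namespace Pool.Agent.MM1

/-- the numerical consequences of a sliver of class `c` in the super-epoch `k` -/
theorem LB2_num {k c : ℕ} (hk : 0 < k) (hc : NumReg c) {s : ℝ} (h1 : 1 / (k : ℝ) ^ 24 ≤ s)
    (h2 : s ≤ 26 / (k : ℝ) ^ 13) (h3 : Th c ≤ s) (h4 : s < Tp c) :
    (k : ℝ) ^ 13 ≤ 26 * (c : ℝ) ^ 4 ∧ (c : ℝ) ≤ 1.01 * (k : ℝ) ^ 6 := by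
  have hk' : (0 : ℝ) < k := by exact_mod_cast hk
  have hc' : (0 : ℝ) < c := by
    have := hc.hi
    have h : 0 < c := by omega
    exact_mod_cast h
  constructor
  · have h5 : 1 / (c : ℝ) ^ 4 ≤ 26 / (k : ℝ) ^ 13 := (hc.h3.le.trans h3).trans h2
    rw [div_le_div_iff₀ (by positivity) (by positivity)] at h5
    linarith
  · have h5 : 1 / (k : ℝ) ^ 24 ≤ (101 / 100) / (c : ℝ) ^ 4 := (h1.trans h4.le).trans hc.h5
    rw [div_le_div_iff₀ (by positivity) (by positivity)] at h5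
    have h6 : (c : ℝ) ^ 4 ≤ (1.01 * (k : ℝ) ^ 6) ^ 4 := by
      have e : (1.01 * (k : ℝ) ^ 6) ^ 4 = 1.01 ^ 4 * (k : ℝ) ^ 24 := by ring
      rw [e]
      have h7 : (101 / 100 : ℝ) * (k : ℝ) ^ 24 ≤ 1.01 ^ 4 * (k : ℝ) ^ 24 := by
        apply mul_le_mul_of_nonneg_right
        · norm_num
        · positivity
      linarith
    exact le_of_pow_le_pow_left₀ (by norm_num) (by positivity) h6

/-- Type 2 part of the class bound.
PROOF: for `n ∈ C = (F.cls c w (F.done i E)).filter (· ∈ E)` let `k(n)` be the super-epoch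
(`Hist.hE`; `k` is determined by `k^12 ≤ n < (k+1)^12`; e.g. take `k(n) = Nat.findGreatest (fun k => k^12 ≤ n) n` or choose it).
Let `J` = image of `C`.  For `k ∈ J`: `NumEp k` (`k > k0`), `1/c^4 < Th c ≤ sig ≤ 26/k^13` gives `k^13 ≤ 26 c^4`;
`1/k^24 ≤ sig < 1.01/c^4` gives `c^4 ≤ 1.01 k^24`, `c ≤ 1.01 k^6`.  Fibre: `count_E` (monotone by `Hist.monoE`), each
`y n ≤ 1/k^12` (`Fam.xy_slots`).  `type2_sum`. -/
theorem len_bound2 (F : Fam) (i : ℕ) (w : ℕ → ℝ) (E : Finset ℕ) (H : Hist F i w E)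
    (hR : ∀ j, F.k0 ^ 3 ≤ j → NumReg j) (hK : ∀ k, F.k0 ≤ k → NumEp k) (c : ℕ)
    (hc : F.k0 ^ 3 ≤ c) :
    ∑ n ∈ (F.cls c w (F.done i E)).filter (fun n => n ∈ E), F.y n ≤ (0.14 : ℝ) / (c : ℝ) := by
  classical
  have hcR := hR c hc
  have hω : 0 ≤ Tp c - Th c := by
    have := hcR.h4
    linarith
  obtain ⟨C, hC⟩ : ∃ C, C = (F.cls c w (F.done i E)).filter (fun n => n ∈ E) := ⟨_, rfl⟩
  rw [← hC]
  have hmem : ∀ n ∈ C, n ∈ E ∧ Th c ≤ w n - F.x n ∧ w n - F.x n < Tp c := by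
    intro n hn
    rw [hC, Finset.mem_filter, F.mem_cls] at hn
    exact ⟨hn.2, hn.1.2⟩
  have hex : ∀ n, ∃ k, n ∈ C → F.k0 < k ∧ k ^ 12 ≤ n ∧ n < (k + 1) ^ 12 := by
    intro n
    by_cases hn : n ∈ C
    · obtain ⟨-, -, k, h1, h2, h3, -⟩ := H.hE n (hmem n hn).1
      exact ⟨k, fun _ => ⟨h1, h2, h3⟩⟩
    · exact ⟨0, fun h => absurd h hn⟩
  choose κ hκ using hex
  have hJ : ∀ k ∈ C.image κ, NumEp k ∧ (k : ℝ) ^ 13 ≤ 26 * (c : ℝ) ^ 4 ∧
      (c : ℝ) ≤ 1.01 * (k : ℝ) ^ 6 := by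
    intro k hk
    obtain ⟨n, hn, rfl⟩ := Finset.mem_image.1 hk
    obtain ⟨h1, h2, h3⟩ := hκ n hn
    obtain ⟨h4, h5, h6⟩ := hmem n hn
    have hN := hK (κ n) h1.le
    obtain ⟨h7, h8⟩ := H.sig_E h4 h2 h3 hN
    exact ⟨hN, LB2_num (by omega) hcR h7 h8 h5 h6⟩
  rw [← Finset.sum_fiberwise_of_maps_to (s := C) (t := C.image κ) (g := κ)
    (fun n hn => Finset.mem_image_of_mem κ hn)]
  refine le_trans (Finset.sum_le_sum ?_)
    (type2_sum (C.image κ) c hcR (fun k hk => (hJ k hk).1) (fun k hk => (hJ k hk).2.1)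
      (fun k hk => (hJ k hk).2.2))
  intro k hk
  have hkN := (hJ k hk).1
  have hk0 : (0 : ℝ) < k := by
    have := hkN.hk
    have h : 0 < k := by omega
    exact_mod_cast h
  obtain ⟨A, hA⟩ : ∃ A, A = E.filter (fun n => k ^ 12 ≤ n ∧ n < (k + 1) ^ 12) := ⟨_, rfl⟩
  have hcount := count_E F k w A (by
    intro n hn
    rw [hA, Finset.mem_filter] at hn
    obtain ⟨h1, h2, -⟩ := H.hE n hn.1
    exact ⟨h1, h2, hn.2.2⟩) (by
    intro n hn n' hn' hle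
    rw [hA, Finset.mem_filter] at hn hn'
    exact H.monoE k n hn.1 n' hn'.1 hn.2.1 hle hn'.2.2) (Th c) (Tp c - Th c) hω
  have hsub : C.filter (fun n => κ n = k) ⊆
      A.filter (fun n => Th c ≤ w n - F.x n ∧ w n - F.x n < Th c + (Tp c - Th c)) := by
    intro n hn
    rw [Finset.mem_filter] at hn
    obtain ⟨hn, rfl⟩ := hn
    obtain ⟨h1, h2, h3⟩ := hκ n hn
    obtain ⟨h4, h5, h6⟩ := hmem n hn
    rw [Finset.mem_filter, hA, Finset.mem_filter]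
    refine ⟨⟨h4, h2, h3⟩, h5, ?_⟩
    linarith
  have hcard : ((C.filter (fun n => κ n = k)).card : ℝ) ≤
      (Tp c - Th c) * ((k : ℝ) + 1) ^ 24 / 64 + 2 := by
    refine le_trans ?_ hcount
    exact_mod_cast Finset.card_le_card hsub
  calc ∑ n ∈ C.filter (fun n => κ n = k), F.y n
      ≤ ∑ _n ∈ C.filter (fun n => κ n = k), (1 / (k : ℝ) ^ 12) := by
        apply Finset.sum_le_sum
        intro n hn
        rw [Finset.mem_filter] at hn
        obtain ⟨hn, rfl⟩ := hn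
        obtain ⟨h1, h2, h3⟩ := hκ n hn
        have h0 := (H.hE n (hmem n hn).1).1
        exact (F.xy_slots h0 (by omega) h2 h3).2.2
    _ = ((C.filter (fun n => κ n = k)).card : ℝ) * (1 / (k : ℝ) ^ 12) := by
        rw [Finset.sum_const, nsmul_eq_mul]
    _ ≤ ((Tp c - Th c) * ((k : ℝ) + 1) ^ 24 / 64 + 2) * (1 / (k : ℝ) ^ 12) := by
        apply mul_le_mul_of_nonneg_right hcard
        positivity
    _ = _ := by ring

end Pool.Agent.MM1
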