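import Pool.Agent.MP_94f265_co.MM1.LB1
import Pool.Agent.MP_94f265_co.MM1.LB2

namespace Pool.Agent.MM1

theorem LB3_class (θ : ℝ) (i : ℕ) (h0 : 0 < θ) (h1 : θ < Tp i) :
    ∃ c, i ≤ c ∧ Th c ≤ θ ∧ θ < Tp c := by
  classical
  have hex : ∃ c, i ≤ c ∧ Th c ≤ θ := by
    obtain ⟨N, hN⟩ := exists_nat_gt (1 / θ)
    refine ⟨max i (N + 2), le_max_left _ _, ?_⟩
    obtain ⟨c, hcdef⟩ : ∃ c, c = max i (N + 2) := ⟨_, rfl⟩
    rw [← hcdef]
    have hc : N + 2 ≤ c := by rw [hcdef]; exact le_max_right _ _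
    have hcR : (N : ℝ) + 2 ≤ (c : ℝ) := by exact_mod_cast hc
    have hN0 : (0 : ℝ) ≤ N := Nat.cast_nonneg _
    have hc2 : (2 : ℝ) ≤ (c : ℝ) := by linarith
    have h3 : (2 : ℝ) ^ 3 ≤ (c : ℝ) ^ 3 := pow_le_pow_left₀ (by norm_num) hc2 3
    have h4 : (c : ℝ) ≤ (c : ℝ) ^ 4 - 1 := by
      have : (c : ℝ) ^ 4 = (c : ℝ) ^ 3 * c := by ring
      rw [this]
      nlinarith
    have h5 : 1 / θ ≤ (c : ℝ) ^ 4 - 1 := by linarith
    unfold Th
    rw [div_le_iff₀ (by linarith)]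
    rw [div_le_iff₀ h0] at h5
    linarith
  refine ⟨Nat.find hex, (Nat.find_spec hex).1, (Nat.find_spec hex).2, ?_⟩
  rcases Nat.lt_or_ge i (Nat.find hex) with h2 | h2
  · obtain ⟨d, hd⟩ : ∃ d, Nat.find hex = d + 1 := ⟨Nat.find hex - 1, by omega⟩
    rw [hd, Tp_succ]
    have h3 := Nat.find_min hex (m := d) (by omega)
    by_contra h4
    exact h3 ⟨by omega, not_lt.mp h4⟩
  · have h3 : Nat.find hex = i := le_antisymm h2 (Nat.find_spec hex).1
    rw [h3]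
    exact h1

theorem LB3_num (i : ℕ) (hi : 100000 ≤ i) :
    (3.636 : ℝ) * (1 / (4 * ((i : ℝ) - 1) ^ 4)) ≤ (0.92 : ℝ) / (i : ℝ) ^ 4 := by
  have hiR : (100000 : ℝ) ≤ (i : ℝ) := by exact_mod_cast hi
  obtain ⟨x, hx⟩ : ∃ x : ℝ, x = (i : ℝ) := ⟨_, rfl⟩
  rw [← hx] at hiR ⊢
  have h1 : 0 < x := by linarith
  have h2 : 0 < x - 1 := by linarith
  rw [mul_one_div, div_le_div_iff₀ (by positivity) (by positivity)]
  have h3 : x ^ 4 - 4 * x ^ 3 ≤ (x - 1) ^ 4 := by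
    have : (x - 1) ^ 4 = x ^ 4 - 4 * x ^ 3 + (6 * x ^ 2 - 4 * x + 1) := by ring
    rw [this]
    nlinarith
  have h4 : 0 < x ^ 3 := by positivity
  have h5 : x ^ 4 = x ^ 3 * x := by ring
  have h6 : 100000 * x ^ 3 ≤ x ^ 4 := by
    rw [h5]
    nlinarith
  nlinarith

/-- THE CLASS BOUND. PROOF: add `len_bound1` and `len_bound2`
(`Finset.sum_filter_add_sum_filter_not`). -/
theorem len_bound (F : Fam) (i : ℕ) (w : ℕ → ℝ) (E : Finset ℕ) (H : Hist F i w E)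
    (hR : ∀ j, F.k0 ^ 3 ≤ j → NumReg j) (hK : ∀ k, F.k0 ≤ k → NumEp k) (c : ℕ)
    (hc : F.k0 ^ 3 ≤ c) :
    ∑ n ∈ F.cls c w (F.done i E), F.y n ≤ (3.6 : ℝ) / (c : ℝ) := by
  classical
  have hN := hR c hc
  have hc0 : (0 : ℝ) < (c : ℝ) := by
    have := hN.hi
    exact_mod_cast (by omega : 0 < c)
  have h1 := len_bound1 F i w E H hR c hc
  have h2 := len_bound2 F i w E H hR hK c hc
  have h3 := Finset.sum_filter_add_sum_filter_not (F.cls c w (F.done i E)) (fun n => n ∈ E) F.y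
  rw [← h3]
  calc _ ≤ (0.14 : ℝ) / (c : ℝ) + (3.45 : ℝ) / (c : ℝ) := add_le_add h2 h1
    _ = (3.59 : ℝ) / (c : ℝ) := by ring
    _ ≤ (3.6 : ℝ) / (c : ℝ) := by
      apply div_le_div_of_nonneg_right _ hc0.le
      norm_num

/-- AREA OF THE UNUSED SLIVERS.
PROOF: every `n` of the set has `0 < sig(n) < Tp i` (`Hist.sig_P`, `Hist.sig_E`), so there is a unique class
`c ≥ i` with `Th c ≤ sig(n) < Tp c`: `Tp (c+1) = Th c` (`Tp_succ`) decreases to `0`; e.g. let `c+1` be the least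
`c' > i` with `Tp c' ≤ sig`.  Let `J` be the (finite) set of these classes.  Then
`Σ sig(n) y n ≤ Σ_{c ∈ J} Tp c * (3.6/c) ≤ Σ_J (1.01 · 3.6)/c^5 ≤ 3.636/(4 (i-1)^4) ≤ 0.92/i^4`
(`len_bound`, `NumReg.h5`, `sum_inv_pow5`; `i ≥ 100000`). -/
theorem area_sliv (F : Fam) (i : ℕ) (w : ℕ → ℝ) (E : Finset ℕ) (H : Hist F i w E)
    (hR : ∀ j, F.k0 ^ 3 ≤ j → NumReg j) (hK : ∀ k, F.k0 ≤ k → NumEp k) (hi : F.k0 ^ 3 ≤ i) :
    ∑ n ∈ (F.done i E).filter (fun n => w n - F.x n < Tp i), (w n - F.x n) * F.y n ≤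
      (0.92 : ℝ) / (i : ℝ) ^ 4 := by
  classical
  -- the elements of the set
  have hpos : ∀ n ∈ F.done i E, F.n0 ≤ n ∧ 0 < w n - F.x n := by
    intro n hn
    by_cases hnE : n ∈ E
    · obtain ⟨h1, -, k, hk, h2, h3, -⟩ := H.hE n hnE
      refine ⟨h1, ?_⟩
      have hNk := hK k hk.le
      have h4 := (H.sig_E hnE h2 h3 hNk).1
      have hk0 : (0 : ℝ) < (k : ℝ) := by
        have := hNk.hk
        exact_mod_cast (by omega : 0 < k)
      exact lt_of_lt_of_le (by positivity) h4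
    · rcases F.mem_done.mp hn with ⟨h1, h2⟩ | h1
      · refine ⟨h1, ?_⟩
        have h3 := F.k0_le_ph h1
        have hNp := hR (ph n) (by omega)
        have h4 := (H.sig_P h1 hnE h2 hNp).1
        have hk0 : (0 : ℝ) < (ph n : ℝ) := by
          have := hNp.hi
          exact_mod_cast (by omega : 0 < ph n)
        exact lt_of_lt_of_le (by positivity) h4
      · exact absurd h1 hnE
  have hcl : ∀ n, ∃ c, n ∈ (F.done i E).filter (fun n => w n - F.x n < Tp i) →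
      i ≤ c ∧ Th c ≤ w n - F.x n ∧ w n - F.x n < Tp c := by
    intro n
    by_cases hn : n ∈ (F.done i E).filter (fun n => w n - F.x n < Tp i)
    · obtain ⟨h1, h2⟩ := Finset.mem_filter.mp hn
      obtain ⟨c, hc⟩ := LB3_class _ i (hpos n h1).2 h2
      exact ⟨c, fun _ => hc⟩
    · exact ⟨0, fun h => absurd h hn⟩
  choose cl hcl using hcl
  obtain ⟨S, hS⟩ : ∃ S, S = (F.done i E).filter (fun n => w n - F.x n < Tp i) := ⟨_, rfl⟩
  rw [← hS] at hcl ⊢
  obtain ⟨J, hJ⟩ : ∃ J, J = S.image cl := ⟨_, rfl⟩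
  have hJi : ∀ c ∈ J, i ≤ c := by
    intro c hc
    rw [hJ, Finset.mem_image] at hc
    obtain ⟨n, hn, rfl⟩ := hc
    exact (hcl n hn).1
  have hmaps : ∀ n ∈ S, cl n ∈ J := fun n hn => by
    rw [hJ]
    exact Finset.mem_image_of_mem _ hn
  have hSd : ∀ n ∈ S, n ∈ F.done i E := fun n hn => by
    rw [hS] at hn
    exact (Finset.mem_filter.mp hn).1
  have hcls : ∀ c ∈ J, ∑ n ∈ S.filter (fun n => cl n = c), (w n - F.x n) * F.y n ≤
      (3.636 : ℝ) * (1 / (c : ℝ) ^ 5) := by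
    intro c hc
    have hic := hJi c hc
    have hN := hR c (hi.trans hic)
    have hc0 : (0 : ℝ) < (c : ℝ) := by
      have := hN.hi
      exact_mod_cast (by omega : 0 < c)
    have hTp0 : 0 ≤ Tp c := by
      have h1 := hN.h3
      have h2 := hN.h4
      have h3 : 0 < 1 / (c : ℝ) ^ 4 := by positivity
      linarith
    calc ∑ n ∈ S.filter (fun n => cl n = c), (w n - F.x n) * F.y n
        ≤ ∑ n ∈ S.filter (fun n => cl n = c), Tp c * F.y n := by
          apply Finset.sum_le_sum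
          intro n hn
          obtain ⟨h1, h2⟩ := Finset.mem_filter.mp hn
          have h3 := (hcl n h1).2.2
          rw [h2] at h3
          exact mul_le_mul_of_nonneg_right h3.le (F.y_pos (hpos n (hSd n h1)).1).le
      _ = Tp c * ∑ n ∈ S.filter (fun n => cl n = c), F.y n := by rw [Finset.mul_sum]
      _ ≤ Tp c * ∑ n ∈ F.cls c w (F.done i E), F.y n := by
          apply mul_le_mul_of_nonneg_left _ hTp0
          apply Finset.sum_le_sum_of_subset_of_nonneg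
          · intro n hn
            obtain ⟨h1, h2⟩ := Finset.mem_filter.mp hn
            have h3 := (hcl n h1).2
            rw [h2] at h3
            exact F.mem_cls.mpr ⟨hSd n h1, h3⟩
          · intro n hn _
            exact (F.y_pos (hpos n (F.mem_cls.mp hn).1).1).le
      _ ≤ ((101 / 100) / (c : ℝ) ^ 4) * ((3.6 : ℝ) / (c : ℝ)) := by
          apply mul_le_mul hN.h5 (len_bound F i w E H hR hK c (hi.trans hic)) _ (by positivity)
          apply Finset.sum_nonneg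
          intro n hn
          exact (F.y_pos (hpos n (F.mem_cls.mp hn).1).1).le
      _ = (3.636 : ℝ) * (1 / (c : ℝ) ^ 5) := by
          field_simp
          norm_num
  have hi5 := (hR i hi).hi
  rw [← Finset.sum_fiberwise_of_maps_to hmaps]
  calc ∑ c ∈ J, ∑ n ∈ S.filter (fun n => cl n = c), (w n - F.x n) * F.y n
      ≤ ∑ c ∈ J, (3.636 : ℝ) * (1 / (c : ℝ) ^ 5) := Finset.sum_le_sum hcls
    _ = (3.636 : ℝ) * ∑ c ∈ J, 1 / (c : ℝ) ^ 5 := by rw [Finset.mul_sum]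
    _ ≤ (3.636 : ℝ) * (1 / (4 * ((i : ℝ) - 1) ^ 4)) := by
        apply mul_le_mul_of_nonneg_left _ (by norm_num)
        exact sum_inv_pow5 J i (by omega) hJi
    _ ≤ (0.92 : ℝ) / (i : ℝ) ^ 4 := LB3_num i hi5

end Pool.Agent.MM1
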