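import Pool.Agent.MP_94f265_co.MM1.Sig

namespace Pool.Agent.MM1

/-- If class `c` is nonempty then `n0 ≤ c^4`.
PROOF: `n` in the class (so `1/c^4 < Th c ≤ sig n`), `n ∉ E`: `j = ph n ≥ k0^3`, `sig ≤ 133/j^5`, `j^5 ≤ 133 c^4`, so
`133 c^4 ≥ k0^15 ≥ 133 · 1.01 k0^12 ≥ 133 n0` (`NumEp.e10` for `k0` and `Fam.n0_lt`; `k0 ≥ 100000`).
`n ∈ E`, super-epoch `k > k0`: `26 c^4 ≥ k^13 ≥ k0^13 ≥ 26 · 1.01 k0^12 ≥ 26 n0`. -/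
theorem n0_le_of_cls (F : Fam) (i : ℕ) (w : ℕ → ℝ) (E : Finset ℕ) (H : Hist F i w E)
    (hR : ∀ j, F.k0 ^ 3 ≤ j → NumReg j) (hK : ∀ k, F.k0 ≤ k → NumEp k) (c : ℕ)
    (hc : F.k0 ^ 3 ≤ c) (hne : (F.cls c w (F.done i E)).Nonempty) : F.n0 ≤ c ^ 4 := by
  obtain ⟨n, hn⟩ := hne
  obtain ⟨hn1, hn2, -⟩ := F.mem_cls.1 hn
  have hRc := hR c hc
  have hK0 := hK F.k0 le_rfl
  have hkb : (100000 : ℝ) ≤ (F.k0 : ℝ) := by exact_mod_cast hK0.hk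
  have hcpos : (0 : ℝ) < (c : ℝ) ^ 4 := by
    have : 0 < c := lt_of_lt_of_le (by norm_num) hRc.hi
    positivity
  -- n0 is at most 1.01 k0^12
  have hn0 : (F.n0 : ℝ) ≤ (101 / 100) * (F.k0 : ℝ) ^ 12 := by
    have h1 : (F.n0 : ℝ) < (((F.k0 : ℝ) + 1) ^ 3 + 32) ^ 4 := by exact_mod_cast F.n0_lt
    have h2 := hK0.e10
    have h3 : (((F.k0 : ℝ) + 1) ^ 3 + 32) ^ 4 ≤ (((F.k0 : ℝ) + 1) ^ 3 + 33) ^ 4 :=
      pow_le_pow_left₀ (by positivity) (by linarith) 4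
    linarith
  have hk12 : (0 : ℝ) ≤ (F.k0 : ℝ) ^ 12 := by positivity
  suffices h : (F.n0 : ℝ) ≤ (c : ℝ) ^ 4 by exact_mod_cast h
  have hlow : 1 / (c : ℝ) ^ 4 < w n - F.x n := lt_of_lt_of_le hRc.h3 hn2
  by_cases hnE : n ∈ E
  · obtain ⟨-, -, k, hk, h1, h2, -⟩ := H.hE n hnE
    have hNk := hK k hk.le
    obtain ⟨-, h3⟩ := H.sig_E hnE h1 h2 hNk
    have hkk : (F.k0 : ℝ) ≤ (k : ℝ) := by exact_mod_cast hk.le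
    have hkpos : (0 : ℝ) < (k : ℝ) ^ 13 := by
      have : (0 : ℝ) < (k : ℝ) := by linarith
      positivity
    have h4 : 1 / (c : ℝ) ^ 4 < 26 / (k : ℝ) ^ 13 := lt_of_lt_of_le hlow h3
    rw [div_lt_div_iff₀ hcpos hkpos] at h4
    have h5 : (F.k0 : ℝ) ^ 13 ≤ (k : ℝ) ^ 13 := pow_le_pow_left₀ (by positivity) hkk 13
    have h6 : (100000 : ℝ) * (F.k0 : ℝ) ^ 12 ≤ (F.k0 : ℝ) ^ 13 := by
      have : (F.k0 : ℝ) ^ 13 = (F.k0 : ℝ) * (F.k0 : ℝ) ^ 12 := by ring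
      rw [this]
      exact mul_le_mul_of_nonneg_right hkb hk12
    linarith
  · rcases F.mem_done.1 hn1 with ⟨h1, h2⟩ | h
    · have hj := F.k0_le_ph h1
      have hNj := hR (ph n) (by omega)
      obtain ⟨-, h3⟩ := H.sig_P h1 hnE h2 hNj
      have hjj : (F.k0 : ℝ) ^ 3 ≤ (ph n : ℝ) := by exact_mod_cast (by omega : F.k0 ^ 3 ≤ ph n)
      have hk3 : (0 : ℝ) < (F.k0 : ℝ) ^ 3 := by
        have : (0 : ℝ) < (F.k0 : ℝ) := by linarith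
        positivity
      have hjpos : (0 : ℝ) < (ph n : ℝ) ^ 5 := by
        have : (0 : ℝ) < (ph n : ℝ) := by linarith
        positivity
      have h4 : 1 / (c : ℝ) ^ 4 < 133 / (ph n : ℝ) ^ 5 := lt_of_lt_of_le hlow h3
      rw [div_lt_div_iff₀ hcpos hjpos] at h4
      have h5 : ((F.k0 : ℝ) ^ 3) ^ 5 ≤ (ph n : ℝ) ^ 5 := pow_le_pow_left₀ hk3.le hjj 5
      have h6 : (100000 : ℝ) * (F.k0 : ℝ) ^ 12 ≤ ((F.k0 : ℝ) ^ 3) ^ 5 := by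
        have : ((F.k0 : ℝ) ^ 3) ^ 5 = (F.k0 : ℝ) ^ 3 * (F.k0 : ℝ) ^ 12 := by ring
        rw [this]
        refine mul_le_mul_of_nonneg_right ?_ hk12
        have h7 : (F.k0 : ℝ) ^ 3 = (F.k0 : ℝ) * ((F.k0 : ℝ) ^ 2) := by ring
        nlinarith [sq_nonneg ((F.k0 : ℝ) - 1)]
      linarith
    · exact absurd h hnE

end Pool.Agent.MM1
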