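import Pool.Agent.MP_94f265_co.MM1.ResFill
import Pool.Agent.MP_94f265_co.MM1.NumDef

namespace Pool.Agent.MM1

theorem RegRes_pos {k i : ℕ} (hi : NumReg i) (hk : NumEp k) : (100000 : ℝ) ≤ (i : ℝ) ∧ (100000 : ℝ) ≤ (k : ℝ) :=
  ⟨by exact_mod_cast hi.hi, by exact_mod_cast hk.hk⟩

theorem RegRes_ik {k i : ℕ} (hi : NumReg i) (hk : NumEp k) (h1 : k ^ 3 ≤ i) (h2 : i < (k + 1) ^ 3) :
    (k : ℝ) ^ 12 ≤ (i : ℝ) ^ 4 ∧ (i : ℝ) ^ 4 ≤ ((k : ℝ) + 1) ^ 12 ∧ (i : ℝ) ^ 4 ≤ (101 / 100) * (k : ℝ) ^ 12 ∧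
      2 * (i : ℝ) ^ 4 ≤ (k : ℝ) ^ 13 := by
  obtain ⟨hiR, hkR⟩ := RegRes_pos hi hk
  have hk12 : (0 : ℝ) < (k : ℝ) ^ 12 := by positivity
  have hki : (k : ℝ) ^ 12 ≤ (i : ℝ) ^ 4 := by
    have h8 : (k ^ 3) ^ 4 ≤ i ^ 4 := Nat.pow_le_pow_left h1 4
    have h9 : k ^ 12 ≤ i ^ 4 := by
      calc k ^ 12 = (k ^ 3) ^ 4 := by ring
        _ ≤ i ^ 4 := h8
    exact_mod_cast h9
  have hik : (i : ℝ) ^ 4 ≤ ((k : ℝ) + 1) ^ 12 := by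
    have h8 : i ^ 4 ≤ ((k + 1) ^ 3) ^ 4 := Nat.pow_le_pow_left h2.le 4
    have h9 : i ^ 4 ≤ (k + 1) ^ 12 := by
      calc i ^ 4 ≤ ((k + 1) ^ 3) ^ 4 := h8
        _ = (k + 1) ^ 12 := by ring
    exact_mod_cast h9
  have hik' : (i : ℝ) ^ 4 ≤ (101 / 100) * (k : ℝ) ^ 12 := by
    have h10 := hk.e10
    have h11 : ((k : ℝ) + 1) ^ 12 ≤ (((k : ℝ) + 1) ^ 3 + 33) ^ 4 := by
      calc ((k : ℝ) + 1) ^ 12 = (((k : ℝ) + 1) ^ 3) ^ 4 := by ring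
        _ ≤ _ := pow_le_pow_left₀ (by positivity) (by linarith) 4
    linarith
  have hk13 : (100000 : ℝ) * (k : ℝ) ^ 12 ≤ (k : ℝ) ^ 13 := by
    have : (k : ℝ) ^ 13 = k * (k : ℝ) ^ 12 := by ring
    rw [this]
    exact mul_le_mul_of_nonneg_right hkR hk12.le
  exact ⟨hki, hik, hik', by linarith⟩

theorem RegRes_small {k i : ℕ} (hi : NumReg i) (hk : NumEp k) (h1 : k ^ 3 ≤ i) (h2 : i < (k + 1) ^ 3) :
    0 < del k ∧ del k ≤ 1 / (56 * (i : ℝ) ^ 2) ∧ del k ≤ 1 / (2 * (i : ℝ) ^ 4) ∧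
      1 / (i : ℝ) ^ 4 ≤ 1 / (56 * (i : ℝ) ^ 2) := by
  obtain ⟨hiR, hkR⟩ := RegRes_pos hi hk
  obtain ⟨hki, hik, hik', hik13⟩ := RegRes_ik hi hk h1 h2
  have hi0 : (0 : ℝ) < (i : ℝ) := by linarith
  have hk0 : (0 : ℝ) < (k : ℝ) := by linarith
  have hi4 : (0 : ℝ) < (i : ℝ) ^ 4 := by positivity
  have hi24 : 10000000000 * (i : ℝ) ^ 2 ≤ (i : ℝ) ^ 4 := by
    have h3 : (10000000000 : ℝ) ≤ (i : ℝ) ^ 2 := by nlinarith
    have h4 : (i : ℝ) ^ 4 = (i : ℝ) ^ 2 * (i : ℝ) ^ 2 := by ring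
    rw [h4]
    exact mul_le_mul_of_nonneg_right h3 (by positivity)
  have hi2 : (0 : ℝ) < (i : ℝ) ^ 2 := by positivity
  unfold del
  refine ⟨by positivity, ?_, ?_, ?_⟩
  · exact one_div_le_one_div_of_le (by positivity) (by linarith)
  · exact one_div_le_one_div_of_le (by positivity) hik13
  · exact one_div_le_one_div_of_le (by positivity) (by linarith)

theorem RegRes_X {i : ℕ} {X Y : ℝ} (hi0 : (0 : ℝ) < (i : ℝ)) (hX : 0 < X) (hYX : Y ≤ 2 * X) (hle : X ≤ Y)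
    (hlo : 1 / (20 * (i : ℝ) ^ 4) ≤ X * Y) (hhi : X * Y ≤ 2 / (i : ℝ) ^ 4) :
    1 / (7 * (i : ℝ) ^ 2) ≤ X ∧ X ≤ 2 / (i : ℝ) ^ 2 := by
  have hi4 : (0 : ℝ) < (i : ℝ) ^ 4 := by positivity
  constructor
  · have h3 : X * Y ≤ 2 * X ^ 2 := by
      have := mul_le_mul_of_nonneg_left hYX hX.le
      calc X * Y ≤ X * (2 * X) := this
        _ = 2 * X ^ 2 := by ring
    have h4 : (1 / (7 * (i : ℝ) ^ 2)) ^ 2 ≤ X ^ 2 := by
      have h5 : (1 / (7 * (i : ℝ) ^ 2)) ^ 2 = 1 / (49 * (i : ℝ) ^ 4) := by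
        field_simp
        norm_num
      have h6 : 1 / (49 * (i : ℝ) ^ 4) ≤ 1 / (40 * (i : ℝ) ^ 4) := by
        apply one_div_le_one_div_of_le (by positivity)
        linarith
      have h7 : 1 / (40 * (i : ℝ) ^ 4) = 1 / (20 * (i : ℝ) ^ 4) / 2 := by
        field_simp
        norm_num
      rw [h5]
      linarith
    exact (pow_le_pow_iff_left₀ (by positivity) hX.le two_ne_zero).1 h4
  · have h4 : X ^ 2 ≤ (2 / (i : ℝ) ^ 2) ^ 2 := by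
      have h5 : (2 / (i : ℝ) ^ 2) ^ 2 = 4 / (i : ℝ) ^ 4 := by
        rw [div_pow]
        congr 1
        · norm_num
        · ring
      have h6 : 2 / (i : ℝ) ^ 4 ≤ 4 / (i : ℝ) ^ 4 := div_le_div_of_nonneg_right (by norm_num) hi4.le
      have h7 : X ^ 2 ≤ X * Y := by
        calc X ^ 2 = X * X := by ring
          _ ≤ X * Y := mul_le_mul_of_nonneg_left hle hX.le
      rw [h5]
      linarith
    exact (pow_le_pow_iff_left₀ hX.le (by positivity) two_ne_zero).1 h4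

theorem RegRes_count {i : ℕ} {X c : ℝ} (hi0 : (0 : ℝ) < (i : ℝ)) (hX : 0 < X)
    (hXlo : 1 / (7 * (i : ℝ) ^ 2) ≤ X) (hc : c ≤ 5 * (i : ℝ) ^ 3) :
    c * (2 * (1 / (i : ℝ) ^ 4) / X) ≤ 70 * (i : ℝ) := by
  have h3 : 2 * (1 / (i : ℝ) ^ 4) / X ≤ 14 / (i : ℝ) ^ 2 := by
    rw [div_le_iff₀ hX]
    have h4 : 14 / (i : ℝ) ^ 2 * (1 / (7 * (i : ℝ) ^ 2)) = 2 * (1 / (i : ℝ) ^ 4) := by
      field_simp
      norm_num
    rw [← h4]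
    exact mul_le_mul_of_nonneg_left hXlo (by positivity)
  calc c * (2 * (1 / (i : ℝ) ^ 4) / X) ≤ (5 * (i : ℝ) ^ 3) * (14 / (i : ℝ) ^ 2) := by
        refine mul_le_mul hc h3 (by positivity) (by positivity)
    _ = 70 * (i : ℝ) := by field_simp; norm_num

theorem RegRes_width {i : ℕ} {X T : ℝ} (hiR : (100000 : ℝ) ≤ (i : ℝ)) (hT : T ≤ (101 / 100) / (i : ℝ) ^ 4)
    (hXlo : 1 / (7 * (i : ℝ) ^ 2) ≤ X) : T * (70 * (i : ℝ) + 1) ≤ X / 2 := by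
  have hi0 : (0 : ℝ) < (i : ℝ) := by linarith
  have hi4 : (0 : ℝ) < (i : ℝ) ^ 4 := by positivity
  have h3 : T * (70 * (i : ℝ) + 1) ≤ (101 / 100) / (i : ℝ) ^ 4 * (71 * (i : ℝ)) :=
    mul_le_mul hT (by linarith) (by positivity) (by positivity)
  have h4 : (101 / 100) / (i : ℝ) ^ 4 * (71 * (i : ℝ)) ≤ 1 / (14 * (i : ℝ) ^ 2) := by
    rw [div_mul_eq_mul_div, div_le_div_iff₀ hi4 (by positivity)]
    have h5 : (i : ℝ) ^ 4 = i * (i : ℝ) ^ 3 := by ring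
    have h6 : (101 / 100 : ℝ) * (71 * (i : ℝ)) * (14 * (i : ℝ) ^ 2) = (100394 / 100) * (i : ℝ) ^ 3 := by ring
    rw [h6, h5, one_mul]
    exact mul_le_mul_of_nonneg_right (by linarith) (by positivity)
  have h5 : 1 / (14 * (i : ℝ) ^ 2) = 1 / (7 * (i : ℝ) ^ 2) / 2 := by
    field_simp
    norm_num
  linarith

/-- the pieces of the last strip -/
theorem RegRes_pieces {k i : ℕ} (hi : NumReg i) (hk : NumEp k) (h1 : k ^ 3 ≤ i) (h2 : i < (k + 1) ^ 3)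
    {L : ℝ} (hL1 : del k ≤ L) (hL2 : L ≤ 2 / (i : ℝ) ^ 2) :
    ∃ q : ℕ, 1 ≤ q ∧ (q : ℝ) ≤ 2 * (i : ℝ) ^ 2 + 1 ∧ L / q ≤ 1 / (i : ℝ) ^ 4 ∧ del k ≤ L / q := by
  obtain ⟨hiR, hkR⟩ := RegRes_pos hi hk
  obtain ⟨hd0, hd1, hd2, -⟩ := RegRes_small hi hk h1 h2
  have hi0 : (0 : ℝ) < (i : ℝ) := by linarith
  have hi4 : (0 : ℝ) < (i : ℝ) ^ 4 := by positivity
  have hL0 : 0 < L := by linarith
  have hqpos : 1 ≤ ⌈L * (i : ℝ) ^ 4⌉₊ := Nat.one_le_iff_ne_zero.2 (Nat.ceil_pos.2 (by positivity)).ne'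
  have hq1 : L * (i : ℝ) ^ 4 ≤ (⌈L * (i : ℝ) ^ 4⌉₊ : ℝ) := Nat.le_ceil _
  have hq2 : (⌈L * (i : ℝ) ^ 4⌉₊ : ℝ) < L * (i : ℝ) ^ 4 + 1 := Nat.ceil_lt_add_one (by positivity)
  generalize ⌈L * (i : ℝ) ^ 4⌉₊ = q at hqpos hq1 hq2
  have hq0 : (0 : ℝ) < (q : ℝ) := by exact_mod_cast hqpos
  refine ⟨q, hqpos, ?_, ?_, ?_⟩
  · have h5 : L * (i : ℝ) ^ 4 ≤ 2 / (i : ℝ) ^ 2 * (i : ℝ) ^ 4 := mul_le_mul_of_nonneg_right hL2 hi4.le
    have h6 : 2 / (i : ℝ) ^ 2 * (i : ℝ) ^ 4 = 2 * (i : ℝ) ^ 2 := by field_simp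
    linarith
  · rw [div_le_div_iff₀ hq0 hi4, one_mul]
    exact hq1
  · rcases Nat.lt_or_ge q 2 with h3 | h3
    · have h4 : q = 1 := by omega
      rw [h4, Nat.cast_one, div_one]
      exact hL1
    · have h4 : (2 : ℝ) ≤ q := by exact_mod_cast h3
      have h5 : (q : ℝ) ≤ 2 * (L * (i : ℝ) ^ 4) := by linarith
      refine hd2.trans ?_
      rw [div_le_div_iff₀ (by positivity) hq0]
      linarith

theorem RegRes_Tp {k i : ℕ} (hi : NumReg i) (hk : NumEp k) (h1 : k ^ 3 ≤ i) (h2 : i < (k + 1) ^ 3) :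
    0 < Tp i ∧ 1 / ((k : ℝ) + 1) ^ 12 ≤ Tp i ∧ Tp i ≤ 2 / (k : ℝ) ^ 12 ∧ 1 / (i : ℝ) ^ 4 ≤ 1 / (k : ℝ) ^ 12 ∧
      1 / (i : ℝ) ^ 4 ≤ Tp i := by
  obtain ⟨hiR, hkR⟩ := RegRes_pos hi hk
  obtain ⟨hki, hik, hik', hik13⟩ := RegRes_ik hi hk h1 h2
  have hi4 : (0 : ℝ) < (i : ℝ) ^ 4 := by positivity
  have hk12 : (0 : ℝ) < (k : ℝ) ^ 12 := by positivity
  have hTp := hi.h5
  have hTh := hi.h3
  have hTT := hi.h4
  have h0 : (0 : ℝ) < 1 / (i : ℝ) ^ 4 := by positivity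
  have h3 : 1 / ((k : ℝ) + 1) ^ 12 ≤ 1 / (i : ℝ) ^ 4 := one_div_le_one_div_of_le hi4 hik
  have h4 : (101 / 100) / (i : ℝ) ^ 4 ≤ 2 / (k : ℝ) ^ 12 := by
    rw [div_le_div_iff₀ hi4 hk12]
    linarith
  exact ⟨by linarith, by linarith, by linarith, one_div_le_one_div_of_le hk12 hki, by linarith⟩

/-- the final multiset -/
theorem RegRes_cut (F : Fam) (k q m : ℕ) (T L X Y : ℝ) (V : Finset ℕ) (R : List (ℝ × ℝ)) (hL : 0 ≤ L)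
    (hq : 1 ≤ q)
    (hcut : Cut {(X, Y)}
        (((V.toList.map (fun n => (F.x n, F.y n)) : List (ℝ × ℝ)) : Multiset (ℝ × ℝ)) +
          ((V.toList.map (fun n => (T - F.x n, F.y n)) : List (ℝ × ℝ)) : Multiset (ℝ × ℝ)) +
          (R : Multiset (ℝ × ℝ)) + {(L, T)} + {(X, Y - m * T)})) :
    Cut {(X, Y)} (F.units V + F.sliv (fun _ => T) V +
      (((R.map (fun r => (r.1, r.2, k)) : List (ℝ × ℝ × ℕ)) : Multiset (ℝ × ℝ × ℕ)) +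
        Multiset.replicate q (L / q, T, k)).map (fun z => (z.1, z.2.1)) + {(X, Y - m * T)}) := by
  have e1 : F.units V = ((V.toList.map (fun n => (F.x n, F.y n)) : List (ℝ × ℝ)) : Multiset (ℝ × ℝ)) := by
    unfold Fam.units
    rw [← Multiset.map_coe, Finset.coe_toList]
  have e2 : F.sliv (fun _ => T) V =
      ((V.toList.map (fun n => (T - F.x n, F.y n)) : List (ℝ × ℝ)) : Multiset (ℝ × ℝ)) := by
    unfold Fam.sliv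
    rw [← Multiset.map_coe, Finset.coe_toList]
  have e3 : (((R.map (fun r => (r.1, r.2, k)) : List (ℝ × ℝ × ℕ)) : Multiset (ℝ × ℝ × ℕ)) +
      Multiset.replicate q (L / q, T, k)).map (fun z => (z.1, z.2.1)) =
      (R : Multiset (ℝ × ℝ)) + Multiset.replicate q (L / q, T) := by
    rw [Multiset.map_add, Multiset.map_replicate, Multiset.map_coe, List.map_map]
    congr 1
    have : ((fun z : ℝ × ℝ × ℕ => (z.1, z.2.1)) ∘ fun r : ℝ × ℝ => (r.1, r.2, k)) = id := by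
      funext r
      rfl
    rw [this, List.map_id]
  rw [e1, e2, e3]
  refine hcut.trans ?_
  have h3 := cut_pieces L T hL q hq
  have h4 := Cut.add_left h3 (((V.toList.map (fun n => (F.x n, F.y n)) : List (ℝ × ℝ)) : Multiset (ℝ × ℝ)) +
        ((V.toList.map (fun n => (T - F.x n, F.y n)) : List (ℝ × ℝ)) : Multiset (ℝ × ℝ)) +
        (R : Multiset (ℝ × ℝ)))
  refine (h4.add_right {(X, Y - m * T)}).trans (Cut.of_eq ?_)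
  rw [add_assoc _ (R : Multiset (ℝ × ℝ)) (Multiset.replicate q (L / q, T))]

theorem RegRes_core (F : Fam) (k i : ℕ) (X Y : ℝ) (V : Finset ℕ) (hi : NumReg i) (hk : NumEp k)
    (h1 : k ^ 3 ≤ i) (h2 : i < (k + 1) ^ 3) (hV : V ⊆ F.P i) (hVc : (V.card : ℝ) ≤ 5 * (i : ℝ) ^ 3)
    (hX : 0 < X) (hY : 0 < Y) (hXY : X ≤ 2 * Y) (hYX : Y ≤ 2 * X) (hle : X ≤ Y)
    (hlo : 1 / (20 * (i : ℝ) ^ 4) ≤ X * Y) (hhi : X * Y ≤ 2 / (i : ℝ) ^ 4) :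
    ∃ (X' Y' : ℝ) (Zn : Multiset (ℝ × ℝ × ℕ)), 0 < X' ∧ 0 < Y' ∧ X' ≤ 2 * Y' ∧ Y' ≤ 2 * X' ∧
      (∀ z ∈ Zn, Zgood k z) ∧ Multiset.card Zn ≤ 3 * i ^ 2 ∧
      Cut {(X, Y)} (F.units V + F.sliv (fun _ => Tp i) V + Zn.map (fun z => (z.1, z.2.1)) +
        {(X', Y')}) := by
  classical
  by_cases hVe : V = ∅
  · refine ⟨X, Y, 0, hX, hY, hXY, hYX, ?_, ?_, ?_⟩
    · intro z hz
      exact absurd hz (Multiset.notMem_zero _)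
    · rw [Multiset.card_zero]; exact Nat.zero_le _
    · rw [hVe]
      refine Cut.of_eq ?_
      unfold Fam.sliv Fam.units
      rw [Finset.empty_val, Multiset.map_zero, Multiset.map_zero, Multiset.map_zero, zero_add, zero_add, zero_add]
  obtain ⟨hiR, hkR⟩ := RegRes_pos hi hk
  obtain ⟨hd0, hd1, hd2, hη⟩ := RegRes_small hi hk h1 h2
  obtain ⟨hTp0, hTk1, hTk2, hik2, hiT⟩ := RegRes_Tp hi hk h1 h2
  have hi0 : (0 : ℝ) < (i : ℝ) := by linarith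
  obtain ⟨hXlo, hXhi⟩ := RegRes_X hi0 hX hYX hle hlo hhi
  have hne : V.toList ≠ [] := fun h3 => hVe (Finset.toList_eq_nil.1 h3)
  have hnsP : ∀ n ∈ V.toList, F.n0 ≤ n ∧ ph n = i := by
    intro n hn
    exact F.mem_P.1 (hV (Finset.mem_toList.1 hn))
  have hcount := RegRes_count hi0 hX hXlo (c := (V.toList.length : ℝ)) (by rw [Finset.length_toList]; exact hVc)
  have hwid := RegRes_width hiR hi.h5 hXlo
  have h56 : 1 / (56 * (i : ℝ) ^ 2) = 1 / (7 * (i : ℝ) ^ 2) / 8 := by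
    field_simp
    norm_num
  have h7 : (0 : ℝ) < 1 / (7 * (i : ℝ) ^ 2) := by positivity
  have hYcap : Tp i * ((V.toList.length : ℝ) * (2 * (1 / (i : ℝ) ^ 4) / X) + 1) ≤ Y := by
    have h3 : Tp i * ((V.toList.length : ℝ) * (2 * (1 / (i : ℝ) ^ 4) / X) + 1) ≤ Tp i * (70 * (i : ℝ) + 1) :=
      mul_le_mul_of_nonneg_left (by linarith) hTp0.le
    linarith
  obtain ⟨m, R, L, g1, g2, g3, g4, g5, g6⟩ :=
    res_fill F (del k) (1 / (i : ℝ) ^ 4) (Tp i) X hd0.le (by positivity) hTp0.le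
      (by linarith) Y V.toList hne
      (fun n hn => ⟨(F.x_pos (hnsP n hn).1).le, ((F.xy_phase (hnsP n hn).1 (hnsP n hn).2).1.2).trans hiT⟩)
      (fun n hn => ⟨(F.y_pos (hnsP n hn).1).le, (F.xy_phase (hnsP n hn).1 (hnsP n hn).2).2.2⟩) hYcap
  have hm : (m : ℝ) ≤ 70 * (i : ℝ) + 1 := by linarith
  have hmw : (m : ℝ) * Tp i ≤ X / 2 := by
    have h3 : (m : ℝ) * Tp i ≤ (70 * (i : ℝ) + 1) * Tp i := mul_le_mul_of_nonneg_right hm hTp0.le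
    linarith
  have hm0 : 0 ≤ (m : ℝ) * Tp i := by positivity
  obtain ⟨q, q1, q2, q3, q4⟩ := RegRes_pieces hi hk h1 h2 g3 (g4.trans hXhi)
  refine ⟨X, Y - m * Tp i, ((R.map (fun r => (r.1, r.2, k)) : List (ℝ × ℝ × ℕ)) : Multiset (ℝ × ℝ × ℕ)) +
    Multiset.replicate q (L / q, Tp i, k), hX, by linarith, by linarith, by linarith, ?_, ?_,
    RegRes_cut F k q m (Tp i) L X Y V R (by linarith) q1 g6⟩
  · intro z hz
    rcases Multiset.mem_add.1 hz with h3 | h3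
    · obtain ⟨r, hr, rfl⟩ := List.mem_map.1 (Multiset.mem_coe.1 h3)
      obtain ⟨h4, h5, h6⟩ := g5 r hr
      refine ⟨rfl, h4, ?_, ?_, ?_⟩
      · show r.1 ≤ _
        linarith
      · show _ ≤ r.2
        rw [h6]; exact hTk1
      · show r.2 ≤ _
        rw [h6]; exact hTk2
    · rw [Multiset.mem_replicate] at h3
      rw [h3.2]
      refine ⟨rfl, q4, ?_, hTk1, hTk2⟩
      show L / q ≤ _
      linarith
  · rw [Multiset.card_add, Multiset.coe_card, List.length_map, Multiset.card_replicate]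
    have h3 : (R.length : ℝ) ≤ m := by exact_mod_cast g2
    have h4 : 100000 * (i : ℝ) ≤ (i : ℝ) ^ 2 := by
      calc 100000 * (i : ℝ) ≤ (i : ℝ) * (i : ℝ) := mul_le_mul_of_nonneg_right hiR hi0.le
        _ = (i : ℝ) ^ 2 := by ring
    have h5 : (R.length : ℝ) + (q : ℝ) ≤ 3 * (i : ℝ) ^ 2 := by linarith
    exact_mod_cast h5

/-- The reservoir part of phase `i`: fill the slots `V`.
PROOF: by symmetry (`Cut.swap`) assume `X ≤ Y` (then the new reservoir is `(X, Y')`; in the other case swap the roles).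
`X^2 ≥ XY/2 ≥ 1/(40 i^4)` so `X ≥ 1/(7 i^2)`; `X^2 ≤ XY ≤ 2/i^4`, `X ≤ 2/i^2` (`4 ≥ 2`).
If `V = ∅`: nothing (`Zn = 0`).  Otherwise `res_fill` with `δ = del k`, `η = 1/i^4`, `w = Tp i`, `ns = V.toList`
(or sorted): `2 δ + 2 η ≤ 2/k^13 + 2/i^4 ≤ 1/(7 i^2)` (as `i < (k+1)^3`, `k ≥ 100000`),
number of strips `m ≤ 5 i^3 · 14/i^2 + 1 = 70 i + 1` (`card V ≤ 5 i^3` given), total width
`m · Tp i ≤ (70 i + 1) · 1.01/i^4 ≤ 1/(14 i^2) ≤ X/2 ≤ Y/2`; new reservoir `(X, Y - m Tp i)`: `Y/2 ≤ Y - m Tp i`, so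
`X ≤ 2 (Y - m Tp i)`, `Y - m Tp i ≤ Y ≤ 2 X`.
Left over `(L, Tp i)`, `del k ≤ L ≤ X`: cut into `q = ⌈L i^4⌉₊ ≥ 1` equal pieces (`cut_pieces`): `q ≤ L i^4 + 1 ≤ 2 i^2 + 1`;
`L/q ≤ 1/i^4 ≤ 1/k^12`; `L/q ≥ del k`: if `q = 1` clear; if `q ≥ 2` then `L i^4 > 1`, `q < L i^4 + 1 < 2 L i^4`,
`L/q > 1/(2 i^4) ≥ 1/k^13`.
`Zn = R.map (r, w, k) + replicate q (L/q, Tp i, k)`; `Zgood`: `Tp i ≤ 1.01/i^4 ≤ 2/k^12`, `Tp i ≥ Th i > 1/i^4 ≥ 1/(k+1)^12`.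
Number: `m + q ≤ 70 i + 1 + 2 i^2 + 1 ≤ 3 i^2`. -/
theorem reg_res (F : Fam) (k i : ℕ) (X Y : ℝ) (V : Finset ℕ) (hi : NumReg i) (hk : NumEp k)
    (h1 : k ^ 3 ≤ i) (h2 : i < (k + 1) ^ 3) (hV : V ⊆ F.P i) (hVc : (V.card : ℝ) ≤ 5 * (i : ℝ) ^ 3)
    (hX : 0 < X) (hY : 0 < Y) (hXY : X ≤ 2 * Y) (hYX : Y ≤ 2 * X)
    (hlo : 1 / (20 * (i : ℝ) ^ 4) ≤ X * Y) (hhi : X * Y ≤ 2 / (i : ℝ) ^ 4) :
    ∃ (X' Y' : ℝ) (Zn : Multiset (ℝ × ℝ × ℕ)), 0 < X' ∧ 0 < Y' ∧ X' ≤ 2 * Y' ∧ Y' ≤ 2 * X' ∧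
      (∀ z ∈ Zn, Zgood k z) ∧ Multiset.card Zn ≤ 3 * i ^ 2 ∧
      Cut {(X, Y)} (F.units V + F.sliv (fun _ => Tp i) V + Zn.map (fun z => (z.1, z.2.1)) +
        {(X', Y')}) := by
  rcases le_total X Y with h | h
  · exact RegRes_core F k i X Y V hi hk h1 h2 hV hVc hX hY hXY hYX h hlo hhi
  · have hlo' : 1 / (20 * (i : ℝ) ^ 4) ≤ Y * X := by rw [mul_comm Y X]; exact hlo
    have hhi' : Y * X ≤ 2 / (i : ℝ) ^ 4 := by rw [mul_comm Y X]; exact hhi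
    obtain ⟨X', Y', Zn, g1, g2, g3, g4, g5, g6, g7⟩ :=
      RegRes_core F k i Y X V hi hk h1 h2 hV hVc hY hX hYX hXY h hlo' hhi'
    exact ⟨X', Y', Zn, g1, g2, g3, g4, g5, g6, (Cut.swap X Y).trans g7⟩

end Pool.Agent.MM1
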