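import Pool.Agent.MP_94f265_co.MM1.RegCls
import Pool.Agent.MP_94f265_co.MM1.RegRes

namespace Pool.Agent.MM1

theorem Reg_sliv_union (F : Fam) (w : ℕ → ℝ) {A B : Finset ℕ} (h : Disjoint A B) :
    F.sliv w (A ∪ B) = F.sliv w A + F.sliv w B := by
  unfold Fam.sliv
  rw [← Finset.disjUnion_eq_union A B h, ← Multiset.map_add]
  rfl

theorem Reg_units_union (F : Fam) {A B : Finset ℕ} (h : Disjoint A B) :
    F.units (A ∪ B) = F.units A + F.units B := by
  unfold Fam.units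
  rw [← Finset.disjUnion_eq_union A B h, ← Multiset.map_add]
  rfl

theorem Reg_sliv_congr (F : Fam) {w w' : ℕ → ℝ} {A : Finset ℕ} (h : ∀ n ∈ A, w n = w' n) :
    F.sliv w A = F.sliv w' A := by
  unfold Fam.sliv
  refine Multiset.map_congr rfl fun n hn => ?_
  rw [h n hn]

/-- the slivers before the phase -/
theorem Reg_before (F : Fam) (w : ℕ → ℝ) (i : ℕ) (D : Finset ℕ) (hT : Th i < Tp i) :
    F.sliv w (D.filter (fun n => w n - F.x n < Tp i)) =
      F.sliv w (F.cls i w D) + F.sliv w (D.filter (fun n => w n - F.x n < Th i)) := by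
  rw [← Reg_sliv_union]
  · congr 1
    ext n
    rw [Finset.mem_union, Finset.mem_filter, Finset.mem_filter, F.mem_cls]
    constructor
    · rintro ⟨h1, h2⟩
      rcases lt_or_ge (w n - F.x n) (Th i) with h3 | h3
      · exact Or.inr ⟨h1, h3⟩
      · exact Or.inl ⟨h1, h3, h2⟩
    · rintro (⟨h1, h2, h3⟩ | ⟨h1, h2⟩)
      · exact ⟨h1, h3⟩
      · exact ⟨h1, h2.trans hT⟩
  · rw [Finset.disjoint_left]
    intro n h1 h2
    rw [F.mem_cls] at h1
    rw [Finset.mem_filter] at h2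
    exact absurd h2.2 (not_lt.2 h1.2.1)

/-- the slivers after the phase -/
theorem Reg_after (F : Fam) (w w' W : ℕ → ℝ) (i : ℕ) (E U V : Finset ℕ) (hi : NumReg i)
    (hUV : F.P i \ E = U ∪ V) (hdis : Disjoint U V) (hw : ∀ n ∈ F.done i E, w' n = w n)
    (hU : ∀ n ∈ U, w' n = W n) (hV : ∀ n ∈ V, w' n = Tp i) (hrange : ∀ n ∈ U ∪ V, w' n ≤ Tp i) :
    F.sliv w' ((F.done (i + 1) E).filter (fun n => w' n - F.x n < Tp (i + 1))) =
      F.sliv w ((F.done i E).filter (fun n => w n - F.x n < Th i)) + (F.sliv W U + F.sliv (fun _ => Tp i) V) := by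
  have hP : ∀ n ∈ U ∪ V, F.n0 ≤ n ∧ ph n = i ∧ n ∉ E := by
    intro n hn
    rw [← hUV, Finset.mem_sdiff, F.mem_P] at hn
    exact ⟨hn.1.1, hn.1.2, hn.2⟩
  have hsmall : ∀ n ∈ U ∪ V, w' n - F.x n < Th i := by
    intro n hn
    obtain ⟨h1, h2, -⟩ := hP n hn
    have h3 := (F.xy_phase h1 h2).1.1
    have h4 := hrange n hn
    have h5 := hi.h1
    have h6 := hi.h6
    linarith
  have e1 : (F.done (i + 1) E).filter (fun n => w' n - F.x n < Tp (i + 1)) =
      (F.done i E).filter (fun n => w n - F.x n < Th i) ∪ (U ∪ V) := by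
    ext n
    rw [Tp_succ, Finset.mem_filter, Finset.mem_union, Finset.mem_filter]
    constructor
    · rintro ⟨h1, h2⟩
      by_cases h3 : n ∈ F.done i E
      · left
        refine ⟨h3, ?_⟩
        rw [← hw n h3]
        exact h2
      · right
        rw [F.mem_done] at h1 h3
        push Not at h3
        rw [← hUV, Finset.mem_sdiff, F.mem_P]
        rcases h1 with ⟨h4, h5⟩ | h4
        · exact ⟨⟨h4, le_antisymm (by omega) (h3.1 h4)⟩, h3.2⟩
        · exact absurd h4 h3.2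
    · rintro (⟨h1, h2⟩ | h1)
      · refine ⟨?_, ?_⟩
        · rw [F.mem_done] at h1 ⊢
          rcases h1 with ⟨h3, h4⟩ | h3
          · exact Or.inl ⟨h3, by omega⟩
          · exact Or.inr h3
        · rw [hw n h1]
          exact h2
      · obtain ⟨h3, h4, h5⟩ := hP n h1
        refine ⟨?_, hsmall n h1⟩
        rw [F.mem_done]
        exact Or.inl ⟨h3, by omega⟩
  have hd : Disjoint ((F.done i E).filter (fun n => w n - F.x n < Th i)) (U ∪ V) := by
    rw [Finset.disjoint_left]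
    intro n h1 h2
    obtain ⟨h3, h4, h5⟩ := hP n h2
    have h6 := (Finset.mem_filter.1 h1).1
    rw [F.mem_done] at h6
    rcases h6 with ⟨-, h7⟩ | h7
    · omega
    · exact h5 h7
  rw [e1, Reg_sliv_union F w' hd, Reg_sliv_union F w' hdis]
  rw [Reg_sliv_congr F (w := w') (w' := w) fun n hn => hw n (Finset.mem_filter.1 hn).1,
    Reg_sliv_congr F hU, Reg_sliv_congr F hV]

theorem Reg_tag (R : Multiset (ℝ × ℝ)) (k : ℕ) :
    (R.map (fun r => ((r.1, r.2, k) : ℝ × ℝ × ℕ))).map (fun z => (z.1, z.2.1)) = R := by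
  rw [Multiset.map_map]
  have : ((fun z : ℝ × ℝ × ℕ => (z.1, z.2.1)) ∘ fun r : ℝ × ℝ => (r.1, r.2, k)) = id := by
    funext r
    rfl
  rw [this, Multiset.map_id]

theorem Reg_bounds {k i : ℕ} (hi : NumReg i) (hk : NumEp k) (h1 : k ^ 3 ≤ i) (h2 : i < (k + 1) ^ 3) :
    1 / ((k : ℝ) + 1) ^ 12 ≤ Th i ∧ Tp i ≤ 2 / (k : ℝ) ^ 12 := by
  have hi0 : (0 : ℝ) < (i : ℝ) := by
    have := hi.hi
    have h3 : 0 < i := by omega
    exact_mod_cast h3
  have hk0 : (0 : ℝ) < (k : ℝ) := by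
    have := hk.hk
    have h3 : 0 < k := by omega
    exact_mod_cast h3
  have hki : (k : ℝ) ^ 12 ≤ (i : ℝ) ^ 4 := by
    have h8 : (k ^ 3) ^ 4 ≤ i ^ 4 := Nat.pow_le_pow_left h1 4
    have h9 : k ^ 12 ≤ i ^ 4 := by
      calc k ^ 12 = (k ^ 3) ^ 4 := by ring
        _ ≤ i ^ 4 := h8
    exact_mod_cast h9
  have hik : (i : ℝ) ^ 4 ≤ ((k : ℝ) + 1) ^ 12 := by
    have h8 : i ^ 4 ≤ ((k + 1) ^ 3) ^ 4 := Nat.pow_le_pow_left h2.le 4
    have h9 : i ^ 4 ≤ (k + 1) ^ 12 := by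
      calc i ^ 4 ≤ ((k + 1) ^ 3) ^ 4 := h8
        _ = (k + 1) ^ 12 := by ring
    exact_mod_cast h9
  have h3 := hi.h3
  have h5 := hi.h5
  constructor
  · have h6 : 1 / ((k : ℝ) + 1) ^ 12 ≤ 1 / (i : ℝ) ^ 4 := one_div_le_one_div_of_le (by positivity) hik
    linarith
  · have h6 : (101 / 100) / (i : ℝ) ^ 4 ≤ 2 / (k : ℝ) ^ 12 := by
      rw [div_le_div_iff₀ (by positivity) (by positivity)]
      have : (0 : ℝ) < (i : ℝ) ^ 4 := by positivity
      linarith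
    linarith

/-- EXISTENCE OF A REGULAR PHASE.
PROOF: combine `reg_cls` and `reg_res` (with `V`, `card V ≤ card (F.P i) ≤ 5 i^3`): `t.E = s.E`,
`t.w n = if n ∈ U then W n else if n ∈ V then Tp i else s.w n`, `t.Z = s.Z + (R.map (r, w, k)) + Zn`, `t.X = X'`, `t.Y = Y'`.
`n ∈ F.P i \ s.E` is not in `F.done i s.E` (`ph n = i`), so `t.w = s.w` on `done i s.E`.
Monotone: on `U` by `reg_cls`, on `V` constant `Tp i`, `W n ≤ Tp i` on `U`, and `U < V`.
`Zgood k (r, w, k)` for the class ends: `w ∈ [Th i, Tp i]`, `Th i > 1/i^4 ≥ 1/(k+1)^12`, `Tp i ≤ 1.01/i^4 ≤ 2/k^12`.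
`hcut`: `F.free i s = {(X,Y)} + Z.map + sliv s.w {σ < Tp i}` and `{σ < Tp i} = cls ∪ {σ < Th i}` (disjoint); new slivers
have `σ ≤ Tp i - 1/(i+32)^4 ≤ 133/i^5 < Th i = Tp (i+1)` (`NumReg.h1, h6`, `Tp_succ`);
`F.done (i+1) t.E = F.done i s.E ∪ (F.P i \ s.E)`.  So
`F.free (i+1) t = {(X',Y')} + s.Z.map + R + Zn.map + sliv s.w {σ < Th i} + sliv W U + sliv Tp V`. -/
theorem exists_regStep (F : Fam) (k i : ℕ) (s : St) (hi : NumReg i) (hk : NumEp k)
    (h1 : k ^ 3 ≤ i) (h2 : i < (k + 1) ^ 3) (hE : ∀ n ∈ s.E, F.n0 ≤ n ∧ n < (k + 1) ^ 12)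
    (hPc : ((F.P i).card : ℝ) ≤ 5 * (i : ℝ) ^ 3)
    (hcap : F.cls i s.w (F.done i s.E) = ∅ ∨
      (∑ n ∈ F.cls i s.w (F.done i s.E), F.y n) * ((i : ℝ) + 32) ^ 4 < (F.P i \ s.E).card)
    (hX : 0 < s.X) (hY : 0 < s.Y) (hXY : s.X ≤ 2 * s.Y) (hYX : s.Y ≤ 2 * s.X)
    (hlo : 1 / (20 * (i : ℝ) ^ 4) ≤ s.X * s.Y) (hhi : s.X * s.Y ≤ 2 / (i : ℝ) ^ 4) :
    ∃ t, RegStep F k i s t := by
  classical
  obtain ⟨U, V, W, R, hUV, hlt, hRc, hWm, hWr, hRg, hCutC⟩ := reg_cls F k i s hi hk h1 h2 hE hcap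
  have hVP : V ⊆ F.P i := by
    intro n hn
    have h3 : n ∈ F.P i \ s.E := by rw [hUV]; exact Finset.mem_union_right _ hn
    exact (Finset.mem_sdiff.1 h3).1
  have hVc : (V.card : ℝ) ≤ 5 * (i : ℝ) ^ 3 := by
    have h3 : (V.card : ℝ) ≤ ((F.P i).card : ℝ) := by exact_mod_cast Finset.card_le_card hVP
    linarith
  obtain ⟨X', Y', Zn, hX', hY', hXY', hYX', hZn, hZc, hCutR⟩ :=
    reg_res F k i s.X s.Y V hi hk h1 h2 hVP hVc hX hY hXY hYX hlo hhi
  obtain ⟨hTh, hTp⟩ := Reg_bounds hi hk h1 h2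
  have hdis : Disjoint U V := by
    rw [Finset.disjoint_left]
    intro n h3 h4
    exact absurd (hlt n h3 n h4) (lt_irrefl n)
  have hPE : ∀ n ∈ U ∪ V, ph n = i ∧ n ∉ s.E := by
    intro n hn
    rw [← hUV, Finset.mem_sdiff, F.mem_P] at hn
    exact ⟨hn.1.2, hn.2⟩
  let tw : ℕ → ℝ := fun n => if n ∈ U then W n else if n ∈ V then Tp i else s.w n
  have htU : ∀ n ∈ U, tw n = W n := fun n hn => if_pos hn
  have htV : ∀ n ∈ V, tw n = Tp i := by
    intro n hn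
    have h3 : n ∉ U := fun h4 => Finset.disjoint_left.1 hdis h4 hn
    show (if n ∈ U then W n else if n ∈ V then Tp i else s.w n) = Tp i
    rw [if_neg h3, if_pos hn]
  have htD : ∀ n ∈ F.done i s.E, tw n = s.w n := by
    intro n hn
    have h3 : n ∉ U ∪ V := by
      intro h4
      obtain ⟨h5, h6⟩ := hPE n h4
      rw [F.mem_done] at hn
      rcases hn with ⟨-, h7⟩ | h7
      · omega
      · exact h6 h7
    rw [Finset.mem_union, not_or] at h3
    show (if n ∈ U then W n else if n ∈ V then Tp i else s.w n) = s.w n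
    rw [if_neg h3.1, if_neg h3.2]
  have hrange : ∀ n ∈ U ∪ V, Th i ≤ tw n ∧ tw n ≤ Tp i := by
    intro n hn
    rcases Finset.mem_union.1 hn with h3 | h3
    · rw [htU n h3]; exact hWr n h3
    · rw [htV n h3]; exact ⟨hi.h4.le, le_rfl⟩
  refine ⟨⟨tw, s.E, s.Z + (R.map (fun r => ((r.1, r.2, k) : ℝ × ℝ × ℕ)) + Zn), X', Y'⟩,
    rfl, htD, ?_, ?_, ⟨R.map (fun r => ((r.1, r.2, k) : ℝ × ℝ × ℕ)) + Zn, rfl, ?_, ?_⟩, ⟨hX', hY', hXY', hYX'⟩, ?_⟩
  · rw [hUV]
    intro n hn n' hn' hnn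
    show tw n ≤ tw n'
    rcases Finset.mem_union.1 hn with h3 | h3 <;> rcases Finset.mem_union.1 hn' with h4 | h4
    · rw [htU n h3, htU n' h4]; exact hWm n h3 n' h4 hnn
    · rw [htU n h3, htV n' h4]; exact (hWr n h3).2
    · exact absurd (hlt n' h4 n h3) (not_lt.2 hnn)
    · rw [htV n h3, htV n' h4]
  · rw [hUV]
    exact hrange
  · intro z hz
    rcases Multiset.mem_add.1 hz with h3 | h3
    · obtain ⟨r, hr, rfl⟩ := Multiset.mem_map.1 h3
      obtain ⟨h4, h5, h6, h7⟩ := hRg r hr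
      exact ⟨rfl, h4, h5, hTh.trans h6, h7.trans hTp⟩
    · exact hZn z h3
  · rw [Multiset.card_add, Multiset.card_map, hRc]
    exact Nat.add_le_add_left hZc _
  · have eA : F.free i s = {(s.X, s.Y)} + s.Z.map (fun z => (z.1, z.2.1)) +
        (F.sliv s.w (F.cls i s.w (F.done i s.E)) +
          F.sliv s.w ((F.done i s.E).filter (fun n => s.w n - F.x n < Th i))) := by
      unfold Fam.free
      rw [Reg_before F s.w i (F.done i s.E) hi.h4]
    have eB : F.free (i + 1) ⟨tw, s.E, s.Z + (R.map (fun r => ((r.1, r.2, k) : ℝ × ℝ × ℕ)) + Zn), X', Y'⟩ =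
        {(X', Y')} + (s.Z.map (fun z => (z.1, z.2.1)) + (R + Zn.map (fun z => (z.1, z.2.1)))) +
          (F.sliv s.w ((F.done i s.E).filter (fun n => s.w n - F.x n < Th i)) +
            (F.sliv W U + F.sliv (fun _ => Tp i) V)) := by
      have h3 := Reg_after F s.w tw W i s.E U V hi hUV hdis htD htU htV (fun n hn => (hrange n hn).2)
      show {(X', Y')} + (s.Z + (R.map (fun r => ((r.1, r.2, k) : ℝ × ℝ × ℕ)) + Zn)).map (fun z => (z.1, z.2.1)) +
        F.sliv tw ((F.done (i + 1) s.E).filter (fun n => tw n - F.x n < Tp (i + 1))) = _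
      rw [h3, Multiset.map_add, Multiset.map_add, Reg_tag]
    rw [eA, eB, hUV, Reg_units_union F hdis]
    refine (Cut.add (hCutR.add_right (s.Z.map (fun z => (z.1, z.2.1))))
      (hCutC.add_right (F.sliv s.w ((F.done i s.E).filter (fun n => s.w n - F.x n < Th i))))).trans (Cut.of_eq ?_)
    abel

end Pool.Agent.MM1
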