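import Pool.Agent.MP_94f265_co.MM1.Basic

namespace Pool.Agent.MM1

theorem UnplGe_fin (F : Fam) (U : Finset ℕ) (hU : ∀ n ∈ U, F.n0 ≤ n) :
    ∑ n ∈ U, F.x n * F.y n ≤ F.a * F.b := by
  classical
  have h1 := sum_le_hasSum (U.image (fun n => n - F.n0))
    (fun n _ => mul_nonneg (F.x_pos (Nat.le_add_right F.n0 n)).le
      (F.y_pos (Nat.le_add_right F.n0 n)).le) F.harea
  rw [Finset.sum_image] at h1
  · refine le_trans (le_of_eq ?_) h1
    refine Finset.sum_congr rfl fun n hn => ?_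
    rw [Nat.add_sub_cancel' (hU n hn)]
  · intro a ha b hb hab
    have h2 := hU a ha
    have h3 := hU b hb
    have h4 : a - F.n0 = b - F.n0 := hab
    omega

theorem UnplGe_tel (M T : ℕ) (h : M ≤ T) :
    ∑ n ∈ Finset.Ico M T, (1 / ((n : ℝ) + 1) - 1 / ((n : ℝ) + 2)) =
      1 / ((M : ℝ) + 1) - 1 / ((T : ℝ) + 1) := by
  induction T, h using Nat.le_induction with
  | base => simp
  | succ T h ih =>
    rw [Finset.sum_Ico_succ_top h, ih]
    push_cast
    ring

/-- Lower bound for the area not yet placed.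
PROOF: `HasSum` (`F.harea`): `a b - Σ_{n ∈ D} x n y n ≥ Σ_{n ≥ M, n ∉ E} x n y n` where `D = done i E` and
`M = max n0 ((i+32)^4)` (every `n ≥ M` that is not in `E` is not in `D`: `ph n ≥ i`, as `n < (ph n + 32)^4`).
`Σ_{n ≥ M} x n y n ≥ Σ_{n ≥ M} 1/((n+1)(n+2)) = 1/(M+1)`: e.g. for every `T`, `a b ≥ Σ_{n ∈ D ∪ [M, T)} x n y n`
`≥ Σ_D + Σ_{[M,T) \ E}`, let `T → ∞`.  The numbers of `E` that are `≥ (i+32)^4` are `≥ k^12` so their `x n y n ≤ 1/k^24`, total
`≤ card E' / k^24`.  Here it is stated with a finite set `E'` containing them. -/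
theorem unplaced_ge (F : Fam) (i : ℕ) (E E' : Finset ℕ) (M : ℕ) (hM0 : F.n0 ≤ M)
    (hM : (i + 32) ^ 4 ≤ M) (hE : ∀ n ∈ E, F.n0 ≤ n) (hE' : ∀ n ∈ E, M ≤ n → n ∈ E')
    (c : ℝ) (hc : ∀ n ∈ E', F.n0 ≤ n → F.x n * F.y n ≤ c) (hc0 : 0 ≤ c) :
    1 / ((M : ℝ) + 1) - E'.card * c ≤ F.a * F.b - ∑ n ∈ F.done i E, F.x n * F.y n := by
  classical
  have hstep : ∀ T, M ≤ T → 1 / ((M : ℝ) + 1) - 1 / ((T : ℝ) + 1) - E'.card * c ≤
      F.a * F.b - ∑ n ∈ F.done i E, F.x n * F.y n := by
    intro T hT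
    have hdisj : Disjoint (F.done i E) ((Finset.Ico M T).filter (fun n => n ∉ E')) := by
      rw [Finset.disjoint_left]
      intro n hn hn'
      rw [Finset.mem_filter, Finset.mem_Ico] at hn'
      rw [F.mem_done] at hn
      rcases hn with hn | hn
      · have h1 : (i + 32) ^ 4 < (ph n + 32) ^ 4 :=
          lt_of_le_of_lt (hM.trans hn'.1.1) (lt_of_ph n)
        have h2 := lt_of_pow_lt_pow_left' 4 h1
        omega
      · exact hn'.2 (hE' n hn hn'.1.1)
    have h1 := UnplGe_fin F (F.done i E ∪ (Finset.Ico M T).filter (fun n => n ∉ E')) (by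
      intro n hn
      rw [Finset.mem_union, F.mem_done, Finset.mem_filter, Finset.mem_Ico] at hn
      rcases hn with (hn | hn) | hn
      · exact hn.1
      · exact hE n hn
      · exact hM0.trans hn.1.1)
    rw [Finset.sum_union hdisj] at h1
    have h2 : ∑ n ∈ (Finset.Ico M T).filter (fun n => n ∈ E'), F.x n * F.y n ≤ E'.card * c := by
      calc ∑ n ∈ (Finset.Ico M T).filter (fun n => n ∈ E'), F.x n * F.y n
          ≤ ∑ _n ∈ (Finset.Ico M T).filter (fun n => n ∈ E'), c := by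
            refine Finset.sum_le_sum fun n hn => ?_
            rw [Finset.mem_filter, Finset.mem_Ico] at hn
            exact hc n hn.2 (hM0.trans hn.1.1)
        _ = (((Finset.Ico M T).filter (fun n => n ∈ E')).card : ℝ) * c := by
            rw [Finset.sum_const, nsmul_eq_mul]
        _ ≤ E'.card * c := by
            refine mul_le_mul_of_nonneg_right ?_ hc0
            exact_mod_cast Finset.card_le_card (fun n hn => (Finset.mem_filter.1 hn).2)
    have h3 : ∑ n ∈ (Finset.Ico M T).filter (fun n => n ∈ E'), F.x n * F.y n +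
        ∑ n ∈ (Finset.Ico M T).filter (fun n => n ∉ E'), F.x n * F.y n =
        ∑ n ∈ Finset.Ico M T, F.x n * F.y n :=
      Finset.sum_filter_add_sum_filter_not _ _ _
    have h4 : 1 / ((M : ℝ) + 1) - 1 / ((T : ℝ) + 1) ≤ ∑ n ∈ Finset.Ico M T, F.x n * F.y n := by
      rw [← UnplGe_tel M T hT]
      refine Finset.sum_le_sum fun n hn => ?_
      rw [Finset.mem_Ico] at hn
      have hn0 := hM0.trans hn.1
      have hx := (F.hx n hn0).1
      have hy := (F.hy n hn0).1
      have h5 : 1 / ((n : ℝ) + 1) * (1 / ((n : ℝ) + 1)) ≤ F.x n * F.y n :=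
        mul_le_mul hx hy (by positivity) (F.x_pos hn0).le
      refine le_trans ?_ h5
      rw [div_sub_div _ _ (by positivity) (by positivity), div_mul_div_comm,
        div_le_div_iff₀ (by positivity) (by positivity)]
      nlinarith [(Nat.cast_nonneg n : (0 : ℝ) ≤ n)]
    linarith
  by_contra hcon
  rw [not_le] at hcon
  obtain ⟨T, hT⟩ := exists_nat_one_div_lt (sub_pos.2 hcon)
  have h1 := hstep (max M T) (le_max_left _ _)
  have h2 : 1 / (((max M T : ℕ) : ℝ) + 1) ≤ 1 / ((T : ℝ) + 1) := by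
    apply one_div_le_one_div_of_le (by positivity)
    have : (T : ℝ) ≤ ((max M T : ℕ) : ℝ) := by exact_mod_cast le_max_right _ _
    linarith
  linarith

end Pool.Agent.MM1
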