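import Pool.Agent.MP_94f265_co.MM1.Basic

namespace Pool.Agent.MM1

theorem UnplLe_tele (M : ℕ) (hM : 2 ≤ M) (N : ℕ) :
    ∑ n ∈ Finset.Ico M N, 1 / ((n : ℝ) ^ 2) ≤ 1 / ((M : ℝ) - 1) := by
  rcases Nat.lt_or_ge N M with h | h
  · rw [Finset.Ico_eq_empty (by omega), Finset.sum_empty]
    have : (2 : ℝ) ≤ M := by exact_mod_cast hM
    have : (0 : ℝ) < M - 1 := by linarith
    positivity
  · have key : ∑ n ∈ Finset.Ico M N, 1 / ((n : ℝ) ^ 2) ≤
        1 / ((M : ℝ) - 1) - 1 / ((N : ℝ) - 1) := by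
      induction N, h using Nat.le_induction with
      | base => simp
      | succ N hN ih =>
        rw [Finset.sum_Ico_succ_top hN]
        have h2 : (2 : ℝ) ≤ N := by exact_mod_cast hM.trans hN
        have h3 : 1 / ((N : ℝ) ^ 2) ≤ 1 / ((N : ℝ) - 1) - 1 / (N : ℝ) := by
          rw [div_sub_div _ _ (by linarith) (by linarith), div_le_div_iff₀ (by positivity)
            (by nlinarith)]
          nlinarith
        have h4 : ((N + 1 : ℕ) : ℝ) - 1 = N := by push_cast; ring
        rw [h4]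
        linarith
    have h2 : (2 : ℝ) ≤ N := by exact_mod_cast hM.trans h
    have : 0 < 1 / ((N : ℝ) - 1) := by
      apply div_pos one_pos; linarith
    linarith

/-- Upper bound for the area not yet placed.
PROOF: every `n ≥ n0` with `n < i^4` is in `D = done i E` (`ph n ≤ blk n < i`), so
`a b - Σ_D x n y n ≤ Σ_{n ≥ i^4} 1/n^2 ≤ Σ 1/((n-1) n) = 1/(i^4 - 1)` (`HasSum`; `x n y n ≥ 0`). -/
theorem unplaced_le (F : Fam) (i : ℕ) (hi : 2 ≤ i) (E : Finset ℕ) (hE : ∀ n ∈ E, F.n0 ≤ n) :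
    F.a * F.b - ∑ n ∈ F.done i E, F.x n * F.y n ≤ 1 / ((i : ℝ) ^ 4 - 1) := by
  have hlim := F.harea.tendsto_sum_nat
  have hD : ∀ n ∈ F.done i E, F.n0 ≤ n := by
    intro n hn
    rcases F.mem_done.1 hn with h | h
    · exact h.1
    · exact hE n h
  have hpos : ∀ n, F.n0 ≤ n → 0 ≤ F.x n * F.y n := fun n hn =>
    mul_nonneg (F.x_pos hn).le (F.y_pos hn).le
  have hi4 : 2 ≤ i ^ 4 := by
    calc 2 ≤ 2 ^ 4 := by norm_num
      _ ≤ i ^ 4 := Nat.pow_le_pow_left hi 4
  have hb : ∀ N : ℕ, ∑ j ∈ Finset.range N, F.x (F.n0 + j) * F.y (F.n0 + j) ≤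
      ∑ n ∈ F.done i E, F.x n * F.y n + 1 / ((i : ℝ) ^ 4 - 1) := by
    intro N
    have e1 : ∑ j ∈ Finset.range N, F.x (F.n0 + j) * F.y (F.n0 + j) =
        ∑ n ∈ Finset.Ico F.n0 (F.n0 + N), F.x n * F.y n := by
      rw [Finset.sum_Ico_eq_sum_range]
      simp
    rw [e1, ← Finset.sum_filter_add_sum_filter_not (Finset.Ico F.n0 (F.n0 + N))
      (fun n => n ∈ F.done i E)]
    apply add_le_add
    · apply Finset.sum_le_sum_of_subset_of_nonneg
      · intro n hn; exact (Finset.mem_filter.1 hn).2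
      · intro n hn _; exact hpos n (hD n hn)
    · have h1 : ∑ n ∈ (Finset.Ico F.n0 (F.n0 + N)).filter (fun n => n ∉ F.done i E),
          F.x n * F.y n ≤
          ∑ n ∈ (Finset.Ico F.n0 (F.n0 + N)).filter (fun n => n ∉ F.done i E),
            1 / ((n : ℝ) ^ 2) := by
        apply Finset.sum_le_sum
        intro n hn
        have hn0 : F.n0 ≤ n := (Finset.mem_Ico.1 (Finset.mem_filter.1 hn).1).1
        have hx := (F.hx n hn0).2
        have hy := (F.hy n hn0).2
        have hnp : (0 : ℝ) < n := by exact_mod_cast F.n_pos hn0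
        calc F.x n * F.y n ≤ 1 / (n : ℝ) * (1 / (n : ℝ)) :=
              mul_le_mul hx hy (F.y_pos hn0).le (by positivity)
          _ = 1 / ((n : ℝ) ^ 2) := by rw [div_mul_div_comm]; ring_nf
      have h2 : ∑ n ∈ (Finset.Ico F.n0 (F.n0 + N)).filter (fun n => n ∉ F.done i E),
            1 / ((n : ℝ) ^ 2) ≤ ∑ n ∈ Finset.Ico (i ^ 4) (F.n0 + N), 1 / ((n : ℝ) ^ 2) := by
        apply Finset.sum_le_sum_of_subset_of_nonneg
        · intro n hn
          rw [Finset.mem_filter, Finset.mem_Ico] at hn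
          rw [Finset.mem_Ico]
          refine ⟨?_, hn.1.2⟩
          by_contra hlt
          push Not at hlt
          apply hn.2
          rw [F.mem_done]
          left
          refine ⟨hn.1.1, ?_⟩
          exact (ph_le_blk n).trans_lt ((blk_lt_iff i n).2 hlt)
        · intro n _ _; positivity
      have h3 := UnplLe_tele (i ^ 4) hi4 (F.n0 + N)
      push_cast at h3
      linarith
  have := le_of_tendsto' hlim hb
  linarith

end Pool.Agent.MM1
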