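import Pool.Agent.MP_94f265_co.MM1.AreaI
import Pool.Agent.MP_94f265_co.MM1.UnplGe
import Pool.Agent.MP_94f265_co.MM1.UnplLe
import Pool.Agent.MP_94f265_co.MM1.LB3
import Pool.Agent.MP_94f265_co.MM1.LenRun
import Pool.Agent.MP_94f265_co.MM1.RunHist

namespace Pool.Agent.MM1

theorem Resv_areaZ_le (Z : Multiset (ℝ × ℝ × ℕ)) (W : ℝ) (h : ∀ z ∈ Z, z.1 ≤ W ∧ 0 ≤ z.1 ∧ 0 ≤ z.2.1) :
    0 ≤ areaZ Z ∧ areaZ Z ≤ W * lenZ Z := by
  induction Z using Multiset.induction_on with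
  | empty => simp [areaZ, lenZ]
  | cons z Z ih =>
    obtain ⟨ih1, ih2⟩ := ih (fun z hz => h z (Multiset.mem_cons_of_mem hz))
    obtain ⟨h1, h2, h3⟩ := h z (Multiset.mem_cons_self z Z)
    have e1 : areaZ (z ::ₘ Z) = z.1 * z.2.1 + areaZ Z := by
      rw [areaZ, Multiset.map_cons, Multiset.sum_cons]
      rfl
    have e2 : lenZ (z ::ₘ Z) = z.2.1 + lenZ Z := by
      rw [lenZ, Multiset.map_cons, Multiset.sum_cons]
      rfl
    rw [e1, e2]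
    constructor
    · positivity
    · have h4 : z.1 * z.2.1 ≤ W * z.2.1 := mul_le_mul_of_nonneg_right h1 h3
      linarith

theorem Resv_pow12 {k : ℕ} (hN : NumEp k) : ((k : ℝ) + 1) ^ 12 ≤ (101 / 100) * (k : ℝ) ^ 12 := by
  have hk : (100000 : ℝ) ≤ k := by exact_mod_cast hN.hk
  have h1 := hN.e9
  have h2 : ((k : ℝ) + 1) ^ 12 * (k : ℝ) ≤ (101 / 100) * (k : ℝ) ^ 12 * (k : ℝ) := by
    calc ((k : ℝ) + 1) ^ 12 * (k : ℝ) ≤ ((k : ℝ) + 1) ^ 12 * ((k : ℝ) + 1) :=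
          mul_le_mul_of_nonneg_left (by linarith) (by positivity)
      _ = ((k : ℝ) + 1) ^ 13 := by ring
      _ ≤ (101 / 100) * (k : ℝ) ^ 13 := h1
      _ = (101 / 100) * (k : ℝ) ^ 12 * (k : ℝ) := by ring
  exact le_of_mul_le_mul_right h2 (by linarith)

theorem Resv_Th_pos {k : ℕ} (hN : NumEp k) : 0 < Th (k ^ 3) := by
  have := hN.hk
  have hk : (0 : ℝ) < 1 / ((k : ℝ) + 1) ^ 12 := by positivity
  exact hk.trans_le hN.e7

/-- THE RESERVOIR IS LARGE.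
PROOF: `area_id_mid`, `area_free`, `area_sliv` (`≤ 0.92/i^4`, with `run_hist_mid`),
`areaZ m.Z ≤ wmax k · lenZ m.Z ≤ (2/k^12)(40/k^(9/5)) ≤ 0.001/i^4` (`mid_Z`, `lenZ_mid`, `card_Z_bound`; `i^4 ≤ (k+1)^12 ≤ 2 k^12`, `k` large: `hD`),
`unplaced_ge` with `M = max n0 ((i+32)^4)`, `M + 1 ≤ 1.0201 i^4` (`NumReg.h8`; `n0 + 1 ≤ ((k0+1)^3+33)^4 + 1 ≤ 1.01 k0^12 ≤ 1.01 i^4`),
`E' = m.E \ (f i).E` (the new ends slots if `i = k^3`; in general `E'` = elements of `m.E` that are `≥ M`: they are `≥ (i+32)^4`, so in super-epoch `k`: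
`E' ⊆ m.E.filter (k^12 ≤ ·)`), `c = 1/k^24`.  Number of them: `card (m.E.filter (k^12 ≤ ·)) ≤ lenZ (f (k^3)).Z (k+1)^12 ≤ 80 k^(12-9/5)`
(hypothesis `hEc`).  So `XY ≥ (0.98 - 0.92 - 0.002)/i^4 ≥ 1/(20 i^4)`.
Upper bound: `XY ≤ area free ≤ 1/(i^4-1) ≤ 2/i^4` (`unplaced_le`; slivers have positive thickness by `Hist.sig_P`, `sig_E`; `areaZ ≥ 0`). -/
theorem reservoir (F : Fam) (hR : ∀ j, F.k0 ^ 3 ≤ j → NumReg j)
    (hK : ∀ k, F.k0 ≤ k → NumEp k)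
    (hD : ∀ k : ℕ, F.k0 ≤ k → 100000 ≤ (k : ℝ) ^ ((9 : ℝ) / 5))
    (f : ℕ → St) (i k : ℕ) (m : St) (hf : Run F f i)
    (hi : F.k0 ^ 3 ≤ i) (h1 : k ^ 3 ≤ i) (h2 : i < (k + 1) ^ 3) (hm : Mid F k i (f i) m)
    (hQ : ∀ j, F.k0 ^ 3 ≤ j → j ≤ i → (Multiset.card (f j).Z) ^ 3 ≤ j ^ 10)
    (hEc : ((m.E.filter (fun n => k ^ 12 ≤ n)).card : ℝ) ≤
      40 / (k : ℝ) ^ ((9 : ℝ) / 5) * ((k : ℝ) + 1) ^ 12) :
    1 / (20 * (i : ℝ) ^ 4) ≤ m.X * m.Y ∧ m.X * m.Y ≤ 2 / (i : ℝ) ^ 4 := by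
  have hk0k : F.k0 ≤ k := by
    by_contra hcon
    push Not at hcon
    have h3 : (k + 1) ^ 3 ≤ F.k0 ^ 3 := Nat.pow_le_pow_left hcon 3
    omega
  have hNi := hR i hi
  have hNk := hK k hk0k
  have hNk0 := hK F.k0 le_rfl
  have hI : (100000 : ℝ) ≤ i := by exact_mod_cast hNi.hi
  have hKR : (100000 : ℝ) ≤ k := by exact_mod_cast hNk.hk
  have hI4 : (0 : ℝ) < (i : ℝ) ^ 4 := by positivity
  have hK12 : (0 : ℝ) < (k : ℝ) ^ 12 := by positivity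
  have hDk := hD k hk0k
  have hDpos : (0 : ℝ) < (k : ℝ) ^ ((9 : ℝ) / 5) := by linarith
  have hpow := Resv_pow12 hNk
  -- comparison of `i ^ 4` and `k ^ 12`
  have hIK : (i : ℝ) ^ 4 ≤ (101 / 100) * (k : ℝ) ^ 12 := by
    have h3 : (i : ℝ) ≤ ((k : ℝ) + 1) ^ 3 := by exact_mod_cast h2.le
    calc (i : ℝ) ^ 4 ≤ (((k : ℝ) + 1) ^ 3) ^ 4 := pow_le_pow_left₀ (by linarith) h3 4
      _ = ((k : ℝ) + 1) ^ 12 := by ring
      _ ≤ _ := hpow
  have hinv : 1 / (k : ℝ) ^ 12 ≤ (101 / 100) / (i : ℝ) ^ 4 := by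
    rw [div_le_div_iff₀ hK12 hI4]
    linarith
  -- the history
  have H := run_hist_mid F f i k m hi hf h1 h2 hm
  have hmE := mid_E F f i k m hi hf h1 h2 hm
  have hmZ := mid_Z F hK f i k m hf hi h1 h2 hm
  have hlen := lenZ_mid F hK f i k m hf hi h1 h2 hm hQ
  -- the irregular rectangles
  obtain ⟨hZ0, hZ1⟩ := Resv_areaZ_le m.Z (wmax k) (by
    intro z hz
    obtain ⟨h3, t, -, -, h4⟩ := hmZ z hz
    refine ⟨h3, ?_, ?_⟩
    · have h5 : 0 ≤ del t := by unfold del; positivity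
      exact h5.trans h4.2.1
    · have h5 : (0 : ℝ) ≤ 1 / ((t : ℝ) + 1) ^ 12 := by positivity
      exact h5.trans h4.2.2.2.1)
  have hZ2 : areaZ m.Z ≤ (1 / 1000) / (i : ℝ) ^ 4 := by
    have hw0 : 0 ≤ wmax k := by
      have := Resv_Th_pos hNk
      exact this.le.trans hNk.e8
    have h3 : wmax k * lenZ m.Z ≤ (2 / (k : ℝ) ^ 12) * (40 / (k : ℝ) ^ ((9 : ℝ) / 5)) := by
      calc wmax k * lenZ m.Z ≤ wmax k * (40 / (k : ℝ) ^ ((9 : ℝ) / 5)) :=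
            mul_le_mul_of_nonneg_left hlen hw0
        _ ≤ _ := mul_le_mul_of_nonneg_right hNk.e4 (by positivity)
    have h4 : 40 / (k : ℝ) ^ ((9 : ℝ) / 5) ≤ 40 / 100000 :=
      div_le_div_of_nonneg_left (by norm_num) (by norm_num) hDk
    have h5 : (2 / (k : ℝ) ^ 12) * (40 / (k : ℝ) ^ ((9 : ℝ) / 5)) ≤ (2 / (k : ℝ) ^ 12) * (40 / 100000) :=
      mul_le_mul_of_nonneg_left h4 (by positivity)
    have h6 : (2 / (k : ℝ) ^ 12) * (40 / 100000) = (80 / 100000) * (1 / (k : ℝ) ^ 12) := by ring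
    have h7 : (80 / 100000) * (1 / (k : ℝ) ^ 12) ≤ (80 / 100000) * ((101 / 100) / (i : ℝ) ^ 4) :=
      mul_le_mul_of_nonneg_left hinv (by norm_num)
    have h8 : (80 / 100000) * ((101 / 100) / (i : ℝ) ^ 4) ≤ (1 / 1000) / (i : ℝ) ^ 4 := by
      rw [← mul_div_assoc]
      exact div_le_div_of_nonneg_right (by norm_num) hI4.le
    linarith
  -- the slivers
  have hS0 : 0 ≤ ∑ n ∈ (F.done i m.E).filter (fun n => m.w n - F.x n < Tp i),
      (m.w n - F.x n) * F.y n := by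
    apply Finset.sum_nonneg
    intro n hn
    rw [Finset.mem_filter, F.mem_done] at hn
    obtain ⟨hn, -⟩ := hn
    have hn0 : F.n0 ≤ n := by
      rcases hn with hn | hn
      · exact hn.1
      · exact (hmE n hn).1
    apply mul_nonneg _ (F.y_pos hn0).le
    by_cases hnE : n ∈ m.E
    · obtain ⟨-, -, k', hk', h3, h4, -⟩ := hmE n hnE
      have h5 := (H.sig_E hnE h3 h4 (hK k' hk'.le)).1
      have h6 : (0 : ℝ) ≤ 1 / (k' : ℝ) ^ 24 := by positivity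
      linarith
    · rcases hn with hn | hn
      · have h5 := (H.sig_P hn.1 hnE hn.2 (hR (ph n) (by have := F.k0_le_ph hn.1; omega))).1
        have h6 : (0 : ℝ) ≤ 1 / (ph n : ℝ) ^ 8 := by positivity
        linarith
      · exact absurd hn hnE
  have hS1 := area_sliv F i m.w m.E H hR hK hi
  -- the area identity
  have hid := area_id_mid F f i k m hf hi hm
  rw [area_free] at hid
  -- the unplaced area
  have hup := unplaced_le F i (by have := hNi.hi; omega) m.E (fun n hn => (hmE n hn).1)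
  set M : ℕ := max F.n0 ((i + 32) ^ 4) with hM
  have hlo := unplaced_ge F i m.E (m.E.filter (fun n => k ^ 12 ≤ n)) M (le_max_left _ _)
    (le_max_right _ _) (fun n hn => (hmE n hn).1)
    (fun n hn hMn => by
      rw [Finset.mem_filter]
      refine ⟨hn, ?_⟩
      have h3 : (i + 32) ^ 4 ≤ n := (le_max_right _ _).trans hMn
      calc k ^ 12 = (k ^ 3) ^ 4 := by ring
        _ ≤ (i + 32) ^ 4 := Nat.pow_le_pow_left (by omega) 4
        _ ≤ n := h3)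
    (1 / (k : ℝ) ^ 24)
    (fun n hn hn0 => by
      rw [Finset.mem_filter] at hn
      have h3 : (k : ℝ) ^ 12 ≤ n := by exact_mod_cast hn.2
      have h4 := (F.hx n hn0).2
      have h5 := (F.hy n hn0).2
      have h6 : 1 / (n : ℝ) ≤ 1 / (k : ℝ) ^ 12 := one_div_le_one_div_of_le hK12 h3
      calc F.x n * F.y n ≤ (1 / (k : ℝ) ^ 12) * (1 / (k : ℝ) ^ 12) :=
            mul_le_mul (h4.trans h6) (h5.trans h6) (F.y_pos hn0).le (by positivity)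
        _ = 1 / (k : ℝ) ^ 24 := by
            rw [div_mul_div_comm, one_mul, ← pow_add])
    (by positivity)
  have hM1 : (M : ℝ) + 1 ≤ (101 / 100) * (i : ℝ) ^ 4 := by
    have h3 : (((i + 32) ^ 4 : ℕ) : ℝ) + 1 ≤ (101 / 100) * (i : ℝ) ^ 4 := by
      have h4 := hNi.h8
      push_cast
      have h5 : ((i : ℝ) + 32) ^ 4 ≤ ((i : ℝ) + 33) ^ 4 := pow_le_pow_left₀ (by linarith) (by linarith) 4
      linarith
    have h4 : (F.n0 : ℝ) + 1 ≤ (101 / 100) * (i : ℝ) ^ 4 := by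
      have h5 : (F.n0 : ℝ) + 1 ≤ (((F.k0 : ℝ) + 1) ^ 3 + 32) ^ 4 := by
        have := F.n0_lt
        exact_mod_cast this
      have h6 : (((F.k0 : ℝ) + 1) ^ 3 + 32) ^ 4 ≤ (((F.k0 : ℝ) + 1) ^ 3 + 33) ^ 4 :=
        pow_le_pow_left₀ (by positivity) (by linarith) 4
      have h7 := hNk0.e10
      have h8 : (F.k0 : ℝ) ^ 12 ≤ (i : ℝ) ^ 4 := by
        have h9 : (F.k0 : ℝ) ^ 3 ≤ i := by exact_mod_cast hi
        calc (F.k0 : ℝ) ^ 12 = ((F.k0 : ℝ) ^ 3) ^ 4 := by ring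
          _ ≤ (i : ℝ) ^ 4 := pow_le_pow_left₀ (by positivity) h9 4
      linarith
    rcases max_choice F.n0 ((i + 32) ^ 4) with h5 | h5
    · rw [hM, h5]; exact h4
    · rw [hM, h5]; exact h3
  have hM2 : (99 / 100) / (i : ℝ) ^ 4 ≤ 1 / ((M : ℝ) + 1) := by
    rw [div_le_div_iff₀ hI4 (by positivity)]
    linarith
  have hE2 : ((m.E.filter (fun n => k ^ 12 ≤ n)).card : ℝ) * (1 / (k : ℝ) ^ 24) ≤
      (1 / 1000) / (i : ℝ) ^ 4 := by
    have h3 : ((m.E.filter (fun n => k ^ 12 ≤ n)).card : ℝ) ≤ (40 / 100000) * ((101 / 100) * (k : ℝ) ^ 12) := by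
      refine hEc.trans ?_
      apply mul_le_mul _ hpow (by positivity) (by norm_num)
      exact div_le_div_of_nonneg_left (by norm_num) (by norm_num) hDk
    have h4 : ((m.E.filter (fun n => k ^ 12 ≤ n)).card : ℝ) * (1 / (k : ℝ) ^ 24) ≤
        (40 / 100000) * ((101 / 100) * (k : ℝ) ^ 12) * (1 / (k : ℝ) ^ 24) :=
      mul_le_mul_of_nonneg_right h3 (by positivity)
    have h5 : (40 / 100000) * ((101 / 100) * (k : ℝ) ^ 12) * (1 / (k : ℝ) ^ 24) =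
        (40 / 100000) * (101 / 100) * (1 / (k : ℝ) ^ 12) := by
      field_simp
    have h6 : (40 / 100000) * (101 / 100) * (1 / (k : ℝ) ^ 12) ≤
        (40 / 100000) * (101 / 100) * ((101 / 100) / (i : ℝ) ^ 4) :=
      mul_le_mul_of_nonneg_left hinv (by norm_num)
    have h7 : (40 / 100000) * (101 / 100) * ((101 / 100) / (i : ℝ) ^ 4) ≤ (1 / 1000) / (i : ℝ) ^ 4 := by
      rw [← mul_div_assoc]
      exact div_le_div_of_nonneg_right (by norm_num) hI4.le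
    linarith
  have g1 : (99 / 100) / (i : ℝ) ^ 4 = (99 / 100) * (1 / (i : ℝ) ^ 4) := by ring
  have g2 : (1 / 1000) / (i : ℝ) ^ 4 = (1 / 1000) * (1 / (i : ℝ) ^ 4) := by ring
  have g3 : (0.92 : ℝ) / (i : ℝ) ^ 4 = (92 / 100) * (1 / (i : ℝ) ^ 4) := by
    rw [show (0.92 : ℝ) = 92 / 100 by norm_num]
    ring
  have g4 : 1 / (20 * (i : ℝ) ^ 4) = (1 / 20) * (1 / (i : ℝ) ^ 4) := by
    rw [one_div, mul_inv]
    ring
  have g0 : 0 ≤ 1 / (i : ℝ) ^ 4 := by positivity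
  rw [g1] at hM2
  rw [g2] at hE2 hZ2
  rw [g3] at hS1
  rw [g4]
  constructor
  · linarith
  · have g5 : 1 / ((i : ℝ) ^ 4 - 1) ≤ 2 / (i : ℝ) ^ 4 := by
      have h3 : (2 : ℝ) ≤ (i : ℝ) ^ 4 := by
        calc (2 : ℝ) ≤ 100000 ^ 4 := by norm_num
          _ ≤ (i : ℝ) ^ 4 := pow_le_pow_left₀ (by norm_num) hI 4
      rw [div_le_div_iff₀ (by linarith) hI4]
      linarith
    linarith

end Pool.Agent.MM1
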