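import Pool.Agent.MP_94f265_co.MM1.ExMid
import Pool.Agent.MP_94f265_co.MM1.Resv
import Pool.Agent.MP_94f265_co.MM1.CardEN
import Pool.Agent.MP_94f265_co.MM1.CardZB
import Pool.Agent.MP_94f265_co.MM1.Reg
import Pool.Agent.MP_94f265_co.MM1.CardP
import Pool.Agent.MP_94f265_co.MM1.LB3
import Pool.Agent.MP_94f265_co.MM1.N0cls

namespace Pool.Agent.MM1

theorem exStep_k (i : ℕ) : ∃ k, k ^ 3 ≤ i ∧ i < (k + 1) ^ 3 := by
  induction i with
  | zero => exact ⟨0, by norm_num, by norm_num⟩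
  | succ i ih =>
    obtain ⟨k, h1, h2⟩ := ih
    by_cases h : i + 1 < (k + 1) ^ 3
    · exact ⟨k, by omega, h⟩
    · have h3 : i + 1 = (k + 1) ^ 3 := by omega
      refine ⟨k + 1, by omega, ?_⟩
      rw [h3]
      exact Nat.pow_lt_pow_left (by omega) (by norm_num)

theorem exStep_cap {i S C : ℝ} (hi : 0 < i) (h8 : (i + 33) ^ 4 + 1 ≤ (101 / 100) * i ^ 4)
    (hS : S ≤ (3.6 : ℝ) / i) (hC : 3.9 * i ^ 3 ≤ C) : S * (i + 32) ^ 4 < C := by
  have h1 : (i + 32) ^ 4 ≤ (i + 33) ^ 4 := pow_le_pow_left₀ (by linarith) (by linarith) 4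
  have h2 : (i + 32) ^ 4 ≤ (101 / 100) * i ^ 4 := by linarith
  have h3 : S * (i + 32) ^ 4 ≤ (3.6 : ℝ) / i * (i + 32) ^ 4 := mul_le_mul_of_nonneg_right hS (by positivity)
  have h4 : (3.6 : ℝ) / i * (i + 32) ^ 4 ≤ (3.6 : ℝ) / i * ((101 / 100) * i ^ 4) :=
    mul_le_mul_of_nonneg_left h2 (by positivity)
  have h5 : (3.6 : ℝ) / i * ((101 / 100) * i ^ 4) = 3.636 * i ^ 3 := by
    field_simp
    norm_num
  have h6 : 0 < i ^ 3 := by positivity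
  calc S * (i + 32) ^ 4 ≤ 3.636 * i ^ 3 := by rw [← h5]; exact h3.trans h4
    _ < 3.9 * i ^ 3 := by nlinarith
    _ ≤ C := hC

/-- THE CONSTRUCTION IS NEVER STUCK.
PROOF: let `k` with `k^3 ≤ i < (k+1)^3` (`k ≥ k0`), `m` from `exists_mid`, then `exists_regStep` for `m`:
`hE` from `mid_E`; `hPc` from `card_P_le`; `X, Y` from `run_XY` (`m.X = (f i).X` etc.), `reservoir`, `card_E_now`; `hQ` from `card_Z_bound`
(`Run F f j` for `j ≤ i`); capacity: if the class is nonempty, `n0 ≤ i^4` (`n0_le_of_cls`, `run_hist_mid`), `len_bound` gives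
`(3.6/i)(i+32)^4 ≤ 3.6 · 1.01 · i^3 < 3.9 i^3 ≤ card (P i \ m.E)` (`card_P_ge`, `NumReg.h8`). -/
theorem exists_step (F : Fam) (hB : Big F) (f : ℕ → St) (i : ℕ) (hf : Run F f i)
    (hi : F.k0 ^ 3 ≤ i) : ∃ t, Step F i (f i) t := by
  obtain ⟨k, h1, h2⟩ := exStep_k i
  have hk : F.k0 ≤ k := by
    by_contra h
    have h3 : (k + 1) ^ 3 ≤ F.k0 ^ 3 := Nat.pow_le_pow_left (by omega) 3
    omega
  obtain ⟨m, hm⟩ := exists_mid F hB f i k hf hi h1 h2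
  have hQ : ∀ j, F.k0 ^ 3 ≤ j → j ≤ i → (Multiset.card (f j).Z) ^ 3 ≤ j ^ 10 := fun j hj hji =>
    card_Z_bound F hB.hR hB.hK hB.hC f j ⟨hf.1, fun l hl hlj => hf.2 l hl (lt_of_lt_of_le hlj hji)⟩ hj
  have hXYm : m.X = (f i).X ∧ m.Y = (f i).Y := by
    by_cases h : i = k ^ 3
    · exact ⟨(hm.1 h).hX, (hm.1 h).hY⟩
    · rw [hm.2 h]
      exact ⟨rfl, rfl⟩
  obtain ⟨hX, hY, hXY, hYX⟩ := run_XY F f i hf hi
  have hEc := card_E_now F hB.hK f i k m hf hi h1 h2 hm hQ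
  obtain ⟨hlo, hhi⟩ := reservoir F hB.hR hB.hK hB.hD f i k m hf hi h1 h2 hm hQ hEc
  have hN := hB.hR i hi
  have hmE := mid_E F f i k m hi hf h1 h2 hm
  have hist := run_hist_mid F f i k m hi hf h1 h2 hm
  have hi0 : (0 : ℝ) < i := by
    have := hN.hi
    exact_mod_cast (by omega : 0 < i)
  rw [← hXYm.1, ← hXYm.2] at hXY hYX
  rw [← hXYm.1] at hX
  rw [← hXYm.2] at hY
  have hEE : ∀ n ∈ m.E, F.n0 ≤ n ∧ n < (k + 1) ^ 12 := by
    intro n hn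
    obtain ⟨h3, -, k', -, -, h5, h6⟩ := hmE n hn
    have h7 : k' < k + 1 := by
      by_contra h
      have h8 : (k + 1) ^ 3 ≤ k' ^ 3 := Nat.pow_le_pow_left (by omega) 3
      omega
    exact ⟨h3, lt_of_lt_of_le h5 (Nat.pow_le_pow_left (by omega) 12)⟩
  have hcap : F.cls i m.w (F.done i m.E) = ∅ ∨
      (∑ n ∈ F.cls i m.w (F.done i m.E), F.y n) * ((i : ℝ) + 32) ^ 4 < (F.P i \ m.E).card := by
    rcases Finset.eq_empty_or_nonempty (F.cls i m.w (F.done i m.E)) with he | hne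
    · exact Or.inl he
    · right
      exact exStep_cap hi0 hN.h8 (len_bound F i m.w m.E hist hB.hR hB.hK i hi)
        (card_P_ge F i hN m.E (n0_le_of_cls F i m.w m.E hist hB.hR hB.hK i hi hne)
          (fun n hn => (hmE n hn).2.1))
  obtain ⟨t, ht⟩ := exists_regStep F k i m hN (hB.hK k hk) h1 h2 hEE (card_P_le F i hN) hcap hX hY hXY hYX hlo hhi
  exact ⟨t, k, m, h1, h2, hm, ht⟩

end Pool.Agent.MM1
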