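import Pool.Agent.MP_94f265_co.MM1.Basic
import Pool.Agent.MP_94f265_co.MM1.Geom2

namespace Pool.Agent.MM1

/-- Greedy filling of one strip: take slots from the front of `ns` as long as at least `δ` of the
length remains.
PROOF: induction on `ns` generalizing `ℓ`.  `ns = []`: `us = vs = []`.  `ns = n :: ns'`: if `ℓ - y n < δ`
take `us = []`, `vs = n :: ns'`.  Otherwise apply the induction hypothesis to `ℓ - y n` and put `n` in
front of `us`. -/
theorem fill_one (y : ℕ → ℝ) (δ ℓ : ℝ) (ns : List ℕ) (hδ : δ ≤ ℓ) :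
    ∃ us vs : List ℕ, ns = us ++ vs ∧ δ ≤ ℓ - (us.map y).sum ∧
      (vs = [] ∨ ∃ n vs', vs = n :: vs' ∧ ℓ - (us.map y).sum < δ + y n) := by
  induction ns generalizing ℓ with
  | nil => exact ⟨[], [], rfl, by simpa using hδ, Or.inl rfl⟩
  | cons n ns ih =>
    by_cases h : ℓ - y n < δ
    · exact ⟨[], n :: ns, rfl, by simpa using hδ, Or.inr ⟨n, ns, rfl, by
        simp only [List.map_nil, List.sum_nil]; linarith⟩⟩
    · obtain ⟨us, vs, h1, h2, h3⟩ := ih (ℓ - y n) (not_lt.1 h)
      refine ⟨n :: us, vs, by simp [h1], ?_, ?_⟩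
      · simp only [List.map_cons, List.sum_cons]; linarith
      · rcases h3 with h3 | ⟨m, vs', h3, h4⟩
        · exact Or.inl h3
        · exact Or.inr ⟨m, vs', h3, by simp only [List.map_cons, List.sum_cons]; linarith⟩

theorem fill_len (y : ℕ → ℝ) (B : ℝ) (l : List ℕ) (h : ∀ n ∈ l, 1 ≤ y n * B) :
    (l.length : ℝ) ≤ (l.map y).sum * B := by
  induction l with
  | nil => simp
  | cons a l ih =>
    have h1 := h a (by simp)
    have h2 := ih (fun n hn => h n (by simp [hn]))
    simp only [List.length_cons, List.map_cons, List.sum_cons]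
    push_cast
    rw [add_mul]
    linarith

theorem fill_sum_nonneg (δ : ℝ) (hδ : 0 ≤ δ) (strips : List (ℝ × ℝ))
    (hlen : ∀ p ∈ strips, δ ≤ p.2) : 0 ≤ (strips.map (fun p => p.2)).sum := by
  apply List.sum_nonneg
  intro z hz
  obtain ⟨m, hm, rfl⟩ := List.mem_map.1 hz
  exact hδ.trans (hlen m hm)

/-- Greedy filling of a list of strips `(w, ℓ)`, sorted by `w`, with an increasing list of slots.
PROOF: induction on `strips` generalizing `ns`.
`[]`: `us = []`, `vs = ns` (nonempty because `0 < ns.length`), `R = []`, `W` arbitrary, `Cut.refl`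
(the empty multiset).
`p :: strips`: `fill_one` with `ℓ = p.2` gives `ns = us₁ ++ vs₁`.  Since `1 ≤ y n * B` for the slots,
`us₁.length ≤ (us₁.map y).sum * B ≤ (p.2 - δ) * B ≤ p.2 * B`.  `vs₁ = []` is impossible (then
`ns.length = us₁.length ≤ p.2 * B ≤` total `< ns.length`; the lengths of the strips are `≥ δ ≥ 0`), so
`vs₁ = n :: vs'` and the left over `r = p.2 - (us₁.map y).sum` satisfies `δ ≤ r < δ + y n`.  The
induction hypothesis applies to `vs₁` (capacity: `rest * B = total * B - p.2 * B < us₁.length + vs₁.length -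
p.2 * B ≤ vs₁.length`) and gives `us₂, vs, W₂, R₂`.  Put `us = us₁ ++ us₂`, `R = (r, p.1) :: R₂`,
`W n = if n ∈ us₁ then p.1 else W₂ n`.  Monotone: `ns` strictly increasing, so elements of `us₁` are
smaller than the elements of `us₂`, and `p.1 ≤` all later widths.  `Cut`: `cut_strip` for `(p.1, p.2)`
plus the induction hypothesis (`Cut.add`), then rearrange the multisets (`List.map_append`,
`Multiset.coe_add`, `abel`); on `us₁` the function `fun n => (W n - x n, y n)` agrees with
`fun n => (p.1 - x n, y n)`, on `us₂` (disjoint from `us₁`) with `fun n => (W₂ n - x n, y n)`. -/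
theorem fill_many (F : Fam) (δ B : ℝ) (hδ : 0 ≤ δ) (hB : 0 ≤ B) (strips : List (ℝ × ℝ))
    (ns : List ℕ)
    (hst : strips.Pairwise (fun p q => p.1 ≤ q.1)) (hns : ns.Pairwise (· < ·))
    (hlen : ∀ p ∈ strips, δ ≤ p.2)
    (hx : ∀ n ∈ ns, 0 ≤ F.x n) (hxw : ∀ p ∈ strips, ∀ n ∈ ns, F.x n ≤ p.1)
    (hy : ∀ n ∈ ns, 0 ≤ F.y n) (hyB : ∀ n ∈ ns, 1 ≤ F.y n * B)
    (hcap : (strips.map (fun p => p.2)).sum * B < ns.length) :
    ∃ (us vs : List ℕ) (W : ℕ → ℝ) (R : List (ℝ × ℝ)),
      ns = us ++ vs ∧ vs ≠ [] ∧ (us.length : ℝ) ≤ (strips.map (fun p => p.2)).sum * B ∧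
      R.length = strips.length ∧
      (∀ n ∈ us, ∀ n' ∈ us, n ≤ n' → W n ≤ W n') ∧
      (∀ n ∈ us, ∃ p ∈ strips, W n = p.1) ∧
      (∀ r ∈ R, δ ≤ r.1 ∧ (∃ n ∈ ns, r.1 < δ + F.y n) ∧ ∃ p ∈ strips, r.2 = p.1) ∧
      Cut (strips : Multiset (ℝ × ℝ))
        (((us.map (fun n => (F.x n, F.y n)) : List (ℝ × ℝ)) : Multiset (ℝ × ℝ)) +
          ((us.map (fun n => (W n - F.x n, F.y n)) : List (ℝ × ℝ)) : Multiset (ℝ × ℝ)) +
          (R : Multiset (ℝ × ℝ))) := by
  classical
  induction strips generalizing ns with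
  | nil =>
    refine ⟨[], ns, fun _ => 0, [], rfl, ?_, by simp, rfl, by simp, by simp, by simp, ?_⟩
    · rintro rfl
      simp at hcap
    · simpa using Cut.refl 0
  | cons p strips ih =>
    obtain ⟨us₁, vs₁, hns1, hr1, hr2⟩ := fill_one F.y δ p.2 ns (hlen p (by simp))
    have hmem1 : ∀ n ∈ us₁, n ∈ ns := fun n hn => by rw [hns1]; exact List.mem_append_left _ hn
    have hmem2 : ∀ n ∈ vs₁, n ∈ ns := fun n hn => by rw [hns1]; exact List.mem_append_right _ hn
    have hl1 : (us₁.length : ℝ) ≤ (us₁.map F.y).sum * B :=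
      fill_len F.y B us₁ (fun n hn => hyB n (hmem1 n hn))
    have hl2 : (us₁.map F.y).sum * B ≤ p.2 * B :=
      mul_le_mul_of_nonneg_right (by linarith) hB
    have hrest : 0 ≤ (strips.map (fun p => p.2)).sum :=
      fill_sum_nonneg δ hδ strips (fun q hq => hlen q (by simp [hq]))
    have hlenns : (ns.length : ℝ) = us₁.length + vs₁.length := by
      rw [hns1, List.length_append]; push_cast; ring
    simp only [List.map_cons, List.sum_cons] at hcap
    rw [add_mul] at hcap
    have hrB : 0 ≤ (strips.map (fun p => p.2)).sum * B := mul_nonneg hrest hB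
    have hne : ∃ n vs', vs₁ = n :: vs' ∧ p.2 - (us₁.map F.y).sum < δ + F.y n := by
      rcases hr2 with h | h
      · exfalso
        rw [h, List.length_nil, Nat.cast_zero] at hlenns
        linarith
      · exact h
    obtain ⟨n₀, vs', hvs', hlt⟩ := hne
    have hpw := hns
    rw [hns1, List.pairwise_append] at hpw
    obtain ⟨hpw1, hpw2, hpw12⟩ := hpw
    have hst' := List.pairwise_cons.1 hst
    obtain ⟨us₂, vs, W₂, R₂, h1, h2, h3, h4, h5, h6, h7, h8⟩ := ih vs₁ hst'.2 hpw2
      (fun q hq => hlen q (by simp [hq])) (fun n hn => hx n (hmem2 n hn))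
      (fun q hq n hn => hxw q (by simp [hq]) n (hmem2 n hn))
      (fun n hn => hy n (hmem2 n hn)) (fun n hn => hyB n (hmem2 n hn)) (by linarith)
    have hus2 : ∀ n ∈ us₂, n ∈ vs₁ := fun n hn => by rw [h1]; exact List.mem_append_left _ hn
    have hdis : ∀ n ∈ us₂, n ∉ us₁ := fun n hn hn' =>
      lt_irrefl _ (hpw12 n hn' n (hus2 n hn))
    refine ⟨us₁ ++ us₂, vs, fun n => if n ∈ us₁ then p.1 else W₂ n,
      (p.2 - (us₁.map F.y).sum, p.1) :: R₂, ?_, h2, ?_, ?_, ?_, ?_, ?_, ?_⟩
    · rw [hns1, h1, List.append_assoc]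
    · rw [List.length_append]
      push_cast
      simp only [List.map_cons, List.sum_cons]
      rw [add_mul]
      linarith
    · simp only [List.length_cons]; omega
    · intro n hn n' hn' hnn
      rw [List.mem_append] at hn hn'
      by_cases c1 : n ∈ us₁
      · by_cases c2 : n' ∈ us₁
        · simp only [c1, c2, if_true]; exact le_rfl
        · simp only [c1, c2, if_true, if_false]
          obtain ⟨q, hq, hq'⟩ := h6 n' (hn'.resolve_left c2)
          rw [hq']
          exact hst'.1 q hq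
      · by_cases c2 : n' ∈ us₁
        · exfalso
          have := hpw12 n' c2 n (hus2 n (hn.resolve_left c1))
          omega
        · simp only [c1, c2, if_false]
          exact h5 n (hn.resolve_left c1) n' (hn'.resolve_left c2) hnn
    · intro n hn
      rw [List.mem_append] at hn
      by_cases c1 : n ∈ us₁
      · exact ⟨p, by simp, by simp only [c1, if_true]⟩
      · obtain ⟨q, hq, hq'⟩ := h6 n (hn.resolve_left c1)
        exact ⟨q, by simp [hq], by simp only [c1, if_false]; exact hq'⟩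
    · intro r hr
      rcases List.mem_cons.1 hr with rfl | hr
      · exact ⟨hr1, ⟨n₀, hmem2 n₀ (by rw [hvs']; simp), hlt⟩, p, by simp, rfl⟩
      · obtain ⟨a1, ⟨m, hm, a2⟩, q, hq, a3⟩ := h7 r hr
        exact ⟨a1, ⟨m, hmem2 m hm, a2⟩, q, by simp [hq], a3⟩
    · have hc1 : Cut {(p.1, p.2)}
          (((us₁.map (fun n => (F.x n, F.y n)) : List (ℝ × ℝ)) : Multiset (ℝ × ℝ)) +
          ((us₁.map (fun n => (p.1 - F.x n, F.y n)) : List (ℝ × ℝ)) : Multiset (ℝ × ℝ)) +
          {(p.2 - (us₁.map F.y).sum, p.1)}) :=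
        cut_strip F p.1 us₁ p.2 (p.2 - (us₁.map F.y).sum)
          (fun n hn => ⟨hx n (hmem1 n hn), hxw p (by simp) n (hmem1 n hn)⟩)
          (fun n hn => hy n (hmem1 n hn)) (hδ.trans hr1) (by ring)
      have e1 : us₁.map (fun n => ((if n ∈ us₁ then p.1 else W₂ n) - F.x n, F.y n)) =
          us₁.map (fun n => (p.1 - F.x n, F.y n)) := by
        apply List.map_congr_left
        intro n hn
        simp only [hn, if_true]
      have e2 : us₂.map (fun n => ((if n ∈ us₁ then p.1 else W₂ n) - F.x n, F.y n)) =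
          us₂.map (fun n => (W₂ n - F.x n, F.y n)) := by
        apply List.map_congr_left
        intro n hn
        simp only [hdis n hn, if_false]
      have e3 : ((p :: strips : List (ℝ × ℝ)) : Multiset (ℝ × ℝ)) =
          {(p.1, p.2)} + (strips : Multiset (ℝ × ℝ)) := by
        rw [← Multiset.cons_coe, ← Multiset.singleton_add]
      rw [e3]
      refine (Cut.add hc1 h8).trans (Cut.of_eq ?_)
      simp only [List.map_append, ← Multiset.coe_add, ← Multiset.cons_coe,
        ← Multiset.singleton_add, e1, e2]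
      abel

end Pool.Agent.MM1
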