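import Pool.Agent.MP_94f265_co.MM1.Defs

namespace Pool.Agent.MM1

theorem PR.Sub.refl (p : PR) : p.Sub p := ⟨le_rfl, le_rfl, le_rfl, le_rfl⟩

theorem PR.Sub.trans {p q r : PR} (h : p.Sub q) (h' : q.Sub r) : p.Sub r :=
  ⟨h'.1.trans h.1, h.2.1.trans h'.2.1, h'.2.2.1.trans h.2.2.1, h.2.2.2.trans h'.2.2.2⟩

theorem PR.Sep.symm {p q : PR} (h : p.Sep q) : q.Sep p := by
  unfold PR.Sep at *; tauto

theorem PR.Sep.mono {p q p' q' : PR} (h : p'.Sep q') (hp : p.Sub p') (hq : q.Sub q') :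
    p.Sep q := by
  obtain ⟨p1, p2, p3, p4⟩ := hp
  obtain ⟨q1, q2, q3, q4⟩ := hq
  rcases h with h | h | h | h
  · left; linarith
  · right; left; linarith
  · right; right; left; linarith
  · right; right; right; linarith

theorem area_add (F G : Multiset (ℝ × ℝ)) : area (F + G) = area F + area G := by
  simp [area]

theorem area_zero : area 0 = 0 := by simp [area]

theorem Cut.refl (F : Multiset (ℝ × ℝ)) : Cut F F :=
  ⟨rfl, fun P hP hR => ⟨P, hP, hR, fun q hq => ⟨q, hq, PR.Sub.refl q⟩⟩⟩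

theorem Cut.trans {F G H : Multiset (ℝ × ℝ)} (h : Cut F G) (h' : Cut G H) : Cut F H := by
  refine ⟨h.1.trans h'.1, fun P hP hR => ?_⟩
  obtain ⟨Q, hQ, hQR, hQs⟩ := h.2 P hP hR
  obtain ⟨S, hS, hSR, hSs⟩ := h'.2 Q hQ hQR
  refine ⟨S, hS, hSR, fun s hs => ?_⟩
  obtain ⟨q, hq, hsq⟩ := hSs s hs
  obtain ⟨p, hp, hqp⟩ := hQs q hq
  exact ⟨p, hp, hsq.trans hqp⟩

theorem Cut.of_eq {F G : Multiset (ℝ × ℝ)} (h : F = G) : Cut F G := h ▸ Cut.refl F

theorem Cut.add_right {F G : Multiset (ℝ × ℝ)} (h : Cut F G) (H : Multiset (ℝ × ℝ)) :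
    Cut (F + H) (G + H) := by
  refine ⟨by rw [area_add, area_add, h.1], fun P hP hR => ?_⟩
  rw [Multiset.rel_add_right] at hR
  obtain ⟨A, B, hA, hB, hAB⟩ := hR
  obtain ⟨P0, rfl⟩ := Quot.exists_rep A
  obtain ⟨P1, rfl⟩ := Quot.exists_rep B
  have hperm : P.Perm (P0 ++ P1) := by
    have : (P : Multiset PR) = ((P0 ++ P1 : List PR) : Multiset PR) := by
      rw [hAB]; rfl
    exact Multiset.coe_eq_coe.1 this
  have hpw : (P0 ++ P1).Pairwise PR.Sep :=
    (hperm.pairwise_iff (fun h => PR.Sep.symm h)).1 hP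
  rw [List.pairwise_append] at hpw
  obtain ⟨hp0, hp1, hp01⟩ := hpw
  obtain ⟨Q, hQ, hQR, hQs⟩ := h.2 P0 hp0 hA
  refine ⟨Q ++ P1, ?_, ?_, ?_⟩
  · rw [List.pairwise_append]
    refine ⟨hQ, hp1, fun q hq p hp => ?_⟩
    obtain ⟨p', hp', hs⟩ := hQs q hq
    exact (hp01 p' hp' p hp).mono hs (PR.Sub.refl p)
  · rw [← Multiset.coe_add]
    exact Multiset.Rel.add hQR hB
  · intro q hq
    rcases List.mem_append.1 hq with hq | hq
    · obtain ⟨p, hp, hs⟩ := hQs q hq
      exact ⟨p, hperm.mem_iff.2 (List.mem_append_left _ hp), hs⟩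
    · exact ⟨q, hperm.mem_iff.2 (List.mem_append_right _ hq), PR.Sub.refl q⟩

theorem Cut.add_left {F G : Multiset (ℝ × ℝ)} (h : Cut F G) (H : Multiset (ℝ × ℝ)) :
    Cut (H + F) (H + G) := by
  rw [add_comm H F, add_comm H G]; exact h.add_right H

theorem Cut.add {F G F' G' : Multiset (ℝ × ℝ)} (h : Cut F G) (h' : Cut F' G') :
    Cut (F + F') (G + G') :=
  (h.add_right F').trans (h'.add_left G)

theorem Cut.swap (a b : ℝ) : Cut {(a, b)} {(b, a)} := by
  refine ⟨by simp [area, mul_comm], fun P hP hR => ⟨P, hP, ?_, fun q hq => ⟨q, hq, PR.Sub.refl q⟩⟩⟩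
  rw [← Multiset.cons_zero, Multiset.rel_cons_right] at hR
  obtain ⟨p, as', hp, has, hP'⟩ := hR
  rw [Multiset.rel_zero_right] at has
  subst has
  rw [hP', ← Multiset.cons_zero, Multiset.rel_cons_right]
  refine ⟨p, 0, ?_, Multiset.Rel.zero, rfl⟩
  rcases hp with hp | hp
  · right; exact ⟨hp.1, hp.2⟩
  · left; exact ⟨hp.1, hp.2⟩

theorem Cut.split {a b c : ℝ} (ha : 0 ≤ a) (hb : 0 ≤ b) :
    Cut {(a + b, c)} {(a, c), (b, c)} := by
  refine ⟨by simp [area, add_mul], fun P hP hR => ?_⟩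
  rw [← Multiset.cons_zero, Multiset.rel_cons_right] at hR
  obtain ⟨p, as', hp, has, hP'⟩ := hR
  rw [Multiset.rel_zero_right] at has
  subst has
  have hP2 : P = [p] := by
    have : (P : Multiset PR) = (([p] : List PR) : Multiset PR) := by rw [hP']; rfl
    exact List.perm_singleton.1 (Multiset.coe_eq_coe.1 this)
  subst hP2
  rcases hp with hp | hp
  · refine ⟨[⟨p.x, p.y, a, c⟩, ⟨p.x + a, p.y, b, c⟩], ?_, ?_, ?_⟩
    · simp only [List.pairwise_cons, List.mem_singleton, forall_eq, List.not_mem_nil,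
        IsEmpty.forall_iff, implies_true, List.Pairwise.nil, and_true, true_and]
      left; simp
    · change Multiset.Rel PR.Has ((⟨p.x, p.y, a, c⟩ : PR) ::ₘ (⟨p.x + a, p.y, b, c⟩ : PR) ::ₘ 0) ((a, c) ::ₘ (b, c) ::ₘ 0)
      exact Multiset.Rel.cons (Or.inl ⟨rfl, rfl⟩) (Multiset.Rel.cons (Or.inl ⟨rfl, rfl⟩) Multiset.Rel.zero)
    · intro q hq
      refine ⟨p, by simp, ?_⟩
      simp only [List.mem_cons, List.not_mem_nil, or_false] at hq
      obtain ⟨h1, h2⟩ := hp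
      simp only at h1 h2
      rcases hq with rfl | rfl
      · exact ⟨le_rfl, by simp only [h1]; linarith, le_rfl, by simp only [h2]; linarith⟩
      · exact ⟨by simp only; linarith, by simp only [h1]; linarith, le_rfl, by simp only [h2]; linarith⟩
  · refine ⟨[⟨p.x, p.y, c, a⟩, ⟨p.x, p.y + a, c, b⟩], ?_, ?_, ?_⟩
    · simp only [List.pairwise_cons, List.mem_singleton, forall_eq, List.not_mem_nil,
        IsEmpty.forall_iff, implies_true, List.Pairwise.nil, and_true, true_and]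
      right; right; left; simp
    · change Multiset.Rel PR.Has ((⟨p.x, p.y, c, a⟩ : PR) ::ₘ (⟨p.x, p.y + a, c, b⟩ : PR) ::ₘ 0) ((a, c) ::ₘ (b, c) ::ₘ 0)
      exact Multiset.Rel.cons (Or.inr ⟨rfl, rfl⟩) (Multiset.Rel.cons (Or.inr ⟨rfl, rfl⟩) Multiset.Rel.zero)
    · intro q hq
      refine ⟨p, by simp, ?_⟩
      simp only [List.mem_cons, List.not_mem_nil, or_false] at hq
      obtain ⟨h1, h2⟩ := hp
      simp only at h1 h2
      rcases hq with rfl | rfl
      · exact ⟨le_rfl, by simp only [h1]; linarith, le_rfl, by simp only [h2]; linarith⟩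
      · exact ⟨le_rfl, by simp only [h1]; linarith, by simp only; linarith, by simp only [h2]; linarith⟩

/-- split along the second side -/
theorem Cut.split' {a b c : ℝ} (ha : 0 ≤ a) (hb : 0 ≤ b) :
    Cut {(c, a + b)} {(c, a), (c, b)} := by
  refine (Cut.swap _ _).trans ((Cut.split ha hb).trans ?_)
  exact Cut.add (F := {(a, c)}) (G := {(c, a)}) (F' := {(b, c)}) (G' := {(c, b)})
    (Cut.swap _ _) (Cut.swap _ _)

end Pool.Agent.MM1
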