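import Pool.Agent.MP_94f265_co.MM1.Sig
import Pool.Agent.MP_94f265_co.MM1.SumsB
import Pool.Agent.MP_94f265_co.MM1.CountP

namespace Pool.Agent.MM1

/-- Type 1 part of the class bound.
PROOF: the set `C = (F.cls c w (F.done i E)).filter (· ∉ E)` consists of `n` with `n0 ≤ n`, `ph n < i`, `n ∉ E`.
Let `J` be the image of `C` under `ph`.  For `j ∈ J`: `j ≥ k0^3` (`Fam.k0_le_ph`), so `NumReg j`;
for a witness `n`: `1/c^4 < Th c ≤ sig ≤ 133/j^5` gives `j^5 ≤ 133 c^4`, and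
`1/j^8 ≤ sig < Tp c ≤ 1.01/c^4` gives `c^4 ≤ 1.01 j^8`, so `c ≤ 1.01 j^2` (`c^4 ≤ 1.01 j^8 ≤ (1.01 j^2)^4`).
The fibre over `j` is contained in `A.filter (θ ≤ sig < θ + ω)` with `A = {n ∈ F.P j : n ∉ E}`,
`θ = Th c`, `ω = Tp c - Th c`; `count_P` (monotone by `Hist.monoP`), and each `y n ≤ 1/j^4` (`Fam.xy_phase`).
Sum over `J` (`Finset.sum_fiberwise_of_maps_to`) and `type1_sum`. -/
theorem len_bound1 (F : Fam) (i : ℕ) (w : ℕ → ℝ) (E : Finset ℕ) (H : Hist F i w E)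
    (hR : ∀ j, F.k0 ^ 3 ≤ j → NumReg j) (c : ℕ) (hc : F.k0 ^ 3 ≤ c) :
    ∑ n ∈ (F.cls c w (F.done i E)).filter (fun n => n ∉ E), F.y n ≤ (3.45 : ℝ) / (c : ℝ) := by
  classical
  have hNc := hR c hc
  set C := (F.cls c w (F.done i E)).filter (fun n => n ∉ E) with hC
  have hmem : ∀ n ∈ C, F.n0 ≤ n ∧ ph n < i ∧ n ∉ E ∧ Th c ≤ w n - F.x n ∧ w n - F.x n < Tp c := by
    intro n hn
    rw [hC, Finset.mem_filter, F.mem_cls, F.mem_done] at hn
    obtain ⟨⟨h1, h2, h3⟩, h4⟩ := hn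
    rcases h1 with h1 | h1
    · exact ⟨h1.1, h1.2, h4, h2, h3⟩
    · exact absurd h1 h4
  have hreg : ∀ n ∈ C, NumReg (ph n) := by
    intro n hn
    exact hR _ (by have := F.k0_le_ph (hmem n hn).1; omega)
  have hc0 : (0 : ℝ) < c := by
    have := hNc.hi
    exact_mod_cast (show 0 < c by omega)
  have hJpos : ∀ j, NumReg j → (0 : ℝ) < j := by
    intro j hj
    have := hj.hi
    exact_mod_cast (show 0 < j by omega)
  have h5 : ∀ j ∈ C.image ph, (j : ℝ) ^ 5 ≤ 133 * (c : ℝ) ^ 4 := by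
    intro j hj
    obtain ⟨n, hn, rfl⟩ := Finset.mem_image.1 hj
    obtain ⟨a1, a2, a3, a4, a5⟩ := hmem n hn
    have hp := hJpos _ (hreg n hn)
    have hs := H.sig_P a1 a3 a2 (hreg n hn)
    have h6 : 1 / (c : ℝ) ^ 4 < 133 / (ph n : ℝ) ^ 5 := lt_of_lt_of_le hNc.h3 (a4.trans hs.2)
    rw [div_lt_div_iff₀ (by positivity) (by positivity)] at h6
    linarith
  have h2 : ∀ j ∈ C.image ph, (c : ℝ) ≤ 1.01 * (j : ℝ) ^ 2 := by
    intro j hj
    obtain ⟨n, hn, rfl⟩ := Finset.mem_image.1 hj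
    obtain ⟨a1, a2, a3, a4, a5⟩ := hmem n hn
    have hp := hJpos _ (hreg n hn)
    have hs := H.sig_P a1 a3 a2 (hreg n hn)
    have h6 : 1 / (ph n : ℝ) ^ 8 < (101 / 100) / (c : ℝ) ^ 4 :=
      lt_of_le_of_lt hs.1 (lt_of_lt_of_le a5 hNc.h5)
    rw [div_lt_div_iff₀ (by positivity) (by positivity)] at h6
    have h7 : (c : ℝ) ^ 4 ≤ (1.01 * (ph n : ℝ) ^ 2) ^ 4 := by
      have e : (1.01 * (ph n : ℝ) ^ 2) ^ 4 = 1.01 ^ 4 * (ph n : ℝ) ^ 8 := by ring
      rw [e]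
      have hp8 : (0 : ℝ) < (ph n : ℝ) ^ 8 := by positivity
      have : (101 / 100 : ℝ) * (ph n : ℝ) ^ 8 ≤ 1.01 ^ 4 * (ph n : ℝ) ^ 8 :=
        mul_le_mul_of_nonneg_right (by norm_num) hp8.le
      linarith
    exact le_of_pow_le_pow_left₀ (by norm_num) (by positivity) h7
  have hJ : ∀ j ∈ C.image ph, NumReg j := by
    intro j hj
    obtain ⟨n, hn, rfl⟩ := Finset.mem_image.1 hj
    exact hreg n hn
  refine le_trans ?_ (type1_sum (C.image ph) c hNc hJ h5 h2)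
  rw [← Finset.sum_fiberwise_of_maps_to (s := C) (t := C.image ph) (g := ph)
    (fun n hn => Finset.mem_image_of_mem _ hn)]
  refine Finset.sum_le_sum fun j hj => ?_
  have hNj := hJ j hj
  have hj0 := hJpos j hNj
  have hji : j < i := by
    obtain ⟨n, hn, rfl⟩ := Finset.mem_image.1 hj
    exact (hmem n hn).2.1
  have hcnt := count_P F j (by have := hNj.hi; omega) w ((F.P j).filter (fun n => n ∉ E))
    (fun n hn => F.mem_P.1 (Finset.mem_filter.1 hn).1)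
    (fun n hn n' hn' hle => by
      have b1 := Finset.mem_filter.1 hn
      have b2 := Finset.mem_filter.1 hn'
      have c1 := F.mem_P.1 b1.1
      have c2 := F.mem_P.1 b2.1
      exact H.monoP j hji n n' c1.1 hle c1.2 c2.2 b1.2 b2.2)
    (Th c) (Tp c - Th c) (by have := hNc.h4; linarith)
  have hsub : C.filter (fun n => ph n = j) ⊆
      ((F.P j).filter (fun n => n ∉ E)).filter
        (fun n => Th c ≤ w n - F.x n ∧ w n - F.x n < Th c + (Tp c - Th c)) := by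
    intro n hn
    rw [Finset.mem_filter] at hn
    obtain ⟨a1, a2, a3, a4, a5⟩ := hmem n hn.1
    rw [Finset.mem_filter, Finset.mem_filter, F.mem_P]
    exact ⟨⟨⟨a1, hn.2⟩, a3⟩, a4, by linarith⟩
  have hcard : ((C.filter (fun n => ph n = j)).card : ℝ) ≤
      (Tp c - Th c) * ((j : ℝ) + 32) ^ 8 / 32 + 33 :=
    le_trans (by exact_mod_cast Finset.card_le_card hsub) hcnt
  calc ∑ n ∈ C.filter (fun n => ph n = j), F.y n
      ≤ ∑ _n ∈ C.filter (fun n => ph n = j), 1 / (j : ℝ) ^ 4 := by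
        refine Finset.sum_le_sum fun n hn => ?_
        rw [Finset.mem_filter] at hn
        exact (F.xy_phase (hmem n hn.1).1 hn.2).2.2
    _ = 1 / (j : ℝ) ^ 4 * ((C.filter (fun n => ph n = j)).card : ℝ) := by
        rw [Finset.sum_const, nsmul_eq_mul]; ring
    _ ≤ 1 / (j : ℝ) ^ 4 * ((Tp c - Th c) * ((j : ℝ) + 32) ^ 8 / 32 + 33) :=
        mul_le_mul_of_nonneg_left hcard (by positivity)

end Pool.Agent.MM1
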