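import Pool.Agent.MP_94f265_co.MM1.SumsA

namespace Pool.Agent.MM1

/-- `1/j^12 - 1/(j+1)^12` -/
noncomputable def Layer_g (j : ℕ) : ℝ := 1 / (j : ℝ) ^ 12 - 1 / ((j : ℝ) + 1) ^ 12

theorem Layer_tel (t k : ℕ) (h : t ≤ k) :
    ∑ j ∈ Finset.Ico t k, Layer_g j = 1 / (t : ℝ) ^ 12 - 1 / (k : ℝ) ^ 12 := by
  induction k, h using Nat.le_induction with
  | base => simp
  | succ k hk ih =>
    rw [Finset.sum_Ico_succ_top hk, ih, Layer_g]
    push_cast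
    ring

theorem Layer_g_nonneg {j : ℕ} (hj : 1 ≤ j) : 0 ≤ Layer_g j := by
  have h0 : (1 : ℝ) ≤ j := by exact_mod_cast hj
  unfold Layer_g
  rw [sub_nonneg]
  apply one_div_le_one_div_of_le (by positivity)
  exact pow_le_pow_left₀ (by linarith) (by linarith) 12

theorem Layer_g_le {j : ℕ} (hj : 1 ≤ j) : Layer_g j ≤ 12 / (j : ℝ) ^ 13 := by
  have h0 : (1 : ℝ) ≤ j := by exact_mod_cast hj
  have h1 : 1 + ((12 : ℕ) : ℝ) * (-1 / ((j : ℝ) + 1)) ≤ (1 + -1 / ((j : ℝ) + 1)) ^ 12 := by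
    apply one_add_mul_le_pow
    rw [le_div_iff₀ (by positivity)]
    linarith
  have h2 : (1 + -1 / ((j : ℝ) + 1)) = (j : ℝ) / ((j : ℝ) + 1) := by
    field_simp
    ring
  rw [h2, div_pow] at h1
  have h3 : Layer_g j = (1 - (j : ℝ) ^ 12 / ((j : ℝ) + 1) ^ 12) / (j : ℝ) ^ 12 := by
    unfold Layer_g
    field_simp
  have h4 : 1 - (j : ℝ) ^ 12 / ((j : ℝ) + 1) ^ 12 ≤ 12 / ((j : ℝ) + 1) := by
    have h5 : ((12 : ℕ) : ℝ) * (-1 / ((j : ℝ) + 1)) = -(12 / ((j : ℝ) + 1)) := by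
      push_cast
      ring
    rw [h5] at h1
    linarith
  rw [h3]
  calc (1 - (j : ℝ) ^ 12 / ((j : ℝ) + 1) ^ 12) / (j : ℝ) ^ 12 ≤ (12 / ((j : ℝ) + 1)) / (j : ℝ) ^ 12 :=
        div_le_div_of_nonneg_right h4 (by positivity)
    _ ≤ (12 / (j : ℝ)) / (j : ℝ) ^ 12 := by
        apply div_le_div_of_nonneg_right _ (by positivity)
        exact div_le_div_of_nonneg_left (by norm_num) (by linarith) (by linarith)
    _ = 12 / (j : ℝ) ^ 13 := by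
        rw [div_div]
        congr 1
        ring

theorem Layer_pow {j : ℕ} (hj : 20 ≤ j) : ((j : ℝ) + 1) ^ 10 ≤ 2 * (j : ℝ) ^ 10 := by
  have h0 : (20 : ℝ) ≤ j := by exact_mod_cast hj
  calc ((j : ℝ) + 1) ^ 10 ≤ ((21 / 20) * (j : ℝ)) ^ 10 :=
        pow_le_pow_left₀ (by linarith) (by linarith) 10
    _ = (21 / 20) ^ 10 * (j : ℝ) ^ 10 := by rw [mul_pow]
    _ ≤ 2 * (j : ℝ) ^ 10 := by
        apply mul_le_mul_of_nonneg_right _ (by positivity)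
        norm_num

theorem Layer_sum (k a : ℕ) (Z : Multiset (ℝ × ℝ × ℕ))
    (htag : ∀ z ∈ Z, a ≤ z.2.2 ∧ z.2.2 ≤ k) (hlen : ∀ z ∈ Z, z.2.1 ≤ 2 / (z.2.2 : ℝ) ^ 12) :
    lenZ Z ≤ 2 * (Multiset.card Z : ℝ) / (k : ℝ) ^ 12 +
      ∑ j ∈ Finset.Ico a k, 2 * Layer_g j * (Multiset.card (Z.filter (fun z => z.2.2 ≤ j)) : ℝ) := by
  induction Z using Multiset.induction_on with
  | empty => simp [lenZ]
  | cons z Z ih =>
    have ih' := ih (fun z hz => htag z (Multiset.mem_cons_of_mem hz))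
      (fun z hz => hlen z (Multiset.mem_cons_of_mem hz))
    have h1 : lenZ (z ::ₘ Z) = z.2.1 + lenZ Z := by
      rw [lenZ, Multiset.map_cons, Multiset.sum_cons]
      rfl
    obtain ⟨hz1, hz2⟩ := htag z (Multiset.mem_cons_self z Z)
    have h2 := hlen z (Multiset.mem_cons_self z Z)
    have h3 : ∀ j, (Multiset.card ((z ::ₘ Z).filter (fun z => z.2.2 ≤ j)) : ℝ) =
        (if z.2.2 ≤ j then 1 else 0) + (Multiset.card (Z.filter (fun z => z.2.2 ≤ j)) : ℝ) := by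
      intro j
      by_cases h : z.2.2 ≤ j
      · rw [Multiset.filter_cons_of_pos (p := fun z : ℝ × ℝ × ℕ => z.2.2 ≤ j) _ h, if_pos h, Multiset.card_cons]
        push_cast
        ring
      · rw [Multiset.filter_cons_of_neg (p := fun z : ℝ × ℝ × ℕ => z.2.2 ≤ j) _ h, if_neg h, zero_add]
    have h4 : ∑ j ∈ Finset.Ico a k, 2 * Layer_g j *
        (Multiset.card ((z ::ₘ Z).filter (fun z => z.2.2 ≤ j)) : ℝ) =
        ∑ j ∈ Finset.Ico a k, 2 * Layer_g j * (if z.2.2 ≤ j then 1 else 0) +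
        ∑ j ∈ Finset.Ico a k, 2 * Layer_g j * (Multiset.card (Z.filter (fun z => z.2.2 ≤ j)) : ℝ) := by
      rw [← Finset.sum_add_distrib]
      refine Finset.sum_congr rfl fun j _ => ?_
      rw [h3 j]
      ring
    have h5 : ∑ j ∈ Finset.Ico a k, 2 * Layer_g j * (if z.2.2 ≤ j then (1 : ℝ) else 0) =
        2 * (1 / (z.2.2 : ℝ) ^ 12 - 1 / (k : ℝ) ^ 12) := by
      rw [← Layer_tel _ _ hz2, Finset.mul_sum]
      have h6 : Finset.Ico z.2.2 k = (Finset.Ico a k).filter (fun j => z.2.2 ≤ j) := by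
        ext j
        rw [Finset.mem_filter, Finset.mem_Ico, Finset.mem_Ico]
        omega
      rw [h6, Finset.sum_filter]
      refine Finset.sum_congr rfl fun j _ => ?_
      split_ifs
      · ring
      · ring
    rw [h1, h4, h5, Multiset.card_cons]
    have h7 : 2 * ((Multiset.card Z + 1 : ℕ) : ℝ) / (k : ℝ) ^ 12 =
        2 * (Multiset.card Z : ℝ) / (k : ℝ) ^ 12 + 2 * (1 / (k : ℝ) ^ 12) := by
      push_cast
      ring
    rw [h7]
    have h8 : 2 / (z.2.2 : ℝ) ^ 12 = 2 * (1 / (z.2.2 : ℝ) ^ 12) := by ring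
    rw [h8] at h2
    linarith

/-- Layer cake.
PROOF: for a tag `t ≤ k`: `1/t^12 = Σ_{j ∈ Ico t k} (1/j^12 - 1/(j+1)^12) + 1/k^12` (telescoping).
Summing over `z ∈ Z` (Multiset induction, or write everything as a sum over `Z`), `lenZ Z ≤ Σ_z 2/t^12
= 2 Σ_{j ∈ Ico a k} (1/j^12 - 1/(j+1)^12) · #{z : tag ≤ j} + 2 card Z / k^12`, and
`1/j^12 - 1/(j+1)^12 ≤ 12/j^13`, `(j+1)^10 ≤ 2 j^10` (for `j ≥ 20`), so
`lenZ Z ≤ 48 Σ_{j ≥ a} 1/j^3 + 4/k^2 ≤ 24/(a-1)^2 + 4/k^2 ≤ 30/(a-1)^2` (`sum_inv_cube`). -/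
theorem layer_cake (k a : ℕ) (Z : Multiset (ℝ × ℝ × ℕ)) (ha : 20 ≤ a) (hak : a ≤ k)
    (htag : ∀ z ∈ Z, a ≤ z.2.2 ∧ z.2.2 ≤ k) (hlen : ∀ z ∈ Z, z.2.1 ≤ 2 / (z.2.2 : ℝ) ^ 12)
    (hcount : ∀ j, a ≤ j → j < k →
      (Multiset.card (Z.filter (fun z => z.2.2 ≤ j)) : ℝ) ≤ ((j : ℝ) + 1) ^ 10)
    (hcard : (Multiset.card Z : ℝ) ≤ ((k : ℝ) + 1) ^ 10) :
    lenZ Z ≤ 30 / ((a : ℝ) - 1) ^ 2 := by
  have haR : (20 : ℝ) ≤ a := by exact_mod_cast ha
  have hkR : (20 : ℝ) ≤ k := by exact_mod_cast ha.trans hak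
  have hakR : (a : ℝ) ≤ k := by exact_mod_cast hak
  have h1 := Layer_sum k a Z htag hlen
  have h2 : ∑ j ∈ Finset.Ico a k, 2 * Layer_g j * (Multiset.card (Z.filter (fun z => z.2.2 ≤ j)) : ℝ) ≤
      ∑ j ∈ Finset.Ico a k, 48 * (1 / (j : ℝ) ^ 3) := by
    refine Finset.sum_le_sum fun j hj => ?_
    rw [Finset.mem_Ico] at hj
    have hj1 : 1 ≤ j := by omega
    have hjR : (20 : ℝ) ≤ j := by exact_mod_cast ha.trans hj.1
    have h3 := Layer_g_le hj1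
    have h3' := Layer_g_nonneg hj1
    have h4 := hcount j hj.1 hj.2
    have h5 := Layer_pow (ha.trans hj.1)
    have h6 : (Multiset.card (Z.filter (fun z => z.2.2 ≤ j)) : ℝ) ≤ 2 * (j : ℝ) ^ 10 := h4.trans h5
    calc 2 * Layer_g j * (Multiset.card (Z.filter (fun z => z.2.2 ≤ j)) : ℝ)
        ≤ 2 * Layer_g j * (2 * (j : ℝ) ^ 10) := mul_le_mul_of_nonneg_left h6 (by linarith)
      _ ≤ 2 * (12 / (j : ℝ) ^ 13) * (2 * (j : ℝ) ^ 10) :=
          mul_le_mul_of_nonneg_right (by linarith) (by positivity)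
      _ = 48 * (1 / (j : ℝ) ^ 3) := by
          field_simp
          ring
  have h3 := sum_inv_cube (Finset.Ico a k) a (by omega) (fun j hj => (Finset.mem_Ico.1 hj).1)
  rw [← Finset.mul_sum] at h2
  have h4 : 2 * (Multiset.card Z : ℝ) / (k : ℝ) ^ 12 ≤ 4 * (1 / ((a : ℝ) - 1) ^ 2) := by
    have h5 := hcard.trans (Layer_pow (ha.trans hak))
    calc 2 * (Multiset.card Z : ℝ) / (k : ℝ) ^ 12 ≤ 2 * (2 * (k : ℝ) ^ 10) / (k : ℝ) ^ 12 :=
          div_le_div_of_nonneg_right (by linarith) (by positivity)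
      _ = 4 * (1 / (k : ℝ) ^ 2) := by
          field_simp
          ring
      _ ≤ 4 * (1 / ((a : ℝ) - 1) ^ 2) := by
          apply mul_le_mul_of_nonneg_left _ (by norm_num)
          apply one_div_le_one_div_of_le
          · have : (0 : ℝ) < (a : ℝ) - 1 := by linarith
            positivity
          · exact pow_le_pow_left₀ (by linarith) (by linarith) 2
  have h6 : 1 / (2 * ((a : ℝ) - 1) ^ 2) = (1 / 2) * (1 / ((a : ℝ) - 1) ^ 2) := by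
    rw [one_div, mul_inv]
    ring
  have h7 : 30 / ((a : ℝ) - 1) ^ 2 = 30 * (1 / ((a : ℝ) - 1) ^ 2) := by ring
  have h8 : 0 ≤ 1 / ((a : ℝ) - 1) ^ 2 := by positivity
  rw [h6] at h3
  rw [h7]
  linarith

end Pool.Agent.MM1
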