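import Pool.Agent.MP_94f265_co.MM1.Layer
import Pool.Agent.MP_94f265_co.MM1.NumDef

namespace Pool.Agent.MM1

theorem LenGen_num (k a : ℕ) (hk : 1 ≤ k) (h : (k : ℝ) ^ 12 ≤ 2 * (a : ℝ) ^ 13) :
    (k : ℝ) ^ ((9 : ℝ) / 5) ≤ (13 / 10) * (a : ℝ) ^ 2 := by
  have hk1 : (1 : ℝ) ≤ k := by exact_mod_cast hk
  have hk0 : (0 : ℝ) ≤ k := by linarith
  set s : ℝ := (k : ℝ) ^ ((1 : ℝ) / 5) with hs
  have hs1 : 1 ≤ s := Real.one_le_rpow hk1 (by norm_num)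
  have hs5 : s ^ 5 = k := by
    rw [hs, ← Real.rpow_natCast, ← Real.rpow_mul hk0]
    norm_num
  have hs9 : (k : ℝ) ^ ((9 : ℝ) / 5) = s ^ 9 := by
    rw [hs, ← Real.rpow_natCast, ← Real.rpow_mul hk0]
    norm_num
  rw [hs9]
  by_contra hlt
  push Not at hlt
  have h1 : (13 / 10 * (a : ℝ) ^ 2) ^ 13 ≤ (s ^ 9) ^ 13 :=
    pow_le_pow_left₀ (by positivity) hlt.le 13
  have h2 : s ^ 60 ≤ 2 * (a : ℝ) ^ 13 := by
    rw [← hs5] at h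
    calc s ^ 60 = (s ^ 5) ^ 12 := by ring
      _ ≤ _ := h
  have h3 : (s ^ 60) ^ 2 ≤ (2 * (a : ℝ) ^ 13) ^ 2 := pow_le_pow_left₀ (by positivity) h2 2
  have h4 : s ^ 117 ≤ s ^ 120 := pow_le_pow_right₀ hs1 (by norm_num)
  have h5 : 0 < s ^ 120 := by positivity
  have e1 : (13 / 10 * (a : ℝ) ^ 2) ^ 13 = (13 / 10) ^ 13 * (a : ℝ) ^ 26 := by ring
  have e2 : (s ^ 9) ^ 13 = s ^ 117 := by ring
  have e3 : (s ^ 60) ^ 2 = s ^ 120 := by ring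
  have e4 : (2 * (a : ℝ) ^ 13) ^ 2 = 4 * (a : ℝ) ^ 26 := by ring
  rw [e1, e2] at h1
  rw [e3, e4] at h3
  have h6 : ((13 : ℝ) / 10) ^ 13 * s ^ 120 ≤ 4 * s ^ 120 := by
    calc ((13 : ℝ) / 10) ^ 13 * s ^ 120 ≤ (13 / 10) ^ 13 * (4 * (a : ℝ) ^ 26) :=
          mul_le_mul_of_nonneg_left h3 (by positivity)
      _ = 4 * ((13 / 10) ^ 13 * (a : ℝ) ^ 26) := by ring
      _ ≤ 4 * s ^ 117 := mul_le_mul_of_nonneg_left h1 (by norm_num)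
      _ ≤ 4 * s ^ 120 := mul_le_mul_of_nonneg_left h4 (by norm_num)
  have h7 : ((13 : ℝ) / 10) ^ 13 ≤ 4 := le_of_mul_le_mul_right h6 h5
  norm_num at h7

/-- PROOF: if `Z = 0` clear (`lenZ 0 = 0`).  Every `z ∈ Z` has a tag `t = z.2.2 ≤ k`, `NumEp t`, with `1/t^13 ≤ z.1 ≤ wmax k ≤ 2/k^12`, so
`k^12 ≤ 2 t^13`.  Let `a` be the least natural number with `k^12 ≤ 2 a^13`; then `a ≤ t ≤ k` and `a ≥ 100`
(`2 · 99^13 < 100000^12`).  `layer_cake` (for `j ≥ a`, `j < k`, the hypothesis `hcount`: if some `z` has tag `≤ j` then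
`NumEp (tag)`... use `hcount` directly, it is stated for all `j < k`).  Finally `a ≥ (k^12/2)^(1/13) ≥ 0.94 k^(12/13)`, `a - 1 ≥ 0.9 k^(12/13)`,
`(a-1)^2 ≥ 0.8 k^(24/13) ≥ 0.8 k^(9/5)`, `30/0.8 ≤ 40`. -/
theorem lenZ_gen (k : ℕ) (hk : NumEp k) (Z : Multiset (ℝ × ℝ × ℕ))
    (hz : ∀ z ∈ Z, z.1 ≤ wmax k ∧ ∃ t, t ≤ k ∧ NumEp t ∧ Zgood t z)
    (hcount : ∀ j, j < k →
      (Multiset.card (Z.filter (fun z => z.2.2 ≤ j)) : ℝ) ≤ ((j : ℝ) + 1) ^ 10)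
    (hcard : (Multiset.card Z : ℝ) ≤ ((k : ℝ) + 1) ^ 10) :
    lenZ Z ≤ 40 / (k : ℝ) ^ ((9 : ℝ) / 5) := by
  have hk5 := hk.hk
  have hkr : (0 : ℝ) < k := by
    have : 0 < k := by omega
    exact_mod_cast this
  have hex : ∃ a : ℕ, k ^ 12 ≤ 2 * a ^ 13 := by
    refine ⟨k, ?_⟩
    have h1 : k ^ 12 * 1 ≤ k ^ 12 * k := Nat.mul_le_mul_left _ (by omega)
    calc k ^ 12 = k ^ 12 * 1 := by ring
      _ ≤ k ^ 12 * k := h1
      _ = k ^ 13 := by ring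
      _ ≤ 2 * k ^ 13 := by omega
  classical
  set a := Nat.find hex with ha
  have ha1 : k ^ 12 ≤ 2 * a ^ 13 := Nat.find_spec hex
  have ha2 : ∀ t : ℕ, k ^ 12 ≤ 2 * t ^ 13 → a ≤ t := fun t ht => Nat.find_min' hex ht
  have ha100 : 100 ≤ a := by
    by_contra hlt
    push Not at hlt
    have h1 : a ^ 13 ≤ 99 ^ 13 := Nat.pow_le_pow_left (by omega) 13
    have h2 : 100000 ^ 12 ≤ k ^ 12 := Nat.pow_le_pow_left hk5 12
    have h3 : 2 * 99 ^ 13 < 100000 ^ 12 := by norm_num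
    omega
  have htag : ∀ z ∈ Z, a ≤ z.2.2 ∧ z.2.2 ≤ k := by
    intro z hzZ
    obtain ⟨h1, t, h2, h3, h4⟩ := hz z hzZ
    obtain ⟨h5, h6, -⟩ := h4
    rw [h5]
    refine ⟨ha2 t ?_, h2⟩
    have h7 : del t ≤ 2 / (k : ℝ) ^ 12 := h6.trans (h1.trans hk.e4)
    unfold del at h7
    have ht0 : (0 : ℝ) < t := by
      have := h3.hk
      have : 0 < t := by omega
      exact_mod_cast this
    rw [div_le_div_iff₀ (by positivity) (by positivity)] at h7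
    have h8 : ((k : ℝ)) ^ 12 ≤ 2 * (t : ℝ) ^ 13 := by linarith
    exact_mod_cast h8
  have hlen : ∀ z ∈ Z, z.2.1 ≤ 2 / (z.2.2 : ℝ) ^ 12 := by
    intro z hzZ
    obtain ⟨-, t, -, -, h4⟩ := hz z hzZ
    obtain ⟨h5, -, -, -, h6⟩ := h4
    rw [h5]; exact h6
  rcases Multiset.empty_or_exists_mem Z with h0 | ⟨z, hzZ⟩
  · rw [h0]
    unfold lenZ
    rw [Multiset.map_zero, Multiset.sum_zero]
    positivity
  · have hak : a ≤ k := (htag z hzZ).1.trans (htag z hzZ).2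
    have h1 := layer_cake k a Z (by omega) hak htag hlen (fun j _ hj => hcount j hj) hcard
    refine h1.trans ?_
    have h2 := LenGen_num k a (by omega) (by exact_mod_cast ha1)
    have har : (100 : ℝ) ≤ a := by exact_mod_cast ha100
    have h3 : (0 : ℝ) < (k : ℝ) ^ ((9 : ℝ) / 5) := by positivity
    rw [div_le_div_iff₀ (by nlinarith) h3]
    nlinarith

end Pool.Agent.MM1
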