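import Pool.Agent.MP_94f265_co.MM1.ExRun
import Pool.Agent.MP_94f265_co.MM1.AreaI

namespace Pool.Agent.MM1

theorem Packing_units_add (F : Fam) {A B : Finset ℕ} (h : Disjoint A B) :
    F.units (A ∪ B) = F.units A + F.units B := by
  unfold Fam.units
  rw [← Finset.disjUnion_eq_union _ _ h, Finset.disjUnion_val, Multiset.map_add]

theorem Packing_step (F : Fam) (i : ℕ) (s t : St) (h : Step F i s t) :
    s.E ⊆ t.E ∧
    Cut (F.free i s) (F.units (F.done (i + 1) t.E \ F.done i s.E) + F.free (i + 1) t) := by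
  obtain ⟨k, m, hk1, hk2, hmid, hreg⟩ := h
  by_cases hik : i = k ^ 3
  · have he := hmid.1 hik
    subst hik
    have hE : s.E ⊆ t.E := by
      rw [hreg.hE]
      exact he.hEs
    refine ⟨hE, ?_⟩
    have hA : F.done (k ^ 3 + 1) t.E \ F.done (k ^ 3) s.E = (m.E \ s.E) ∪ (F.P (k ^ 3) \ m.E) := by
      ext n
      rw [Finset.mem_sdiff, Finset.mem_union, Finset.mem_sdiff, Finset.mem_sdiff, F.mem_done, F.mem_done,
        F.mem_P, hreg.hE]
      constructor
      · rintro ⟨h1, h2⟩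
        push Not at h2
        by_cases hm : n ∈ m.E
        · exact Or.inl ⟨hm, h2.2⟩
        · rcases h1 with h1 | h1
          · have h3 := h2.1 h1.1
            exact Or.inr ⟨⟨h1.1, by omega⟩, hm⟩
          · exact absurd h1 hm
      · rintro (⟨h1, h2⟩ | ⟨⟨h1, h2⟩, h3⟩)
        · refine ⟨Or.inr h1, ?_⟩
          have h4 := ph_slots F (he.hEk (Finset.mem_sdiff.2 ⟨h1, h2⟩))
          rintro (⟨_, h5⟩ | h5)
          · omega
          · exact h2 h5
        · refine ⟨Or.inl ⟨h1, by omega⟩, ?_⟩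
          rintro (⟨_, h5⟩ | h5)
          · omega
          · exact h3 (he.hEs h5)
    have hdis : Disjoint (m.E \ s.E) (F.P (k ^ 3) \ m.E) := by
      rw [Finset.disjoint_left]
      intro n h1 h2
      exact (Finset.mem_sdiff.1 h2).2 (Finset.mem_sdiff.1 h1).1
    rw [hA, Packing_units_add F hdis, add_assoc]
    exact he.hcut.trans (hreg.hcut.add_left _)
  · have hm := hmid.2 hik
    subst hm
    have hE : m.E ⊆ t.E := by rw [hreg.hE]
    refine ⟨hE, ?_⟩
    have hA : F.done (i + 1) t.E \ F.done i m.E = F.P i \ m.E := by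
      ext n
      rw [Finset.mem_sdiff, Finset.mem_sdiff, F.mem_done, F.mem_done, F.mem_P, hreg.hE]
      constructor
      · rintro ⟨h1, h2⟩
        push Not at h2
        rcases h1 with h1 | h1
        · have h3 := h2.1 h1.1
          exact ⟨⟨h1.1, by omega⟩, h2.2⟩
        · exact absurd h1 h2.2
      · rintro ⟨⟨h1, h2⟩, h3⟩
        refine ⟨Or.inl ⟨h1, by omega⟩, ?_⟩
        rintro (⟨_, h5⟩ | h5)
        · omega
        · exact h3 h5
    rw [hA]
    exact hreg.hcut

/-- THE PACKING.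
PROOF: let `f` be an infinite run, `G d = F.free (k0^3+d) (f (k0^3+d))`, `A d = F.done (i+1) (f (i+1)).E \ F.done i (f i).E` with `i = k0^3+d`.
`G 0 = {(a, b)}`.  `Cut (G d) (F.units (A d) + G (d+1))`: `EndsStep.hcut` then `RegStep.hcut` (`Cut.trans`, `Cut.add_left`), and
`A d = (m.E \ (f i).E) ∪ (P i \ m.E)` (disjoint), so `F.units (A d)` is the sum.  Pairwise disjoint: `done` is increasing.
Every `n ≥ n0` is in some `A d`: `n ∈ done (ph n + 1) _` and `n ∉ done (k0^3) ∅`; take the first `d`.  Apply `assemble`. -/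
theorem packing (F : Fam) (hB : Big F) :
    ∃ R : ℕ → PR, (∀ n, F.n0 ≤ n → (R n).Has (F.x n, F.y n) ∧ (R n).Sub ⟨0, 0, F.a, F.b⟩) ∧
      (∀ n m, F.n0 ≤ n → F.n0 ≤ m → n ≠ m → (R n).Sep (R m)) := by
  obtain ⟨f, hf⟩ := exists_run F hB
  have hinit : f (F.k0 ^ 3) = init F := (hf 0).1
  have hstep : ∀ d, Step F (F.k0 ^ 3 + d) (f (F.k0 ^ 3 + d)) (f (F.k0 ^ 3 + d + 1)) := fun d =>
    (hf (F.k0 ^ 3 + d + 1)).2 _ (Nat.le_add_right _ _) (Nat.lt_succ_self _)
  have hP := fun d => Packing_step F _ _ _ (hstep d)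
  set D : ℕ → Finset ℕ := fun d => F.done (F.k0 ^ 3 + d) (f (F.k0 ^ 3 + d)).E with hD
  have hmono : Monotone D := by
    refine monotone_nat_of_le_succ fun d => ?_
    intro n hn
    have h1 := (F.mem_done).1 hn
    refine (F.mem_done).2 ?_
    rcases h1 with h1 | h1
    · exact Or.inl ⟨h1.1, by omega⟩
    · exact Or.inr ((hP d).1 h1)
  have hnot : ∀ n, F.n0 ≤ n → n ∉ D 0 := by
    intro n hn h
    have h1 := (F.mem_done).1 h
    rw [add_zero, hinit] at h1
    rcases h1 with h1 | h1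
    · have h2 := F.k0_le_ph h1.1
      omega
    · simp [init] at h1
  have hin : ∀ n, F.n0 ≤ n → n ∈ D (ph n + 1) := by
    intro n hn
    exact (F.mem_done).2 (Or.inl ⟨hn, by omega⟩)
  have hD0 : D 0 = ∅ := by
    refine Finset.eq_empty_of_forall_notMem fun n h => ?_
    have h1 := (F.mem_done).1 h
    rw [add_zero, hinit] at h1
    rcases h1 with h1 | h1
    · have h2 := F.k0_le_ph h1.1
      omega
    · simp [init] at h1
  obtain ⟨R, hR1, hR2⟩ := assemble F (fun d => F.free (F.k0 ^ 3 + d) (f (F.k0 ^ 3 + d)))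
    (fun d => D (d + 1) \ D d) (by
      have h1 : F.done (F.k0 ^ 3) (f (F.k0 ^ 3)).E = ∅ := by
        have := hD0
        rw [hD] at this
        simpa using this
      change F.free (F.k0 ^ 3 + 0) (f (F.k0 ^ 3 + 0)) = _
      rw [add_zero]
      unfold Fam.free
      rw [h1, hinit]
      simp [init, Fam.sliv]) (fun d => (hP d).2) (fun i j hij => by
      rw [Finset.disjoint_left]
      intro n h1 h2
      exact (Finset.mem_sdiff.1 h2).2 (hmono (Nat.succ_le_of_lt hij) (Finset.mem_sdiff.1 h1).1))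
  have hmem : ∀ n, F.n0 ≤ n → ∃ d, n ∈ D (d + 1) \ D d := by
    intro n hn
    classical
    have hex : ∃ d, n ∈ D d := ⟨_, hin n hn⟩
    have h1 := Nat.find_spec hex
    have h0 : Nat.find hex ≠ 0 := by
      intro h
      rw [h] at h1
      exact hnot n hn h1
    obtain ⟨d, hd⟩ := Nat.exists_eq_succ_of_ne_zero h0
    refine ⟨d, Finset.mem_sdiff.2 ⟨?_, ?_⟩⟩
    · rw [hd] at h1
      exact h1
    · exact Nat.find_min hex (by omega)
  refine ⟨R, ?_, ?_⟩
  · intro n hn
    obtain ⟨d, hd⟩ := hmem n hn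
    exact hR1 d n hd
  · intro n m hn hm hnm
    obtain ⟨d, hd⟩ := hmem n hn
    obtain ⟨e, he⟩ := hmem m hm
    exact hR2 d e n hd m he hnm

end Pool.Agent.MM1
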