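import Pool.Agent.MP_94f265_co.MM1.PPof
import Pool.Agent.MP_94f265_co.MM1.Packing
import Pool.Agent.MP_94f265_co.MM1.BigE

namespace Pool.Agent.MM1

theorem MainG_k0 (K B : ℕ) (h : K ^ 3 + 32 ≤ B) :
    ∃ k0 : ℕ, K ≤ k0 ∧ k0 ^ 3 + 32 ≤ B ∧ B < (k0 + 1) ^ 3 + 32 := by
  classical
  have hKB : K ≤ B := by
    have h1 : K ≤ K ^ 3 := Nat.le_self_pow (by norm_num) K
    omega
  refine ⟨Nat.findGreatest (fun k => k ^ 3 + 32 ≤ B) B, Nat.le_findGreatest hKB h,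
    Nat.findGreatest_spec (P := fun k => k ^ 3 + 32 ≤ B) hKB h, ?_⟩
  by_contra hcon
  rw [not_lt] at hcon
  obtain ⟨k, hk⟩ : ∃ k, k = Nat.findGreatest (fun k => k ^ 3 + 32 ≤ B) B := ⟨_, rfl⟩
  rw [← hk] at hcon
  have h1 : k + 1 ≤ B := by
    have h2 : k + 1 ≤ (k + 1) ^ 3 := Nat.le_self_pow (by norm_num) _
    omega
  exact Nat.findGreatest_is_greatest (P := fun k => k ^ 3 + 32 ≤ B) (n := B) (k := k + 1)
    (by rw [← hk]; omega) h1 hcon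

theorem MainG_blk (m n : ℕ) (h : m ^ 4 ≤ n) : m ≤ blk n := by
  unfold blk
  rw [Nat.le_sqrt', Nat.le_sqrt', ← pow_mul]
  exact h

/-- MAIN THEOREM, general form.
PROOF: `K` from `exists_big`, `N = (K^3 + 32)^4` (at least `32^4`).  For `n ≥ N` let `k0` be the largest `k` with `k^3 + 32 ≤ blk n`
(`Nat.findGreatest`), so `k0 ≥ K` and `blk n < (k0+1)^3 + 32`; build the `Fam` and apply `packing` and `perfectlyPacks_of`. -/
theorem main_general : ∃ N : ℕ, ∀ n : ℕ, N ≤ n → ∀ x y : ℕ → ℝ,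
    (∀ k, n ≤ k → (1 / ((k : ℝ) + 1) ≤ x k ∧ x k ≤ 1 / (k : ℝ)) ∧
      (1 / ((k : ℝ) + 1) ≤ y k ∧ y k ≤ 1 / (k : ℝ))) →
    ∀ a b : ℝ, 0 < a → 0 < b → a ≤ 2 * b → b ≤ 2 * a →
      HasSum (fun j => x (n + j) * y (n + j)) (a * b) →
      PerfectlyPacks (Set.Ici n) (fun k => box (x k) (y k)) (box a b) := by
  obtain ⟨K, hK⟩ := exists_big
  refine ⟨(K ^ 3 + 32) ^ 4, fun n hn x y hxy a b ha hb hab hba hsum => ?_⟩
  obtain ⟨k0, hKk, hk0, hk1⟩ := MainG_k0 K (blk n) (MainG_blk _ _ hn)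
  obtain ⟨F, hF⟩ : ∃ F : Fam, F = ⟨n, k0, x, y, a, b, fun m hm => (hxy m hm).1,
    fun m hm => (hxy m hm).2, hk0, hk1, ha, hb, hab, hba, hsum⟩ := ⟨_, rfl⟩
  have hB : Big F := hK F (by rw [hF]; exact hKk)
  obtain ⟨R, h1, h2⟩ := packing F hB
  rw [hF] at h1 h2
  have hpos : ∀ k : ℕ, (0 : ℝ) < 1 / ((k : ℝ) + 1) := fun k => by positivity
  exact perfectlyPacks_of n x y a b ha.le hb.le
    (fun k hk => lt_of_lt_of_le (hpos k) (hxy k hk).1.1)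
    (fun k hk => lt_of_lt_of_le (hpos k) (hxy k hk).2.1) hsum R h1 h2

end Pool.Agent.MM1
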