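import Pool.Agent.MP_94f265_co.MM1.MainG

namespace Pool.Agent.MM1

theorem MainR_hasSum (n : ℕ) (hn : 0 < n) :
    HasSum (fun j : ℕ => 1 / ((n + j : ℕ) : ℝ) * (1 / (((n + j : ℕ) : ℝ) + 1))) (1 / (n : ℝ)) := by
  have hn' : (0 : ℝ) < n := by exact_mod_cast hn
  rw [hasSum_iff_tendsto_nat_of_nonneg]
  · have e : ∀ N : ℕ, ∑ j ∈ Finset.range N, 1 / ((n + j : ℕ) : ℝ) * (1 / (((n + j : ℕ) : ℝ) + 1)) =
        1 / (n : ℝ) - 1 / ((n : ℝ) + N) := by
      intro N
      induction N with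
      | zero => simp
      | succ N ih =>
        rw [Finset.sum_range_succ, ih]
        have h1 : (0 : ℝ) < (n : ℝ) + N := by positivity
        have h2 : (0 : ℝ) < (n : ℝ) + N + 1 := by positivity
        push_cast
        rw [← add_assoc]
        field_simp
        ring
    simp only [e]
    have h : Filter.Tendsto (fun N : ℕ => 1 / ((n : ℝ) + N)) Filter.atTop (nhds 0) := by
      have h0 : Filter.Tendsto (fun N : ℕ => ((n : ℝ) + N)) Filter.atTop Filter.atTop :=
        Filter.tendsto_atTop_add_const_left _ _ tendsto_natCast_atTop_atTop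
      have h1 := tendsto_inv_atTop_zero.comp h0
      simpa [one_div, Function.comp_def] using h1
    simpa using (tendsto_const_nhds (x := 1 / (n : ℝ))).sub h
  · intro j
    positivity

/-- COROLLARY for the rectangles of the problem.
PROOF: `main_general` with `x k = 1/k`, `y k = 1/(k+1)`, `a = b = 1/√n`; `Σ_j 1/((n+j)(n+j+1)) = 1/n` (telescoping `HasSum`). -/
theorem main_R : ∃ N : ℕ, 0 < N ∧ ∀ n : ℕ, N ≤ n →
    PerfectlyPacks (Set.Ici n) R (box (1 / Real.sqrt n) (1 / Real.sqrt n)) := by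
  obtain ⟨N, hN⟩ := main_general
  refine ⟨N + 1, Nat.succ_pos N, fun n hn => ?_⟩
  have hn0 : 0 < n := by omega
  have hnr : (0 : ℝ) < n := by exact_mod_cast hn0
  have hs : 0 < Real.sqrt n := Real.sqrt_pos.2 hnr
  have ha : 0 < 1 / Real.sqrt n := by positivity
  refine hN n (by omega) (fun k => 1 / (k : ℝ)) (fun k => 1 / ((k : ℝ) + 1)) ?_ _ _ ha ha
    (by linarith) (by linarith) ?_
  · intro k hk
    have hk0 : (0 : ℝ) < k := by
      have : 0 < k := by omega
      exact_mod_cast this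
    have h1 : 1 / ((k : ℝ) + 1) ≤ 1 / (k : ℝ) := one_div_le_one_div_of_le hk0 (by linarith)
    exact ⟨⟨h1, le_rfl⟩, ⟨le_rfl, h1⟩⟩
  · have e : 1 / Real.sqrt n * (1 / Real.sqrt n) = 1 / (n : ℝ) := by
      rw [div_mul_div_comm, Real.mul_self_sqrt hnr.le, one_mul]
    rw [e]
    exact MainR_hasSum n hn0

end Pool.Agent.MM1
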