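import Pool.Agent.MP_94f265_co.MM1.MainG

namespace Pool.Agent.MM1

/-- COROLLARY for squares of side `1/k`.
PROOF: `main_general` with `x k = y k = 1/k`, `a = b = √(Σ_{k ≥ n} 1/k^2)`. -/
theorem main_squares : ∃ N : ℕ, 0 < N ∧ ∀ n : ℕ, N ≤ n →
    PerfectlyPacks (Set.Ici n) (fun k => box (1 / (k : ℝ)) (1 / (k : ℝ)))
      (box (Real.sqrt (∑' j : ℕ, 1 / ((n : ℝ) + j) ^ 2)) (Real.sqrt (∑' j : ℕ, 1 / ((n : ℝ) + j) ^ 2))) := by
  obtain ⟨N, hN⟩ := main_general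
  refine ⟨N + 1, Nat.succ_pos N, fun n hn => ?_⟩
  have hn1 : 1 ≤ n := by omega
  have hsm : Summable (fun j : ℕ => 1 / ((n : ℝ) + j) ^ 2) := by
    have h1 : Summable (fun j : ℕ => 1 / (j : ℝ) ^ 2) :=
      Real.summable_one_div_nat_pow.mpr (by norm_num)
    have h2 := (summable_nat_add_iff n).mpr h1
    refine h2.congr (fun j => ?_)
    rw [Nat.cast_add, add_comm (j : ℝ) (n : ℝ)]
  have hpos : ∀ j : ℕ, 0 < 1 / ((n : ℝ) + j) ^ 2 := by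
    intro j
    have h1 : (0 : ℝ) < (n : ℝ) := by exact_mod_cast hn1
    positivity
  have hS : 0 < ∑' j : ℕ, 1 / ((n : ℝ) + j) ^ 2 :=
    hsm.tsum_pos (fun j => (hpos j).le) 0 (hpos 0)
  have hsq : 0 < Real.sqrt (∑' j : ℕ, 1 / ((n : ℝ) + j) ^ 2) := Real.sqrt_pos.mpr hS
  refine hN n (by omega) (fun k => 1 / (k : ℝ)) (fun k => 1 / (k : ℝ)) ?_ _ _ hsq hsq
    (by linarith) (by linarith) ?_
  · intro k hk
    have hk0 : (0 : ℝ) < (k : ℝ) := by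
      have : 0 < k := by omega
      exact_mod_cast this
    have h1 : 1 / ((k : ℝ) + 1) ≤ 1 / (k : ℝ) := one_div_le_one_div_of_le hk0 (by linarith)
    exact ⟨⟨h1, le_rfl⟩, ⟨h1, le_rfl⟩⟩
  · rw [Real.mul_self_sqrt hS.le]
    have h1 := hsm.hasSum
    have e : (fun j : ℕ => 1 / ((n : ℝ) + j) ^ 2) =
        fun j : ℕ => 1 / ((n + j : ℕ) : ℝ) * (1 / ((n + j : ℕ) : ℝ)) := by
      funext j
      rw [Nat.cast_add, one_div_mul_one_div, pow_two]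
    exact e ▸ h1

end Pool.Agent.MM1
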