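import Pool.Agent.MP_94f265_co.MM1.Stmt
import Pool.Agent.MP_94f265_co.MM1.Defs

namespace Pool.Agent.MM1

/-- The uncovered part has measure zero when the areas agree.
PROOF: let `T n` be the open rectangle `Ioo (p.x) (p.x+p.a) ×ˢ Ioo (p.y) (p.y+p.b)`, `p = R n`, `n ≥ n0`.  They are pairwise disjoint
(`PR.Sep`), measurable, contained in the closed box, `volume (T n) = ofReal (x n * y n)`.  So `volume (⋃ T n) = Σ' ofReal (x n y n) =
ofReal (a b) = volume (box a b) < ∞`, hence `volume (box a b \ ⋃ T n) = 0` (`MeasureTheory.measure_diff`), and the closed rectangles are larger. -/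
theorem measure_zero (n0 : ℕ) (x y : ℕ → ℝ) (a b : ℝ) (ha : 0 ≤ a) (hb : 0 ≤ b)
    (hx : ∀ n, n0 ≤ n → 0 < x n) (hy : ∀ n, n0 ≤ n → 0 < y n)
    (hsum : HasSum (fun n => x (n0 + n) * y (n0 + n)) (a * b)) (R : ℕ → PR)
    (h1 : ∀ n, n0 ≤ n → (R n).Has (x n, y n) ∧ (R n).Sub ⟨0, 0, a, b⟩)
    (h2 : ∀ n m, n0 ≤ n → n0 ≤ m → n ≠ m → (R n).Sep (R m)) :
    MeasureTheory.volume (box a b \ ⋃ n ∈ Set.Ici n0,
      Set.Icc (R n).x ((R n).x + (R n).a) ×ˢ Set.Icc (R n).y ((R n).y + (R n).b)) = 0 := by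
  set T : ℕ → Set (ℝ × ℝ) := fun m => Set.Ioo (R (n0 + m)).x ((R (n0 + m)).x + (R (n0 + m)).a) ×ˢ
    Set.Ioo (R (n0 + m)).y ((R (n0 + m)).y + (R (n0 + m)).b) with hT
  have hn : ∀ m, n0 ≤ n0 + m := fun m => Nat.le_add_right _ _
  have hmeas : ∀ m, MeasurableSet (T m) := fun m => measurableSet_Ioo.prod measurableSet_Ioo
  have hvol : ∀ m, MeasureTheory.volume (T m) = ENNReal.ofReal (x (n0 + m) * y (n0 + m)) := by
    intro m
    have h3 := (h1 (n0 + m) (hn m)).1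
    have hx' := hx _ (hn m)
    have hy' := hy _ (hn m)
    rw [hT, MeasureTheory.Measure.volume_eq_prod]
    simp only
    rw [MeasureTheory.Measure.prod_prod, Real.volume_Ioo, Real.volume_Ioo, add_sub_cancel_left,
      add_sub_cancel_left]
    rcases h3 with ⟨h3, h4⟩ | ⟨h3, h4⟩
    · simp only at h3 h4
      rw [h3, h4, ← ENNReal.ofReal_mul hx'.le]
    · simp only at h3 h4
      rw [h3, h4, ← ENNReal.ofReal_mul hy'.le, mul_comm]
  have hdisj : Pairwise (Function.onFun Disjoint T) := by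
    intro m m' hm
    have h3 := h2 (n0 + m) (n0 + m') (hn m) (hn m') (by omega)
    rw [Function.onFun, Set.disjoint_left]
    rintro ⟨u, v⟩ ⟨⟨a1, a2⟩, a3, a4⟩ ⟨⟨b1, b2⟩, b3, b4⟩
    simp only at a1 a2 a3 a4 b1 b2 b3 b4
    rcases h3 with h3 | h3 | h3 | h3 <;> linarith
  have hsub : (⋃ m, T m) ⊆ box a b := by
    intro q hq
    rw [Set.mem_iUnion] at hq
    obtain ⟨m, ⟨a1, a2⟩, a3, a4⟩ := hq
    obtain ⟨c1, c2, c3, c4⟩ := (h1 (n0 + m) (hn m)).2
    simp only at c1 c2 c3 c4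
    exact ⟨⟨by linarith, by linarith⟩, by linarith, by linarith⟩
  have hU : MeasureTheory.volume (⋃ m, T m) = ENNReal.ofReal (a * b) := by
    rw [MeasureTheory.measure_iUnion hdisj hmeas]
    rw [tsum_congr hvol, ← ENNReal.ofReal_tsum_of_nonneg (fun m => (mul_pos (hx _ (hn m)) (hy _ (hn m))).le)
      hsum.summable, hsum.tsum_eq]
  have hB : MeasureTheory.volume (box a b) = ENNReal.ofReal (a * b) := by
    rw [box, MeasureTheory.Measure.volume_eq_prod, MeasureTheory.Measure.prod_prod, Real.volume_Icc,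
      Real.volume_Icc, sub_zero, sub_zero, ← ENNReal.ofReal_mul ha]
  have hD : MeasureTheory.volume (box a b \ ⋃ m, T m) = 0 := by
    rw [MeasureTheory.measure_sdiff hsub (MeasurableSet.iUnion hmeas).nullMeasurableSet
      (by rw [hU]; exact ENNReal.ofReal_ne_top), hU, hB, tsub_self]
  refine MeasureTheory.measure_mono_null ?_ hD
  refine Set.sdiff_subset_sdiff_right ?_
  intro q hq
  rw [Set.mem_iUnion] at hq
  obtain ⟨m, ⟨a1, a2⟩, a3, a4⟩ := hq
  rw [Set.mem_iUnion₂]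
  exact ⟨n0 + m, hn m, ⟨a1.le, a2.le⟩, a3.le, a4.le⟩

end Pool.Agent.MM1
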