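import Pool.Agent.MP_94f265_co.MM1.PlImage
import Pool.Agent.MP_94f265_co.MM1.MeasZ

namespace Pool.Agent.MM1

/-- From placed rectangles to `PerfectlyPacks`.
PROOF: `placed_image` (choice), `measure_zero`; the interior of the closed rectangle is the open one (`interior_prod_eq`, `interior_Icc`), and
`PR.Sep` makes open rectangles disjoint. -/
theorem perfectlyPacks_of (n0 : ℕ) (x y : ℕ → ℝ) (a b : ℝ) (ha : 0 ≤ a) (hb : 0 ≤ b)
    (hx : ∀ n, n0 ≤ n → 0 < x n) (hy : ∀ n, n0 ≤ n → 0 < y n)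
    (hsum : HasSum (fun n => x (n0 + n) * y (n0 + n)) (a * b)) (R : ℕ → PR)
    (h1 : ∀ n, n0 ≤ n → (R n).Has (x n, y n) ∧ (R n).Sub ⟨0, 0, a, b⟩)
    (h2 : ∀ n m, n0 ≤ n → n0 ≤ m → n ≠ m → (R n).Sep (R m)) :
    PerfectlyPacks (Set.Ici n0) (fun k => box (x k) (y k)) (box a b) := by
  have hex : ∀ k, n0 ≤ k → ∃ g, IsRigid g ∧ g '' box (x k) (y k) =
      Set.Icc (R k).x ((R k).x + (R k).a) ×ˢ Set.Icc (R k).y ((R k).y + (R k).b) :=
    fun k hk => placed_image (R k) (x k) (y k) (hx k hk).le (hy k hk).le (h1 k hk).1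
  choose! g hg1 hg2 using hex
  refine ⟨g, fun k hk => hg1 k hk, fun k hk => ?_, fun k hk l hl hkl => ?_, ?_⟩
  · obtain ⟨s1, s2, s3, s4⟩ := (h1 k hk).2
    rw [hg2 k hk]
    rintro ⟨p, q⟩ ⟨⟨hp1, hp2⟩, ⟨hq1, hq2⟩⟩
    simp only at s1 s2 s3 s4 hp1 hp2 hq1 hq2
    refine ⟨⟨?_, ?_⟩, ⟨?_, ?_⟩⟩
    · change (0 : ℝ) ≤ p
      linarith
    · change p ≤ a
      linarith
    · change (0 : ℝ) ≤ q
      linarith
    · change q ≤ b
      linarith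
  · rw [hg2 k hk, hg2 l hl, interior_prod_eq, interior_prod_eq, interior_Icc, interior_Icc,
      interior_Icc, interior_Icc, Set.disjoint_left]
    rintro ⟨p, q⟩ ⟨⟨hp1, hp2⟩, ⟨hq1, hq2⟩⟩ ⟨⟨hp3, hp4⟩, ⟨hq3, hq4⟩⟩
    simp only at hp1 hp2 hq1 hq2 hp3 hp4 hq3 hq4
    rcases h2 k l hk hl hkl with h | h | h | h <;> linarith
  · have e : (⋃ k ∈ Set.Ici n0, g k '' box (x k) (y k)) = ⋃ n ∈ Set.Ici n0,
        Set.Icc (R n).x ((R n).x + (R n).a) ×ˢ Set.Icc (R n).y ((R n).y + (R n).b) :=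
      Set.iUnion₂_congr (fun k hk => hg2 k hk)
    rw [e]
    exact measure_zero n0 x y a b ha hb hx hy hsum R h1 h2

end Pool.Agent.MM1
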