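import Pool.Agent.MP_94f265_co.MM1.Stmt
import Pool.Agent.MP_94f265_co.MM1.Defs

namespace Pool.Agent.MM1

/-- A placed rectangle is the image of the box under a rigid motion (angle `0` or `π/2`).
PROOF: `(p.a, p.b) = (x, y)`: `θ = 0`, `(u,v) = (p.x, p.y)`.  `(p.a, p.b) = (y, x)`: `θ = π/2`, `g (s, t) = (-t + p.x + y, s + p.y)`. -/
theorem placed_image (p : PR) (x y : ℝ) (hx : 0 ≤ x) (hy : 0 ≤ y) (h : p.Has (x, y)) :
    ∃ g, IsRigid g ∧ g '' box x y = Set.Icc p.x (p.x + p.a) ×ˢ Set.Icc p.y (p.y + p.b) := by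
  rcases h with ⟨h1, h2⟩ | ⟨h1, h2⟩
  · refine ⟨fun q => (q.1 + p.x, q.2 + p.y), ⟨0, p.x, p.y, fun q => ?_⟩, ?_⟩
    · simp
    · ext ⟨u, v⟩
      simp only [box, Set.mem_image, Set.mem_prod, Set.mem_Icc, Prod.mk.injEq, Prod.exists, h1, h2]
      constructor
      · rintro ⟨s, t, ⟨⟨a1, a2⟩, a3, a4⟩, rfl, rfl⟩
        exact ⟨⟨by linarith, by linarith⟩, by linarith, by linarith⟩
      · rintro ⟨⟨a1, a2⟩, a3, a4⟩
        exact ⟨u - p.x, v - p.y, ⟨⟨by linarith, by linarith⟩, by linarith, by linarith⟩, by ring, by ring⟩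
  · refine ⟨fun q => (-q.2 + (p.x + y), q.1 + p.y), ⟨Real.pi / 2, p.x + y, p.y, fun q => ?_⟩, ?_⟩
    · rw [Real.cos_pi_div_two, Real.sin_pi_div_two]
      ext
      · simp only; ring
      · simp only; ring
    · ext ⟨u, v⟩
      simp only [box, Set.mem_image, Set.mem_prod, Set.mem_Icc, Prod.mk.injEq, Prod.exists, h1, h2]
      constructor
      · rintro ⟨s, t, ⟨⟨a1, a2⟩, a3, a4⟩, rfl, rfl⟩
        exact ⟨⟨by linarith, by linarith⟩, by linarith, by linarith⟩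
      · rintro ⟨⟨a1, a2⟩, a3, a4⟩
        exact ⟨v - p.y, p.x + y - u, ⟨⟨by linarith, by linarith⟩, by linarith, by linarith⟩, by ring, by ring⟩

end Pool.Agent.MM1
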