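import Pool.Agent.MP_94f265_co.MM1.Fill
import Pool.Agent.MP_94f265_co.MM1.NumDef

namespace Pool.Agent.MM1

theorem RegCls_sort (m : Multiset (ℝ × ℝ)) : ∃ l : List (ℝ × ℝ), (l : Multiset (ℝ × ℝ)) = m ∧
    l.Pairwise (fun p q => p.1 ≤ q.1) := by
  classical
  obtain ⟨l, rfl⟩ := Quot.exists_rep m
  let r : ℝ × ℝ → ℝ × ℝ → Prop := fun p q => p.1 ≤ q.1
  have ht : Std.Total r := ⟨fun p q => le_total p.1 q.1⟩
  have htr : IsTrans (ℝ × ℝ) r := ⟨fun p q t h1 h2 => le_trans h1 h2⟩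
  refine ⟨List.insertionSort r l, ?_, List.pairwise_insertionSort r l⟩
  exact Multiset.coe_eq_coe.2 (List.perm_insertionSort r l)

theorem RegCls_val {l : List ℕ} (hl : l.Nodup) : l.toFinset.val = (l : Multiset ℕ) := by
  rw [List.toFinset_val, hl.dedup]

theorem RegCls_units (F : Fam) {l : List ℕ} (hl : l.Nodup) :
    F.units l.toFinset = ((l.map (fun n => (F.x n, F.y n)) : List (ℝ × ℝ)) : Multiset (ℝ × ℝ)) := by
  unfold Fam.units
  rw [RegCls_val hl]
  rfl

theorem RegCls_sliv (F : Fam) (w : ℕ → ℝ) {l : List ℕ} (hl : l.Nodup) :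
    F.sliv w l.toFinset = ((l.map (fun n => (w n - F.x n, F.y n)) : List (ℝ × ℝ)) : Multiset (ℝ × ℝ)) := by
  unfold Fam.sliv
  rw [RegCls_val hl]
  rfl

/-- all numbers present in phase `i` are smaller than `k ^ 13` -/
theorem RegCls_lt (F : Fam) {k i n : ℕ} {E : Finset ℕ} (hk : NumEp k)
    (h2 : i < (k + 1) ^ 3) (hE : ∀ n ∈ E, F.n0 ≤ n ∧ n < (k + 1) ^ 12) (hn : n ∈ F.done i E) :
    F.n0 ≤ n ∧ del k ≤ F.y n := by
  have hkpos : (0 : ℝ) < k := by
    have := hk.hk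
    have h3 : 0 < k := by omega
    exact_mod_cast h3
  have h10 := hk.e10
  have h12 := hk.e12
  have h13 : (101 / 100 : ℝ) * (k : ℝ) ^ 12 ≤ (k : ℝ) ^ 13 := by
    have : (0 : ℝ) < (k : ℝ) ^ 12 := by positivity
    linarith
  have key : F.n0 ≤ n ∧ (n : ℝ) + 1 ≤ (((k : ℝ) + 1) ^ 3 + 33) ^ 4 := by
    rw [F.mem_done] at hn
    rcases hn with ⟨h3, h4⟩ | h3
    · refine ⟨h3, ?_⟩
      have h5 := lt_of_ph n
      have h6 : (ph n + 32) ^ 4 ≤ ((k + 1) ^ 3 + 33) ^ 4 := Nat.pow_le_pow_left (by omega) 4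
      have h7 : n + 1 ≤ ((k + 1) ^ 3 + 33) ^ 4 := by omega
      exact_mod_cast h7
    · obtain ⟨h4, h5⟩ := hE n h3
      refine ⟨h4, ?_⟩
      have h6 : (k + 1) ^ 12 ≤ ((k + 1) ^ 3 + 33) ^ 4 := by
        calc (k + 1) ^ 12 = ((k + 1) ^ 3) ^ 4 := by ring
          _ ≤ _ := Nat.pow_le_pow_left (by omega) 4
      have h7 : n + 1 ≤ ((k + 1) ^ 3 + 33) ^ 4 := by omega
      exact_mod_cast h7
  refine ⟨key.1, ?_⟩
  refine le_trans ?_ (F.hy n key.1).1
  unfold del
  apply one_div_le_one_div_of_le (by positivity)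
  linarith [key.2]

/-- The class strips of phase `i`.  `C = F.cls i s.w (F.done i s.E)`, `N = F.P i \ s.E`.
There is a split of the slots `N = U ∪ V` (all of `U` before all of `V`) such that the class slivers can be
cut into the units and slivers of `U` and one irregular rectangle per class sliver.
PROOF: if `C = ∅` take `U = ∅`, `V = N`, `R = 0`.  Otherwise apply `fill_many` with `strips` = the list of `(σ n, y n)`, `n ∈ C`,
sorted by `σ n = s.w n - F.x n`, `ns = N.sort (· ≤ ·)`, `δ = del k`, `B = (i+32)^4`.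
`del k ≤ y n` for `n ∈ C ⊆ done`: `y n ≥ 1/(n+1)`, and `n < (i+32)^4 ≤ ((k+1)^3+32)^4` or
`n ∈ s.E`, `n < (k+1)^12`: in both cases `n + 1 ≤ 1.01 k^12 ≤ k^13` (`NumEp.e10, e12`).
`x n ≤ 1/i^4 < Th i ≤` thickness (`Fam.xy_phase`, `NumReg.h3`). -/
theorem reg_cls (F : Fam) (k i : ℕ) (s : St) (hi : NumReg i) (hk : NumEp k) (h1 : k ^ 3 ≤ i)
    (h2 : i < (k + 1) ^ 3) (hE : ∀ n ∈ s.E, F.n0 ≤ n ∧ n < (k + 1) ^ 12)
    (hcap : F.cls i s.w (F.done i s.E) = ∅ ∨
      (∑ n ∈ F.cls i s.w (F.done i s.E), F.y n) * ((i : ℝ) + 32) ^ 4 < (F.P i \ s.E).card) :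
    ∃ (U V : Finset ℕ) (W : ℕ → ℝ) (R : Multiset (ℝ × ℝ)),
      F.P i \ s.E = U ∪ V ∧ (∀ n ∈ U, ∀ n' ∈ V, n < n') ∧
      Multiset.card R = (F.cls i s.w (F.done i s.E)).card ∧
      (∀ n ∈ U, ∀ n' ∈ U, n ≤ n' → W n ≤ W n') ∧
      (∀ n ∈ U, Th i ≤ W n ∧ W n ≤ Tp i) ∧
      (∀ r ∈ R, del k ≤ r.1 ∧ r.1 ≤ 1 / (k : ℝ) ^ 12 + del k ∧ Th i ≤ r.2 ∧ r.2 ≤ Tp i) ∧
      Cut (F.sliv s.w (F.cls i s.w (F.done i s.E))) (F.units U + F.sliv W U + R) := by
  classical
  set C := F.cls i s.w (F.done i s.E) with hC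
  by_cases hCe : C = ∅
  · refine ⟨∅, F.P i \ s.E, fun _ => 0, 0, by rw [Finset.empty_union], ?_, by rw [hCe]; rfl, ?_, ?_, ?_, ?_⟩
    · intro n hn
      exact absurd hn (Finset.notMem_empty _)
    · intro n hn
      exact absurd hn (Finset.notMem_empty _)
    · intro n hn
      exact absurd hn (Finset.notMem_empty _)
    · intro r hr
      exact absurd hr (Multiset.notMem_zero _)
    · rw [hCe]
      refine Cut.of_eq ?_
      unfold Fam.sliv Fam.units
      rw [Finset.empty_val, Multiset.map_zero, Multiset.map_zero, Multiset.map_zero]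
      rfl
  · have hcap' := hcap.resolve_left hCe
    have hi0 : (0 : ℝ) < (i : ℝ) := by
      have := hi.hi
      have h3 : 0 < i := by omega
      exact_mod_cast h3
    have hkpos : (0 : ℝ) < k := by
      have := hk.hk
      have h3 : 0 < k := by omega
      exact_mod_cast h3
    obtain ⟨strips, hst1, hst2⟩ := RegCls_sort (F.sliv s.w C)
    have hmemst : ∀ p ∈ strips, ∃ n ∈ C, p = (s.w n - F.x n, F.y n) := by
      intro p hp
      have h3 : p ∈ F.sliv s.w C := by rw [← hst1]; exact hp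
      unfold Fam.sliv at h3
      obtain ⟨n, hn, he⟩ := Multiset.mem_map.1 h3
      exact ⟨n, hn, he.symm⟩
    have hstp : ∀ p ∈ strips, Th i ≤ p.1 ∧ p.1 < Tp i ∧ del k ≤ p.2 := by
      intro p hp
      obtain ⟨n, hn, rfl⟩ := hmemst p hp
      rw [hC, F.mem_cls] at hn
      exact ⟨hn.2.1, hn.2.2, (RegCls_lt F hk h2 hE hn.1).2⟩
    have hstlen : strips.length = C.card := by
      have h3 := congrArg Multiset.card hst1
      unfold Fam.sliv at h3
      rw [Multiset.card_map] at h3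
      exact h3
    have hstsum : (strips.map (fun p => p.2)).sum = ∑ n ∈ C, F.y n := by
      have h3 := congrArg (fun m : Multiset (ℝ × ℝ) => (m.map (fun p => p.2)).sum) hst1
      simp only [Fam.sliv, Multiset.map_map] at h3
      exact h3
    let ns := (F.P i \ s.E).sort (· ≤ ·)
    have hns1 : ns.Pairwise (· < ·) := (Finset.sortedLT_sort (F.P i \ s.E)).pairwise
    have hns2 : ∀ n ∈ ns, F.n0 ≤ n ∧ ph n = i := by
      intro n hn
      have h3 := (Finset.mem_sort (· ≤ ·)).1 hn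
      rw [Finset.mem_sdiff, F.mem_P] at h3
      exact h3.1
    have hnsl : ns.length = (F.P i \ s.E).card := Finset.length_sort (· ≤ ·)
    have hTh := hi.h3
    obtain ⟨us, vs, W, R, g1, g2, g3, g4, g5, g6, g7, g8⟩ :=
      fill_many F (del k) (((i : ℝ) + 32) ^ 4) (by unfold del; positivity) (by positivity) strips ns hst2 hns1
        (fun p hp => (hstp p hp).2.2) (fun n hn => (F.x_pos (hns2 n hn).1).le)
        (fun p hp n hn => by
          have h3 := (F.xy_phase (hns2 n hn).1 (hns2 n hn).2).1.2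
          linarith [(hstp p hp).1])
        (fun n hn => (F.y_pos (hns2 n hn).1).le)
        (fun n hn => by
          have h3 := (F.xy_phase (hns2 n hn).1 (hns2 n hn).2).2.1
          rw [div_le_iff₀ (by positivity)] at h3
          exact h3)
        (by rw [hstsum, hnsl]; exact hcap')
    have hpw := hns1
    rw [g1, List.pairwise_append] at hpw
    obtain ⟨hpu, hpv, hpuv⟩ := hpw
    have hndu : us.Nodup := hpu.imp (fun h => ne_of_lt h)
    have hndv : vs.Nodup := hpv.imp (fun h => ne_of_lt h)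
    refine ⟨us.toFinset, vs.toFinset, W, (R : Multiset (ℝ × ℝ)), ?_, ?_, ?_, ?_, ?_, ?_, ?_⟩
    · rw [← List.toFinset_append, ← g1]
      exact (Finset.sort_toFinset _ (· ≤ ·)).symm
    · intro n hn n' hn'
      exact hpuv n (List.mem_toFinset.1 hn) n' (List.mem_toFinset.1 hn')
    · rw [Multiset.coe_card, g4, hstlen]
    · intro n hn n' hn' hnn
      exact g5 n (List.mem_toFinset.1 hn) n' (List.mem_toFinset.1 hn') hnn
    · intro n hn
      obtain ⟨p, hp, he⟩ := g6 n (List.mem_toFinset.1 hn)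
      rw [he]
      exact ⟨(hstp p hp).1, (hstp p hp).2.1.le⟩
    · intro r hr
      obtain ⟨h3, ⟨n, hn, h4⟩, p, hp, h5⟩ := g7 r hr
      refine ⟨h3, ?_, ?_, ?_⟩
      · have h6 := (F.xy_phase (hns2 n hn).1 (hns2 n hn).2).2.2
        have h7 : 1 / (i : ℝ) ^ 4 ≤ 1 / (k : ℝ) ^ 12 := by
          apply one_div_le_one_div_of_le (by positivity)
          have h8 : (k ^ 3) ^ 4 ≤ i ^ 4 := Nat.pow_le_pow_left h1 4
          have h9 : k ^ 12 ≤ i ^ 4 := by
            calc k ^ 12 = (k ^ 3) ^ 4 := by ring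
              _ ≤ i ^ 4 := h8
          exact_mod_cast h9
        linarith
      · rw [h5]; exact (hstp p hp).1
      · rw [h5]; exact (hstp p hp).2.1.le
    · rw [RegCls_units F hndu, RegCls_sliv F W hndu, ← hst1]
      exact g8

end Pool.Agent.MM1
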