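import Pool.Agent.MP_94f265_co.MM1.Fill

namespace Pool.Agent.MM1

/-- Filling the remaining slots `ns ≠ []` into strips of width `w` cut from the reservoir `X × Y`
(strip length `X`).
PROOF: strong induction on `ns.length` (generalizing `ns`, `Y`).  First cut `(X, Y)` into `(X, w)` and
`(X, Y - w)` (`Cut.split'`, here `w ≤ Y` because `w * 1 ≤ w * (.. + 1) ≤ Y`), turn `(X, w)` into the strip `(w, X)`
(`Cut.swap`) and fill it: `fill_one F.y δ X ns` gives `ns = us ++ vs`, left over `r = X - Σ y ≥ δ`,
`r ≤ X` (the `y`'s are `≥ 0`).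
* `vs = []`: `m = 1`, `R = []`, `L = r`: `cut_strip` with `us = ns`.
* `vs = n :: vs'`: `X - Σ_{us} y < δ + y n ≤ δ + η`, so `us.length * η ≥ Σ_{us} y > X - δ - η ≥ X/2`, i.e.
  `1 ≤ us.length * (2 * η / X)` and `us ≠ []`.  Apply the induction hypothesis to `vs` (shorter) and
  `Y - w`: `w * (vs.length * (2η/X) + 1) ≤ Y - w` because `vs.length = ns.length - us.length`.  It
  gives `m', R', L`; put `m = m' + 1`, `R = (r, w) :: R'`.  `(X, Y - w - m' * w) = (X, Y - m * w)`.
  `Cut`: `cut_strip` for `(w, X)` with `us`, and the induction hypothesis (`Cut.add`, `abel`). -/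
theorem res_fill (F : Fam) (δ η w X : ℝ) (hδ : 0 ≤ δ) (hη : 0 < η) (hw : 0 ≤ w)
    (hX : 2 * δ + 2 * η ≤ X) (Y : ℝ) (ns : List ℕ) (hne : ns ≠ [])
    (hx : ∀ n ∈ ns, 0 ≤ F.x n ∧ F.x n ≤ w) (hy : ∀ n ∈ ns, 0 ≤ F.y n ∧ F.y n ≤ η)
    (hY : w * ((ns.length : ℝ) * (2 * η / X) + 1) ≤ Y) :
    ∃ (m : ℕ) (R : List (ℝ × ℝ)) (L : ℝ),
      (m : ℝ) ≤ (ns.length : ℝ) * (2 * η / X) + 1 ∧ R.length ≤ m ∧ δ ≤ L ∧ L ≤ X ∧
      (∀ r ∈ R, δ ≤ r.1 ∧ r.1 ≤ δ + η ∧ r.2 = w) ∧
      Cut {(X, Y)}
        (((ns.map (fun n => (F.x n, F.y n)) : List (ℝ × ℝ)) : Multiset (ℝ × ℝ)) +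
          ((ns.map (fun n => (w - F.x n, F.y n)) : List (ℝ × ℝ)) : Multiset (ℝ × ℝ)) +
          (R : Multiset (ℝ × ℝ)) + {(L, w)} + {(X, Y - m * w)}) := by
  have hXpos : 0 < X := by linarith
  have hδX : δ ≤ X := by linarith
  obtain ⟨N, hN⟩ : ∃ N, ns.length ≤ N := ⟨_, le_rfl⟩
  induction N generalizing ns Y with
  | zero => exact absurd (List.length_eq_zero_iff.1 (Nat.le_zero.1 hN)) hne
  | succ N ih =>
    obtain ⟨us, vs, hns, hr1, hr2⟩ := fill_one F.y δ X ns hδX
    have hmem1 : ∀ n ∈ us, n ∈ ns := fun n hn => by rw [hns]; exact List.mem_append_left _ hn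
    have hmem2 : ∀ n ∈ vs, n ∈ ns := fun n hn => by rw [hns]; exact List.mem_append_right _ hn
    have hsum0 : 0 ≤ (us.map F.y).sum := by
      apply List.sum_nonneg
      intro z hz
      obtain ⟨m, hm, rfl⟩ := List.mem_map.1 hz
      exact (hy m (hmem1 m hm)).1
    have hc0 : 0 ≤ 2 * η / X := by positivity
    have hwY : 0 ≤ Y - w := by
      have : 0 ≤ w * ((ns.length : ℝ) * (2 * η / X)) := by positivity
      rw [mul_add, mul_one] at hY
      linarith
    have hc1 : Cut {(X, Y)} ({(X, w)} + {(X, Y - w)}) := by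
      have : Y = w + (Y - w) := by ring
      conv_lhs => rw [this]
      exact Cut.split' hw hwY
    have hc2 : Cut {(X, w)}
        (((us.map (fun n => (F.x n, F.y n)) : List (ℝ × ℝ)) : Multiset (ℝ × ℝ)) +
        ((us.map (fun n => (w - F.x n, F.y n)) : List (ℝ × ℝ)) : Multiset (ℝ × ℝ)) +
        {(X - (us.map F.y).sum, w)}) :=
      (Cut.swap X w).trans (cut_strip F w us X (X - (us.map F.y).sum)
        (fun n hn => hx n (hmem1 n hn)) (fun n hn => (hy n (hmem1 n hn)).1)
        (hδ.trans hr1) (by ring))
    rcases hr2 with hvs | ⟨n₀, vs', hvs', hlt⟩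
    · have hus : ns = us := by rw [hns, hvs, List.append_nil]
      refine ⟨1, [], X - (us.map F.y).sum, ?_, by simp, hr1, by linarith, by simp, ?_⟩
      · push_cast
        have : 0 ≤ (ns.length : ℝ) * (2 * η / X) := by positivity
        linarith
      · rw [hus]
        refine hc1.trans ((Cut.add hc2 (Cut.refl _)).trans (Cut.of_eq ?_))
        have e : Y - ((1 : ℕ) : ℝ) * w = Y - w := by push_cast; ring
        rw [e]
        simp only [Multiset.coe_nil, add_zero]
    · have hlen : (us.map F.y).sum ≤ us.length * η := by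
        have key : ∀ l : List ℕ, (∀ n ∈ l, F.y n ≤ η) → (l.map F.y).sum ≤ l.length * η := by
          intro l
          induction l with
          | nil => simp
          | cons a l ihl =>
            intro h
            have h1 := h a (by simp)
            have h2 := ihl (fun n hn => h n (by simp [hn]))
            simp only [List.length_cons, List.map_cons, List.sum_cons]
            push_cast
            rw [add_mul]
            linarith
        exact key us (fun n hn => (hy n (hmem1 n hn)).2)
      have hyn₀ : F.y n₀ ≤ η := (hy n₀ (hmem2 n₀ (by rw [hvs']; simp))).2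
      have hhalf : X / 2 ≤ us.length * η := by linarith
      have hone : 1 ≤ (us.length : ℝ) * (2 * η / X) := by
        have e : (us.length : ℝ) * (2 * η / X) = (us.length * η) * 2 / X := by ring
        rw [e, le_div_iff₀ hXpos]
        linarith
      have huspos : 0 < us.length := by
        rcases Nat.eq_zero_or_pos us.length with h | h
        · rw [h, Nat.cast_zero, zero_mul] at hone
          exact absurd hone (by norm_num)
        · exact h
      have hlenns : (ns.length : ℝ) = us.length + vs.length := by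
        rw [hns, List.length_append]; push_cast; ring
      have hlenN : vs.length ≤ N := by
        have : ns.length = us.length + vs.length := by rw [hns, List.length_append]
        omega
      have hcount : (vs.length : ℝ) * (2 * η / X) + 1 ≤ (ns.length : ℝ) * (2 * η / X) := by
        rw [hlenns, add_mul]
        linarith
      have hY' : w * ((vs.length : ℝ) * (2 * η / X) + 1) ≤ Y - w := by
        have h1 := mul_le_mul_of_nonneg_left hcount hw
        have h2 := hY
        rw [mul_add, mul_one] at h2
        linarith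
      obtain ⟨m, R, L, g1, g2, g3, g4, g5, g6⟩ := ih (Y - w) vs (by rw [hvs']; simp)
        (fun n hn => hx n (hmem2 n hn)) (fun n hn => hy n (hmem2 n hn)) hY' hlenN
      refine ⟨m + 1, (X - (us.map F.y).sum, w) :: R, L, ?_, ?_, g3, g4, ?_, ?_⟩
      · push_cast
        linarith
      · simp only [List.length_cons]; omega
      · intro r hr
        rcases List.mem_cons.1 hr with rfl | hr
        · exact ⟨hr1, by simp only; linarith, rfl⟩
        · exact g5 r hr
      · refine hc1.trans ((Cut.add hc2 g6).trans (Cut.of_eq ?_))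
        have e : Y - ((m + 1 : ℕ) : ℝ) * w = Y - w - m * w := by push_cast; ring
        rw [e, hns]
        simp only [List.map_append, ← Multiset.coe_add, ← Multiset.cons_coe,
          ← Multiset.singleton_add]
        abel

end Pool.Agent.MM1
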