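import Pool.Agent.MP_94f265_co.MM1.MainG

namespace Pool.Agent.MM1

open MeasureTheory Pointwise

theorem smul_box (c a b : ℝ) (hc : 0 < c) :
    (fun p : ℝ × ℝ => c • p) '' box a b = box (c * a) (c * b) := by
  ext ⟨s, t⟩
  simp only [box, Set.mem_image, Set.mem_prod, Set.mem_Icc, Prod.exists, Prod.smul_mk, smul_eq_mul,
    Prod.mk.injEq]
  constructor
  · rintro ⟨u, v, ⟨⟨h1, h2⟩, h3, h4⟩, rfl, rfl⟩
    exact ⟨⟨by positivity, by gcongr⟩, by positivity, by gcongr⟩
  · rintro ⟨⟨h1, h2⟩, h3, h4⟩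
    refine ⟨s / c, t / c, ⟨⟨by positivity, ?_⟩, by positivity, ?_⟩, by field_simp, by field_simp⟩
    · rw [div_le_iff₀ hc]; linarith [mul_comm c a]
    · rw [div_le_iff₀ hc]; linarith [mul_comm c b]

/-- Perfect packings can be scaled. -/
theorem PerfectlyPacks.scale {I : Set ℕ} {x y : ℕ → ℝ} {a b : ℝ}
    (h : PerfectlyPacks I (fun k => box (x k) (y k)) (box a b)) (c : ℝ) (hc : 0 < c) :
    PerfectlyPacks I (fun k => box (c * x k) (c * y k)) (box (c * a) (c * b)) := by
  obtain ⟨g, h1, h2, h3, h4⟩ := h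
  have hc0 : c ≠ 0 := hc.ne'
  let T : ℝ × ℝ ≃ₜ ℝ × ℝ := Homeomorph.smulOfNeZero c hc0
  have hT : ∀ p, T p = c • p := fun p => rfl
  have key : ∀ k, (fun p => c • g k (c⁻¹ • p)) '' box (c * x k) (c * y k) =
      T '' (g k '' box (x k) (y k)) := by
    intro k
    rw [← smul_box c _ _ hc, Set.image_image, Set.image_image]
    apply Set.image_congr
    intro p _
    simp [hT, smul_smul, hc0]
  refine ⟨fun k p => c • g k (c⁻¹ • p), ?_, ?_, ?_, ?_⟩
  · intro k hk
    obtain ⟨θ, u, v, hg⟩ := h1 k hk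
    refine ⟨θ, c * u, c * v, fun p => ?_⟩
    beta_reduce
    rw [hg]
    ext
    · simp only [Prod.smul_fst, Prod.smul_snd, smul_eq_mul]
      field_simp
    · simp only [Prod.smul_fst, Prod.smul_snd, smul_eq_mul]
      field_simp
  · intro k hk
    rw [key, ← smul_box c _ _ hc]
    exact Set.image_mono (h2 k hk)
  · intro k hk l hl hkl
    simp only [key]
    rw [← T.image_interior, ← T.image_interior]
    exact (Set.disjoint_image_iff T.injective).2 (h3 k hk l hl hkl)
  · have e : box (c * a) (c * b) \ ⋃ k ∈ I, (fun p => c • g k (c⁻¹ • p)) ''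
        box (c * x k) (c * y k) = c • (box a b \ ⋃ k ∈ I, g k '' box (x k) (y k)) := by
      simp only [key]
      rw [← smul_box c _ _ hc, ← Set.image_iUnion₂]
      change T '' _ \ T '' _ = T '' _
      rw [Set.image_diff T.injective]
    rw [e, Measure.addHaar_smul, h4, mul_zero]

end Pool.Agent.MM1
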