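import Pool.Agent.MP_94f265_co.MM1.NumDef

namespace Pool.Agent.MM1

/-- Thickness of the slivers of a regular phase `j`.
PROOF: `Hist.rangeP` gives `Th j ≤ w n ≤ Tp j`; `Fam.xy_phase`: `1/(j+32)^4 ≤ x n ≤ 1/j^4`; `NumReg.h1, h3'`. -/
theorem Hist.sig_P {F : Fam} {i : ℕ} {w : ℕ → ℝ} {E : Finset ℕ} (H : Hist F i w E) {n : ℕ}
    (hn : F.n0 ≤ n) (hnE : n ∉ E) (hi : ph n < i) (hN : NumReg (ph n)) :
    1 / (ph n : ℝ) ^ 8 ≤ w n - F.x n ∧ w n - F.x n ≤ 133 / (ph n : ℝ) ^ 5 := by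
  obtain ⟨h1, h2⟩ := H.rangeP (ph n) hi n hn rfl hnE
  obtain ⟨⟨h3, h4⟩, -⟩ := F.xy_phase hn rfl
  have h5 := hN.h1
  have h6 := hN.h3'
  constructor <;> linarith

/-- Thickness of the slivers of an ends phase `k`.
PROOF: `Hist.rangeE`, `Fam.xy_slots`, `NumEp.e1, e3'`. -/
theorem Hist.sig_E {F : Fam} {i : ℕ} {w : ℕ → ℝ} {E : Finset ℕ} (H : Hist F i w E) {n k : ℕ}
    (hn : n ∈ E) (h1 : k ^ 12 ≤ n) (h2 : n < (k + 1) ^ 12) (hN : NumEp k) :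
    1 / (k : ℝ) ^ 24 ≤ w n - F.x n ∧ w n - F.x n ≤ 26 / (k : ℝ) ^ 13 := by
  obtain ⟨h3, h4⟩ := H.rangeE k n hn h1 h2
  have hk : 1 ≤ k := le_trans (by norm_num) hN.hk
  obtain ⟨⟨h5, h6⟩, -⟩ := F.xy_slots (H.hE n hn).1 hk h1 h2
  have h7 := hN.e1
  have h8 := hN.e3'
  constructor <;> linarith

end Pool.Agent.MM1
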