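import Pool.Agent.MP_94f265_co.MM1.Scale

namespace Pool.Agent.MM1

/-- squares of side `1/k` -/
theorem squares_tail : ∃ N : ℕ, ∀ n : ℕ, N ≤ n → ∀ a b : ℝ, 0 < a → 0 < b → a ≤ 2 * b →
    b ≤ 2 * a → HasSum (fun j : ℕ => 1 / ((n : ℝ) + j) ^ 2) (a * b) →
    PerfectlyPacks (Set.Ici n) (fun k => box (1 / (k : ℝ)) (1 / (k : ℝ))) (box a b) := by
  obtain ⟨N, hN⟩ := main_general
  refine ⟨N + 1, fun n hn a b ha hb h1 h2 hs => ?_⟩
  refine hN n (by omega) (fun k => 1 / (k : ℝ)) (fun k => 1 / (k : ℝ)) ?_ a b ha hb h1 h2 ?_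
  · intro k hk
    have hk0 : (0 : ℝ) < k := by
      have : 0 < k := by omega
      exact_mod_cast this
    have : 1 / ((k : ℝ) + 1) ≤ 1 / (k : ℝ) := one_div_le_one_div_of_le hk0 (by linarith)
    exact ⟨⟨this, le_rfl⟩, ⟨this, le_rfl⟩⟩
  · convert hs using 2 with j
    push_cast
    rw [div_mul_div_comm, one_mul, sq]

/-- squares of side `1/(2k+1)` -/
theorem odd_squares_tail : ∃ N : ℕ, ∀ n : ℕ, N ≤ n → ∀ a b : ℝ, 0 < a → 0 < b → a ≤ 2 * b →
    b ≤ 2 * a → HasSum (fun j : ℕ => 1 / (2 * ((n : ℝ) + j) + 1) ^ 2) (a * b) →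
    PerfectlyPacks (Set.Ici n)
      (fun k => box (1 / (2 * (k : ℝ) + 1)) (1 / (2 * (k : ℝ) + 1))) (box a b) := by
  obtain ⟨N, hN⟩ := main_general
  refine ⟨N + 1, fun n hn a b ha hb h1 h2 hs => ?_⟩
  have key := hN n (by omega) (fun k => 1 / ((k : ℝ) + 1 / 2)) (fun k => 1 / ((k : ℝ) + 1 / 2)) ?_
    (2 * a) (2 * b) (by positivity) (by positivity) (by linarith) (by linarith) ?_
  · have h := key.scale (1 / 2) (by norm_num)
    have e1 : ∀ k : ℕ, 1 / 2 * (1 / ((k : ℝ) + 1 / 2)) = 1 / (2 * (k : ℝ) + 1) := by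
      intro k
      have : (0 : ℝ) ≤ k := Nat.cast_nonneg k
      field_simp
    have e2 : ∀ a : ℝ, 1 / 2 * (2 * a) = a := fun a => by ring
    simp only [e1, e2] at h
    exact h
  · intro k hk
    have hk0 : (0 : ℝ) < k := by
      have : 0 < k := by omega
      exact_mod_cast this
    have i1 : 1 / ((k : ℝ) + 1) ≤ 1 / ((k : ℝ) + 1 / 2) :=
      one_div_le_one_div_of_le (by linarith) (by linarith)
    have i2 : 1 / ((k : ℝ) + 1 / 2) ≤ 1 / (k : ℝ) := one_div_le_one_div_of_le hk0 (by linarith)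
    exact ⟨⟨i1, i2⟩, ⟨i1, i2⟩⟩
  · have h4 := hs.mul_left 4
    have e3 : 2 * a * (2 * b) = 4 * (a * b) := by ring
    rw [e3]
    have e4 : (fun j : ℕ => (fun k : ℕ => 1 / ((k : ℝ) + 1 / 2)) (n + j) *
        (fun k : ℕ => 1 / ((k : ℝ) + 1 / 2)) (n + j)) =
        fun j : ℕ => 4 * (1 / (2 * ((n : ℝ) + j) + 1) ^ 2) := by
      funext j
      have h5 : (0 : ℝ) ≤ (n : ℝ) + j := by positivity
      push_cast
      field_simp
      ring
    rw [e4]
    exact h4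

end Pool.Agent.MM1
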