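import Mathlib

/-!
# Statement level definitions (independent of the proof)
-/

namespace Pool.Agent.MM1

/-- the closed `a × b` rectangle with lower left corner at the origin -/
def box (a b : ℝ) : Set (ℝ × ℝ) := Set.Icc 0 a ×ˢ Set.Icc 0 b

/-- An orientation-preserving rigid motion of the plane: a rotation by an angle `θ` followed by a
translation by `(u, v)`. -/
def IsRigid (g : ℝ × ℝ → ℝ × ℝ) : Prop :=
  ∃ θ u v : ℝ, ∀ p : ℝ × ℝ,
    g p = (Real.cos θ * p.1 - Real.sin θ * p.2 + u, Real.sin θ * p.1 + Real.cos θ * p.2 + v)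

/-- The sets `S k`, `k ∈ I`, can be perfectly packed into `Q`: each can be moved by an
orientation-preserving rigid motion into `Q`, with pairwise disjoint interiors, and what remains uncovered
has measure zero. -/
def PerfectlyPacks (I : Set ℕ) (S : ℕ → Set (ℝ × ℝ)) (Q : Set (ℝ × ℝ)) : Prop :=
  ∃ g : ℕ → (ℝ × ℝ → ℝ × ℝ), (∀ k ∈ I, IsRigid (g k)) ∧ (∀ k ∈ I, g k '' S k ⊆ Q) ∧
    (∀ k ∈ I, ∀ l ∈ I, k ≠ l → Disjoint (interior (g k '' S k)) (interior (g l '' S l))) ∧
    MeasureTheory.volume (Q \ ⋃ k ∈ I, g k '' S k) = 0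

/-- The rectangle `R_k = 1/k × 1/(k+1)` of the problem. -/
noncomputable def R (k : ℕ) : Set (ℝ × ℝ) := box (1 / (k : ℝ)) (1 / ((k : ℝ) + 1))

end Pool.Agent.MM1
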