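import Pool.Agent.MP_94f265_co.MM1.Bal2
import Pool.Agent.MP_94f265_co.MM1.LenRun

namespace Pool.Agent.MM1

theorem Ule_nonneg (Z : Multiset (ℝ × ℝ × ℕ)) (h : ∀ z ∈ Z, 0 ≤ z.1 ∧ 0 ≤ z.2.1) :
    0 ≤ areaZ Z := by
  unfold areaZ
  apply Multiset.sum_nonneg
  intro x hx
  obtain ⟨z, hz, rfl⟩ := Multiset.mem_map.1 hx
  exact mul_nonneg (h z hz).1 (h z hz).2

theorem Ule_le (Z : Multiset (ℝ × ℝ × ℕ)) (c : ℝ) (h : ∀ z ∈ Z, z.1 ≤ c ∧ 0 ≤ z.2.1) :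
    areaZ Z ≤ c * lenZ Z := by
  unfold areaZ lenZ
  rw [← Multiset.sum_map_mul_left]
  apply Multiset.sum_map_le_sum_map
  intro z hz
  exact mul_le_mul_of_nonneg_right (h z hz).1 (h z hz).2

theorem Ule_good {t : ℕ} (ht : 0 < t) {z : ℝ × ℝ × ℕ} (h : Zgood t z) : 0 ≤ z.1 ∧ 0 ≤ z.2.1 := by
  obtain ⟨-, h1, -, h2, -⟩ := h
  have h3 : 0 ≤ del t := by unfold del; positivity
  have h4 : (0 : ℝ) ≤ 1 / ((t : ℝ) + 1) ^ 12 := by positivity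
  exact ⟨h3.trans h1, h4.trans h2⟩

theorem Ule_pow {x : ℝ} (hx : 0 < x) : x ^ 12 / x ^ ((9 : ℝ) / 5) = x ^ ((51 : ℝ) / 5) := by
  rw [← Real.rpow_natCast, ← Real.rpow_sub hx]
  norm_num

theorem Ule_half {x y : ℝ} (hx : 0 ≤ x) (hy : 0 ≤ y) (h : x ≤ 0.51 * y) :
    x ^ ((51 : ℝ) / 5) ≤ 1 / 100 * y ^ ((51 : ℝ) / 5) := by
  have h1 : x ^ ((51 : ℝ) / 5) ≤ (0.51 * y) ^ ((51 : ℝ) / 5) :=
    Real.rpow_le_rpow hx h (by norm_num)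
  rw [Real.mul_rpow (by norm_num) hy] at h1
  have h2 : (0.51 : ℝ) ^ ((51 : ℝ) / 5) ≤ (0.51 : ℝ) ^ ((10 : ℕ) : ℝ) :=
    Real.rpow_le_rpow_of_exponent_ge (by norm_num) (by norm_num) (by norm_num)
  rw [Real.rpow_natCast] at h2
  have h3 : (0.51 : ℝ) ^ 10 ≤ 1 / 100 := by norm_num
  have h4 : 0 ≤ y ^ ((51 : ℝ) / 5) := Real.rpow_nonneg hy _
  exact h1.trans (mul_le_mul_of_nonneg_right (h2.trans h3) h4)

theorem Ule_run {F : Fam} {f : ℕ → St} {i j : ℕ} (h : Run F f i) (hj : j ≤ i) : Run F f j :=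
  ⟨h.1, fun l h1 h2 => h.2 l h1 (by omega)⟩

/-- PROOF: strong induction on `k`.  `k = k0`: `(f (k0^3)).E = ∅`.  `k > k0`: `h = max k0 ((k+1)/2)` (natural division), `k0 ≤ h < k ≤ 2 h`.
`area_balance` (areas of `Z` are `≥ 0`: `Zgood`), `areaZ (f (h^3)).Z ≤ wmax h · lenZ ≤ (2/h^12) (40/h^(9/5))` (`run_Z`, `lenZ_run`,
`NumEp.e4`), `card (f (k^3)).Z ≤ k^10` (`hQ`).  So `U k ≤ U h + k^24 (80/h^(12+9/5) + 4 k^10/h^24) ≤ U h + 2^24 (80 h^(51/5) + 4 k^10)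
≤ U h + 2^24 · 84 · k^(51/5)`, and `U h ≤ 2^24 · 85 · h^(51/5)` with `h ≤ (k+1)/2 ≤ 0.51 k` or `h = k0` (then `U h = 0`),
`0.51^(51/5) ≤ 1/100`. -/
theorem U_le (F : Fam) (hK : ∀ k, F.k0 ≤ k → NumEp k) (f : ℕ → St) (k : ℕ)
    (hk : F.k0 ≤ k) (hf : Run F f (k ^ 3))
    (hQ : ∀ j, F.k0 ^ 3 ≤ j → j ≤ k ^ 3 → (Multiset.card (f j).Z) ^ 3 ≤ j ^ 10) :
    ((f (k ^ 3)).E.card : ℝ) ≤ 2 ^ 24 * 85 * (k : ℝ) ^ ((51 : ℝ) / 5) := by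
  have hk0 : 100000 ≤ F.k0 := (hK F.k0 le_rfl).hk
  induction k using Nat.strong_induction_on with
  | _ k ih =>
  have hkpos : (0 : ℝ) < k := by
    have : 0 < k := by omega
    exact_mod_cast this
  have hkp : 0 ≤ (k : ℝ) ^ ((51 : ℝ) / 5) := Real.rpow_nonneg hkpos.le _
  have hinit : (f (F.k0 ^ 3)).E.card = 0 := by
    rw [hf.1]
    rfl
  rcases Nat.eq_or_lt_of_le hk with rfl | hlt
  · rw [hinit, Nat.cast_zero]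
    positivity
  obtain ⟨h, hh, hhk, hk2, hcase⟩ : ∃ h, F.k0 ≤ h ∧ h < k ∧ k ≤ 2 * h ∧
      (h = F.k0 ∨ 2 * h ≤ k + 1) := by
    rcases le_total F.k0 ((k + 1) / 2) with h1 | h1
    · exact ⟨(k + 1) / 2, h1, by omega, by omega, Or.inr (by omega)⟩
    · exact ⟨F.k0, le_rfl, hlt, by omega, Or.inl rfl⟩
  have h3 : h ^ 3 ≤ k ^ 3 := Nat.pow_le_pow_left hhk.le 3
  have hh3 : F.k0 ^ 3 ≤ h ^ 3 := Nat.pow_le_pow_left hh 3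
  have hk3 : F.k0 ^ 3 ≤ k ^ 3 := Nat.pow_le_pow_left hk 3
  have hfh : Run F f (h ^ 3) := Ule_run hf h3
  have hlt3 : h ^ 3 < (h + 1) ^ 3 := Nat.pow_lt_pow_left (Nat.lt_succ_self h) (by norm_num)
  have hltk3 : k ^ 3 < (k + 1) ^ 3 := Nat.pow_lt_pow_left (Nat.lt_succ_self k) (by norm_num)
  have hhpos : (0 : ℝ) < h := by
    have : 0 < h := by omega
    exact_mod_cast this
  have hbal := area_balance F hK f h k hh hhk.le hf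
  have hak : 0 ≤ areaZ (f (k ^ 3)).Z := by
    apply Ule_nonneg
    intro z hz
    obtain ⟨-, t, ht0, -, -, hg⟩ := run_Z F hK f (k ^ 3) k hf hk3 le_rfl hltk3 z hz
    exact Ule_good (by omega) hg
  have hah : areaZ (f (h ^ 3)).Z ≤ 2 / (h : ℝ) ^ 12 * (40 / (h : ℝ) ^ ((9 : ℝ) / 5)) := by
    have h5 := lenZ_run F hK f (h ^ 3) h hfh hh3 le_rfl hlt3
      (fun j hj1 hj2 => hQ j hj1 (hj2.trans h3))
    have h6 := Ule_le (f (h ^ 3)).Z (2 / (h : ℝ) ^ 12) (by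
      intro z hz
      obtain ⟨h7, t, ht0, -, -, hg⟩ := run_Z F hK f (h ^ 3) h hfh hh3 le_rfl hlt3 z hz
      exact ⟨h7.trans (hK h hh).e4, (Ule_good (by omega) hg).2⟩)
    refine h6.trans (mul_le_mul_of_nonneg_left h5 ?_)
    positivity
  have hck : (Multiset.card (f (k ^ 3)).Z : ℝ) ≤ (k : ℝ) ^ 10 := by
    have h5 := hQ (k ^ 3) hk3 le_rfl
    have h6 : (k ^ 3) ^ 10 = (k ^ 10) ^ 3 := by ring
    rw [h6] at h5
    have h7 := (Nat.pow_le_pow_iff_left (by norm_num : (3 : ℕ) ≠ 0)).1 h5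
    exact_mod_cast h7
  have hch : (0 : ℝ) ≤ (Multiset.card (f (h ^ 3)).Z : ℝ) := Nat.cast_nonneg _
  obtain ⟨U, hU⟩ : ∃ U : ℝ, U = ((f (k ^ 3)).E.card : ℝ) := ⟨_, rfl⟩
  obtain ⟨V, hV⟩ : ∃ V : ℝ, V = ((f (h ^ 3)).E.card : ℝ) := ⟨_, rfl⟩
  rw [← hU, ← hV] at hbal
  rw [← hU]
  have hsplit : (U - V) / (k : ℝ) ^ 24 ≤
      2 / (h : ℝ) ^ 12 * (40 / (h : ℝ) ^ ((9 : ℝ) / 5)) + 4 * (k : ℝ) ^ 10 / (h : ℝ) ^ 24 := by
    have h5 : 4 * ((Multiset.card (f (k ^ 3)).Z : ℝ) - Multiset.card (f (h ^ 3)).Z) /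
        (h : ℝ) ^ 24 ≤ 4 * (k : ℝ) ^ 10 / (h : ℝ) ^ 24 := by
      apply div_le_div_of_nonneg_right _ (by positivity)
      linarith
    linarith
  rw [div_le_iff₀ (by positivity)] at hsplit
  have hk24 : (k : ℝ) ^ 24 ≤ 2 ^ 24 * (h : ℝ) ^ 24 := by
    have h5 : (k : ℝ) ≤ 2 * h := by exact_mod_cast hk2
    calc (k : ℝ) ^ 24 ≤ (2 * (h : ℝ)) ^ 24 := pow_le_pow_left₀ hkpos.le h5 24
      _ = _ := by ring
  have hhr : 0 < (h : ℝ) ^ ((9 : ℝ) / 5) := Real.rpow_pos_of_pos hhpos _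
  have hUV : U - V ≤ 2 ^ 24 * (80 * (h : ℝ) ^ ((51 : ℝ) / 5) + 4 * (k : ℝ) ^ 10) := by
    refine hsplit.trans ?_
    have h5 : (2 / (h : ℝ) ^ 12 * (40 / (h : ℝ) ^ ((9 : ℝ) / 5)) +
        4 * (k : ℝ) ^ 10 / (h : ℝ) ^ 24) * (k : ℝ) ^ 24 ≤
        (2 / (h : ℝ) ^ 12 * (40 / (h : ℝ) ^ ((9 : ℝ) / 5)) +
        4 * (k : ℝ) ^ 10 / (h : ℝ) ^ 24) * (2 ^ 24 * (h : ℝ) ^ 24) := by
      apply mul_le_mul_of_nonneg_left hk24
      positivity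
    refine h5.trans (le_of_eq ?_)
    rw [← Ule_pow hhpos]
    field_simp
    ring
  have hk10 : (k : ℝ) ^ 10 ≤ (k : ℝ) ^ ((51 : ℝ) / 5) := by
    rw [← Real.rpow_natCast]
    apply Real.rpow_le_rpow_of_exponent_le
    · have : 1 ≤ k := by omega
      exact_mod_cast this
    · norm_num
  have hhk' : (h : ℝ) ^ ((51 : ℝ) / 5) ≤ (k : ℝ) ^ ((51 : ℝ) / 5) := by
    apply Real.rpow_le_rpow hhpos.le _ (by norm_num)
    exact_mod_cast hhk.le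
  have hVle : V ≤ 2 ^ 24 * ((k : ℝ) ^ ((51 : ℝ) / 5)) := by
    rcases hcase with rfl | hcase
    · rw [hV, hinit, Nat.cast_zero]
      positivity
    · have h5 := ih h hhk hh hfh (fun j hj1 hj2 => hQ j hj1 (hj2.trans h3))
      rw [← hV] at h5
      have h6 : (h : ℝ) ≤ 0.51 * k := by
        have h7 : 2 * (h : ℝ) ≤ k + 1 := by exact_mod_cast hcase
        have h8 : (100000 : ℝ) ≤ k := by
          have : 100000 ≤ k := by omega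
          exact_mod_cast this
        linarith
      have h7 := Ule_half hhpos.le hkpos.le h6
      calc V ≤ 2 ^ 24 * 85 * (h : ℝ) ^ ((51 : ℝ) / 5) := h5
        _ ≤ 2 ^ 24 * 85 * (1 / 100 * (k : ℝ) ^ ((51 : ℝ) / 5)) :=
            mul_le_mul_of_nonneg_left h7 (by norm_num)
        _ ≤ _ := by
            have : (0 : ℝ) ≤ 2 ^ 24 * (k : ℝ) ^ ((51 : ℝ) / 5) := by positivity
            linarith
  have hfin : 2 ^ 24 * (80 * (h : ℝ) ^ ((51 : ℝ) / 5) + 4 * (k : ℝ) ^ 10) ≤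
      2 ^ 24 * 84 * (k : ℝ) ^ ((51 : ℝ) / 5) := by
    have : 80 * (h : ℝ) ^ ((51 : ℝ) / 5) + 4 * (k : ℝ) ^ 10 ≤
        84 * (k : ℝ) ^ ((51 : ℝ) / 5) := by linarith
    calc _ ≤ 2 ^ 24 * (84 * (k : ℝ) ^ ((51 : ℝ) / 5)) :=
          mul_le_mul_of_nonneg_left this (by norm_num)
      _ = _ := by ring
  calc U ≤ V + 2 ^ 24 * 84 * (k : ℝ) ^ ((51 : ℝ) / 5) := by linarith
    _ ≤ 2 ^ 24 * ((k : ℝ) ^ ((51 : ℝ) / 5)) + 2 ^ 24 * 84 * (k : ℝ) ^ ((51 : ℝ) / 5) := by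
        linarith
    _ = _ := by ring

end Pool.Agent.MM1
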