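import Pool.Agent.MP_94f265_co.MM1.RunE

namespace Pool.Agent.MM1

/-- Invariant of the irregular rectangles after the ends phase of super-epoch `k`. -/
def ZInv (F : Fam) (k : ℕ) (Z : Multiset (ℝ × ℝ × ℕ)) : Prop :=
  ∀ z ∈ Z, ∃ t, F.k0 ≤ t ∧ t ≤ k ∧ Zgood t z ∧ (t = k ∨ z.1 < Th (k ^ 3))

theorem ZInv_cube {a b i : ℕ} (h1 : a ^ 3 ≤ i) (h2 : i < (b + 1) ^ 3) : a ≤ b := by
  by_contra hlt
  push Not at hlt
  have := Nat.pow_le_pow_left (show b + 1 ≤ a from hlt) 3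
  omega

theorem ZInv_mid_aux (F : Fam) (f : ℕ → St) (i k : ℕ) (m : St) (hf : Run F f i)
    (hi : F.k0 ^ 3 ≤ i) (h1 : k ^ 3 ≤ i) (h2 : i < (k + 1) ^ 3) (hm : Mid F k i (f i) m)
    (hP : ∀ k, k ^ 3 < i → i ≤ (k + 1) ^ 3 → ZInv F k (f i).Z) :
    ZInv F k m.Z := by
  have hk0 : F.k0 ≤ k := ZInv_cube hi h2
  by_cases hik : i = k ^ 3
  · obtain ⟨Zk, Zi, Ze, e1, e2, -, e4, e5⟩ := (hm.1 hik).hZ
    intro z hz
    rw [e2, Multiset.mem_add] at hz
    rcases hz with hz | hz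
    · have hzs : z ∈ (f i).Z := by
        rw [e1, Multiset.mem_add]; exact Or.inl hz
      by_cases hi0 : i = F.k0 ^ 3
      · rw [hi0, hf.1] at hzs
        exact absurd hzs (Multiset.notMem_zero z)
      · have hkk : F.k0 ≠ k := by
          intro h; apply hi0; rw [hik, h]
        have hk1 : 1 ≤ k := by omega
        have h3 : (k - 1) ^ 3 < i := by
          rw [hik]
          exact Nat.pow_lt_pow_left (by omega) (by norm_num)
        have h4 : i ≤ (k - 1 + 1) ^ 3 := by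
          rw [Nat.sub_add_cancel hk1, hik]
        obtain ⟨t, t1, t2, t3, -⟩ := hP (k - 1) h3 h4 z hzs
        exact ⟨t, t1, by omega, t3, Or.inr (e4 z hz)⟩
    · exact ⟨k, hk0, le_rfl, e5 z hz, Or.inl rfl⟩
  · rw [hm.2 hik]
    exact hP k (lt_of_le_of_ne h1 (Ne.symm hik)) h2.le

theorem ZInv_run_aux (F : Fam) (f : ℕ → St) (i : ℕ) (hi : F.k0 ^ 3 ≤ i) (hf : Run F f i) :
    ∀ k, k ^ 3 < i → i ≤ (k + 1) ^ 3 → ZInv F k (f i).Z := by
  induction i, hi using Nat.le_induction with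
  | base =>
    intro k _ _ z hz
    rw [hf.1] at hz
    exact absurd hz (Multiset.notMem_zero z)
  | succ i hi ih =>
    have hf' : Run F f i := ⟨hf.1, fun j hj hji => hf.2 j hj (by omega)⟩
    have hP := ih hf'
    intro k h1 h2
    obtain ⟨k', m, h1', h2', hm, hr⟩ := hf.2 i hi (Nat.lt_succ_self i)
    have hkk : k' = k := le_antisymm (ZInv_cube h1' (by omega)) (ZInv_cube (show k ^ 3 ≤ i by omega) h2')
    subst hkk
    have hM := ZInv_mid_aux F f i k' m hf' hi h1' h2' hm hP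
    obtain ⟨Zn, e1, e2, -⟩ := hr.hZ
    intro z hz
    rw [e1, Multiset.mem_add] at hz
    rcases hz with hz | hz
    · exact hM z hz
    · exact ⟨k', ZInv_cube hi h2', le_rfl, e2 z hz, Or.inl rfl⟩

/-- After the optional ends phase and inside super-epoch `k` the invariant `ZInv F k` holds; before the ends phase of
super-epoch `k + 1` it still holds with `k`.
PROOF: show by induction on `i` (from `k0^3`): (a) if `k^3 < i ≤ (k+1)^3` then `ZInv F k (f i).Z`; the start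
`i = k0^3`: `(f i).Z = 0`.  (b) for the state `m` after the optional ends phase of step `i`, `k^3 ≤ i < (k+1)^3`:
if `i = k^3`: `m.Z = Zk + Ze`, `z ∈ Zk ⊆ (f i).Z` has `z.1 < Th (k^3)` and some tag `t ≤ k - 1` by (a) for `k - 1`
(or `(f i).Z = 0` if `i = k0^3`), `z ∈ Ze` has `Zgood k z`; if `i > k^3`: `m = f i` and (a).
(c) `(f (i+1)).Z = m.Z + Zn` with `Zgood k z` for `z ∈ Zn`: (a) for `i + 1`, same `k`
(in `Step` the number `k` is determined by `k^3 ≤ i < (k+1)^3`). -/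
theorem zinv_run (F : Fam) (f : ℕ → St) (i k : ℕ) (hf : Run F f i) (hi : F.k0 ^ 3 ≤ i)
    (h1 : k ^ 3 < i) (h2 : i ≤ (k + 1) ^ 3) : ZInv F k (f i).Z :=
  ZInv_run_aux F f i hi hf k h1 h2

theorem zinv_mid (F : Fam) (f : ℕ → St) (i k : ℕ) (m : St) (hf : Run F f i)
    (hi : F.k0 ^ 3 ≤ i) (h1 : k ^ 3 ≤ i) (h2 : i < (k + 1) ^ 3) (hm : Mid F k i (f i) m) :
    ZInv F k m.Z :=
  ZInv_mid_aux F f i k m hf hi h1 h2 hm (ZInv_run_aux F f i hi hf)

end Pool.Agent.MM1
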